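import Pool.Agent.H88.TIE.Stm

/-!
# Conditional mutual information, near functions, events
-/

set_option autoImplicit false

namespace Pool.TIE

open Finset Real
open Pool.Agent.H49.Ent Pool.Agent.H32.Dense Pool.STK Pool.BFL Pool.MIC

variable {Ω A A' B B' C C' D : Type} [Fintype Ω] {p : Ω → ℝ}

/-- Conditional mutual information. -/
noncomputable def Ic (p : Ω → ℝ) (a : Ω → A) (b : Ω → B) (c : Ω → C) : ℝ :=
  CH p a c - CH p a (fun ω => (b ω, c ω))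

theorem Ic_nonneg (hp : ∀ ω, 0 ≤ p ω) (a : Ω → A) (b : Ω → B) (c : Ω → C) : 0 ≤ Ic p a b c := by
  unfold Ic
  have h := CH_mono_cond hp (X := a) (W' := fun ω => (b ω, c ω)) (W := c)
    (fun _ _ _ _ h => (Prod.ext_iff.1 h).2)
  linarith

theorem Ic_symm (hp : ∀ ω, 0 ≤ p ω) (a : Ω → A) (b : Ω → B) (c : Ω → C) :
    Ic p a b c = Ic p b a c := by
  unfold Ic
  have h1 := CH_bayes hp a b c
  linarith

theorem Ic_congr (hp : ∀ ω, 0 ≤ p ω) {a : Ω → A} {b : Ω → B} {c : Ω → C} {c' : Ω → C'}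
    (h1 : Det p c c') (h2 : Det p c' c) : Ic p a b c = Ic p a b c' := by
  unfold Ic
  have e1 : CH p a c = CH p a c' := CH_congr hp (fun _ _ _ _ h => (Prod.ext_iff.1 h).1)
    (fun _ _ _ _ h => (Prod.ext_iff.1 h).1) h1 h2
  have e2 : CH p a (fun ω => (b ω, c ω)) = CH p a (fun ω => (b ω, c' ω)) :=
    CH_congr hp (fun _ _ _ _ h => (Prod.ext_iff.1 h).1)
      (fun _ _ _ _ h => (Prod.ext_iff.1 h).1)
      (fun ω ω' x y h => Prod.ext (Prod.ext_iff.1 h).1 (h1 ω ω' x y (Prod.ext_iff.1 h).2))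
      (fun ω ω' x y h => Prod.ext (Prod.ext_iff.1 h).1 (h2 ω ω' x y (Prod.ext_iff.1 h).2))
  rw [e1, e2]

theorem Ic_mono_right (hp : ∀ ω, 0 ≤ p ω) {a : Ω → A} {b : Ω → B} {b' : Ω → B'} {c : Ω → C}
    (h : Det p (fun ω => (b ω, c ω)) b') : Ic p a b' c ≤ Ic p a b c := by
  unfold Ic
  have h1 : CH p a (fun ω => (b ω, c ω)) ≤ CH p a (fun ω => (b' ω, c ω)) :=
    CH_mono_cond hp (fun ω ω' x y e => Prod.ext (h ω ω' x y e) (Prod.ext_iff.1 e).2)
  linarith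

theorem Ic_mono_left (hp : ∀ ω, 0 ≤ p ω) {a : Ω → A} {a' : Ω → A'} {b : Ω → B} {c : Ω → C}
    (h : Det p (fun ω => (a ω, c ω)) a') : Ic p a' b c ≤ Ic p a b c := by
  rw [Ic_symm hp a' b, Ic_symm hp a b]
  exact Ic_mono_right hp h

/-- Chain rule. -/
theorem Ic_chain (hp : ∀ ω, 0 ≤ p ω) (a : Ω → A) (b : Ω → B) (b' : Ω → B') (c : Ω → C) :
    Ic p a (fun ω => (b ω, b' ω)) c = Ic p a b c + Ic p a b' (fun ω => (b ω, c ω)) := by
  unfold Ic
  have h : CH p a (fun ω => ((b ω, b' ω), c ω)) = CH p a (fun ω => (b' ω, (b ω, c ω))) := by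
    refine CH_congr hp ?_ ?_ ?_ ?_ <;> intro ω ω' _ _ h <;>
      simp only [Prod.mk.injEq] at h ⊢ <;> tauto
  linarith

theorem Ic_chain' (hp : ∀ ω, 0 ≤ p ω) (a : Ω → A) (b : Ω → B) (b' : Ω → B') (c : Ω → C) :
    Ic p (fun ω => (b ω, b' ω)) a c = Ic p b a c + Ic p b' a (fun ω => (b ω, c ω)) := by
  rw [Ic_symm hp _ a, Ic_chain hp, Ic_symm hp a b, Ic_symm hp a b']

/-- A part of a variable in the condition. -/
theorem Ic_cond_le (hp : ∀ ω, 0 ≤ p ω) (a : Ω → A) (b : Ω → B) (d : Ω → D) (c : Ω → C) :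
    Ic p a b (fun ω => (d ω, c ω)) ≤ Ic p a (fun ω => (d ω, b ω)) c := by
  rw [Ic_chain hp]
  linarith [Ic_nonneg hp a d c]

theorem Ic_cond_le' (hp : ∀ ω, 0 ≤ p ω) (a : Ω → A) (b : Ω → B) (d : Ω → D) (c : Ω → C) :
    Ic p a b (fun ω => (d ω, c ω)) ≤ Ic p (fun ω => (d ω, a ω)) b c := by
  rw [Ic_chain' hp]
  linarith [Ic_nonneg hp d b c]

theorem Ic_le_left (hp : ∀ ω, 0 ≤ p ω) (a : Ω → A) (b : Ω → B) (c : Ω → C) :
    Ic p a b c ≤ CH p a c := by
  unfold Ic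
  linarith [CH_nonneg hp a (fun ω => (b ω, c ω))]

theorem Ic_le_right (hp : ∀ ω, 0 ≤ p ω) (a : Ω → A) (b : Ω → B) (c : Ω → C) :
    Ic p a b c ≤ CH p b c := by
  rw [Ic_symm hp]
  exact Ic_le_left hp b a c

/-- A near function of `b`. -/
theorem Ic_near_right (hp : ∀ ω, 0 ≤ p ω) (a : Ω → A) (b : Ω → B) (b' : Ω → B') (c : Ω → C) :
    Ic p a b' c ≤ Ic p a b c + CH p b' (fun ω => (b ω, c ω)) := by
  have h1 : Ic p a b' c ≤ Ic p a (fun ω => (b ω, b' ω)) c :=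
    Ic_mono_right hp (fun _ _ _ _ h => (Prod.ext_iff.1 (Prod.ext_iff.1 h).1).2)
  rw [Ic_chain hp] at h1
  linarith [Ic_le_right hp a b' (fun ω => (b ω, c ω))]

theorem Ic_near_left (hp : ∀ ω, 0 ≤ p ω) (a : Ω → A) (a' : Ω → A') (b : Ω → B) (c : Ω → C) :
    Ic p a' b c ≤ Ic p a b c + CH p a' (fun ω => (a ω, c ω)) := by
  rw [Ic_symm hp a' b, Ic_symm hp a b]
  exact Ic_near_right hp b a a' c

/-- Removing a part of the condition with few bits. -/
theorem Ic_drop (hp : ∀ ω, 0 ≤ p ω) (a : Ω → A) (b : Ω → B) (d : Ω → D) (c : Ω → C) :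
    Ic p a b c ≤ Ic p a b (fun ω => (d ω, c ω)) + CH p d c := by
  have h1 : Ic p a b c ≤ Ic p a (fun ω => (d ω, b ω)) c :=
    Ic_mono_right hp (fun _ _ _ _ h => (Prod.ext_iff.1 (Prod.ext_iff.1 h).1).2)
  rw [Ic_chain hp] at h1
  linarith [Ic_le_right hp a d c]

/-- A further condition which is almost independent of everything. -/
theorem Ic_indep (hp : ∀ ω, 0 ≤ p ω) (a : Ω → A) (b : Ω → B) (d : Ω → D) (c : Ω → C) :
    Ic p a b (fun ω => (d ω, c ω)) ≤ Ic p a b c + Ic p d (fun ω => (a ω, b ω)) c := by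
  have h1 := Ic_cond_le hp a b d c
  have h2 : Ic p a (fun ω => (d ω, b ω)) c ≤ Ic p a (fun ω => (b ω, d ω)) c :=
    Ic_mono_right hp (fun ω ω' _ _ h => by
      simp only [Prod.mk.injEq] at h ⊢
      tauto)
  rw [Ic_chain hp a b d c] at h2
  have h3 : Ic p a d (fun ω => (b ω, c ω)) ≤ Ic p (fun ω => (b ω, a ω)) d c :=
    Ic_cond_le' hp a d b c
  have h4 : Ic p (fun ω => (b ω, a ω)) d c ≤ Ic p (fun ω => (a ω, b ω)) d c :=
    Ic_mono_left hp (fun ω ω' _ _ h => by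
      simp only [Prod.mk.injEq] at h ⊢
      tauto)
  have h5 := Ic_symm hp (fun ω => (b ω, a ω)) d c
  have h6 := Ic_symm hp (fun ω => (a ω, b ω)) d c
  linarith

/-- A further condition, entropies. -/
theorem CH_indep (hp : ∀ ω, 0 ≤ p ω) (a : Ω → A) (d : Ω → D) (c : Ω → C) :
    CH p a c ≤ CH p a (fun ω => (d ω, c ω)) + Ic p d a c := by
  rw [Ic_symm hp]
  unfold Ic
  linarith

/-- A further condition with few bits. -/
theorem CH_few (hp : ∀ ω, 0 ≤ p ω) (a : Ω → A) (d : Ω → D) (c : Ω → C) :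
    CH p a c ≤ CH p a (fun ω => (d ω, c ω)) + CH p d c := by
  have h1 := CH_indep hp a d c
  linarith [Ic_le_left hp d a c]

/-- **Mutual information on an event.** -/
theorem Ic_event (hp : IsLaw p) (a : Ω → A) (b : Ω → B) (c : Ω → C) (E : Ω → Prop)
    (hE : 0 < Pb p E) :
    Ic (cond p E True) a b c ≤ (Ic p a b c + Real.log 2) / Pb p E := by
  have h1 := mi_event hp a c (fun ω => (b ω, c ω)) (fun _ _ _ _ h => (Prod.ext_iff.1 h).2)
    (θ := Ic p a b c) (by unfold Ic; linarith) E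
  rw [le_div_iff₀ hE]
  unfold Ic at h1 ⊢
  linarith

/-- Entropy on an event. -/
theorem CH_event (hp : IsLaw p) (a : Ω → A) (c : Ω → C) (E : Ω → Prop) (hE : 0 < Pb p E) :
    CH (cond p E True) a c ≤ CH p a c / Pb p E := by
  rw [le_div_iff₀ hE, mul_comm]
  exact CH_ev_le hp.nonneg a c E

/-- **Fullness on an event.** -/
theorem full_event (hp : IsLaw p) (a : Ω → A) (c : Ω → C) (E : Ω → Prop) (hE : 0 < Pb p E)
    {M θ : ℝ} (hM : ∀ q : Ω → ℝ, IsLaw q → (∀ ω, 0 < q ω → 0 < p ω) → CH q a c ≤ M)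
    (h : M - θ ≤ CH p a c) :
    M - (θ + Real.log 2) / Pb p E ≤ CH (cond p E True) a c := by
  have h1 := CH_two hp.nonneg a c E
  have h2 : CH p a c ≤ CH p a (fun ω => (c ω, E ω)) + Real.log 2 := by
    have a1 := CH_few hp.nonneg a E c
    have a2 := CH_swc hp.nonneg a E c
    have a3 := CH_prop_le hp.nonneg hp.sum_one E c
    linarith
  have h3 := Pb_not hp.sum_one E
  have h4 : Pb p (fun ω => ¬ E ω) * CH (cond p E False) a c ≤ Pb p (fun ω => ¬ E ω) * M := by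
    rcases (Pb_nonneg hp.nonneg (fun ω => ¬ E ω)).eq_or_lt with h5 | h5
    · rw [← h5, zero_mul, zero_mul]
    · refine mul_le_mul_of_nonneg_left (hM _ ⟨cond_nonneg hp.nonneg E False,
        sum_cond p E (by rw [law_False]; exact h5.ne')⟩ fun ω hω =>
          ((cond_pos_iff hp.nonneg E False ω).1 hω).1) h5.le
  have h5 : Pb p E * (M - (θ + Real.log 2) / Pb p E) = Pb p E * M - (θ + Real.log 2) := by
    field_simp
  have h6 : Pb p (fun ω => ¬ E ω) * M = M - Pb p E * M := by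
    rw [show Pb p (fun ω => ¬ E ω) = 1 - Pb p E by linarith]
    ring
  refine le_of_mul_le_mul_left ?_ hE
  rw [h5]
  linarith

/-! ### Near functions -/

theorem dg_coarse {r h : ℕ} (hr : r ≤ h) (x : ℝ) : dg r x = dg h x / 2 ^ (h - r) := by
  unfold dg
  have h1 : (2 : ℝ) ^ h = 2 ^ r * ((2 ^ (h - r) : ℕ) : ℝ) := by
    push_cast
    rw [← pow_add, Nat.add_sub_cancel' hr]
  have h2 : ((2 : ℤ) ^ (h - r)) = ((2 ^ (h - r) : ℕ) : ℤ) := by push_cast; rfl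
  rw [h2, ← Int.floor_div_natCast]
  congr 1
  rw [h1]
  have h3 : ((2 ^ (h - r) : ℕ) : ℝ) ≠ 0 := by positivity
  field_simp

theorem dg_near {r : ℕ} {x y c : ℝ} (h : |x - y| ≤ c / 2 ^ r) :
    |((dg r x - dg r y : ℤ) : ℝ)| ≤ c + 1 := by
  have h2 : (0 : ℝ) < 2 ^ r := by positivity
  have h1 : |2 ^ r * x - 2 ^ r * y| ≤ c := by
    rw [← mul_sub, abs_mul, abs_of_pos h2]
    rw [le_div_iff₀ h2] at h
    linarith
  unfold dg
  push_cast
  have a1 := Int.floor_le ((2 : ℝ) ^ r * x)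
  have a2 := Int.lt_floor_add_one ((2 : ℝ) ^ r * x)
  have a3 := Int.floor_le ((2 : ℝ) ^ r * y)
  have a4 := Int.lt_floor_add_one ((2 : ℝ) ^ r * y)
  rw [abs_le] at h1 ⊢
  constructor <;> linarith

theorem dg_le (r : ℕ) (x : ℝ) : |x - (dg r x : ℝ) / 2 ^ r| ≤ 1 / 2 ^ r := by
  have h2 : (0 : ℝ) < 2 ^ r := by positivity
  unfold dg
  have a1 := Int.floor_le ((2 : ℝ) ^ r * x)
  have a2 := Int.lt_floor_add_one ((2 : ℝ) ^ r * x)
  have e : x = (2 ^ r * x) / 2 ^ r := by field_simp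
  rw [e, ← sub_div, abs_div, abs_of_pos h2]
  refine div_le_div_of_nonneg_right ?_ h2.le
  rw [← e, abs_le]
  constructor <;> linarith

/-- An integer variable with few values given the context. -/
theorem CH_int (hp : IsLaw p) (n : Ω → ℤ) (b : Ω → B) {c : ℝ}
    (h : ∀ ω ω', 0 < p ω → 0 < p ω' → b ω = b ω' → |((n ω - n ω' : ℤ) : ℝ)| ≤ c) :
    CH p n b ≤ Real.log (2 * c + 1) := by
  have h1 := CH_le_int hp.nonneg hp.sum_one n b (fun _ => c) h
  rwa [Ex_const hp.sum_one] at h1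

/-- The digits of a number which is near a function of the context. -/
theorem CH_near (hp : IsLaw p) (x f : Ω → ℝ) (b : Ω → B) (hf : Det p b f) {c : ℝ} (r : ℕ)
    (hx : ∀ ω, 0 < p ω → |x ω - f ω| ≤ c / 2 ^ r) :
    CH p (fun ω => dg r (x ω)) b ≤ Real.log (4 * c + 3) := by
  have h1 := CH_int hp (fun ω => dg r (x ω)) b (c := 2 * c + 1) (fun ω ω' h h' e => by
    refine dg_near ?_
    have e1 := hx ω h
    have e2 := hx ω' h'
    rw [hf ω ω' h h' e] at e1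
    have e3 : 2 * c / 2 ^ r = c / 2 ^ r + c / 2 ^ r := by ring
    rw [e3]
    rw [abs_le] at e1 e2 ⊢
    constructor <;> linarith)
  refine h1.trans (le_of_eq ?_)
  congr 1
  ring

theorem log_lin {x : ℝ} (hx : 0 ≤ x) : Real.log (x + 1) ≤ x := by
  have := Real.log_le_sub_one_of_pos (show (0 : ℝ) < x + 1 by linarith)
  linarith

/-- As `CH_near`, with a linear bound. -/
theorem CH_nearL (hp : IsLaw p) (x f : Ω → ℝ) (b : Ω → B) (hf : Det p b f) {c : ℝ} (hc : 0 ≤ c)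
    (r : ℕ) (hx : ∀ ω, 0 < p ω → |x ω - f ω| ≤ c / 2 ^ r) :
    CH p (fun ω => dg r (x ω)) b ≤ 4 * c + 2 := by
  refine (CH_near hp x f b hf r hx).trans ?_
  have := log_lin (x := 4 * c + 2) (by linarith)
  rwa [show 4 * c + 2 + 1 = 4 * c + 3 by ring] at this

/-- Digits in an interval. -/
theorem CH_lt (hp : IsLaw p) (n : Ω → ℤ) (b : Ω → B) {X : ℕ}
    (h : ∀ ω, 0 < p ω → 0 ≤ n ω ∧ n ω < 2 ^ X) : CH p n b ≤ X * Real.log 2 := by
  classical
  have h1 := CH_le_card hp.nonneg hp.sum_one n b (fun _ => Finset.Ico (0 : ℤ) (2 ^ X))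
    (fun ω hω => Finset.mem_Ico.2 (h ω hω))
  refine h1.trans (le_of_eq ?_)
  rw [Int.card_Ico, sub_zero]
  have e : (((2 : ℤ) ^ X).toNat : ℝ) = 2 ^ X := by
    have e1 : ((2 : ℤ) ^ X).toNat = 2 ^ X := by
      have : ((2 : ℤ) ^ X) = ((2 ^ X : ℕ) : ℤ) := by push_cast; rfl
      rw [this, Int.toNat_natCast]
    rw [e1]
    push_cast
    rfl
  rw [e, Ex_const hp.sum_one, Real.log_pow]

theorem CH_lt_vec (hp : IsLaw p) {k : ℕ} (n : Ω → Fin k → ℤ) (b : Ω → B) {X : ℕ}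
    (h : ∀ ω, 0 < p ω → ∀ i, 0 ≤ n ω i ∧ n ω i < 2 ^ X) : CH p n b ≤ k * (X * Real.log 2) := by
  classical
  have h1 := CH_le_card hp.nonneg hp.sum_one n b
    (fun _ => Fintype.piFinset fun _ : Fin k => Finset.Ico (0 : ℤ) (2 ^ X))
    (fun ω hω => Fintype.mem_piFinset.2 fun i => Finset.mem_Ico.2 (h ω hω i))
  refine h1.trans (le_of_eq ?_)
  rw [Fintype.card_piFinset, Finset.prod_const, Int.card_Ico, sub_zero, Finset.card_univ,
    Fintype.card_fin]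
  have e1 : ((2 : ℤ) ^ X).toNat = 2 ^ X := by
    have : ((2 : ℤ) ^ X) = ((2 ^ X : ℕ) : ℤ) := by push_cast; rfl
    rw [this, Int.toNat_natCast]
  rw [e1]
  push_cast
  rw [Ex_const hp.sum_one, Real.log_pow, Real.log_pow]

/-- The first digits of a full number are full. -/
theorem full_fst (hp : IsLaw p) (n : Ω → ℤ) (b : Ω → B) {X r : ℕ} (hr : r ≤ X)
    {θ : ℝ} (h : X * Real.log 2 - θ ≤ CH p n b) :
    r * Real.log 2 - θ ≤ CH p (fun ω => n ω / 2 ^ (X - r)) b := by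
  have h1 := CH_le_add hp.nonneg n (fun ω => n ω / 2 ^ (X - r)) b
  have h2 : CH p n (fun ω => (n ω / 2 ^ (X - r), b ω)) ≤ ((X - r : ℕ) : ℝ) * Real.log 2 := by
    have h3 : CH p n (fun ω => (n ω / 2 ^ (X - r), b ω)) ≤
        CH p (fun ω => n ω % 2 ^ (X - r)) (fun ω => (n ω / 2 ^ (X - r), b ω)) := by
      refine CH_mono_left hp.nonneg fun ω ω' _ _ e => ?_
      simp only [Prod.mk.injEq] at e
      rw [← Int.emod_add_mul_ediv (n ω) (2 ^ (X - r)), ← Int.emod_add_mul_ediv (n ω') (2 ^ (X - r)),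
        e.1, e.2.1]
    refine h3.trans (CH_lt hp _ _ fun ω _ => ?_)
    exact ⟨Int.emod_nonneg _ (by positivity), Int.emod_lt_of_pos _ (by positivity)⟩
  rw [Nat.cast_sub hr] at h2
  nlinarith

theorem full_fst_vec (hp : IsLaw p) {k : ℕ} (n : Ω → Fin k → ℤ) (b : Ω → B) {X r : ℕ}
    (hr : r ≤ X) {θ : ℝ} (h : k * (X * Real.log 2) - θ ≤ CH p n b) :
    k * (r * Real.log 2) - θ ≤ CH p (fun ω i => n ω i / 2 ^ (X - r)) b := by
  have h1 := CH_le_add hp.nonneg n (fun ω i => n ω i / 2 ^ (X - r)) b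
  have h2 : CH p n (fun ω => ((fun i => n ω i / 2 ^ (X - r)), b ω)) ≤
      k * (((X - r : ℕ) : ℝ) * Real.log 2) := by
    have h3 : CH p n (fun ω => ((fun i => n ω i / 2 ^ (X - r)), b ω)) ≤
        CH p (fun ω i => n ω i % 2 ^ (X - r)) (fun ω => ((fun i => n ω i / 2 ^ (X - r)), b ω)) := by
      refine CH_mono_left hp.nonneg fun ω ω' _ _ e => ?_
      simp only [Prod.mk.injEq] at e
      funext i
      have e1 := congrFun e.1 i
      have e2 := congrFun e.2.1 i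
      rw [← Int.emod_add_mul_ediv (n ω i) (2 ^ (X - r)),
        ← Int.emod_add_mul_ediv (n ω' i) (2 ^ (X - r)), e1, e2]
    refine h3.trans (CH_lt_vec hp _ _ fun ω _ i => ?_)
    exact ⟨Int.emod_nonneg _ (by positivity), Int.emod_lt_of_pos _ (by positivity)⟩
  rw [Nat.cast_sub hr] at h2
  nlinarith

end Pool.TIE
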