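import Pool.Agent.H88.TIE.MxB

/-!
# Gluing with a visible polynomial: the estimates

`bz`: the point with the heights zero. `lh`: the line side of the target in the chart of the system.
`ex_leaf`, `ex_pair`: the facts at the exact time. `fin_pt`: the estimate at one time of the cell.
-/

set_option autoImplicit false

namespace Pool.GLV

open Finset MvPolynomial
open Pool.Agent.H49.Ent Pool.Agent.H32.Dense Pool.STK Pool.KA Pool.STAT Pool.STAT.Glu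
open Pool.STAT.CLO
open Pool.TIE (mxs)

/-! ### The point with the heights zero -/

/-- The point with the heights zero at the time `t`. -/
noncomputable def bz (g : ℕ → ℕ) (S : ℕ → PN) (t : ℝ) (l : ℕ) : ℝ :=
  eval (fun k => if k = 0 then (2 : ℝ) ^ g 0 * (t - eval (fun _ => 0) (S 0)) else 0) (nuc g S l)

theorem bz_nc {g : ℕ → ℕ} {S : ℕ → PN} (hS : TriN S) (t : ℝ) : nc g S (bz g S t) =
    fun k => if k = 0 then (2 : ℝ) ^ g 0 * (t - eval (fun _ => 0) (S 0)) else 0 :=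
  nc_nuc hS g _

theorem bz_zero {g : ℕ → ℕ} {S : ℕ → PN} (hS : TriN S) (t : ℝ) : bz g S t 0 = t := by
  have h2 := congrFun (bz_nc (g := g) hS t) 0
  unfold nc at h2
  rw [if_pos rfl] at h2
  have h4 : eval (bz g S t) (S 0) = eval (fun _ => (0 : ℝ)) (S 0) :=
    Pool.SYS35.eval_congr (hS 0) fun i hi => absurd hi (Nat.not_lt_zero _)
  rw [h4] at h2
  have h5 : (0 : ℝ) < 2 ^ g 0 := by positivity
  have h6 := mul_left_cancel₀ h5.ne' h2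
  linarith

theorem bz_pos {g : ℕ → ℕ} {S : ℕ → PN} (hS : TriN S) (t : ℝ) {l : ℕ} (hl : 1 ≤ l) :
    bz g S t l - eval (bz g S t) (S l) = 0 := by
  have h2 := congrFun (bz_nc (g := g) hS t) l
  unfold nc at h2
  rw [if_neg (by omega)] at h2
  have h5 : (0 : ℝ) < 2 ^ g l := by positivity
  rcases mul_eq_zero.1 h2 with h | h
  · exact absurd h h5.ne'
  · exact h

/-- It is in all boxes. -/
theorem bz_mem {g : ℕ → ℕ} {S : ℕ → PN} (hS : TriN S) (t : ℝ) {ρ : ℝ} (hρ : 0 ≤ ρ) (m : ℕ) :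
    Bt ρ (Et t) g S m (bz g S t) :=
  ⟨bz_zero hS t, fun l l1 _ => by
    rw [bz_pos hS t l1, abs_zero]
    positivity⟩

/-- The point with the heights zero, polynomials in the time. -/
noncomputable def bsp (g : ℕ → ℕ) (S : ℕ → PN) (l : ℕ) : PN :=
  bind₁ (fun k => if k = 0 then C ((2 : ℝ) ^ g 0) * (X 0 - S 0) else 0) (nuc g S l)

theorem eval_bsp {g : ℕ → ℕ} {S : ℕ → PN} (hS : TriN S) (b : ℕ → ℝ) (l : ℕ) :
    eval b (bsp g S l) = bz g S (b 0) l := by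
  unfold bsp bz
  rw [Pool.SYS35.eval_bind]
  congr 2
  funext k
  split_ifs
  · rw [map_mul, eval_C, map_sub, eval_X]
    congr 2
    exact Pool.SYS35.eval_congr (hS 0) fun i hi => absurd hi (Nat.not_lt_zero _)
  · rw [map_zero]

theorem bsp_vars {g : ℕ → ℕ} {S : ℕ → PN} (hS : TriN S) {n : ℕ} (hn : 1 ≤ n) (l : ℕ) :
    (bsp g S l).vars ⊆ range n := by
  refine bnd_all fun k => ?_
  split_ifs
  · exact AdxRow.vars_mul_le (AdxRow.vars_C_le _) (AdxRow.vars_sub_le (AdxRow.vars_X_le hn)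
      ((hS 0).trans (Finset.range_mono (Nat.zero_le _))))
  · rw [vars_0]
    exact Finset.empty_subset _

theorem bsp_deg {g : ℕ → ℕ} {S : ℕ → PN} {K n : ℕ} (hS : Tr K S) {l : ℕ} (hl : l < n) :
    (bsp g S l).totalDegree ≤ (K + 1) ^ (n + 1) := by
  unfold bsp
  refine (Dgb.deg_bind (B := K + 1) fun k _ => ?_).trans ?_
  · split_ifs
    · refine (totalDegree_mul _ _).trans ?_
      rw [totalDegree_C, zero_add]
      refine (totalDegree_sub _ _).trans (max_le ?_ ((hS.deg 0).trans (Nat.le_succ _)))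
      rw [totalDegree_X]
      omega
    · rw [totalDegree_zero]
      exact Nat.zero_le _
  · refine (Nat.mul_le_mul_right _ (Dgb.deg_nuc (n := n) hS.tri (fun i _ => hS.deg i) g l
      hl.le)).trans ?_
    rw [← pow_succ]
    exact Nat.pow_le_pow_right (Nat.succ_pos _) (by omega)

/-- The difference with the value at the point with the heights zero. -/
noncomputable def osc (g : ℕ → ℕ) (S : ℕ → PN) (F : PN) : PN := F - bind₁ (bsp g S) F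

theorem eval_osc {g : ℕ → ℕ} {S : ℕ → PN} (hS : TriN S) (F : PN) (b : ℕ → ℝ) :
    eval b (osc g S F) = eval b F - eval (bz g S (b 0)) F := by
  unfold osc
  rw [map_sub, Pool.SYS35.eval_bind]
  congr 3
  funext l
  exact eval_bsp hS b l

theorem osc_vars {g : ℕ → ℕ} {S : ℕ → PN} (hS : TriN S) {F : PN} {n : ℕ} (hn : 1 ≤ n)
    (hF : F.vars ⊆ range n) : (osc g S F).vars ⊆ range n :=
  AdxRow.vars_sub_le hF (bnd_all fun k => bsp_vars hS hn k)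

theorem osc_deg {g : ℕ → ℕ} {S : ℕ → PN} {K K' n : ℕ} (hS : Tr K S) {F : PN}
    (hF : F.vars ⊆ range n) (dF : F.totalDegree ≤ K') :
    (osc g S F).totalDegree ≤ K' * (K + 1) ^ (n + 1) := by
  unfold osc
  refine (totalDegree_sub _ _).trans (max_le ?_ ?_)
  · refine dF.trans (Nat.le_mul_of_pos_right _ (by positivity))
  · exact (Dgb.deg_bind fun k hk => bsp_deg hS (mem_range.1 (hF hk))).trans
      (Nat.mul_le_mul_right _ dF)

/-- Oscillation on dilated boxes. -/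
theorem osc_dil {n K' : ℕ} {C' : ℝ} {z x : ℕ} {τ : ℝ} {g : ℕ → ℕ} {S : ℕ → PN} {F : PN} {δ : ℝ}
    (hd' : DilP n K' C') (hz' : 2 * C' ≤ 2 ^ z) (hz2 : (2 : ℝ) ≤ 2 ^ z) (hS : Tr K' S)
    (hF : F.vars ⊆ range n) (dF : F.totalDegree ≤ K') (hδ : 0 ≤ δ)
    (h : ∀ b : ℕ → ℝ, Bt 1 (Et τ) g S n b → |eval b F - eval (bz g S τ) F| ≤ δ) :
    ∀ b b' : ℕ → ℝ, Bt (2 ^ (x * z)) (Et τ) g S n b → Bt (2 ^ (x * z)) (Et τ) g S n b' →
      |eval b F - eval b' F| ≤ 2 ^ ((K' * (K' + 1) ^ (n + 1) * x + 2) * z) * δ := by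
  intro b b' hb hb'
  have key : ∀ b, Bt (2 ^ (x * z)) (Et τ) g S n b → |eval b F - eval (bz g S τ) F| ≤
      2 ^ ((K' * (K' + 1) ^ (n + 1) * x + 1) * z) * δ := by
    intro b hb
    have h1 := dil_sub (F := F) (G := MvPolynomial.C (eval (bz g S τ) F)) hd' hz' hS.tri hS.deg
      le_rfl hF (AdxRow.vars_C_le _) dF (by rw [totalDegree_C]; exact Nat.zero_le _) hδ le_rfl
      (fun b'' hb'' => by rw [eval_C]; exact h b'' hb'') hb
    rwa [eval_C] at h1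
  have k1 := key b hb
  have k2 := key b' hb'
  have e : (2 : ℝ) ^ ((K' * (K' + 1) ^ (n + 1) * x + 2) * z) =
      2 ^ z * 2 ^ ((K' * (K' + 1) ^ (n + 1) * x + 1) * z) := by
    rw [← pow_add]
    congr 1
    ring
  have e2 : 2 * ((2 : ℝ) ^ ((K' * (K' + 1) ^ (n + 1) * x + 1) * z) * δ) ≤
      2 ^ z * (2 ^ ((K' * (K' + 1) ^ (n + 1) * x + 1) * z) * δ) :=
    mul_le_mul_of_nonneg_right hz2 (by positivity)
  rw [e, mul_assoc]
  rw [abs_le] at k1 k2 ⊢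
  constructor <;> linarith [k1.1, k1.2, k2.1, k2.2]

/-! ### The line side -/

/-- The line side of the target in the chart of the system. -/
noncomputable def lh (g : ℕ → ℕ) (Φ : ℕ → PN) (n : ℕ) (H : PN) : PN :=
  Φ n + C (1 / (2 : ℝ) ^ g n) * bind₁ (ncN g Φ) H

theorem eval_lh (g : ℕ → ℕ) (Φ : ℕ → PN) (n : ℕ) (H : PN) (b : ℕ → ℝ) :
    eval b (lh g Φ n H) = eval b (Φ n) + 1 / 2 ^ g n * eval (nc g Φ b) H := by
  have e2 : (fun j => eval b (ncN g Φ j)) = nc g Φ b := funext fun l => eval_ncN g Φ b l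
  unfold lh
  rw [map_add, map_mul, eval_C, Pool.SYS35.eval_bind, e2]

theorem kk_lh (g : ℕ → ℕ) (Φ : ℕ → PN) (n : ℕ) (G H : PN) (b : ℕ → ℝ) :
    kk g Φ n G H b = 2 ^ g n * (eval b G - eval b (lh g Φ n H)) := by
  unfold kk
  rw [eval_lh]
  field_simp
  ring

theorem hv_lh (g : ℕ → ℕ) (Φ : ℕ → PN) (n : ℕ) (H : PN) (b β : ℕ → ℝ) :
    hv g Φ n H b β = eval b (lh g Φ n H) - eval β (lh g Φ n H) + β n := by
  unfold hv
  rw [eval_lh, eval_lh]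
  ring

theorem lh_deg {g : ℕ → ℕ} {Φ : ℕ → PN} {n K K₂ : ℕ} {H : PN}
    (h : ∀ l, (Φ l).totalDegree ≤ K) (hH : H.totalDegree ≤ K₂) :
    (lh g Φ n H).totalDegree ≤ kN K K₂ := by
  have k1 : K₂ * ((K + 1) * (K + 1)) ≤ kN K K₂ := Nat.mul_le_mul_right _ (Nat.le_succ _)
  have k3 : K + 1 ≤ (K + 1) * (K + 1) := Nat.le_mul_of_pos_left _ (Nat.succ_pos _)
  unfold lh
  refine (totalDegree_add _ _).trans (max_le ((h n).trans (K_le_kN K K₂)) ?_)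
  refine (totalDegree_mul _ _).trans ?_
  rw [totalDegree_C, zero_add]
  refine (Dgb.deg_bind fun k _ => (ncN_deg h k).trans k3).trans ?_
  exact (Nat.mul_le_mul_right _ hH).trans k1

theorem lh_vars {g : ℕ → ℕ} {Φ : ℕ → PN} {n : ℕ} {H : PN} (h : TriN Φ)
    (hH : H.vars ⊆ range n) : (lh g Φ n H).vars ⊆ range n := by
  unfold lh
  refine AdxRow.vars_add_le (h n) (AdxRow.vars_mul_le (AdxRow.vars_C_le _) ?_)
  exact AdxRow.vars_bnd hH fun k hk => (ncN_vars h k).trans (Finset.range_mono (by omega))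

/-! ### The facts at the exact time -/

theorem Tr.mono {K K' : ℕ} {S : ℕ → PN} (h : Tr K S) (hK : K ≤ K') : Tr K' S :=
  ⟨h.tri, fun l => (h.deg l).trans hK⟩

/-- **The leaf at the exact time**, line sides. -/
theorem ex_leaf (n K K₂ K₃ B : ℕ) (hn : 1 ≤ n) : ∃ y : ℕ, ∀ (C C' : ℝ) (z : ℕ) (t : ℝ)
    (gj gm : ℕ → ℕ) (Ψj Φj Ψm Φm : ℕ → PN) (H V : PN) (ε : ℝ), 1 ≤ C → DilP n K C →
    DilP n (kN K K₂ + K₃) C' → 2 * C ≤ 2 ^ z → 2 * C' ≤ 2 ^ z → Tr K Ψj → Tr K Φj → Tr K Ψm →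
    Tr K Φm → H.totalDegree ≤ K₂ → H.vars ⊆ range n → V.totalDegree ≤ K₃ → V.vars ⊆ range n →
    0 ≤ ε → Nr 0 z (Et t) gj gj Ψj Φj n → Nr 0 z (Et t) gm gm Ψm Φm (n + 1) →
    Mn B z (Et t) gj gm Ψj Ψm n →
    (∀ b b', Bt 1 (Et t) gj Φj n b → Bt 1 (Et t) gj Φj n b' →
      |kk gj Φj n V H b - kk gj Φj n V H b'| ≤ ε) →
    (∀ b b', Bt 1 (Et t) (gx gj gm) (mxs gj gm Ψj Ψm) n b →
      Bt 1 (Et t) (gx gj gm) (mxs gj gm Ψj Ψm) n b' →
      |(eval b V - eval b (Ψm n)) - (eval b' V - eval b' (Ψm n))| ≤ ε / 2 ^ gj n) →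
    ∀ b b', Bt 1 (Et t) (gx gj gm) (mxs gj gm Φj Φm) n b →
      Bt 1 (Et t) (gx gj gm) (mxs gj gm Φj Φm) n b' →
      |(eval b (lh gj Φj n H) - eval b (Φm n)) - (eval b' (lh gj Φj n H) - eval b' (Φm n))| ≤
        2 ^ (y * z) * (ε / 2 ^ gj n + 1 / 2 ^ gm n) := by
  obtain ⟨B', -, hconv⟩ := mn_conv n K B
  obtain ⟨y₁, -, hin1⟩ := mx_in n K B' 0
  obtain ⟨y₂, -, hback⟩ := mx_back n K B 0
  obtain ⟨y₃, -, hin3⟩ := mx_in n K B y₂
  obtain ⟨K', hK'⟩ : ∃ K', K' = kN K K₂ + K₃ := ⟨_, rfl⟩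
  obtain ⟨w, hw⟩ : ∃ w, w = K' * (K' + 1) ^ (n + 1) * y₁ + 2 +
    (K' * (K' + 1) ^ (n + 1) * y₂ + 2) + (K * (K + 1) ^ (n + 1) * y₃ + 1) := ⟨_, rfl⟩
  refine ⟨w + 2, ?_⟩
  intro C C' z t gj gm Ψj Φj Ψm Φm H V ε hC hd hd' hz hz' tj tj' tm tm' dH vH dV vV hε n1 n2 hM
    hvis hleaf b b' hb hb'
  rw [← hK'] at hd'
  have hz2 : (2 : ℝ) ≤ 2 ^ z := by linarith
  have kK : K ≤ K' := by
    rw [hK']
    exact (K_le_kN K K₂).trans (Nat.le_add_right _ _)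
  have n2' : Nr 0 z (Et t) gm gm Ψm Φm n := n2.mono le_rfl (fun _ h => h) (Nat.le_succ n)
  have hMΦ := hconv C z (Et t) gj gm Ψj Ψm Φj Φm hC hd hz tj tm tj' tm' hM n1 n2'
  have vl := lh_vars (g := gj) tj'.tri vH
  have dl := lh_deg (g := gj) (n := n) tj'.deg dH
  -- the three oscillations
  have o1 : ∀ b b', Bt (2 ^ (y₁ * z)) (Et t) gj Φj n b → Bt (2 ^ (y₁ * z)) (Et t) gj Φj n b' →
      |eval b (V - lh gj Φj n H) - eval b' (V - lh gj Φj n H)| ≤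
        2 ^ ((K' * (K' + 1) ^ (n + 1) * y₁ + 2) * z) * (ε / 2 ^ gj n) := by
    refine osc_dil hd' hz' hz2 (Tr.mono tj' kK) (AdxRow.vars_sub_le vV vl)
      ((totalDegree_sub _ _).trans (max_le (dV.trans (by omega)) (dl.trans (by omega))))
      (by positivity) fun b hb => ?_
    have h1 := hvis b _ hb (bz_mem tj'.tri t zero_le_one n)
    rw [kk_lh, kk_lh, ← mul_sub, abs_mul, abs_of_pos (by positivity : (0 : ℝ) < 2 ^ gj n)] at h1
    rw [map_sub, map_sub, le_div_iff₀ (by positivity), mul_comm]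
    exact h1
  have o2 : ∀ b b', Bt (2 ^ (y₂ * z)) (Et t) (gx gj gm) (mxs gj gm Ψj Ψm) n b →
      Bt (2 ^ (y₂ * z)) (Et t) (gx gj gm) (mxs gj gm Ψj Ψm) n b' →
      |eval b (V - Ψm n) - eval b' (V - Ψm n)| ≤
        2 ^ ((K' * (K' + 1) ^ (n + 1) * y₂ + 2) * z) * (ε / 2 ^ gj n) := by
    have tx := tr_mxs (g := gj) (g' := gm) tj tm
    refine osc_dil hd' hz' hz2 (Tr.mono tx kK) (AdxRow.vars_sub_le vV (tm.tri n))
      ((totalDegree_sub _ _).trans (max_le (dV.trans (by omega)) ((tm.deg n).trans kK)))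
      (by positivity) fun b hb => ?_
    have h1 := hleaf b _ hb (bz_mem tx.tri t zero_le_one n)
    rw [map_sub, map_sub]
    exact h1
  have o3 : ∀ b, Bt (2 ^ (y₃ * z)) (Et t) gm Ψm n b → |eval b (Φm n) - eval b (Ψm n)| ≤
      2 ^ ((K * (K + 1) ^ (n + 1) * y₃ + 1) * z) / 2 ^ gm n := fun b hb =>
    nr_dil hd hz tm tm' n2 hn (Nat.lt_succ_self n) le_rfl hb
  have m1 : ∀ b, Bt 1 (Et t) (gx gj gm) (mxs gj gm Φj Φm) n b →
      Bt (2 ^ (y₁ * z)) (Et t) gj Φj n b ∧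
      Bt (2 ^ (y₂ * z)) (Et t) (gx gj gm) (mxs gj gm Ψj Ψm) n b ∧
      Bt (2 ^ (y₃ * z)) (Et t) gm Ψm n b := by
    intro b hb
    have hb' : Bt (2 ^ (0 * z)) (Et t) (gx gj gm) (mxs gj gm Φj Φm) n b := by
      rw [Nat.zero_mul, pow_zero]
      exact hb
    have h1 := (hin1 C z (Et t) gj gm Φj Φm hC hd hz tj' tm' hMΦ n le_rfl b hb').1
    have h2 := hback C z (Et t) gj gm Ψj Ψm Φj Φm hC hd hz tj tm tj' tm' hM n1 n2' n le_rfl b hb'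
    exact ⟨h1, h2, (hin3 C z (Et t) gj gm Ψj Ψm hC hd hz tj tm hM n le_rfl b h2).2⟩
  obtain ⟨b1, b2, b3⟩ := m1 b hb
  obtain ⟨b1', b2', b3'⟩ := m1 b' hb'
  have q1 := o1 b b' b1 b1'
  have q2 := o2 b b' b2 b2'
  have q3 := o3 b b3
  have q4 := o3 b' b3'
  simp only [map_sub] at q1 q2
  have e1 : (eval b (lh gj Φj n H) - eval b (Φm n)) - (eval b' (lh gj Φj n H) - eval b' (Φm n)) =
      -((eval b V - eval b (lh gj Φj n H)) - (eval b' V - eval b' (lh gj Φj n H))) +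
      ((eval b V - eval b (Ψm n)) - (eval b' V - eval b' (Ψm n))) -
      (eval b (Φm n) - eval b (Ψm n)) + (eval b' (Φm n) - eval b' (Ψm n)) := by ring
  have w1 : (2 : ℝ) ^ ((K' * (K' + 1) ^ (n + 1) * y₁ + 2) * z) * (ε / 2 ^ gj n) ≤
      2 ^ (w * z) * (ε / 2 ^ gj n) := mul_le_mul_of_nonneg_right (pw_le (by omega)) (by positivity)
  have w2 : (2 : ℝ) ^ ((K' * (K' + 1) ^ (n + 1) * y₂ + 2) * z) * (ε / 2 ^ gj n) ≤
      2 ^ (w * z) * (ε / 2 ^ gj n) := mul_le_mul_of_nonneg_right (pw_le (by omega)) (by positivity)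
  have w3 : (2 : ℝ) ^ ((K * (K + 1) ^ (n + 1) * y₃ + 1) * z) / 2 ^ gm n ≤
      2 ^ (w * z) * (1 / 2 ^ gm n) := by
    rw [mul_one_div]
    exact div_le_div_of_nonneg_right (pw_le (by omega)) (by positivity)
  have w4 : (2 : ℝ) ^ ((w + 2) * z) = 2 ^ z * (2 ^ z * 2 ^ (w * z)) := by
    rw [← pow_add, ← pow_add]
    congr 1
    ring
  have hS : 0 ≤ ε / 2 ^ gj n + 1 / 2 ^ gm n := by positivity
  have w5 : 2 * (2 * ((2 : ℝ) ^ (w * z) * (ε / 2 ^ gj n + 1 / 2 ^ gm n))) ≤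
      2 ^ ((w + 2) * z) * (ε / 2 ^ gj n + 1 / 2 ^ gm n) := by
    rw [w4]
    have p1 : (0 : ℝ) ≤ 2 ^ (w * z) * (ε / 2 ^ gj n + 1 / 2 ^ gm n) := by positivity
    have p2 := mul_le_mul_of_nonneg_right hz2 p1
    have p3 : (0 : ℝ) ≤ 2 ^ z * (2 ^ (w * z) * (ε / 2 ^ gj n + 1 / 2 ^ gm n)) := by positivity
    have p4 := mul_le_mul_of_nonneg_right hz2 p3
    have p5 : (2 : ℝ) ^ z * (2 ^ z * 2 ^ (w * z)) * (ε / 2 ^ gj n + 1 / 2 ^ gm n) =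
        2 ^ z * (2 ^ z * (2 ^ (w * z) * (ε / 2 ^ gj n + 1 / 2 ^ gm n))) := by ring
    rw [p5]
    linarith
  have w6 : (2 : ℝ) ^ (w * z) * (ε / 2 ^ gj n + 1 / 2 ^ gm n) =
      2 ^ (w * z) * (ε / 2 ^ gj n) + 2 ^ (w * z) * (1 / 2 ^ gm n) := by ring
  have w7 : (0 : ℝ) ≤ 2 ^ (w * z) * (ε / 2 ^ gj n) := by positivity
  have w8 : (0 : ℝ) ≤ 2 ^ (w * z) * (1 / 2 ^ gm n) := by positivity
  rw [e1]
  rw [abs_le] at q1 q2 q3 q4 ⊢
  constructor <;> linarith [q1.1, q1.2, q2.1, q2.2, q3.1, q3.2, q4.1, q4.2]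

/-- **The pair at the exact time**: two line sides which agree with the same visible polynomial,
each on its box, the visible sides of the boxes are the same. -/
theorem ex_pair (n K K₂ K₃ : ℕ) : ∃ y : ℕ, ∀ (C C' : ℝ) (z : ℕ) (t : ℝ)
    (gj : ℕ → ℕ) (Ψj Φj Φj' : ℕ → PN) (H H' V : PN) (ε : ℝ), 1 ≤ C → DilP n K C →
    DilP n (kN K K₂ + K₃) C' → 2 * C ≤ 2 ^ z → 2 * C' ≤ 2 ^ z → Tr K Ψj → Tr K Φj → Tr K Φj' →
    H.totalDegree ≤ K₂ → H.vars ⊆ range n → H'.totalDegree ≤ K₂ → H'.vars ⊆ range n →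
    V.totalDegree ≤ K₃ → V.vars ⊆ range n → 0 ≤ ε → Nr 0 z (Et t) gj gj Ψj Φj n →
    Nr 0 z (Et t) gj gj Ψj Φj' n →
    (∀ b b', Bt 1 (Et t) gj Φj n b → Bt 1 (Et t) gj Φj n b' →
      |kk gj Φj n V H b - kk gj Φj n V H b'| ≤ ε) →
    (∀ b b', Bt 1 (Et t) gj Φj' n b → Bt 1 (Et t) gj Φj' n b' →
      |kk gj Φj' n V H' b - kk gj Φj' n V H' b'| ≤ ε) →
    ∀ b b', Bt 1 (Et t) gj Φj n b → Bt 1 (Et t) gj Φj n b' →
      |(eval b (lh gj Φj' n H') - eval b (lh gj Φj n H)) -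
        (eval b' (lh gj Φj' n H') - eval b' (lh gj Φj n H))| ≤ 2 ^ (y * z) * (ε / 2 ^ gj n) := by
  obtain ⟨x₁, -, hinc⟩ := inc n K 0
  obtain ⟨K', hK'⟩ : ∃ K', K' = kN K K₂ + K₃ := ⟨_, rfl⟩
  obtain ⟨x₂, hx₂⟩ : ∃ x₂, x₂ = (K * (K + 1) ^ (n + 1) + 1) * x₁ + 1 + 0 + 1 := ⟨_, rfl⟩
  obtain ⟨w, hw⟩ : ∃ w, w = K' * (K' + 1) ^ (n + 1) * x₂ + 2 := ⟨_, rfl⟩
  refine ⟨w + 1, ?_⟩
  intro C C' z t gj Ψj Φj Φj' H H' V ε hC hd hd' hz hz' tj tj' tj'' dH vH dH' vH' dV vV hε n1 n1'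
    hvis hvis' b b' hb hb'
  rw [← hK'] at hd'
  have hz2 : (2 : ℝ) ≤ 2 ^ z := by linarith
  have kK : K ≤ K' := by
    rw [hK']
    exact (K_le_kN K K₂).trans (Nat.le_add_right _ _)
  have vl := lh_vars (g := gj) tj''.tri vH'
  have dl := lh_deg (g := gj) (n := n) tj''.deg dH'
  have o1 : ∀ b b', Bt (2 ^ (x₂ * z)) (Et t) gj Φj' n b → Bt (2 ^ (x₂ * z)) (Et t) gj Φj' n b' →
      |eval b (V - lh gj Φj' n H') - eval b' (V - lh gj Φj' n H')| ≤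
        2 ^ ((K' * (K' + 1) ^ (n + 1) * x₂ + 2) * z) * (ε / 2 ^ gj n) := by
    refine osc_dil hd' hz' hz2 (Tr.mono tj'' kK) (AdxRow.vars_sub_le vV vl)
      ((totalDegree_sub _ _).trans (max_le (dV.trans (by omega)) (dl.trans (by omega))))
      (by positivity) fun b hb => ?_
    have h1 := hvis' b _ hb (bz_mem tj''.tri t zero_le_one n)
    rw [kk_lh, kk_lh, ← mul_sub, abs_mul, abs_of_pos (by positivity : (0 : ℝ) < 2 ^ gj n)] at h1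
    rw [map_sub, map_sub, le_div_iff₀ (by positivity), mul_comm]
    exact h1
  have m1 : ∀ b, Bt 1 (Et t) gj Φj n b → Bt (2 ^ (x₂ * z)) (Et t) gj Φj' n b := by
    intro b hb
    have h1 := hinc C z (Et t) gj Ψj Φj hC hd hz tj tj' n1 n le_rfl b (by
      rw [Nat.zero_mul, pow_zero]
      exact hb)
    have h2 := incl (B := 0) (x := x₁) (g₂ := gj) hC hd hz tj.tri tj''.tri tj.deg tj''.deg
      (fun l _ _ => Nat.le_add_right _ _) n1' le_rfl h1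
    rw [← hx₂] at h2
    exact h2
  have q1 := hvis b b' hb hb'
  have q2 := o1 b b' (m1 b hb) (m1 b' hb')
  rw [kk_lh, kk_lh, ← mul_sub, abs_mul, abs_of_pos (by positivity : (0 : ℝ) < 2 ^ gj n)] at q1
  have q1' : |eval b V - eval b (lh gj Φj n H) - (eval b' V - eval b' (lh gj Φj n H))| ≤
      ε / 2 ^ gj n := by
    rw [le_div_iff₀ (by positivity), mul_comm]
    exact q1
  simp only [map_sub] at q2
  rw [← hw] at q2
  have e1 : (eval b (lh gj Φj' n H') - eval b (lh gj Φj n H)) -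
      (eval b' (lh gj Φj' n H') - eval b' (lh gj Φj n H)) =
      (eval b V - eval b (lh gj Φj n H) - (eval b' V - eval b' (lh gj Φj n H))) -
      (eval b V - eval b (lh gj Φj' n H') - (eval b' V - eval b' (lh gj Φj' n H'))) := by ring
  rw [e1]
  refine (abs_sub _ _).trans ((add_le_add q1' q2).trans ?_)
  have e2 : (2 : ℝ) ^ ((w + 1) * z) = 2 ^ z * 2 ^ (w * z) := by
    rw [← pow_add]
    congr 1
    ring
  have e3 : (1 : ℝ) ≤ 2 ^ (w * z) := one_le_pow₀ (by norm_num)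
  have e4 : 0 ≤ ε / 2 ^ gj n := by positivity
  have e5 := mul_le_mul_of_nonneg_right e3 e4
  have e6 : 2 * (2 ^ (w * z) * (ε / 2 ^ gj n)) ≤ 2 ^ z * (2 ^ (w * z) * (ε / 2 ^ gj n)) :=
    mul_le_mul_of_nonneg_right hz2 (by positivity)
  rw [e2, mul_assoc]
  linarith

/-! ### One time of the cell -/

/-- **The estimate at one time**: `Gn - Hn` at a point of the box of the new label. -/
theorem fin_pt (n K K₂ B : ℕ) (hn : 1 ≤ n) : ∃ x : ℕ, ∀ (C C' : ℝ) (z : ℕ) (τ : ℝ)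
    (gk gj gm : ℕ → ℕ) (Ψk Φk Ψj Φj Ψm Φm Φj' : ℕ → PN) (H H' : PN) (p : ℕ → Polynomial ℝ)
    (δ δ' : ℝ), 1 ≤ C → DilP n K C → DilP n (kN K K₂) C' → 2 * C ≤ 2 ^ z → 2 * C' ≤ 2 ^ z →
    Tr K Ψk → Tr K Φk → Tr K Ψj → Tr K Φj → Tr K Ψm → Tr K Φm → Tr K Φj' →
    H.totalDegree ≤ K₂ → H.vars ⊆ range n → H'.totalDegree ≤ K₂ → H'.vars ⊆ range n →
    0 ≤ δ → 0 ≤ δ' → (∀ l, 1 ≤ l → l < n → gj l ≤ gk l + B * z) →
    Nr 0 z (Et τ) gk gk Ψk Φk n → Nr 0 z (Et τ) gj gj Ψj Φj n →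
    Nr 0 z (Et τ) gm gm Ψm Φm (n + 1) → Nr B z (Et τ) gk gj Φk Φj n →
    Mn B z (Et τ) gj gm Φj Φm n →
    (∀ l, 1 ≤ l → l < n → |pps p τ l - eval (pps p τ) (Φj l)| ≤ 2 ^ (B * z) / 2 ^ gj l) →
    (∀ l, 1 ≤ l → l ≤ n → |pps p τ l - eval (pps p τ) (Φm l)| ≤ 2 ^ (B * z) / 2 ^ gm l) →
    (∀ b, Bt 1 (Et τ) (gx gj gm) (mxs gj gm Φj Φm) n b →
      |eval b (lh gj Φj n H - Φm n) -
        eval (bz (gx gj gm) (mxs gj gm Φj Φm) τ) (lh gj Φj n H - Φm n)| ≤ δ) →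
    (∀ b, Bt 1 (Et τ) gj Φj n b → |eval b (lh gj Φj' n H' - lh gj Φj n H) -
      eval (bz gj Φj τ) (lh gj Φj' n H' - lh gj Φj n H)| ≤ δ') →
    ∀ b, Bt 1 (Et τ) gk Ψk n b →
      |(eval b (lh gj Φj' n H') - eval (bz (gx gj gm) (mxs gj gm Ψj Ψm) τ) (lh gj Φj' n H') +
          eval (bz (gx gj gm) (mxs gj gm Ψj Ψm) τ) (Ψm n)) -
        hv gj Φj n H b (pps p τ)| ≤ 2 ^ (x * z) * (δ + δ' + 1 / 2 ^ gm n) := by
  obtain ⟨K', hK'⟩ : ∃ K', K' = kN K K₂ := ⟨_, rfl⟩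
  obtain ⟨x₂, hx₂⟩ : ∃ x₂, x₂ = (K * (K + 1) ^ (n + 1) + 1) *
    ((K * (K + 1) ^ (n + 1) + 1) * 0 + 1 + 0 + 1) + 1 + B + 1 := ⟨_, rfl⟩
  obtain ⟨y₁, -, hfwd⟩ := mx_fwd n K B 0
  obtain ⟨y₂, hy12, hin⟩ := mx_in n K B y₁
  obtain ⟨y₃, -, hinc⟩ := inc n K y₂
  obtain ⟨xx, hxx⟩ : ∃ xx, xx = x₂ + y₂ + y₁ + B := ⟨_, rfl⟩
  obtain ⟨w, hw⟩ : ∃ w, w = K' * (K' + 1) ^ (n + 1) * xx + 2 +
    (K * (K + 1) ^ (n + 1) * y₃ + 1) + B := ⟨_, rfl⟩
  refine ⟨w + 1, ?_⟩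
  intro C C' z τ gk gj gm Ψk Φk Ψj Φj Ψm Φm Φj' H H' p δ δ' hC hd hd' hz hz' tk tk' tj tj' tm tm'
    tj'' dH vH dH' vH' hδ hδ' s1 n1 n2 n3 f1 f2 f3 f3' f4 f6 b hb
  rw [← hK'] at hd'
  have hz2 : (2 : ℝ) ≤ 2 ^ z := by linarith
  have kK : K ≤ K' := by
    rw [hK']
    exact K_le_kN K K₂
  have n3' : Nr 0 z (Et τ) gm gm Ψm Φm n := n3.mono le_rfl (fun _ h => h) (Nat.le_succ n)
  have tx := tr_mxs (g := gj) (g' := gm) tj' tm'
  have tx' := tr_mxs (g := gj) (g' := gm) tj tm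
  obtain ⟨bs, hbs⟩ : ∃ bs, bs = bz (gx gj gm) (mxs gj gm Ψj Ψm) τ := ⟨_, rfl⟩
  rw [← hbs]
  -- the point `b`
  have b1 := incl (x := 0) hC hd hz tk.tri tk'.tri tk.deg tk'.deg
    (fun l _ _ => Nat.le_add_right _ _) n1 le_rfl (by rw [Nat.zero_mul, pow_zero]; exact hb)
  have b2 : Bt (2 ^ (x₂ * z)) (Et τ) gj Φj n b := by
    have := incl hC hd hz tk'.tri tj'.tri tk'.deg tj'.deg s1 f1 le_rfl b1
    rw [← hx₂] at this
    exact this
  have b3 : Bt (2 ^ (xx * z)) (Et τ) gj Φj n b :=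
    b2.mono (pw_le (by omega)) (fun _ h => h) le_rfl
  -- the point with the heights zero
  have c1 : Bt (2 ^ (y₁ * z)) (Et τ) (gx gj gm) (mxs gj gm Φj Φm) n bs :=
    hfwd C z (Et τ) gj gm Ψj Ψm Φj Φm hC hd hz tj tm tj' tm' f2 n2 n3' n le_rfl bs (by
      rw [Nat.zero_mul, pow_zero, hbs]
      exact bz_mem tx'.tri τ zero_le_one n)
  obtain ⟨c2, c3⟩ := hin C z (Et τ) gj gm Φj Φm hC hd hz tj' tm' f2 n le_rfl bs c1
  have c4 : Bt (2 ^ (xx * z)) (Et τ) gj Φj n bs :=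
    c2.mono (pw_le (by omega)) (fun _ h => h) le_rfl
  have c5 : Bt (2 ^ (xx * z)) (Et τ) (gx gj gm) (mxs gj gm Φj Φm) n bs :=
    c1.mono (pw_le (by omega)) (fun _ h => h) le_rfl
  have c6 := hinc C z (Et τ) gm Ψm Φm hC hd hz tm tm' n3' n le_rfl bs c3
  have c7 := nr_dil hd hz tm tm' n3 hn (Nat.lt_succ_self n) le_rfl c6
  -- the path
  have p1 : Bt (2 ^ (xx * z)) (Et τ) (gx gj gm) (mxs gj gm Φj Φm) n (pps p τ) := by
    refine ⟨pps_zero p τ, fun l l1 l2 => ?_⟩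
    have e1 := f3 l l1 l2
    have e2 := f3' l l1 l2.le
    have e3 : (2 : ℝ) ^ (B * z) ≤ 2 ^ (xx * z) := pw_le (by omega)
    unfold mxs gx
    rcases Nat.lt_or_ge (gj l) (gm l) with hl | hl
    · rw [if_pos hl, max_eq_right hl.le]
      exact e2.trans (div_le_div_of_nonneg_right e3 (by positivity))
    · rw [if_neg (by omega), max_eq_left hl]
      exact e1.trans (div_le_div_of_nonneg_right e3 (by positivity))
  -- oscillations
  have vl := lh_vars (g := gj) tj'.tri vH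
  have dl := lh_deg (g := gj) (n := n) tj'.deg dH
  have vl' := lh_vars (g := gj) tj''.tri vH'
  have dl' := lh_deg (g := gj) (n := n) tj''.deg dH'
  have q1 := osc_dil (x := xx) hd' hz' hz2 (Tr.mono tj' kK) (AdxRow.vars_sub_le vl' vl)
    ((totalDegree_sub _ _).trans (max_le (by rw [hK']; exact dl') (by rw [hK']; exact dl)))
    hδ' f6 b bs b3 c4
  have q2 := osc_dil (x := xx) hd' hz' hz2 (Tr.mono tx kK) (AdxRow.vars_sub_le vl (tm'.tri n))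
    ((totalDegree_sub _ _).trans (max_le (by rw [hK']; exact dl) ((tm'.deg n).trans kK)))
    hδ f4 (pps p τ) bs p1 c5
  have q3 := f3' n hn le_rfl
  simp only [map_sub] at q1 q2
  rw [hv_lh]
  have e1 : eval b (lh gj Φj' n H') - eval bs (lh gj Φj' n H') + eval bs (Ψm n) -
      (eval b (lh gj Φj n H) - eval (pps p τ) (lh gj Φj n H) + pps p τ n) =
      (eval b (lh gj Φj' n H') - eval b (lh gj Φj n H) -
        (eval bs (lh gj Φj' n H') - eval bs (lh gj Φj n H))) +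
      (eval (pps p τ) (lh gj Φj n H) - eval (pps p τ) (Φm n) -
        (eval bs (lh gj Φj n H) - eval bs (Φm n))) -
      (eval bs (Φm n) - eval bs (Ψm n)) - (pps p τ n - eval (pps p τ) (Φm n)) := by ring
  have w1 : (2 : ℝ) ^ ((K' * (K' + 1) ^ (n + 1) * xx + 2) * z) ≤ 2 ^ (w * z) :=
    pw_le (by omega)
  have w2 : (2 : ℝ) ^ ((K * (K + 1) ^ (n + 1) * y₃ + 1) * z) / 2 ^ gm n ≤
      2 ^ (w * z) * (1 / 2 ^ gm n) := by
    rw [mul_one_div]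
    exact div_le_div_of_nonneg_right (pw_le (by omega)) (by positivity)
  have w3 : (2 : ℝ) ^ (B * z) / 2 ^ gm n ≤ 2 ^ (w * z) * (1 / 2 ^ gm n) := by
    rw [mul_one_div]
    exact div_le_div_of_nonneg_right (pw_le (by omega)) (by positivity)
  have w4 := mul_le_mul_of_nonneg_right w1 hδ
  have w5 := mul_le_mul_of_nonneg_right w1 hδ'
  have w6 : (2 : ℝ) ^ ((w + 1) * z) * (δ + δ' + 1 / 2 ^ gm n) =
      2 ^ z * (2 ^ (w * z) * (δ + δ' + 1 / 2 ^ gm n)) := by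
    rw [← mul_assoc, ← pow_add]
    congr 2
    ring
  have w7 : 2 * (2 ^ (w * z) * (δ + δ' + 1 / 2 ^ gm n)) ≤
      2 ^ z * (2 ^ (w * z) * (δ + δ' + 1 / 2 ^ gm n)) :=
    mul_le_mul_of_nonneg_right hz2 (by positivity)
  have w8 : (2 : ℝ) ^ (w * z) * (δ + δ' + 1 / 2 ^ gm n) = 2 ^ (w * z) * δ + 2 ^ (w * z) * δ' +
      2 ^ (w * z) * (1 / 2 ^ gm n) := by ring
  have w9 : (0 : ℝ) ≤ 2 ^ (w * z) * δ := by positivity
  have w10 : (0 : ℝ) ≤ 2 ^ (w * z) * δ' := by positivity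
  rw [e1, w6]
  rw [abs_le] at q1 q2 q3 c7 ⊢
  constructor <;> linarith [q1.1, q1.2, q2.1, q2.2, q3.1, q3.2, c7.1, c7.2]

end Pool.GLV
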