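import Pool.Agent.H55.GEN.Glu

/-!
# Remez in the time for facts on boxes

A fact is a bound of a polynomial on the unit box of a triangular system at one time, or a bound of
a polynomial on the path of a line. Finitely many facts which are functions of a label `lam`, and
which hold at the exact time on an event, hold up to a factor on the whole cell of the time, on a
large part of this event, if the time is almost full given the label.
-/

set_option autoImplicit false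

namespace Pool.GLV

open Finset MvPolynomial
open Pool.Agent.H49.Ent Pool.Agent.H32.Dense Pool.STK Pool.KA Pool.K2S Pool.STAT Pool.STAT.Glu
open Pool.BFL (Pb)
open Pool.STAT.CLO

/-- A fact: the polynomial `F` is at most `s` on the unit box of the system `S` before `m`. -/
structure VF where
  g : ℕ → ℕ
  S : ℕ → PN
  m : ℕ
  F : PN
  s : ℝ

/-- Bounds for a fact. -/
structure VF.Ok (n K : ℕ) (v : VF) : Prop where
  tr : Tr K v.S
  m_le : v.m ≤ n
  vars : v.F.vars ⊆ range v.m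
  deg : v.F.totalDegree ≤ K
  pos : 0 < v.s

/-- The fact at the time `τ`, up to the factor `c`. -/
def VF.At (v : VF) (τ c : ℝ) : Prop :=
  ∀ b : ℕ → ℝ, Bt 1 (Et τ) v.g v.S v.m b → |eval b v.F| ≤ c * v.s

/-- The polynomials of a fact. -/
noncomputable def VF.pol {n D : ℕ} (v : VF) (a : Fin n → Fin (D + 1)) : Polynomial ℝ :=
  Polynomial.C (1 / v.s) * gq v.g v.S (bind₁ (nuc v.g v.S) v.F) a

/-- The polynomial of a fact on the path. -/
noncomputable def upol (p : ℕ → Polynomial ℝ) (u : PN × ℝ) : Polynomial ℝ :=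
  Polynomial.C (1 / u.2) * MvPolynomial.aeval (pth p) u.1

theorem upol_eval {p : ℕ → Polynomial ℝ} {u : PN × ℝ} (hs : 0 < u.2) {τ S : ℝ} :
    |(upol p u).eval τ| ≤ S ↔ |eval (pps p τ) u.1| ≤ S * u.2 := by
  unfold upol
  rw [C_mul_le (by positivity), one_div_one_div, Pool.UNJ.eval_aeval_poly]
  rfl

theorem pol_deg {n K : ℕ} {v : VF} (h : v.Ok n K)
    (a : Fin n → Fin (K * (K + 1) ^ (n + 1) + 1)) :
    (v.pol a).natDegree ≤ K * (K + 1) ^ (n + 1) := by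
  unfold VF.pol
  refine (Polynomial.natDegree_C_mul_le _ _).trans ?_
  exact gq_deg _ _ a (nat_deg h.tr.tri h.tr.deg v.g h.m_le h.vars h.deg).2

theorem pol_le {n K : ℕ} (hn : 1 ≤ n) {v : VF} (h : v.Ok n K) {τ : ℝ} (h1 : v.At τ 1)
    (a : Fin n → Fin (K * (K + 1) ^ (n + 1) + 1)) : |(v.pol a).eval τ| ≤ 1 := by
  have hs := h.pos
  unfold VF.pol
  rw [C_mul_le (by positivity), one_div_one_div]
  obtain ⟨b, hb1, hb2⟩ := gq_pt hn (g := v.g) h.tr.tri τ a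
  rw [gq_eval hn, ← hb2, ← eval_nat h.tr.tri]
  exact h1 b (hb1.mono le_rfl (fun _ h => h) h.m_le)

theorem at_of_pol {n K : ℕ} {C : ℝ} (hG : GrdP n (K * (K + 1) ^ (n + 1)) C) (hn : 1 ≤ n)
    {v : VF} (h : v.Ok n K) {τ S : ℝ}
    (h1 : ∀ a : Fin n → Fin (K * (K + 1) ^ (n + 1) + 1), |(v.pol a).eval τ| ≤ S) :
    v.At τ (C * S) := by
  intro b hb
  have hs := h.pos
  obtain ⟨q1, q2⟩ := nat_deg h.tr.tri h.tr.deg v.g h.m_le h.vars h.deg
  have h2 : ∀ a : Fin n → Fin (K * (K + 1) ^ (n + 1) + 1),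
      |(gq v.g v.S (bind₁ (nuc v.g v.S) v.F) a).eval τ| ≤ S * v.s := by
    intro a
    have h3 := h1 a
    unfold VF.pol at h3
    rwa [C_mul_le (by positivity), one_div_one_div] at h3
  have h3 := gq_box hG hn h.tr.tri h.m_le q1 q2 h2 hb
  rw [← eval_nat h.tr.tri, ← mul_assoc] at h3
  exact h3

/-- **Remez in the time for facts.** -/
theorem rmz_facts (n K : ℕ) (hn : 1 ≤ n) (ι₁ ι₂ : Type) [Fintype ι₁] [Fintype ι₂] (η : ℝ)
    (hη : 0 < η) : ∃ C : ℝ, 1 ≤ C ∧ ∀ (J w z : ℕ) (Ω L : Type) [Fintype Ω] (q : Ω → ℝ)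
    (T : Ω → ℕ) (lam : Ω → L) (A : Ω → Prop) (E : ℝ) (v : ι₁ → Ω → VF) (u : ι₂ → Ω → PN × ℝ)
    (p : Ω → ℕ → Polynomial ℝ), IsLaw q → (∀ ω, T ω < 2 ^ J) → w + z ≤ J →
    Det q lam (fun ω => T ω / 2 ^ (J - w)) → η ≤ Pb q A → 1 ≤ E →
    ((J : ℝ) - w) * Real.log 2 - E ≤ CH q T lam → C * E ≤ z → (∀ a, Det q lam (v a)) →
    (∀ a, Det q lam (u a)) → Det q lam p → (∀ a ω, 0 < q ω → (v a ω).Ok n K) →
    (∀ a ω, 0 < q ω → (u a ω).1.totalDegree ≤ K ∧ 0 < (u a ω).2) →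
    (∀ ω, 0 < q ω → ∀ l, (p ω l).natDegree ≤ K) →
    (∀ ω, 0 < q ω → A ω → (∀ a, (v a ω).At ((T ω : ℝ) / 2 ^ J) 1) ∧
      ∀ a, |eval (pps (p ω) ((T ω : ℝ) / 2 ^ J)) (u a ω).1| ≤ (u a ω).2) →
    ∃ B : Ω → Prop, (∀ ω, B ω → 0 < q ω ∧ A ω) ∧ Pb q A - η / 2 ≤ Pb q B ∧ ∀ ω, B ω →
      ∀ t : ℝ, |t - (T ω : ℝ) / 2 ^ J| ≤ 1 / 2 ^ w → (∀ a, (v a ω).At t (C * 2 ^ (2 * z))) ∧
        ∀ a, |eval (pps (p ω) t) (u a ω).1| ≤ 2 ^ (2 * z) * (u a ω).2 := by
  classical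
  obtain ⟨D, hD⟩ : ∃ D, D = K * (K + 1) ^ (n + 1) := ⟨_, rfl⟩
  obtain ⟨C₁, hC₁, hg⟩ := grid_bound n D
  obtain ⟨C₂, hC₂, h⟩ := rmz_det (D + K * (K + 1)) ((ι₁ × (Fin n → Fin (D + 1))) ⊕ ι₂) η hη
  refine ⟨C₁ + C₂, by linarith, ?_⟩
  intro J w z Ω L _ q T lam A E v u p hq hT hwz hcell hA hE hCH hz hv hu hp hvOk huOk hpd hat
  have hE0 : 0 ≤ E := by linarith
  obtain ⟨f, hf⟩ : ∃ f : (ι₁ × (Fin n → Fin (D + 1))) ⊕ ι₂ → Ω → Polynomial ℝ,
    f = Sum.elim (fun x ω => (v x.1 ω).pol x.2) (fun a ω => upol (p ω) (u a ω)) := ⟨_, rfl⟩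
  have hfdet : ∀ a, Det q lam (f a) := by
    intro a ω ω' h1 h2 e
    rw [hf]
    rcases a with x | a
    · show (v x.1 ω).pol x.2 = (v x.1 ω').pol x.2
      rw [hv x.1 ω ω' h1 h2 e]
    · show upol (p ω) (u a ω) = upol (p ω') (u a ω')
      rw [hu a ω ω' h1 h2 e, hp ω ω' h1 h2 e]
  have hfdeg : ∀ a ω, 0 < q ω → (f a ω).natDegree ≤ D + K * (K + 1) := by
    intro a ω hω
    rw [hf]
    rcases a with x | a
    · show ((v x.1 ω).pol x.2).natDegree ≤ _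
      subst hD
      exact (pol_deg (hvOk x.1 ω hω) x.2).trans (Nat.le_add_right _ _)
    · show (upol (p ω) (u a ω)).natDegree ≤ _
      unfold upol
      refine (Polynomial.natDegree_C_mul_le _ _).trans ?_
      exact (natDegree_aeval _ _ (pth_deg (hpd ω hω)) (huOk a ω hω).1).trans
        (Nat.le_add_left _ _)
  have hfpos : ∀ a ω, 0 < q ω → A ω → |(f a ω).eval ((T ω : ℝ) / 2 ^ J)| ≤ 1 := by
    intro a ω hω hAω
    obtain ⟨h1, h2⟩ := hat ω hω hAω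
    rw [hf]
    rcases a with x | a
    · show |((v x.1 ω).pol x.2).eval _| ≤ 1
      subst hD
      exact pol_le hn (hvOk x.1 ω hω) (h1 x.1) x.2
    · show |(upol (p ω) (u a ω)).eval _| ≤ 1
      rw [upol_eval (huOk a ω hω).2, one_mul]
      exact h2 a
  obtain ⟨B, hB1, hB2, hB3⟩ := h J w z Ω L q T lam A E f hq hT hwz hcell
    (by rw [← Pb_eq_Pe]; exact hA) hE hCH (by
      have := mul_nonneg (by linarith : (0 : ℝ) ≤ C₁) hE0
      nlinarith) hfdet hfdeg hfpos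
  refine ⟨B, hB1, by rw [Pb_eq_Pe, Pb_eq_Pe]; exact hB2, fun ω hω t ht => ?_⟩
  have hS := hB3 ω hω t ht
  have hω0 := (hB1 ω hω).1
  constructor
  · intro a
    have h1 := at_of_pol (C := C₁) (n := n) (K := K) (τ := t) (S := 2 ^ (2 * z)) (by
      rw [← hD]
      exact hg) hn (hvOk a ω hω0) (by
      rw [← hD]
      intro x
      have := hS (Sum.inl (a, x))
      rw [hf] at this
      exact this)
    intro b hb
    refine (h1 b hb).trans (mul_le_mul_of_nonneg_right (mul_le_mul_of_nonneg_right ?_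
      (by positivity)) (hvOk a ω hω0).pos.le)
    linarith
  · intro a
    have h1 := hS (Sum.inr a)
    rw [hf] at h1
    exact (upol_eval (huOk a ω hω0).2).1 h1

end Pool.GLV
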