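import Pool.Agent.H19.TIE.Vis
import Pool.Agent.H88.TIE.GlvD
import Pool.Agent.H88.TIE.RmzF

/-!
# Gluing with a visible polynomial: two samples

`glue_sq`: an event of probability `c` holds for both samples with probability at least `c ^ 2`.
`tm_two`: the time given two lines which have the same record, the same cell and the same time.
`vfs`, `ufs`: the facts for a pair of samples.
-/

set_option autoImplicit false

namespace Pool.GLV

open Finset MvPolynomial
open Pool.Agent.H49.Ent Pool.Agent.H32.Dense Pool.STK Pool.KA Pool.STAT Pool.STAT.Glu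
open Pool.STAT.CLO
open Pool.BFL (Pb)
open Pool.TIE (mxs)

/-! ### Two samples -/

/-- Two samples with the same value, both in the event. -/
theorem glue_sq {W S : Type} [Fintype W] {q : W → ℝ} (q0 : ∀ w, 0 ≤ q w) (q1 : ∑ w, q w = 1)
    (X : W → S) (A : W → Prop) :
    (Pb q A) ^ 2 ≤ Pb (glue q q X X) (fun w => A w.1 ∧ A w.2) := by
  classical
  obtain ⟨a, ha⟩ : ∃ a : S → ℝ, a = fun x => ∑ w, if X w = x then (if A w then q w else 0) else 0 :=
    ⟨_, rfl⟩
  have hfib : ∀ f : W → ℝ, ∑ w, f w =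
      ∑ x ∈ univ.image X, ∑ w, if X w = x then f w else 0 := by
    intro f
    rw [← Finset.sum_fiberwise_of_maps_to (g := X) (t := univ.image X)
      (fun w _ => Finset.mem_image_of_mem X (Finset.mem_univ w)) f]
    refine Finset.sum_congr rfl fun x _ => ?_
    rw [Finset.sum_filter]
  have h1 : Pb q A = ∑ x ∈ univ.image X, a x := by
    unfold Pool.BFL.Pb
    rw [hfib, ha]
  have h2 : ∑ x ∈ univ.image X, law q X x = 1 := by
    rw [← q1, hfib q]
    rfl
  have ha0 : ∀ x, 0 ≤ a x := by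
    intro x
    rw [ha]
    refine Finset.sum_nonneg fun w _ => ?_
    split_ifs
    · exact q0 w
    · exact le_rfl
    · exact le_rfl
  have haL : ∀ x, a x ≤ law q X x := by
    intro x
    rw [ha]
    unfold law
    refine Finset.sum_le_sum fun w _ => ?_
    split_ifs
    · exact le_rfl
    · exact q0 w
    · exact le_rfl
  have h3 : Pb (glue q q X X) (fun w => A w.1 ∧ A w.2) =
      ∑ x ∈ univ.image X, a x ^ 2 / law q X x := by
    unfold Pool.BFL.Pb
    rw [Fintype.sum_prod_type, hfib]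
    refine Finset.sum_congr rfl fun x _ => ?_
    have e1 : a x ^ 2 / law q X x = (∑ w, if X w = x then (if A w then q w else 0) else 0) *
        (a x / law q X x) := by
      rw [pow_two, mul_div_assoc, ha]
    rw [e1, Finset.sum_mul]
    refine Finset.sum_congr rfl fun w _ => ?_
    split_ifs with hx hA
    · subst hx
      have e2 : q w * (a (X w) / law q X (X w)) =
          ∑ w', if X w' = X w then (if A w' then q w * (q w' / law q X (X w)) else 0) else 0 := by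
        rw [ha]
        beta_reduce
        rw [Finset.sum_div, Finset.mul_sum]
        refine Finset.sum_congr rfl fun w' _ => ?_
        split_ifs
        · rfl
        · simp
        · simp
      rw [e2]
      refine Finset.sum_congr rfl fun w' _ => ?_
      unfold glue
      simp only
      by_cases h4 : X w' = X w
      · by_cases h5 : A w'
        · rw [if_pos ⟨hA, h5⟩, if_pos h4.symm, if_pos h4, if_pos h5]
          ring
        · rw [if_neg (fun h => h5 h.2), if_pos h4, if_neg h5]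
      · rw [if_neg h4]
        split_ifs with h6 h7
        · exact absurd h7.symm h4
        · rfl
        · rfl
    · rw [zero_mul]
      refine Finset.sum_eq_zero fun w' _ => ?_
      rw [if_neg (fun h => hA h.1)]
    · rw [zero_mul]
  rw [h1, h3]
  have h4 := Finset.sum_sq_le_sum_mul_sum_of_sq_le_mul (univ.image X) (r := a)
    (f := fun x => a x ^ 2 / law q X x) (g := fun x => law q X x)
    (fun x _ => div_nonneg (sq_nonneg _) (law_nonneg q0 X x)) (fun x _ => law_nonneg q0 X x)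
    (fun x _ => by
      rcases (law_nonneg q0 X x).eq_or_lt with h | h
      · have h5 : a x = 0 := le_antisymm ((haL x).trans h.symm.le) (ha0 x)
        rw [h5, ← h]
        norm_num
      · exact (div_mul_cancel₀ _ h.ne').ge)
  rw [h2, mul_one] at h4
  exact h4

/-- The time given its cell. -/
theorem cell_le {Ω : Type} [Fintype Ω] {q : Ω → ℝ} (hq : IsLaw q) {J r : ℕ} (hr : r ≤ J)
    (T : Ω → ℕ) : CH q T (fun ω => T ω / 2 ^ (J - r)) ≤ ((J : ℝ) - r) * Real.log 2 := by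
  classical
  have h3 : Real.log ((2 ^ (J - r) : ℕ) : ℝ) = ((J : ℝ) - r) * Real.log 2 := by
    rw [Nat.cast_pow, Real.log_pow, Nat.cast_ofNat, Nat.cast_sub hr]
  rw [← h3]
  refine Pool.OC.ch_le_log_card' hq _ _ _ fun s => ?_
  refine ⟨(Finset.range (2 ^ (J - r))).image (fun u => s * 2 ^ (J - r) + u), ?_, ?_⟩
  · exact Finset.card_image_le.trans (by rw [Finset.card_range])
  · intro ω _ h
    refine Finset.mem_image.2 ⟨T ω % 2 ^ (J - r), ?_, ?_⟩
    · exact Finset.mem_range.2 (Nat.mod_lt _ (by positivity))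
    · rw [← h]
      exact Nat.div_add_mod' _ _

/-- **The time given two lines** which have the same record, the same cell and the same time. -/
theorem tm_two {Ω Λ P₀ P₁ : Type} [Fintype Ω] {q : Ω → ℝ} (hq : IsLaw q) {J r : ℕ} {T : Ω → ℕ}
    {ln : Ω → Λ} (ρ : Ω → P₀) (Sv : Ω → P₁) {S C : ℝ} (hr : r ≤ J)
    (h1 : ((J : ℝ) - r) * Real.log 2 - S ≤ CH q T (fun ω => (ln ω, T ω / 2 ^ (J - r))))
    (h2 : CH q ρ (fun ω => (ln ω, T ω / 2 ^ (J - r))) ≤ C)
    (h3 : CH q Sv (fun ω => (ρ ω, T ω)) ≤ C) :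
    ((J : ℝ) - r) * Real.log 2 - (2 * S + 3 * C) ≤
      CH (glue q q (fun ω => (Sv ω, (ρ ω, T ω))) (fun ω => (Sv ω, (ρ ω, T ω))))
        (fun w => T w.1) (fun w => ((ln w.1, T w.1 / 2 ^ (J - r)), (ln w.2, T w.2 / 2 ^ (J - r)))) := by
  classical
  have hq0 := hq.nonneg
  obtain ⟨wn, hwn⟩ : ∃ wn : Ω → Λ × ℕ, wn = fun ω => (ln ω, T ω / 2 ^ (J - r)) := ⟨_, rfl⟩
  obtain ⟨zz, hzz⟩ : ∃ zz : Ω → P₀ × (Λ × ℕ), zz = fun ω => (ρ ω, wn ω) := ⟨_, rfl⟩
  obtain ⟨R, hR⟩ : ∃ R : Ω → P₀ × ℕ, R = fun ω => (ρ ω, T ω / 2 ^ (J - r)) := ⟨_, rfl⟩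
  obtain ⟨key, hkey⟩ : ∃ key : Ω → P₁ × (P₀ × ℕ), key = fun ω => (Sv ω, (ρ ω, T ω)) := ⟨_, rfl⟩
  rw [← hwn] at h1 h2
  -- the time given the first context
  have a1 : ((J : ℝ) - r) * Real.log 2 - S - C ≤ CH q T zz := by
    have := CH_le_add hq0 T ρ wn
    rw [hzz]
    linarith
  have dz : Det q zz R := fun ω ω' _ _ h => by
    rw [hzz, hwn] at h
    simp only [Prod.mk.injEq] at h
    rw [hR]
    exact Prod.ext h.1 h.2.2
  have dk : Det q key R := fun ω ω' _ _ h => by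
    rw [hkey] at h
    simp only [Prod.mk.injEq] at h
    rw [hR]
    exact Prod.ext h.2.1 (by
      show T ω / 2 ^ (J - r) = T ω' / 2 ^ (J - r)
      rw [h.2.2])
  have b1 := CH_bayes hq0 zz (fun ω => (Sv ω, T ω)) R
  have b2 : CH q zz (fun ω => ((Sv ω, T ω), R ω)) ≤ CH q zz key :=
    CH_mono_cond hq0 fun ω ω' _ _ h => by
      rw [hR] at h
      simp only [Prod.mk.injEq] at h
      rw [hkey]
      exact Prod.ext h.1.1 (Prod.ext h.2.1 h.1.2)
  have b3 := CH_chain hq0 Sv T R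
  have b4 : CH q T R ≤ ((J : ℝ) - r) * Real.log 2 :=
    (CH_mono_cond hq0 fun ω ω' _ _ h => by
      rw [hR] at h
      exact (Prod.ext_iff.1 h).2).trans (cell_le hq hr T)
  have b5 : CH q Sv (fun ω => (T ω, R ω)) ≤ C :=
    (CH_mono_cond hq0 fun ω ω' _ _ h => by
      rw [hR] at h
      simp only [Prod.mk.injEq] at h
      exact Prod.ext h.2.1 h.1).trans h3
  have b6a : CH q T zz ≤ CH q T (fun ω => (zz ω, R ω)) :=
    CH_mono_cond hq0 fun ω ω' p1 p2 h => Prod.ext h (dz ω ω' p1 p2 h)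
  have b6b : CH q T (fun ω => (zz ω, R ω)) ≤
      CH q (fun ω => (Sv ω, T ω)) (fun ω => (zz ω, R ω)) :=
    CH_mono_left hq0 fun ω ω' _ _ h => by
      have h1 : (Sv ω, T ω) = (Sv ω', T ω') := (Prod.ext_iff.1 h).1
      exact (Prod.ext_iff.1 h1).2
  have b6 := b6a.trans b6b
  have hδ : CH q zz R ≤ CH q zz key + (S + 2 * C) := by linarith
  have c1 := Pool.TIE.two_ctx hq zz key R T dz dk hδ
  rw [← hkey]
  have hg : ∀ w, 0 ≤ glue q q key key w := fun w => glue_nonneg hq0 hq0 w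
  have c2 : CH (glue q q key key) (fun w => T w.1) (fun w => (zz w.2, zz w.1)) ≤
      CH (glue q q key key) (fun w => T w.1)
        (fun w => ((ln w.1, T w.1 / 2 ^ (J - r)), (ln w.2, T w.2 / 2 ^ (J - r)))) := by
    refine CH_mono_cond hg fun w w' _ _ h => ?_
    have e1 : wn w.1 = wn w'.1 := by
      rw [hzz] at h
      exact (Prod.ext_iff.1 (Prod.ext_iff.1 h).2).2
    have e2 : wn w.2 = wn w'.2 := by
      rw [hzz] at h
      exact (Prod.ext_iff.1 (Prod.ext_iff.1 h).1).2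
    rw [hwn] at e1 e2
    exact Prod.ext e1 e2
  linarith

/-! ### The facts for a pair of samples -/

/-- The facts on boxes. -/
noncomputable def vfs (n : ℕ) (bb δ δ' : ℝ) (gk gj gm : ℕ → ℕ) (Φk Φj Φm Φj' : ℕ → PN)
    (H H' : PN) : Fin n ⊕ (Fin n ⊕ Bool) → VF
  | .inl l => ⟨gk, Φk, l, if (l : ℕ) = 0 then 0 else Φj l - Φk l, bb / 2 ^ gj l⟩
  | .inr (.inl l) => ⟨gx gj gm, mxs gj gm Φj Φm, l, if (l : ℕ) = 0 then 0 else Φm l - Φj l,
      bb / 2 ^ min (gj l) (gm l)⟩
  | .inr (.inr true) => ⟨gj, Φj, n, osc gj Φj (lh gj Φj' n H' - lh gj Φj n H), δ'⟩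
  | .inr (.inr false) => ⟨gx gj gm, mxs gj gm Φj Φm, n,
      osc (gx gj gm) (mxs gj gm Φj Φm) (lh gj Φj n H - Φm n), δ⟩

/-- The facts on the path. -/
noncomputable def ufs (n : ℕ) (gj gm : ℕ → ℕ) (Φj Φm : ℕ → PN) : Fin n ⊕ Fin (n + 1) → PN × ℝ
  | .inl l => (if (l : ℕ) = 0 then 0 else X (l : ℕ) - Φj l, 1 / 2 ^ gj l)
  | .inr l => (if (l : ℕ) = 0 then 0 else X (l : ℕ) - Φm l, 1 / 2 ^ gm l)

/-- The bound of the degrees. -/
def kG (n K K₂ : ℕ) : ℕ := kN K K₂ * (K + 1) ^ (n + 1)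

theorem kN_le_kG (n K K₂ : ℕ) : kN K K₂ ≤ kG n K K₂ :=
  Nat.le_mul_of_pos_right _ (by positivity)

theorem K_le_kG (n K K₂ : ℕ) : K ≤ kG n K K₂ := (K_le_kN K K₂).trans (kN_le_kG n K K₂)

theorem one_le_kG (n K K₂ : ℕ) : 1 ≤ kG n K K₂ := by
  unfold kG kN
  exact Nat.succ_le_of_lt (by positivity)

section facts

variable {n K K₂ : ℕ} {bb δ δ' : ℝ} {gk gj gm : ℕ → ℕ} {Φk Φj Φm Φj' : ℕ → PN} {H H' : PN}

theorem vfs_ok (hn : 1 ≤ n) (hb : 0 < bb) (hδ : 0 < δ) (hδ' : 0 < δ') (tk : Tr K Φk)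
    (tj : Tr K Φj) (tm : Tr K Φm) (tj' : Tr K Φj') (dH : H.totalDegree ≤ K₂)
    (vH : H.vars ⊆ range n) (dH' : H'.totalDegree ≤ K₂) (vH' : H'.vars ⊆ range n)
    (a : Fin n ⊕ (Fin n ⊕ Bool)) :
    (vfs n bb δ δ' gk gj gm Φk Φj Φm Φj' H H' a).Ok n (kG n K K₂) := by
  have hK := K_le_kG n K K₂
  have tx := tr_mxs (g := gj) (g' := gm) tj tm
  have vl := lh_vars (g := gj) tj.tri vH
  have vl' := lh_vars (g := gj) tj'.tri vH'
  have dl := lh_deg (g := gj) (n := n) tj.deg dH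
  have dl' := lh_deg (g := gj) (n := n) tj'.deg dH'
  rcases a with l | l | c
  · refine ⟨Tr.mono tk hK, l.2.le, ?_, ?_, by unfold vfs; positivity⟩
    · unfold vfs
      dsimp only
      split_ifs
      · rw [vars_0]
        exact Finset.empty_subset _
      · exact AdxRow.vars_sub_le (tj.tri l) (tk.tri l)
    · unfold vfs
      dsimp only
      split_ifs
      · rw [totalDegree_zero]
        exact Nat.zero_le _
      · exact (totalDegree_sub _ _).trans (max_le ((tj.deg _).trans hK) ((tk.deg _).trans hK))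
  · refine ⟨Tr.mono tx hK, l.2.le, ?_, ?_, by unfold vfs; positivity⟩
    · unfold vfs
      dsimp only
      split_ifs
      · rw [vars_0]
        exact Finset.empty_subset _
      · exact AdxRow.vars_sub_le (tm.tri l) (tj.tri l)
    · unfold vfs
      dsimp only
      split_ifs
      · rw [totalDegree_zero]
        exact Nat.zero_le _
      · exact (totalDegree_sub _ _).trans (max_le ((tm.deg _).trans hK) ((tj.deg _).trans hK))
  · cases c
    · refine ⟨Tr.mono tx hK, le_rfl, ?_, ?_, hδ⟩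
      · exact osc_vars tx.tri hn (AdxRow.vars_sub_le vl (tm.tri n))
      · exact osc_deg tx (AdxRow.vars_sub_le vl (tm.tri n))
          ((totalDegree_sub _ _).trans (max_le dl ((tm.deg n).trans (K_le_kN K K₂))))
    · refine ⟨Tr.mono tj hK, le_rfl, ?_, ?_, hδ'⟩
      · exact osc_vars tj.tri hn (AdxRow.vars_sub_le vl' vl)
      · exact osc_deg tj (AdxRow.vars_sub_le vl' vl) ((totalDegree_sub _ _).trans (max_le dl' dl))

theorem ufs_ok (tj : Tr K Φj) (tm : Tr K Φm) (a : Fin n ⊕ Fin (n + 1)) :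
    (ufs n gj gm Φj Φm a).1.totalDegree ≤ kG n K K₂ ∧ 0 < (ufs n gj gm Φj Φm a).2 := by
  have hK := K_le_kG n K K₂
  have h1 := one_le_kG n K K₂
  rcases a with l | l
  · refine ⟨?_, by unfold ufs; positivity⟩
    unfold ufs
    dsimp only
    split_ifs
    · rw [totalDegree_zero]
      exact Nat.zero_le _
    · exact (totalDegree_sub _ _).trans (max_le (by rw [totalDegree_X]; exact h1)
        ((tj.deg _).trans hK))
  · refine ⟨?_, by unfold ufs; positivity⟩
    unfold ufs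
    dsimp only
    split_ifs
    · rw [totalDegree_zero]
      exact Nat.zero_le _
    · exact (totalDegree_sub _ _).trans (max_le (by rw [totalDegree_X]; exact h1)
        ((tm.deg _).trans hK))

/-- From the facts to the boxes. -/
theorem vfs_at {B z : ℕ} {τ : ℝ} (tj : Tr K Φj) (tm : Tr K Φm)
    (f1 : Nr B z (Et τ) gk gj Φk Φj n) (f2 : Mn B z (Et τ) gj gm Φj Φm n)
    (f4 : ∀ b, Bt 1 (Et τ) (gx gj gm) (mxs gj gm Φj Φm) n b →
      |eval b (lh gj Φj n H - Φm n) -
        eval (bz (gx gj gm) (mxs gj gm Φj Φm) τ) (lh gj Φj n H - Φm n)| ≤ δ)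
    (f6 : ∀ b, Bt 1 (Et τ) gj Φj n b → |eval b (lh gj Φj' n H' - lh gj Φj n H) -
      eval (bz gj Φj τ) (lh gj Φj' n H' - lh gj Φj n H)| ≤ δ')
    (a : Fin n ⊕ (Fin n ⊕ Bool)) :
    (vfs n (2 ^ (B * z)) δ δ' gk gj gm Φk Φj Φm Φj' H H' a).At τ 1 := by
  have tx := tr_mxs (g := gj) (g' := gm) tj tm
  rcases a with l | l | c
  · intro b hb
    change |eval b (if (l : ℕ) = 0 then 0 else Φj l - Φk l)| ≤ 1 * (2 ^ (B * z) / 2 ^ gj l)
    rw [one_mul]
    split_ifs with h0
    · rw [map_zero, abs_zero]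
      positivity
    · rw [map_sub]
      exact f1 l (by omega) l.2 b hb
  · intro b hb
    change |eval b (if (l : ℕ) = 0 then 0 else Φm l - Φj l)| ≤
      1 * (2 ^ (B * z) / 2 ^ min (gj l) (gm l))
    rw [one_mul]
    split_ifs with h0
    · rw [map_zero, abs_zero]
      positivity
    · rw [map_sub]
      exact f2 l (by omega) l.2 b hb
  · cases c
    · intro b hb
      change |eval b (osc (gx gj gm) (mxs gj gm Φj Φm) (lh gj Φj n H - Φm n))| ≤ 1 * δ
      have hb0 : b 0 = τ := hb.1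
      rw [one_mul, eval_osc tx.tri, hb0]
      exact f4 b hb
    · intro b hb
      change |eval b (osc gj Φj (lh gj Φj' n H' - lh gj Φj n H))| ≤ 1 * δ'
      have hb0 : b 0 = τ := hb.1
      rw [one_mul, eval_osc tj.tri, hb0]
      exact f6 b hb

/-- From the boxes back. -/
theorem vfs_out {B B₁ z : ℕ} {τ c : ℝ} (tj : Tr K Φj) (tm : Tr K Φm)
    (hc : c * 2 ^ (B * z) ≤ 2 ^ (B₁ * z))
    (h : ∀ a, (vfs n (2 ^ (B * z)) δ δ' gk gj gm Φk Φj Φm Φj' H H' a).At τ c) :
    Nr B₁ z (Et τ) gk gj Φk Φj n ∧ Mn B₁ z (Et τ) gj gm Φj Φm n ∧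
    (∀ b, Bt 1 (Et τ) (gx gj gm) (mxs gj gm Φj Φm) n b →
      |eval b (lh gj Φj n H - Φm n) -
        eval (bz (gx gj gm) (mxs gj gm Φj Φm) τ) (lh gj Φj n H - Φm n)| ≤ c * δ) ∧
    ∀ b, Bt 1 (Et τ) gj Φj n b → |eval b (lh gj Φj' n H' - lh gj Φj n H) -
      eval (bz gj Φj τ) (lh gj Φj' n H' - lh gj Φj n H)| ≤ c * δ' := by
  have tx := tr_mxs (g := gj) (g' := gm) tj tm
  refine ⟨fun l l1 l2 b hb => ?_, fun l l1 l2 b hb => ?_, fun b hb => ?_, fun b hb => ?_⟩
  · have h1 := h (.inl ⟨l, l2⟩) b hb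
    change |eval b (if l = 0 then 0 else Φj l - Φk l)| ≤ c * (2 ^ (B * z) / 2 ^ gj l) at h1
    rw [if_neg (by omega), map_sub, ← mul_div_assoc] at h1
    exact h1.trans (div_le_div_of_nonneg_right hc (by positivity))
  · have h1 := h (.inr (.inl ⟨l, l2⟩)) b hb
    change |eval b (if l = 0 then 0 else Φm l - Φj l)| ≤
      c * (2 ^ (B * z) / 2 ^ min (gj l) (gm l)) at h1
    rw [if_neg (by omega), map_sub, ← mul_div_assoc] at h1
    exact h1.trans (div_le_div_of_nonneg_right hc (by positivity))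
  · have h1 := h (.inr (.inr false)) b hb
    change |eval b (osc (gx gj gm) (mxs gj gm Φj Φm) (lh gj Φj n H - Φm n))| ≤ c * δ at h1
    have hb0 : b 0 = τ := hb.1
    rw [eval_osc tx.tri, hb0] at h1
    exact h1
  · have h1 := h (.inr (.inr true)) b hb
    change |eval b (osc gj Φj (lh gj Φj' n H' - lh gj Φj n H))| ≤ c * δ' at h1
    have hb0 : b 0 = τ := hb.1
    rw [eval_osc tj.tri, hb0] at h1
    exact h1

theorem ufs_at {x : ℕ → ℝ} (hj : ∀ l, 1 ≤ l → l < n → |x l - eval x (Φj l)| ≤ 1 / 2 ^ gj l)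
    (hm : ∀ l, 1 ≤ l → l ≤ n → |x l - eval x (Φm l)| ≤ 1 / 2 ^ gm l) (a : Fin n ⊕ Fin (n + 1)) :
    |eval x (ufs n gj gm Φj Φm a).1| ≤ (ufs n gj gm Φj Φm a).2 := by
  rcases a with l | l
  · change |eval x (if (l : ℕ) = 0 then 0 else X (l : ℕ) - Φj l)| ≤ 1 / 2 ^ gj l
    split_ifs with h0
    · rw [map_zero, abs_zero]
      positivity
    · rw [map_sub, eval_X]
      exact hj l (by omega) l.2
  · change |eval x (if (l : ℕ) = 0 then 0 else X (l : ℕ) - Φm l)| ≤ 1 / 2 ^ gm l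
    split_ifs with h0
    · rw [map_zero, abs_zero]
      positivity
    · rw [map_sub, eval_X]
      exact hm l (by omega) (Nat.lt_succ_iff.1 l.2)

theorem ufs_out {x : ℕ → ℝ} {c c₁ : ℝ} (hc : c ≤ c₁)
    (h : ∀ a, |eval x (ufs n gj gm Φj Φm a).1| ≤ c * (ufs n gj gm Φj Φm a).2) :
    (∀ l, 1 ≤ l → l < n → |x l - eval x (Φj l)| ≤ c₁ / 2 ^ gj l) ∧
    ∀ l, 1 ≤ l → l ≤ n → |x l - eval x (Φm l)| ≤ c₁ / 2 ^ gm l := by
  constructor
  · intro l l1 l2
    have h1 := h (.inl ⟨l, l2⟩)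
    change |eval x (if l = 0 then 0 else X l - Φj l)| ≤ c * (1 / 2 ^ gj l) at h1
    rw [if_neg (by omega), map_sub, eval_X, mul_one_div] at h1
    exact h1.trans (div_le_div_of_nonneg_right hc (by positivity))
  · intro l l1 l2
    have h1 := h (.inr ⟨l, by omega⟩)
    change |eval x (if l = 0 then 0 else X l - Φm l)| ≤ c * (1 / 2 ^ gm l) at h1
    rw [if_neg (by omega), map_sub, eval_X, mul_one_div] at h1
    exact h1.trans (div_le_div_of_nonneg_right hc (by positivity))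

end facts

end Pool.GLV
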