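import Pool.Agent.H19.TIE.RecB
import Pool.Agent.H88.TIE.GlvT

/-!
# Gluing with a visible polynomial at the exact time

The visible polynomial is a function of a record `Sv` of the exact point. The record contains the
exact time, so it is not a function of the line and of a cell up to few bits; but a coarser record
`ρ` is, and `Sv` is a function of `ρ` and of the time, up to few bits.

Two samples with the same records and the same time: the time is almost uniform given both lines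
and the cell. The facts at the exact time, those which compare the two line sides, and those of the
first sample, extend to the cell. The visible side of the new label is built from the line side of
the mate, which is chosen as a function of the records, so of the exact point.
-/

set_option autoImplicit false

namespace Pool.GLV

open Finset MvPolynomial
open Pool.Agent.H49.Ent Pool.Agent.H32.Dense Pool.STK Pool.KA Pool.STAT Pool.STAT.Glu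
open Pool.STAT.CLO
open Pool.BFL (Pb)
open Pool.TIE (mxs EvV MB)

theorem Mn.mono {B B' z : ℕ} {P : ℝ → Prop} {g g' : ℕ → ℕ} {S S' : ℕ → PN} {m : ℕ}
    (h : Mn B z P g g' S S' m) (hB : B ≤ B') : Mn B' z P g g' S S' m := fun l l1 l2 b hb =>
  (h l l1 l2 b hb).trans (div_le_div_of_nonneg_right (pw_le hB) (by positivity))

theorem Pb_compl {Ω : Type} [Fintype Ω] {q : Ω → ℝ} (hq : ∑ ω, q ω = 1) (A : Ω → Prop) :
    Pb q A + Pb q (fun ω => ¬ A ω) = 1 := by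
  classical
  unfold Pool.BFL.Pb
  rw [← Finset.sum_add_distrib, ← hq]
  refine Finset.sum_congr rfl fun ω _ => ?_
  by_cases h : A ω
  · rw [if_pos h, if_neg (not_not.2 h), add_zero]
  · rw [if_neg h, if_pos h, zero_add]

theorem Pb_mono' {Ω : Type} [Fintype Ω] {q : Ω → ℝ} (hq : ∀ ω, 0 ≤ q ω) {A A' : Ω → Prop}
    (h : ∀ ω, A ω → A' ω) : Pb q A ≤ Pb q A' := by
  classical
  unfold Pool.BFL.Pb
  refine Finset.sum_le_sum fun ω _ => ?_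
  by_cases h1 : A ω
  · rw [if_pos h1, if_pos (h ω h1)]
  · rw [if_neg h1]
    split_ifs
    · exact hq ω
    · exact le_rfl

/-- The visible side of the new label. -/
noncomputable def gnP (n : ℕ) (gj gm : ℕ → ℕ) (Φj' Ψj Ψm : ℕ → PN) (H' : PN) : PN :=
  lh gj Φj' n H' - bind₁ (bsp (gx gj gm) (mxs gj gm Ψj Ψm)) (lh gj Φj' n H' - Ψm n)

theorem eval_gnP {n K : ℕ} {gj gm : ℕ → ℕ} {Φj' Ψj Ψm : ℕ → PN} {H' : PN} (tj : Tr K Ψj)
    (tm : Tr K Ψm) (b : ℕ → ℝ) : eval b (gnP n gj gm Φj' Ψj Ψm H') =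
      eval b (lh gj Φj' n H') - eval (bz (gx gj gm) (mxs gj gm Ψj Ψm) (b 0)) (lh gj Φj' n H') +
        eval (bz (gx gj gm) (mxs gj gm Ψj Ψm) (b 0)) (Ψm n) := by
  have tx := tr_mxs (g := gj) (g' := gm) tj tm
  have e : (fun l => eval b (bsp (gx gj gm) (mxs gj gm Ψj Ψm) l)) =
      bz (gx gj gm) (mxs gj gm Ψj Ψm) (b 0) := funext fun l => eval_bsp tx.tri b l
  unfold gnP
  rw [map_sub, Pool.SYS35.eval_bind, e, map_sub]
  ring

theorem gnP_vars {n K K₂ : ℕ} {gj gm : ℕ → ℕ} {Φj' Ψj Ψm : ℕ → PN} {H' : PN} (hn : 1 ≤ n)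
    (tj : Tr K Ψj) (tm : Tr K Ψm) (tj' : Tr K Φj') (dH : H'.totalDegree ≤ K₂)
    (vH : H'.vars ⊆ range n) : (gnP n gj gm Φj' Ψj Ψm H').totalDegree ≤ kG n K K₂ ∧
      (gnP n gj gm Φj' Ψj Ψm H').vars ⊆ range n := by
  have tx := tr_mxs (g := gj) (g' := gm) tj tm
  have vl := lh_vars (g := gj) tj'.tri vH
  have dl := lh_deg (g := gj) (n := n) tj'.deg dH
  have v1 := AdxRow.vars_sub_le vl (tm.tri n)
  constructor
  · unfold gnP
    refine (totalDegree_sub _ _).trans (max_le (dl.trans (kN_le_kG n K K₂)) ?_)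
    refine (Dgb.deg_bind fun k hk => bsp_deg tx (mem_range.1 (v1 hk))).trans ?_
    exact Nat.mul_le_mul_right _
      ((totalDegree_sub _ _).trans (max_le dl ((tm.deg n).trans (K_le_kN K K₂))))
  · unfold gnP
    exact AdxRow.vars_sub_le vl (bnd_all fun k => bsp_vars tx.tri hn k)

/-- The arithmetic of the constants. -/
theorem ar_fin {x y y' X₀ z G gm gjR : ℕ} {CR c δ δ' : ℝ} (h8 : (8 : ℝ) ≤ 2 ^ z)
    (hCR : CR ≤ 2 ^ z) (hCR0 : 0 ≤ CR) (hc : c = CR * 2 ^ (2 * (X₀ * z)))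
    (h1 : G + (x + y + y' + 3 * X₀ + 4) * z ≤ gm) (h2 : G + (x + y + y' + 3 * X₀ + 4) * z ≤ gjR)
    (hδ : δ = 2 ^ (y * z) * (1 / 2 ^ gjR + 1 / 2 ^ gm)) (hδ' : δ' = 2 ^ (y' * z) * (1 / 2 ^ gjR)) :
    2 ^ (x * z) * (c * δ + c * δ' + 1 / 2 ^ gm) ≤ 1 / 2 ^ G := by
  obtain ⟨N, hN⟩ : ∃ N, N = G + (x + y + y' + 3 * X₀ + 4) * z := ⟨_, rfl⟩
  rw [← hN] at h1 h2
  have hsub : ∀ {a a' : ℕ}, a ≤ a' → (1 : ℝ) / 2 ^ a' ≤ 1 / 2 ^ a := fun h =>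
    one_div_le_one_div_of_le (by positivity) (pow_le_pow_right₀ (by norm_num) h)
  have w1 := hsub h1
  have w2 := hsub h2
  have o : (0 : ℝ) < 1 / 2 ^ N := by positivity
  have hc1 : c ≤ 2 ^ z * 2 ^ (2 * (X₀ * z)) := by
    rw [hc]
    exact mul_le_mul_of_nonneg_right hCR (by positivity)
  have hc0 : 0 ≤ c := by rw [hc]; positivity
  obtain ⟨P, hP⟩ : ∃ P : ℝ, P = 2 ^ z * 2 ^ (2 * (X₀ * z)) := ⟨_, rfl⟩
  have hP1 : 1 ≤ P := by
    rw [hP]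
    exact one_le_mul_of_one_le_of_one_le (by linarith) (one_le_pow₀ (by norm_num))
  rw [← hP] at hc1
  have hy : (1 : ℝ) ≤ 2 ^ (y * z) := one_le_pow₀ (by norm_num)
  have hy' : (1 : ℝ) ≤ 2 ^ (y' * z) := one_le_pow₀ (by norm_num)
  have d1 : δ ≤ 2 ^ (y * z) * (2 * (1 / 2 ^ N)) := by
    rw [hδ]
    exact mul_le_mul_of_nonneg_left (by linarith) (by positivity)
  have d2 : δ' ≤ 2 ^ (y' * z) * (1 / 2 ^ N) := by
    rw [hδ']
    exact mul_le_mul_of_nonneg_left w2 (by positivity)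
  have d3 : c * δ ≤ P * (2 ^ (y * z) * (2 * (1 / 2 ^ N))) :=
    mul_le_mul hc1 d1 (by rw [hδ]; positivity) (by linarith)
  have d4 : c * δ' ≤ P * (2 ^ (y' * z) * (1 / 2 ^ N)) :=
    mul_le_mul hc1 d2 (by rw [hδ']; positivity) (by linarith)
  obtain ⟨U, hU⟩ : ∃ U : ℝ, U = P * (2 ^ (y * z) * 2 ^ (y' * z)) := ⟨_, rfl⟩
  have u1 : P * (2 ^ (y * z) * (2 * (1 / 2 ^ N))) ≤ 2 * U * (1 / 2 ^ N) := by
    have : P * 2 ^ (y * z) * 1 ≤ P * 2 ^ (y * z) * 2 ^ (y' * z) :=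
      mul_le_mul_of_nonneg_left hy' (by positivity)
    have h3 : P * 2 ^ (y * z) ≤ U := by rw [hU]; linarith
    have h4 := mul_le_mul_of_nonneg_right h3 (by positivity : (0 : ℝ) ≤ 2 * (1 / 2 ^ N))
    linarith
  have u2 : P * (2 ^ (y' * z) * (1 / 2 ^ N)) ≤ U * (1 / 2 ^ N) := by
    have : P * 2 ^ (y' * z) * 1 ≤ P * 2 ^ (y' * z) * 2 ^ (y * z) :=
      mul_le_mul_of_nonneg_left hy (by positivity)
    have h3 : P * 2 ^ (y' * z) ≤ U := by rw [hU]; linarith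
    have h4 := mul_le_mul_of_nonneg_right h3 o.le
    linarith
  have u3 : (1 : ℝ) / 2 ^ gm ≤ U * (1 / 2 ^ N) := by
    have h3 : 1 ≤ U := by
      rw [hU]
      exact one_le_mul_of_one_le_of_one_le hP1 (one_le_mul_of_one_le_of_one_le hy hy')
    have h4 := mul_le_mul_of_nonneg_right h3 o.le
    linarith
  have u4 : c * δ + c * δ' + 1 / 2 ^ gm ≤ 4 * U * (1 / 2 ^ N) := by linarith
  refine (mul_le_mul_of_nonneg_left u4 (by positivity)).trans ?_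
  have e1 : (2 : ℝ) ^ N = 2 ^ G * (2 ^ (x * z) * U * (2 ^ (X₀ * z) * (2 ^ z * 2 ^ z * 2 ^ z))) := by
    rw [hN, hU, hP, ← pow_add, ← pow_add, ← pow_add, ← pow_add, ← pow_add, ← pow_add, ← pow_add,
      ← pow_add, ← pow_add]
    congr 1
    ring
  have hU0 : 0 < U := by rw [hU]; positivity
  have e2 : (2 : ℝ) ^ (x * z) * (4 * U * (1 / 2 ^ N)) =
      4 / (2 ^ (X₀ * z) * (2 ^ z * 2 ^ z * 2 ^ z)) * (1 / 2 ^ G) := by
    rw [e1]
    field_simp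
  rw [e2]
  have w5 : 4 / ((2 : ℝ) ^ (X₀ * z) * (2 ^ z * 2 ^ z * 2 ^ z)) ≤ 1 := by
    rw [div_le_one (by positivity)]
    have t0 : (1 : ℝ) ≤ 2 ^ (X₀ * z) := one_le_pow₀ (by norm_num)
    have t1 : (1 : ℝ) ≤ 2 ^ z := by linarith
    have t2 : (1 : ℝ) * 1 ≤ 2 ^ z * 2 ^ z := mul_le_mul t1 t1 zero_le_one (by positivity)
    have t3 : (1 : ℝ) * 1 * 4 ≤ 2 ^ z * 2 ^ z * 2 ^ z :=
      mul_le_mul t2 (by linarith) (by norm_num) (by positivity)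
    have t4 := mul_le_mul t0 t3 (by norm_num) (by positivity)
    linarith
  calc 4 / ((2 : ℝ) ^ (X₀ * z) * (2 ^ z * 2 ^ z * 2 ^ z)) * (1 / 2 ^ G) ≤ 1 * (1 / 2 ^ G) :=
        mul_le_mul_of_nonneg_right w5 (by positivity)
    _ = 1 / 2 ^ G := one_mul _

/-- **Gluing with a visible polynomial**, two records. -/
theorem gluV (n K K₂ K₃ B : ℕ) (C₃ c₁ : ℝ) (hn : 1 ≤ n) (hc₁ : 0 < c₁) (hC₃ : 0 ≤ C₃) :
    ∃ (CG K' : ℕ) (κ₀ η' : ℝ) (z₀ : ℕ), 0 < κ₀ ∧ 0 < η' ∧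
    ∀ (A J a₀ w₀ z M i j i' j' i₂ j₂ R : ℕ) (lam gam : ℕ → ℝ) (κ κ' C₁ : ℝ) (D : NDat2)
      (q : D.Ω → ℝ) (Ρ Ρ₀ : Type) (Sv : D.Ω → Ρ) (ρ : D.Ω → Ρ₀) (Vt : Ρ × ℕ → PN)
      (H : D.Λ × ℕ → PN), z₀ ≤ z →
      κ' ≤ κ₀ → i ≤ i₂ → i' ≤ i₂ → i₂ + CG ≤ M → j ≤ j₂ → j₂ ≤ M → j' ≤ M →
      D.Ok2 n K J a₀ w₀ z M lam gam κ C₁ q → D.TmU J w₀ z κ' q →
      (∀ x, (H x).totalDegree ≤ K₂) → (∀ x, (H x).vars ⊆ range n) →
      (∀ x, (Vt x).totalDegree ≤ K₃) → (∀ x, (Vt x).vars ⊆ range n) →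
      Det q D.pt Sv → Det q D.pt ρ → CH q ρ (D.wn J (a₀ + i₂ * z)) ≤ C₃ * z →
      CH q Sv (fun ω => (ρ ω, D.T ω)) ≤ C₃ * z →
      Det q (fun ω => (Sv ω, D.T ω)) (D.s i j) →
      (∀ l, 1 ≤ l → l < n → D.g i j l ≤ D.g i₂ j₂ l + B * z) →
      D.g i₂ j₂ n + (A + CG) * z ≤ D.g i' j' n → D.g i₂ j₂ n + (A + CG) * z ≤ D.g i j n + R →
      c₁ ≤ Pb q (EvV D n J w₀ z i j i' j' i₂ j₂ B Sv Vt H (1 / 2 ^ R)) →
      D.NewLab2 J a₀ w₀ z i₂ j₂ n A K' η' q := by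
  classical
  obtain ⟨C, hC, hd⟩ := dilB n K
  obtain ⟨C', hC', hd'⟩ := dilB n (kN K K₂)
  obtain ⟨C'', hC'', hd''⟩ := dilB n (kN K K₂ + K₃)
  obtain ⟨B', hconv⟩ := conv n K B
  obtain ⟨B'', hBB'', hmn⟩ := mn_conv n K B
  obtain ⟨y, hleaf⟩ := ex_leaf n K K₂ K₃ B hn
  obtain ⟨y', hpair⟩ := ex_pair n K K₂ K₃
  obtain ⟨CR, hCR, hrmz⟩ := rmz_facts n (kG n K K₂) hn (Fin n ⊕ (Fin n ⊕ Bool))
    (Fin n ⊕ Fin (n + 1)) (c₁ ^ 2) (by positivity)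
  obtain ⟨X₀, hX₀⟩ := exists_nat_ge (CR * (3 + 3 * C₃))
  obtain ⟨Bx, hBx⟩ : ∃ Bx, Bx = B' + B'' + B := ⟨_, rfl⟩
  obtain ⟨B₁, hB₁⟩ : ∃ B₁, B₁ = Bx + 2 * X₀ + 1 := ⟨_, rfl⟩
  obtain ⟨x, hfin⟩ := fin_pt n K K₂ B₁ hn
  obtain ⟨z₁, hz₁⟩ := exists_nat_ge (2 * C + 2 * C' + 2 * C'' + CR + 8)
  refine ⟨x + y + y' + 3 * X₀ + 4, kG n K K₂, 1, c₁ ^ 2 / 2, z₁, one_pos, by positivity, ?_⟩
  intro A J a₀ w₀ z M i j i' j' i₂ j₂ R lam gam κ κ' C₁ D q Ρ Ρ₀ Sv ρ Vt H hz hκ hii₂ hi'i₂ hi₂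
    hjj₂ hj₂ hj' hO hT hH hHv hV hVv hSp hρp hρw hSρ hSs s1 g1 g2 hE
  have hzz : (z₁ : ℝ) ≤ z := by exact_mod_cast hz
  have hzp : (z : ℝ) ≤ 2 ^ z := by exact_mod_cast Nat.lt_two_pow_self.le
  have hCz : 2 * C ≤ 2 ^ z := by linarith
  have hC'z : 2 * C' ≤ 2 ^ z := by linarith
  have hC''z : 2 * C'' ≤ 2 ^ z := by linarith
  have hCRz : CR ≤ 2 ^ z := by linarith
  have h8z : (8 : ℝ) ≤ 2 ^ z := by linarith
  have hz8 : (8 : ℝ) ≤ z := by linarith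
  have hz0 : (0 : ℝ) ≤ z := Nat.cast_nonneg z
  have hq := hO.isLaw
  have hq0 := hq.nonneg
  obtain ⟨zr, hzr⟩ : ∃ zr, zr = X₀ * z := ⟨_, rfl⟩
  have hM1 : i₂ * z + zr + z ≤ (M + 1) * z := by
    have h1 : i₂ + X₀ ≤ M := by omega
    have := Nat.mul_le_mul_right z h1
    rw [Nat.add_mul] at this
    rw [Nat.add_mul, Nat.one_mul]
    omega
  have hi₂M : i₂ ≤ M := by omega
  have hM2 : j₂ * z ≤ M * z := Nat.mul_le_mul_right z hj₂
  have hM3 : j' * z ≤ M * z := Nat.mul_le_mul_right z hj'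
  have hM4 : j * z ≤ j₂ * z := Nat.mul_le_mul_right z hjj₂
  have hM5 : i' * z ≤ i₂ * z := Nat.mul_le_mul_right z hi'i₂
  have hM6 : i * z ≤ i₂ * z := Nat.mul_le_mul_right z hii₂
  have hthin := hO.thin
  have htop := hO.top
  have hMM : (M + 1) * z = M * z + z := by ring
  obtain ⟨r, hr⟩ : ∃ r, r = a₀ + i₂ * z := ⟨_, rfl⟩
  have hrJ : r + zr ≤ J := by omega
  have hsub : ∀ {a a' : ℕ}, a ≤ a' → (1 : ℝ) / 2 ^ a' ≤ 1 / 2 ^ a := fun h =>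
    one_div_le_one_div_of_le (by positivity) (pow_le_pow_right₀ (by norm_num) h)
  have tr : ∀ i j ω, Tr K (D.Ψ i j ω) := fun i j ω => ⟨hO.G_tri _ _ _, hO.G_deg _ _ _⟩
  have tr' : ∀ i j ω, Tr K (D.Φ i j ω) := fun i j ω => ⟨hO.P_tri _ _ _, hO.P_deg _ _ _⟩
  have hX : ∀ ω, 0 < q ω → ∀ l ≤ n, pps (D.pa (D.ln ω)) (D.X ω 0) l = D.X ω l := by
    intro ω hω l hl
    by_cases h0 : l = 0
    · rw [h0, pps_zero]
    · unfold pps pth
      rw [if_neg h0]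
      exact (hO.str ω hω l hl).symm
  have hXe : ∀ ω, 0 < q ω → ∀ (F : PN) (m : ℕ), m ≤ n → F.vars ⊆ range m →
      eval (pps (D.pa (D.ln ω)) (D.X ω 0)) F = eval (D.X ω) F := fun ω hω F m hm hF =>
    Pool.SYS35.eval_congr hF fun l hl => hX ω hω l (by omega)
  have hcw : ∀ i ≤ M, ∀ j ≤ M, ∀ w, w₀ + j * z ≤ w → w ≤ J → Det q (D.wn J w) (D.Φ i j) := by
    intro i hi j hj w hw hwJ ω ω' h1 h2 e
    have e1 := hO.c_wn i hi j hj ω ω' h1 h2 (wn_det hw hwJ ω ω' h1 h2 e)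
    unfold NDat2.Φ
    rw [e1]
  have hln : ∀ w, Det q (D.wn J w) D.ln := fun w ω ω' _ _ e => (Prod.ext_iff.1 e).1
  -- two samples
  obtain ⟨key, hkey⟩ : ∃ key : D.Ω → Ρ × (Ρ₀ × ℕ), key = fun ω => (Sv ω, (ρ ω, D.T ω)) :=
    ⟨_, rfl⟩
  obtain ⟨Q, hQ⟩ : ∃ Q : D.Ω × D.Ω → ℝ, Q = glue q q key key := ⟨_, rfl⟩
  have hQ0 : ∀ w, 0 ≤ Q w := by
    rw [hQ]
    exact fun w => glue_nonneg hq0 hq0 w
  have hQl : IsLaw Q := ⟨hQ0, by rw [hQ, sum_glue hq0 (fun _ => rfl), hq.sum_one]⟩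
  have hsup : ∀ w, 0 < Q w → 0 < q w.1 ∧ 0 < q w.2 ∧ key w.1 = key w.2 := by
    intro w hw
    rw [hQ] at hw
    exact (glue_pos_iff hq0 hq0 w).1 hw
  have hTT : ∀ w, 0 < Q w → D.T w.2 = D.T w.1 := by
    intro w hw
    have := (hsup w hw).2.2
    rw [hkey] at this
    exact (Prod.ext_iff.1 (Prod.ext_iff.1 this).2).2.symm
  have hSS : ∀ w, 0 < Q w → Sv w.2 = Sv w.1 := by
    intro w hw
    have := (hsup w hw).2.2
    rw [hkey] at this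
    exact (Prod.ext_iff.1 this).1.symm
  have hXX : ∀ w, 0 < Q w → D.X w.2 0 = D.X w.1 0 := by
    intro w hw
    rw [hO.X_zero, hO.X_zero, hTT w hw]
  have hPP : ∀ w, 0 < Q w → D.Ψ i j w.2 = D.Ψ i j w.1 := by
    intro w hw
    have h1 := hSs w.2 w.1 (hsup w hw).2.1 (hsup w hw).1 (by
      show (Sv w.2, D.T w.2) = (Sv w.1, D.T w.1)
      rw [hSS w hw, hTT w hw])
    unfold NDat2.Ψ
    rw [h1]
  obtain ⟨lamb, hlamb⟩ : ∃ lamb : D.Ω × D.Ω → (D.Λ × ℕ) × (D.Λ × ℕ),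
    lamb = fun w => (D.wn J r w.1, D.wn J r w.2) := ⟨_, rfl⟩
  obtain ⟨δ, hδ⟩ : ∃ δ : ℝ, δ = 2 ^ (y * z) * (1 / 2 ^ R / 2 ^ D.g i j n + 1 / 2 ^ D.g i' j' n) :=
    ⟨_, rfl⟩
  obtain ⟨δ', hδ'⟩ : ∃ δ' : ℝ, δ' = 2 ^ (y' * z) * (1 / 2 ^ R / 2 ^ D.g i j n) := ⟨_, rfl⟩
  have hδ0 : 0 < δ := by rw [hδ]; positivity
  have hδ'0 : 0 < δ' := by rw [hδ']; positivity
  obtain ⟨v, hvd⟩ : ∃ v : Fin n ⊕ (Fin n ⊕ Bool) → D.Ω × D.Ω → VF, v = fun a w =>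
    vfs n (2 ^ (Bx * z)) δ δ' (D.g i₂ j₂) (D.g i j) (D.g i' j') (D.Φ i₂ j₂ w.1) (D.Φ i j w.1)
      (D.Φ i' j' w.1) (D.Φ i j w.2) (H (D.wn J (w₀ + j₂ * z) w.1))
      (H (D.wn J (w₀ + j₂ * z) w.2)) a := ⟨_, rfl⟩
  obtain ⟨u, hu⟩ : ∃ u : Fin n ⊕ Fin (n + 1) → D.Ω × D.Ω → PN × ℝ, u = fun a w =>
    ufs n (D.g i j) (D.g i' j') (D.Φ i j w.1) (D.Φ i' j' w.1) a := ⟨_, rfl⟩
  obtain ⟨Av, hAv⟩ : ∃ Av : D.Ω × D.Ω → Prop, Av = fun w =>
    EvV D n J w₀ z i j i' j' i₂ j₂ B Sv Vt H (1 / 2 ^ R) w.1 ∧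
      EvV D n J w₀ z i j i' j' i₂ j₂ B Sv Vt H (1 / 2 ^ R) w.2 := ⟨_, rfl⟩
  have hAP : c₁ ^ 2 ≤ Pb Q Av := by
    rw [hQ, hAv]
    exact (pow_le_pow_left₀ hc₁.le hE 2).trans (glue_sq hq0 hq.sum_one key _)
  -- the polynomials are functions of the two lines and of the cell
  have d1 : ∀ w w', lamb w = lamb w' → D.wn J r w.1 = D.wn J r w'.1 := by
    intro w w' e
    rw [hlamb] at e
    exact (Prod.ext_iff.1 e).1
  have d2 : ∀ w w', lamb w = lamb w' → D.wn J r w.2 = D.wn J r w'.2 := by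
    intro w w' e
    rw [hlamb] at e
    exact (Prod.ext_iff.1 e).2
  have hvdet : ∀ a, Det Q lamb (v a) := by
    intro a w w' h1 h2 e
    obtain ⟨p1, p2, -⟩ := hsup w h1
    obtain ⟨p1', p2', -⟩ := hsup w' h2
    have e1 := hcw i₂ hi₂M j₂ hj₂ r (by omega) (by omega) _ _ p1 p1' (d1 w w' e)
    have e2 := hcw i (by omega) j (by omega) r (by omega) (by omega) _ _ p1 p1' (d1 w w' e)
    have e3 := hcw i' (by omega) j' hj' r (by omega) (by omega) _ _ p1 p1' (d1 w w' e)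
    have e4 := hcw i (by omega) j (by omega) r (by omega) (by omega) _ _ p2 p2' (d2 w w' e)
    have e5 : D.wn J (w₀ + j₂ * z) w.1 = D.wn J (w₀ + j₂ * z) w'.1 :=
      wn_det (by omega) (by omega) _ _ p1 p1' (d1 w w' e)
    have e6 : D.wn J (w₀ + j₂ * z) w.2 = D.wn J (w₀ + j₂ * z) w'.2 :=
      wn_det (by omega) (by omega) _ _ p2 p2' (d2 w w' e)
    rw [hvd]
    beta_reduce
    rw [e1, e2, e3, e4, e5, e6]
  have hudet : ∀ a, Det Q lamb (u a) := by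
    intro a w w' h1 h2 e
    obtain ⟨p1, p2, -⟩ := hsup w h1
    obtain ⟨p1', p2', -⟩ := hsup w' h2
    have e2 := hcw i (by omega) j (by omega) r (by omega) (by omega) _ _ p1 p1' (d1 w w' e)
    have e3 := hcw i' (by omega) j' hj' r (by omega) (by omega) _ _ p1 p1' (d1 w w' e)
    rw [hu]
    beta_reduce
    rw [e2, e3]
  have hpdet : Det Q lamb (fun w => D.pa (D.ln w.1)) := by
    intro w w' h1 h2 e
    have e1 : D.ln w.1 = D.ln w'.1 := hln r _ _ (hsup w h1).1 (hsup w' h2).1 (d1 w w' e)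
    show D.pa (D.ln w.1) = D.pa (D.ln w'.1)
    rw [e1]
  have hvOk : ∀ a w, 0 < Q w → (v a w).Ok n (kG n K K₂) := by
    intro a w _
    rw [hvd]
    exact vfs_ok hn (by positivity) hδ0 hδ'0 (tr' _ _ _) (tr' _ _ _) (tr' _ _ _) (tr' _ _ _)
      (hH _) (hHv _) (hH _) (hHv _) a
  have huOk : ∀ a w, 0 < Q w → (u a w).1.totalDegree ≤ kG n K K₂ ∧ 0 < (u a w).2 := by
    intro a w _
    rw [hu]
    exact ufs_ok (tr' _ _ _) (tr' _ _ _) a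
  -- the nearness at the times of the cell
  have nr : ∀ (ω : D.Ω), 0 < q ω → ∀ (τ : ℝ), |τ - D.X ω 0| ≤ 1 / 2 ^ r → ∀ i ≤ i₂, ∀ j ≤ M,
      Nr 0 z (Et τ) (D.g i j) (D.g i j) (D.Ψ i j ω) (D.Φ i j ω) (n + 1) := by
    intro ω hω τ hτ i hi j hj
    refine nr_agr hO (hi.trans hi₂M) hj hω (hτ.trans (hsub ?_))
    have := Nat.mul_le_mul_right z hi
    omega
  -- the facts at the exact time
  have hat : ∀ w, 0 < Q w → Av w → (∀ a, (v a w).At ((D.T w.1 : ℝ) / 2 ^ J) 1) ∧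
      ∀ a, |eval (pps (D.pa (D.ln w.1)) ((D.T w.1 : ℝ) / 2 ^ J)) (u a w).1| ≤ (u a w).2 := by
    intro w hw hA
    rw [hAv] at hA
    obtain ⟨hev, hev'⟩ := hA
    obtain ⟨p1, p2, -⟩ := hsup w hw
    have z0 : |D.X w.1 0 - D.X w.1 0| ≤ 1 / 2 ^ r := by
      rw [sub_self, abs_zero]
      positivity
    have z0' : |D.X w.1 0 - D.X w.2 0| ≤ 1 / 2 ^ r := by
      rw [hXX w hw, sub_self, abs_zero]
      positivity
    have nk := (nr w.1 p1 _ z0 i₂ le_rfl j₂ hj₂).mono le_rfl (fun _ h => h) (Nat.le_succ n)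
    have nj := (nr w.1 p1 _ z0 i hii₂ j (by omega)).mono le_rfl (fun _ h => h) (Nat.le_succ n)
    have nm := nr w.1 p1 _ z0 i' hi'i₂ j' hj'
    have nj' := (nr w.2 p2 _ z0' i hii₂ j (by omega)).mono le_rfl (fun _ h => h) (Nat.le_succ n)
    rw [hPP w hw] at nj'
    rw [← hO.X_zero]
    have F1 := hconv C z (Et (D.X w.1 0)) (D.g i₂ j₂) (D.g i j) (D.Ψ i₂ j₂ w.1) (D.Φ i₂ j₂ w.1)
      (D.Ψ i j w.1) (D.Φ i j w.1) hC hd hCz (tr _ _ _) (tr' _ _ _) (tr _ _ _) (tr' _ _ _) s1 nk nj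
      hev.kj
    have jm : Mn B z (Et (D.X w.1 0)) (D.g i j) (D.g i' j') (D.Ψ i j w.1) (D.Ψ i' j' w.1) n :=
      fun l l1 l2 b hb => hev.jm l l1 l2 b hb
    have F2 := hmn C z (Et (D.X w.1 0)) (D.g i j) (D.g i' j') (D.Ψ i j w.1) (D.Ψ i' j' w.1)
      (D.Φ i j w.1) (D.Φ i' j' w.1) hC hd hCz (tr _ _ _) (tr _ _ _) (tr' _ _ _) (tr' _ _ _) jm nj
      (nm.mono le_rfl (fun _ h => h) (Nat.le_succ n))
    have F4 := hleaf C C'' z (D.X w.1 0) (D.g i j) (D.g i' j') (D.Ψ i j w.1) (D.Φ i j w.1)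
      (D.Ψ i' j' w.1) (D.Φ i' j' w.1) (H (D.wn J (w₀ + j₂ * z) w.1)) (Vt (Sv w.1, D.T w.1))
      (1 / 2 ^ R) hC hd hd'' hCz hC''z (tr _ _ _) (tr' _ _ _) (tr _ _ _) (tr' _ _ _) (hH _) (hHv _)
      (hV _) (hVv _) (by positivity) nj nm jm hev.vis (fun b b' hb hb' => hev.leaf b b' hb hb')
    have vis' := hev'.vis
    rw [hXX w hw, hSS w hw, hTT w hw] at vis'
    have F6 := hpair C C'' z (D.X w.1 0) (D.g i j) (D.Ψ i j w.1) (D.Φ i j w.1) (D.Φ i j w.2)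
      (H (D.wn J (w₀ + j₂ * z) w.1)) (H (D.wn J (w₀ + j₂ * z) w.2)) (Vt (Sv w.1, D.T w.1))
      (1 / 2 ^ R) hC hd hd'' hCz hC''z (tr _ _ _) (tr' _ _ _) (tr' _ _ _) (hH _) (hHv _) (hH _)
      (hHv _) (hV _) (hVv _) (by positivity) nj nj' hev.vis vis'
    constructor
    · intro a
      rw [hvd]
      refine vfs_at (tr' _ _ _) (tr' _ _ _) (F1.mono (by omega) (fun _ h => h) le_rfl)
        (F2.mono (by omega)) (fun b hb => ?_) (fun b hb => ?_) a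
      · have tx := tr_mxs (g := D.g i j) (g' := D.g i' j') (tr' i j w.1) (tr' i' j' w.1)
        have h1 := F4 b _ hb (bz_mem tx.tri _ zero_le_one n)
        rw [map_sub, map_sub, hδ]
        exact h1
      · have h1 := F6 b _ hb (bz_mem (tr' i j w.1).tri _ zero_le_one n)
        rw [map_sub, map_sub, hδ']
        exact h1
    · intro a
      rw [hu]
      refine ufs_at (fun l l1 l2 => ?_) (fun l l1 l2 => ?_) a
      · rw [hX _ p1 l l2.le, hXe _ p1 _ l l2.le ((tr' i j w.1).tri l)]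
        exact hO.hgt i (by omega) j (by omega) _ p1 l l2.le
      · rw [hX _ p1 l l2, hXe _ p1 _ l l2 ((tr' i' j' w.1).tri l)]
        exact hO.hgt i' (by omega) j' hj' _ p1 l l2
  -- Remez
  obtain ⟨E, hEd⟩ : ∃ E : ℝ, E = 2 * z + 3 * (C₃ * z) + 1 := ⟨_, rfl⟩
  have hE1 : 1 ≤ E := by
    have : 0 ≤ C₃ * z := mul_nonneg hC₃ hz0
    rw [hEd]
    linarith
  have hEz : CR * E ≤ (zr : ℕ) := by
    have h1 : E ≤ (3 + 3 * C₃) * z := by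
      rw [hEd]
      linarith
    have h2 : CR * E ≤ CR * ((3 + 3 * C₃) * z) := mul_le_mul_of_nonneg_left h1 (by linarith)
    have h3 := mul_le_mul_of_nonneg_right hX₀ hz0
    rw [hzr]
    push_cast
    linarith
  have htc := time_cell (r := r) hq (by omega) (by omega) hO.ln_w (S := κ' * z) hT
  have hκz : κ' * z ≤ z := by
    have := mul_le_mul_of_nonneg_right hκ hz0
    rwa [one_mul] at this
  have htm := tm_two (J := J) (r := r) (T := D.T) (ln := D.ln) (S := κ' * z) (C := C₃ * z) hq ρ Sv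
    (by omega) htc (by rw [← hr] at hρw; exact hρw) hSρ
  rw [← hkey, ← hQ] at htm
  obtain ⟨Bv, hB1, hB2, hB3⟩ := hrmz J r zr (D.Ω × D.Ω) ((D.Λ × ℕ) × (D.Λ × ℕ)) Q
    (fun w => D.T w.1) lamb Av E v u (fun w => D.pa (D.ln w.1)) hQl (fun w => hO.T_lt _) hrJ
    (fun w w' _ _ e => (Prod.ext_iff.1 (d1 w w' e)).2) hAP hE1 (by
      rw [hlamb, hEd]
      refine le_trans ?_ htm
      linarith) hEz hvdet hudet hpdet hvOk huOk
    (fun w _ l => (hO.pa_deg _ l).trans (K_le_kG n K K₂)) hat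
  -- the choice of the mate
  obtain ⟨ws, hws⟩ := Pool.TIE.sel_pb hq0 hq.sum_one key (fun ω ω' => ¬ Bv (ω, ω'))
  have hPB : c₁ ^ 2 / 2 ≤ Pb q (fun ω => Bv (ω, ws (key ω))) := by
    have h1 := Pb_compl hq.sum_one (fun ω => Bv (ω, ws (key ω)))
    have h2 := Pb_compl hQl.sum_one Bv
    rw [← hQ] at hws
    have h3 : Pb Q (fun w => ¬ Bv (w.1, w.2)) = Pb Q (fun w => ¬ Bv w) := rfl
    rw [h3] at hws
    linarith
  -- the label
  obtain ⟨Gn, hG1, hG2⟩ := detF (q := q) (X := D.pt) (Y := fun ω =>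
    gnP n (D.g i j) (D.g i' j') (D.Φ i j (ws (key ω))) (D.Ψ i j ω) (D.Ψ i' j' ω)
      (H (D.wn J (w₀ + j₂ * z) (ws (key ω))))) (0 : PN) (by
    intro ω ω' h1 h2 e
    have e1 := hO.s_pt i' (by omega) j' hj' ω ω' h1 h2 e
    have e2 := hO.s_pt i (by omega) j (by omega) ω ω' h1 h2 e
    have e3 := hO.pt_T ω ω' h1 h2 e
    have e4 := hSp ω ω' h1 h2 e
    have e5 := hρp ω ω' h1 h2 e
    have e6 : key ω = key ω' := by
      rw [hkey]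
      beta_reduce
      rw [e3, e4, e5]
    have e7 : D.Ψ i j ω = D.Ψ i j ω' := by
      unfold NDat2.Ψ
      rw [e2]
    have e8 : D.Ψ i' j' ω = D.Ψ i' j' ω' := by
      unfold NDat2.Ψ
      rw [e1]
    beta_reduce
    rw [e6, e7, e8])
  obtain ⟨Hn, hH1, hH2⟩ := detF (q := q) (X := D.wn J (w₀ + j₂ * z))
    (Y := fun ω => hN (D.g i j) (D.Φ i j ω) n (H (D.wn J (w₀ + j₂ * z) ω)) (D.pa (D.ln ω)))
    (0 : PN) (by
    intro ω ω' h1 h2 e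
    have e1 := hcw i (by omega) j (by omega) (w₀ + j₂ * z) (by omega) (by omega) ω ω' h1 h2 e
    have e2 : D.ln ω = D.ln ω' := hln _ ω ω' h1 h2 e
    show hN (D.g i j) (D.Φ i j ω) n (H (D.wn J (w₀ + j₂ * z) ω)) (D.pa (D.ln ω)) =
      hN (D.g i j) (D.Φ i j ω') n (H (D.wn J (w₀ + j₂ * z) ω')) (D.pa (D.ln ω'))
    rw [e1, e2, e])
  refine ⟨Gn, Hn, fun x => ?_, fun x => ?_, ?_⟩
  · rcases hG2 x with ⟨ω, _, h2⟩ | h2
    · rw [h2]
      exact gnP_vars hn (tr _ _ _) (tr _ _ _) (tr' _ _ _) (hH _) (hHv _)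
    · rw [h2, totalDegree_zero, vars_0]
      exact ⟨Nat.zero_le _, Finset.empty_subset _⟩
  · rcases hH2 x with ⟨ω, _, h2⟩ | h2
    · rw [h2]
      exact ⟨(hN_deg (tr' i j ω).deg (fun l => hO.pa_deg _ l) (hH _)).trans (kN_le_kG n K K₂),
        hN_vars hn (tr' i j ω).tri (hHv _)⟩
    · rw [h2, totalDegree_zero, vars_0]
      exact ⟨Nat.zero_le _, Finset.empty_subset _⟩
  · refine hPB.trans (Pb_mono' hq0 fun ω hω => ?_)
    obtain ⟨hQω, -⟩ := hB1 _ hω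
    obtain ⟨hω0, hω0', -⟩ := hsup _ hQω
    -- the estimate
    have main : ∀ b : ℕ → ℝ, D.NB i₂ j₂ (a₀ + i₂ * z) n ω b →
        |eval b (Gn (D.pt ω)) - Pool.STAT.Glu.hv (D.g i j) (D.Φ i j ω) n (H (D.wn J (w₀ + j₂ * z) ω)) b
          (pps (D.pa (D.ln ω)) (b 0))| ≤ 1 / 2 ^ (D.g i₂ j₂ n + A * z) := by
      intro b hb
      have hτ : |b 0 - D.X ω 0| ≤ 1 / 2 ^ r := by
        rw [hr]
        exact hb.1
      have hS := hB3 _ hω (b 0) (by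
        show |b 0 - (D.T ω : ℝ) / 2 ^ J| ≤ 1 / 2 ^ r
        rw [← hO.X_zero]
        exact hτ)
      obtain ⟨hS1, hS2⟩ := hS
      rw [hvd] at hS1
      rw [hu] at hS2
      have hcB : CR * 2 ^ (2 * zr) * 2 ^ (Bx * z) ≤ 2 ^ (B₁ * z) := by
        have e : (2 : ℝ) ^ (B₁ * z) = 2 ^ z * 2 ^ (2 * zr) * 2 ^ (Bx * z) := by
          rw [hB₁, hzr, ← pow_add, ← pow_add]
          congr 1
          ring
        rw [e]
        exact mul_le_mul_of_nonneg_right (mul_le_mul_of_nonneg_right hCRz (by positivity))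
          (by positivity)
      obtain ⟨o1, o2, o3, o4⟩ := vfs_out (tr' _ _ _) (tr' _ _ _) hcB hS1
      obtain ⟨o5, o6⟩ := ufs_out (c₁ := 2 ^ (B₁ * z)) (pow_le_pow_right₀ (by norm_num) (by
        rw [hB₁, hzr]
        have : (Bx + 2 * X₀ + 1) * z = Bx * z + 2 * (X₀ * z) + z := by ring
        omega)) hS2
      have h1 := hfin C C' z (b 0) (D.g i₂ j₂) (D.g i j) (D.g i' j') (D.Ψ i₂ j₂ ω) (D.Φ i₂ j₂ ω)
        (D.Ψ i j ω) (D.Φ i j ω) (D.Ψ i' j' ω) (D.Φ i' j' ω) (D.Φ i j (ws (key ω)))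
        (H (D.wn J (w₀ + j₂ * z) ω)) (H (D.wn J (w₀ + j₂ * z) (ws (key ω)))) (D.pa (D.ln ω))
        (CR * 2 ^ (2 * zr) * δ) (CR * 2 ^ (2 * zr) * δ') hC hd hd' hCz hC'z (tr _ _ _)
        (tr' _ _ _) (tr _ _ _) (tr' _ _ _) (tr _ _ _) (tr' _ _ _) (tr' _ _ _) (hH _) (hHv _)
        (hH _) (hHv _) (by positivity) (by positivity)
        (fun l l1 l2 => (s1 l l1 l2).trans
          (Nat.add_le_add_left (Nat.mul_le_mul_right _ (by omega)) _))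
        ((nr ω hω0 _ hτ i₂ le_rfl j₂ hj₂).mono le_rfl (fun _ h => h) (Nat.le_succ n))
        ((nr ω hω0 _ hτ i hii₂ j (by omega)).mono le_rfl (fun _ h => h) (Nat.le_succ n))
        (nr ω hω0 _ hτ i' hi'i₂ j' hj') o1 o2 o5 o6 o3 o4 b ⟨rfl, hb.2⟩
      rw [hG1 ω hω0, eval_gnP (tr _ _ _) (tr _ _ _)]
      refine h1.trans ?_
      refine ar_fin (y := y) (y' := y') (gjR := D.g i j n + R) h8z hCRz (by linarith) (by rw [hzr]) ?_ ?_ ?_ ?_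
      · have : (A + (x + y + y' + 3 * X₀ + 4)) * z = A * z + (x + y + y' + 3 * X₀ + 4) * z := by
          ring
        omega
      · have : (A + (x + y + y' + 3 * X₀ + 4)) * z = A * z + (x + y + y' + 3 * X₀ + 4) * z := by
          ring
        omega
      · rw [hδ, pow_add]
        congr 2
        rw [div_div, mul_comm]
      · rw [hδ', pow_add]
        congr 1
        rw [div_div, mul_comm]
    constructor
    · have hNB : D.NB i₂ j₂ (a₀ + i₂ * z) n ω (D.X ω) :=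
        ⟨by rw [sub_self, abs_zero]; positivity, fun l l1 l2 =>
          hO.pos i₂ hi₂M j₂ hj₂ ω hω0 l l1 l2.le⟩
      have h1 := main _ hNB
      have h2 : Pool.STAT.Glu.hv (D.g i j) (D.Φ i j ω) n (H (D.wn J (w₀ + j₂ * z) ω)) (D.X ω)
          (pps (D.pa (D.ln ω)) (D.X ω 0)) = D.X ω n := by
        rw [hv_lh, hXe ω hω0 _ n le_rfl (lh_vars (tr' i j ω).tri (hHv _)), hX ω hω0 n le_rfl]
        ring
      rw [h2, abs_sub_comm] at h1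
      exact h1
    · intro b hb
      rw [hH1 ω hω0, eval_hN]
      exact main b hb

/-- **Gluing with a visible polynomial**: the record is a function of finitely many labels at the
point, with radii at least that of the new label, and of the exact time. -/
theorem gluR (n K K₂ K₃ B N : ℕ) (C₁ c₁ : ℝ) (hn : 1 ≤ n) (hc₁ : 0 < c₁) :
    ∃ (CG K' : ℕ) (κ₀ η' : ℝ) (z₀ : ℕ), 0 < κ₀ ∧ 0 < η' ∧
    ∀ (A J a₀ w₀ z M i j i' j' i₂ j₂ R : ℕ) (lam gam : ℕ → ℝ) (κ κ' : ℝ) (D : NDat2)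
      (q : D.Ω → ℝ) (Ρ : Type) (ii jj : Fin N → ℕ) (Sv : D.Ω → Ρ) (Vt : Ρ × ℕ → PN)
      (H : D.Λ × ℕ → PN), z₀ ≤ z →
      κ' ≤ κ₀ → i ≤ i₂ → i' ≤ i₂ → i₂ + CG ≤ M → j ≤ j₂ → j₂ ≤ M → j' ≤ M →
      (∀ k, ii k ≤ i₂) → (∀ k, jj k ≤ M) →
      D.Ok2 n K J a₀ w₀ z M lam gam κ C₁ q → D.TmU J w₀ z κ' q →
      (∀ x, (H x).totalDegree ≤ K₂) → (∀ x, (H x).vars ⊆ range n) →
      (∀ x, (Vt x).totalDegree ≤ K₃) → (∀ x, (Vt x).vars ⊆ range n) →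
      Det q (fun ω => ((fun k => D.s (ii k) (jj k) ω), (D.s i j ω, D.T ω))) Sv →
      (∀ l, 1 ≤ l → l < n → D.g i j l ≤ D.g i₂ j₂ l + B * z) →
      D.g i₂ j₂ n + (A + CG) * z ≤ D.g i' j' n → D.g i₂ j₂ n + (A + CG) * z ≤ D.g i j n + R →
      c₁ ≤ Pb q (EvV D n J w₀ z i j i' j' i₂ j₂ B Sv Vt H (1 / 2 ^ R)) →
      D.NewLab2 J a₀ w₀ z i₂ j₂ n A K' η' q := by
  classical
  obtain ⟨C, hC0, hrec⟩ := Pool.TIE.rec_thm n K
  obtain ⟨C₃, hC₃⟩ : ∃ C₃ : ℝ, C₃ = (N + 1) * ((|C₁| + 1) * (C + 1)) := ⟨_, rfl⟩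
  have hN0 : (0 : ℝ) ≤ N := Nat.cast_nonneg N
  have hC₁a := abs_nonneg C₁
  have hC₃0 : 0 ≤ C₃ := by rw [hC₃]; positivity
  obtain ⟨CG, K', κ₀, η', z₀, hκ₀, hη', hglu⟩ := gluV n K K₂ K₃ B C₃ c₁ hn hc₁ hC₃0
  refine ⟨CG, K', κ₀, η', z₀ + 1, hκ₀, hη', ?_⟩
  intro A J a₀ w₀ z M i j i' j' i₂ j₂ R lam gam κ κ' D q Ρ ii jj Sv Vt H hz hκ hii₂ hi'i₂ hi₂
    hjj₂ hj₂ hj' hkk hkj hO hT hH hHv hV hVv hSv s1 g1 g2 hE
  have hq := hO.isLaw
  have hq0 := hq.nonneg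
  have hz1 : (1 : ℝ) ≤ z := by exact_mod_cast (by omega : 1 ≤ z)
  have hi₂M : i₂ ≤ M := by omega
  obtain ⟨I, hI⟩ : ∃ I : Fin (N + 1) → ℕ, I = Fin.cons i ii := ⟨_, rfl⟩
  obtain ⟨Jx, hJx⟩ : ∃ Jx : Fin (N + 1) → ℕ, Jx = Fin.cons j jj := ⟨_, rfl⟩
  have hI0 : I 0 = i := by rw [hI]; rfl
  have hJ0 : Jx 0 = j := by rw [hJx]; rfl
  have hIs : ∀ k : Fin N, I k.succ = ii k := fun k => by rw [hI]; rfl
  have hJs : ∀ k : Fin N, Jx k.succ = jj k := fun k => by rw [hJx]; rfl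
  have hIi : ∀ k, I k ≤ i₂ := by
    intro k
    refine Fin.cases ?_ (fun k => ?_) k
    · rw [hI0]
      exact hii₂
    · rw [hIs]
      exact hkk k
  have hJj : ∀ k, Jx k ≤ M := by
    intro k
    refine Fin.cases ?_ (fun k => ?_) k
    · rw [hJ0]
      omega
    · rw [hJs]
      exact hkj k
  have hr := fun k => hrec J a₀ w₀ z M lam gam κ C₁ D q (by omega) hO (I k)
    ((hIi k).trans hi₂M) (Jx k) (hJj k)
  obtain ⟨fs, hfs⟩ : ∃ fs : D.Ω → Fin (N + 1) → D.S, fs = fun ω k => D.s (I k) (Jx k) ω := ⟨_, rfl⟩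
  obtain ⟨ρ, hρ⟩ : ∃ ρ : D.Ω → Fin (N + 1) → (Fin (n + 1) → PN),
    ρ = fun ω k => Pool.TIE.rec D n K J (a₀ + I k * z) (I k) (Jx k) ω := ⟨_, rfl⟩
  have e0 : Det q fs (fun ω => (fun k => D.s (ii k) (jj k) ω, D.s i j ω)) := by
    intro ω ω' _ _ e
    rw [hfs] at e
    have h1 : ∀ k : Fin (N + 1), D.s (I k) (Jx k) ω = D.s (I k) (Jx k) ω' := fun k => congrFun e k
    refine Prod.ext (funext fun k => ?_) ?_
    · have := h1 k.succ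
      rw [hIs, hJs] at this
      exact this
    · have := h1 0
      rw [hI0, hJ0] at this
      exact this
  have e1 : Det q (fun ω => (fs ω, D.T ω)) (fun ω => (Sv ω, fs ω)) := by
    intro ω ω' h1 h2 e
    have h3 : fs ω = fs ω' := (Prod.ext_iff.1 e).1
    have h4 := e0 ω ω' h1 h2 h3
    refine Prod.ext (hSv ω ω' h1 h2 ?_) h3
    exact Prod.ext (Prod.ext_iff.1 h4).1 (Prod.ext (Prod.ext_iff.1 h4).2 (Prod.ext_iff.1 e).2)
  have e2 : Det q D.pt fs := by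
    intro ω ω' h1 h2 e
    rw [hfs]
    funext k
    exact hO.s_pt (I k) ((hIi k).trans hi₂M) (Jx k) (hJj k) ω ω' h1 h2 e
  have e3 : Det q D.pt (fun ω => (Sv ω, fs ω)) := fun ω ω' h1 h2 e =>
    e1 ω ω' h1 h2 (Prod.ext (e2 ω ω' h1 h2 e) (hO.pt_T ω ω' h1 h2 e))
  have e4 : Det q D.pt ρ := by
    intro ω ω' h1 h2 e
    rw [hρ]
    funext k
    exact (hr k).1 ω ω' h1 h2 (Prod.ext
      (hO.s_pt (I k) ((hIi k).trans hi₂M) (Jx k) (hJj k) ω ω' h1 h2 e) (hO.pt_T ω ω' h1 h2 e))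
  have e5 : Det q (fun ω => ((Sv ω, fs ω), D.T ω)) (D.s i j) := by
    intro ω ω' h1 h2 e
    have h3 : fs ω = fs ω' := (Prod.ext_iff.1 (Prod.ext_iff.1 e).1).2
    exact (Prod.ext_iff.1 (e0 ω ω' h1 h2 h3)).2
  have htop := hO.top
  have hM1 : i₂ * z ≤ M * z := Nat.mul_le_mul_right z hi₂M
  have hMM : (M + 1) * z = M * z + z := by ring
  have e6 : CH q ρ (D.wn J (a₀ + i₂ * z)) ≤ C₃ * z := by
    have h1 := Pool.K2S.CH_pi_le (c := C) hq0 (D.wn J (a₀ + i₂ * z)) (N + 1)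
      (fun k ω => Pool.TIE.rec D n K J (a₀ + I k * z) (I k) (Jx k) ω) (fun k => by
        refine le_trans (CH_mono_cond hq0 (wn_det ?_ ?_)) (hr k).2.1
        · have := Nat.mul_le_mul_right z (hIi k)
          omega
        · omega)
    rw [← hρ] at h1
    refine h1.trans ?_
    push_cast
    have h2 : C ≤ (|C₁| + 1) * (C + 1) := by nlinarith
    have h3 : ((N : ℝ) + 1) * C ≤ C₃ := by
      rw [hC₃]
      exact mul_le_mul_of_nonneg_left h2 (by positivity)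
    have h4 : C₃ * 1 ≤ C₃ * z := mul_le_mul_of_nonneg_left hz1 hC₃0
    linarith
  have e7 : CH q (fun ω => (Sv ω, fs ω)) (fun ω => (ρ ω, D.T ω)) ≤ C₃ * z := by
    have h1 := Pool.K2S.CH_pi_le (c := C₁ * (C + 1) * z) hq0 (fun ω => (ρ ω, D.T ω)) (N + 1)
      (fun k ω => D.s (I k) (Jx k) ω) (fun k => by
        refine le_trans (CH_mono_cond hq0 fun ω ω' _ _ e => ?_) (hr k).2.2
        have h2 : ρ ω = ρ ω' := (Prod.ext_iff.1 e).1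
        rw [hρ] at h2
        exact Prod.ext (congrFun h2 k) (Prod.ext_iff.1 e).2)
    rw [← hfs] at h1
    have h3 : CH q (fun ω => (Sv ω, fs ω)) (fun ω => (ρ ω, D.T ω)) ≤
        CH q fs (fun ω => (ρ ω, D.T ω)) :=
      CH_mono_left hq0 fun ω ω' p1 p2 e => by
        have h4 : fs ω = fs ω' := (Prod.ext_iff.1 e).1
        have h5 : D.T ω = D.T ω' := (Prod.ext_iff.1 (Prod.ext_iff.1 e).2).2
        exact e1 ω ω' p1 p2 (Prod.ext h4 h5)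
    refine h3.trans (h1.trans ?_)
    push_cast
    have h4 : C₁ * (C + 1) ≤ (|C₁| + 1) * (C + 1) :=
      mul_le_mul_of_nonneg_right ((le_abs_self C₁).trans (by linarith)) (by linarith)
    have h5 := mul_le_mul_of_nonneg_right h4 (by linarith : (0 : ℝ) ≤ z)
    have h6 := mul_le_mul_of_nonneg_left h5 (by linarith : (0 : ℝ) ≤ (N : ℝ) + 1)
    rw [hC₃]
    linarith
  refine hglu A J a₀ w₀ z M i j i' j' i₂ j₂ R lam gam κ κ' C₁ D q (Ρ × (Fin (N + 1) → D.S))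
    (Fin (N + 1) → (Fin (n + 1) → PN)) (fun ω => (Sv ω, fs ω)) ρ (fun x => Vt (x.1.1, x.2)) H
    (by omega) hκ hii₂ hi'i₂ hi₂ hjj₂ hj₂ hj' hO hT hH hHv (fun x => hV _) (fun x => hVv _) e3 e4
    e6 e7 e5 s1 g1 g2 (hE.trans (Pb_mono' hq0 fun ω h => ⟨h.kj, h.jm, h.vis, h.leaf⟩))

end Pool.GLV
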