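import Pool.Agent.H19.VAS.GluS
import Pool.Agent.H88.TIE.GluV
import Pool.Agent.H1.TIE.Sub

/-!
# Gluing with a visible polynomial on a sub-law

`gluW`: as `gluV`, for a law `q'` on an extension `f : Ω' → D.Ω`. The constants depend on the
probability of the event under `q'`, the loss is linear in the entropy of the records under `q'`.
`gluS`: the visible record is `(s i j, s 0 j)` and a function `U` of the exact point.
-/

set_option autoImplicit false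

namespace Pool.GLV

open Finset MvPolynomial
open Pool.Agent.H49.Ent Pool.Agent.H32.Dense Pool.STK Pool.KA Pool.STAT Pool.STAT.Glu
open Pool.STAT.CLO
open Pool.BFL (Pb)
open Pool.TIE (mxs EvV MB SubL)

theorem Nr.chg {B B' z z' : ℕ} {P : ℝ → Prop} {g g' : ℕ → ℕ} {S S' : ℕ → PN} {m : ℕ}
    (h : Nr B z P g g' S S' m) (hB : B * z ≤ B' * z') : Nr B' z' P g g' S S' m :=
  fun l l1 l2 b hb => (h l l1 l2 b hb).trans
    (div_le_div_of_nonneg_right (pow_le_pow_right₀ (by norm_num) hB) (by positivity))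

theorem Mn.chg {B B' z z' : ℕ} {P : ℝ → Prop} {g g' : ℕ → ℕ} {S S' : ℕ → PN} {m : ℕ}
    (h : Mn B z P g g' S S' m) (hB : B * z ≤ B' * z') : Mn B' z' P g g' S S' m :=
  fun l l1 l2 b hb => (h l l1 l2 b hb).trans
    (div_le_div_of_nonneg_right (pow_le_pow_right₀ (by norm_num) hB) (by positivity))

/-- The event of a new label. -/
def LbE (D : NDat2) (J a₀ w₀ z i j l A : ℕ) (Gn : D.Ξ → PN) (Hn : D.Λ × ℕ → PN) (ω : D.Ω) :
    Prop :=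
  |D.X ω l - eval (D.X ω) (Gn (D.pt ω))| ≤ 1 / 2 ^ (D.g i j l + A * z) ∧
    ∀ b : ℕ → ℝ, D.NB i j (a₀ + i * z) l ω b →
      |eval b (Gn (D.pt ω)) - eval b (Hn (D.wn J (w₀ + j * z) ω))| ≤
        1 / 2 ^ (D.g i j l + A * z)

/-- **Gluing with a visible polynomial on a sub-law.** -/
theorem gluW (n K K₂ K₃ B : ℕ) (c : ℝ) (hn : 1 ≤ n) (hc : 0 < c) :
    ∃ Cg : ℕ, ∀ X₃ : ℕ, ∃ z₀ : ℕ,
    ∀ (A J a₀ w₀ z M i j i' j' i₂ j₂ R : ℕ) (lam gam : ℕ → ℝ) (κ C₁ : ℝ) (D : NDat2)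
      (q : D.Ω → ℝ) (Ω' : Type) [Fintype Ω'] (q' : Ω' → ℝ) (f : Ω' → D.Ω) (Ρ Ρ₀ : Type)
      (Sv : D.Ω → Ρ) (ρ : D.Ω → Ρ₀) (Vt : Ρ × ℕ → PN) (H : D.Λ × ℕ → PN), z₀ ≤ z →
      i ≤ i₂ → i' ≤ i₂ → i₂ + Cg * (X₃ + 1) ≤ M → j ≤ j₂ → j₂ ≤ M → j' ≤ M →
      D.Ok2 n K J a₀ w₀ z M lam gam κ C₁ q → IsLaw q' → (∀ v, 0 < q' v → 0 < q (f v)) →
      (∀ x, (H x).totalDegree ≤ K₂) → (∀ x, (H x).vars ⊆ range n) →
      (∀ x, (Vt x).totalDegree ≤ K₃) → (∀ x, (Vt x).vars ⊆ range n) →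
      Det q D.pt Sv → Det q D.pt ρ → Det q (fun ω => (Sv ω, D.T ω)) (D.s i j) →
      ((J : ℝ) - (a₀ + i₂ * z : ℕ)) * Real.log 2 - X₃ * z ≤
        CH q' (fun v => D.T (f v)) (fun v => D.wn J (a₀ + i₂ * z) (f v)) →
      CH q' (fun v => ρ (f v)) (fun v => D.wn J (a₀ + i₂ * z) (f v)) ≤ X₃ * z →
      CH q' (fun v => Sv (f v)) (fun v => (ρ (f v), D.T (f v))) ≤ X₃ * z →
      (∀ l, 1 ≤ l → l < n → D.g i j l ≤ D.g i₂ j₂ l + B * z) →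
      D.g i₂ j₂ n + (A + Cg * (X₃ + 1)) * z ≤ D.g i' j' n →
      D.g i₂ j₂ n + (A + Cg * (X₃ + 1)) * z ≤ D.g i j n + R →
      c ≤ Pb q' (fun v => EvV D n J w₀ z i j i' j' i₂ j₂ B Sv Vt H (1 / 2 ^ R) (f v)) →
      ∃ (Gn : D.Ξ → PN) (Hn : D.Λ × ℕ → PN),
        (∀ x, (Gn x).totalDegree ≤ kG n K K₂ ∧ (Gn x).vars ⊆ range n) ∧
        (∀ x, (Hn x).totalDegree ≤ kG n K K₂ ∧ (Hn x).vars ⊆ range n) ∧
        c ^ 2 / 2 ≤ Pb q' (fun v => LbE D J a₀ w₀ z i₂ j₂ n A Gn Hn (f v)) := by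
  classical
  obtain ⟨C, hC, hd⟩ := dilB n K
  obtain ⟨C', hC', hd'⟩ := dilB n (kN K K₂)
  obtain ⟨C'', hC'', hd''⟩ := dilB n (kN K K₂ + K₃)
  obtain ⟨B', hconv⟩ := conv n K B
  obtain ⟨B'', hBB'', hmn⟩ := mn_conv n K B
  obtain ⟨y, hleaf⟩ := ex_leaf n K K₂ K₃ B hn
  obtain ⟨y', hpair⟩ := ex_pair n K K₂ K₃
  obtain ⟨CR, hCR, hrmz⟩ := rmz_facts n (kG n K K₂) hn (Fin n ⊕ (Fin n ⊕ Bool))
    (Fin n ⊕ Fin (n + 1)) (c ^ 2) (by positivity)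
  obtain ⟨X₀, hX₀⟩ := exists_nat_ge (CR * 6)
  obtain ⟨Bx, hBx⟩ : ∃ Bx, Bx = B' + B'' + B := ⟨_, rfl⟩
  obtain ⟨B₁, hB₁⟩ : ∃ B₁, B₁ = Bx + 2 * X₀ + 1 := ⟨_, rfl⟩
  obtain ⟨x, hfin⟩ := fin_pt n K K₂ B₁ hn
  obtain ⟨z₁, hz₁⟩ := exists_nat_ge (2 * C + 2 * C' + 2 * C'' + CR + 8)
  obtain ⟨Cg, hCg⟩ : ∃ Cg, Cg = x + y + y' + 3 * X₀ + 4 := ⟨_, rfl⟩
  refine ⟨Cg, fun X₃ => ⟨z₁, ?_⟩⟩
  intro A J a₀ w₀ z M i j i' j' i₂ j₂ R lam gam κ C₁ D q Ω' _ q' f Ρ Ρ₀ Sv ρ Vt H hz hii₂ hi'i₂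
    hi₂ hjj₂ hj₂ hj' hO hq' hfq hH hHv hV hVv hSp hρp hSs hTm hρw hSρ s1 g1 g2 hE
  have hzz : (z₁ : ℝ) ≤ z := by exact_mod_cast hz
  have hzp : (z : ℝ) ≤ 2 ^ z := by exact_mod_cast Nat.lt_two_pow_self.le
  have hCz : 2 * C ≤ 2 ^ z := by linarith
  have hC'z : 2 * C' ≤ 2 ^ z := by linarith
  have hC''z : 2 * C'' ≤ 2 ^ z := by linarith
  have hCRz : CR ≤ 2 ^ z := by linarith
  have h8z : (8 : ℝ) ≤ 2 ^ z := by linarith
  have hz8 : (8 : ℝ) ≤ z := by linarith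
  have hz0 : (0 : ℝ) ≤ z := Nat.cast_nonneg z
  have hq := hO.isLaw
  have hq0 := hq.nonneg
  have hf0 : ∀ v, 0 ≤ q' v := hq'.nonneg
  obtain ⟨zp, hzp'⟩ : ∃ zp, zp = (X₃ + 1) * z := ⟨_, rfl⟩
  have hzzp : z ≤ zp := by
    rw [hzp']
    exact Nat.le_mul_of_pos_left _ (Nat.succ_pos _)
  have h2zp : (2 : ℝ) ^ z ≤ 2 ^ zp := pow_le_pow_right₀ (by norm_num) hzzp
  have hch : ∀ {a a' : ℕ}, a ≤ a' → a * z ≤ a' * zp := fun h => Nat.mul_le_mul h hzzp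
  obtain ⟨zr, hzr⟩ : ∃ zr, zr = X₀ * zp := ⟨_, rfl⟩
  have hM1 : i₂ * z + zr + z ≤ (M + 1) * z := by
    have h1 : i₂ + X₀ * (X₃ + 1) ≤ M := by
      have h2 : X₀ * (X₃ + 1) ≤ Cg * (X₃ + 1) := Nat.mul_le_mul_right _ (by omega)
      omega
    have h2 := Nat.mul_le_mul_right z h1
    rw [Nat.add_mul, Nat.mul_assoc, ← hzp', ← hzr] at h2
    rw [Nat.add_mul, Nat.one_mul]
    omega
  have hi₂M : i₂ ≤ M := by omega
  have hM2 : j₂ * z ≤ M * z := Nat.mul_le_mul_right z hj₂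
  have hM3 : j' * z ≤ M * z := Nat.mul_le_mul_right z hj'
  have hM4 : j * z ≤ j₂ * z := Nat.mul_le_mul_right z hjj₂
  have hM5 : i' * z ≤ i₂ * z := Nat.mul_le_mul_right z hi'i₂
  have hM6 : i * z ≤ i₂ * z := Nat.mul_le_mul_right z hii₂
  have hthin := hO.thin
  have htop := hO.top
  have hMM : (M + 1) * z = M * z + z := by ring
  obtain ⟨r, hr⟩ : ∃ r, r = a₀ + i₂ * z := ⟨_, rfl⟩
  have hrJ : r + zr ≤ J := by omega
  have hsub : ∀ {a a' : ℕ}, a ≤ a' → (1 : ℝ) / 2 ^ a' ≤ 1 / 2 ^ a := fun h =>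
    one_div_le_one_div_of_le (by positivity) (pow_le_pow_right₀ (by norm_num) h)
  have tr : ∀ i j ω, Tr K (D.Ψ i j ω) := fun i j ω => ⟨hO.G_tri _ _ _, hO.G_deg _ _ _⟩
  have tr' : ∀ i j ω, Tr K (D.Φ i j ω) := fun i j ω => ⟨hO.P_tri _ _ _, hO.P_deg _ _ _⟩
  have hX : ∀ ω, 0 < q ω → ∀ l ≤ n, pps (D.pa (D.ln ω)) (D.X ω 0) l = D.X ω l := by
    intro ω hω l hl
    by_cases h0 : l = 0
    · rw [h0, pps_zero]
    · unfold pps pth
      rw [if_neg h0]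
      exact (hO.str ω hω l hl).symm
  have hXe : ∀ ω, 0 < q ω → ∀ (F : PN) (m : ℕ), m ≤ n → F.vars ⊆ range m →
      eval (pps (D.pa (D.ln ω)) (D.X ω 0)) F = eval (D.X ω) F := fun ω hω F m hm hF =>
    Pool.SYS35.eval_congr hF fun l hl => hX ω hω l (by omega)
  have hcw : ∀ i ≤ M, ∀ j ≤ M, ∀ w, w₀ + j * z ≤ w → w ≤ J → Det q (D.wn J w) (D.Φ i j) := by
    intro i hi j hj w hw hwJ ω ω' h1 h2 e
    have e1 := hO.c_wn i hi j hj ω ω' h1 h2 (wn_det hw hwJ ω ω' h1 h2 e)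
    unfold NDat2.Φ
    rw [e1]
  have hln : ∀ w, Det q (D.wn J w) D.ln := fun w ω ω' _ _ e => (Prod.ext_iff.1 e).1
  -- two samples
  obtain ⟨kyo, hkyo⟩ : ∃ kyo : D.Ω → Ρ × (Ρ₀ × ℕ), kyo = fun ω => (Sv ω, (ρ ω, D.T ω)) :=
    ⟨_, rfl⟩
  obtain ⟨key, hkey⟩ : ∃ key : Ω' → Ρ × (Ρ₀ × ℕ), key = fun v => kyo (f v) := ⟨_, rfl⟩
  obtain ⟨Q, hQ⟩ : ∃ Q : Ω' × Ω' → ℝ, Q = glue q' q' key key := ⟨_, rfl⟩
  have hQ0 : ∀ w, 0 ≤ Q w := by
    rw [hQ]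
    exact fun w => glue_nonneg hf0 hf0 w
  have hQl : IsLaw Q := ⟨hQ0, by rw [hQ, sum_glue hf0 (fun _ => rfl), hq'.sum_one]⟩
  have hsup' : ∀ w, 0 < Q w → 0 < q' w.1 ∧ 0 < q' w.2 ∧ key w.1 = key w.2 := by
    intro w hw
    rw [hQ] at hw
    exact (glue_pos_iff hf0 hf0 w).1 hw
  have hsup : ∀ w, 0 < Q w → 0 < q (f w.1) ∧ 0 < q (f w.2) ∧ kyo (f w.1) = kyo (f w.2) := by
    intro w hw
    obtain ⟨h1, h2, h3⟩ := hsup' w hw
    rw [hkey] at h3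
    exact ⟨hfq _ h1, hfq _ h2, h3⟩
  have hTT : ∀ w, 0 < Q w → D.T (f w.2) = D.T (f w.1) := by
    intro w hw
    have := (hsup w hw).2.2
    rw [hkyo] at this
    exact (Prod.ext_iff.1 (Prod.ext_iff.1 this).2).2.symm
  have hSS : ∀ w, 0 < Q w → Sv (f w.2) = Sv (f w.1) := by
    intro w hw
    have := (hsup w hw).2.2
    rw [hkyo] at this
    exact (Prod.ext_iff.1 this).1.symm
  have hXX : ∀ w, 0 < Q w → D.X (f w.2) 0 = D.X (f w.1) 0 := by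
    intro w hw
    rw [hO.X_zero, hO.X_zero, hTT w hw]
  have hPP : ∀ w, 0 < Q w → D.Ψ i j (f w.2) = D.Ψ i j (f w.1) := by
    intro w hw
    have h1 := hSs (f w.2) (f w.1) (hsup w hw).2.1 (hsup w hw).1 (by
      show (Sv (f w.2), D.T (f w.2)) = (Sv (f w.1), D.T (f w.1))
      rw [hSS w hw, hTT w hw])
    unfold NDat2.Ψ
    rw [h1]
  obtain ⟨lamb, hlamb⟩ : ∃ lamb : Ω' × Ω' → (D.Λ × ℕ) × (D.Λ × ℕ),
    lamb = fun w => (D.wn J r (f w.1), D.wn J r (f w.2)) := ⟨_, rfl⟩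
  obtain ⟨δ, hδ⟩ : ∃ δ : ℝ, δ = 2 ^ (y * zp) * (1 / 2 ^ R / 2 ^ D.g i j n +
    1 / 2 ^ D.g i' j' n) := ⟨_, rfl⟩
  obtain ⟨δ', hδ'⟩ : ∃ δ' : ℝ, δ' = 2 ^ (y' * zp) * (1 / 2 ^ R / 2 ^ D.g i j n) := ⟨_, rfl⟩
  have hδ0 : 0 < δ := by rw [hδ]; positivity
  have hδ'0 : 0 < δ' := by rw [hδ']; positivity
  obtain ⟨v, hvd⟩ : ∃ v : Fin n ⊕ (Fin n ⊕ Bool) → Ω' × Ω' → VF, v = fun a w =>
    vfs n (2 ^ (Bx * zp)) δ δ' (D.g i₂ j₂) (D.g i j) (D.g i' j') (D.Φ i₂ j₂ (f w.1))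
      (D.Φ i j (f w.1)) (D.Φ i' j' (f w.1)) (D.Φ i j (f w.2))
      (H (D.wn J (w₀ + j₂ * z) (f w.1))) (H (D.wn J (w₀ + j₂ * z) (f w.2))) a := ⟨_, rfl⟩
  obtain ⟨u, hu⟩ : ∃ u : Fin n ⊕ Fin (n + 1) → Ω' × Ω' → PN × ℝ, u = fun a w =>
    ufs n (D.g i j) (D.g i' j') (D.Φ i j (f w.1)) (D.Φ i' j' (f w.1)) a := ⟨_, rfl⟩
  obtain ⟨Av, hAv⟩ : ∃ Av : Ω' × Ω' → Prop, Av = fun w =>
    EvV D n J w₀ z i j i' j' i₂ j₂ B Sv Vt H (1 / 2 ^ R) (f w.1) ∧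
      EvV D n J w₀ z i j i' j' i₂ j₂ B Sv Vt H (1 / 2 ^ R) (f w.2) := ⟨_, rfl⟩
  have hAP : c ^ 2 ≤ Pb Q Av := by
    rw [hQ, hAv]
    exact (pow_le_pow_left₀ hc.le hE 2).trans (glue_sq hf0 hq'.sum_one key _)
  -- the polynomials are functions of the two lines and of the cell
  have d1 : ∀ w w', lamb w = lamb w' → D.wn J r (f w.1) = D.wn J r (f w'.1) := by
    intro w w' e
    rw [hlamb] at e
    exact (Prod.ext_iff.1 e).1
  have d2 : ∀ w w', lamb w = lamb w' → D.wn J r (f w.2) = D.wn J r (f w'.2) := by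
    intro w w' e
    rw [hlamb] at e
    exact (Prod.ext_iff.1 e).2
  have hvdet : ∀ a, Det Q lamb (v a) := by
    intro a w w' h1 h2 e
    obtain ⟨p1, p2, -⟩ := hsup w h1
    obtain ⟨p1', p2', -⟩ := hsup w' h2
    have e1 := hcw i₂ hi₂M j₂ hj₂ r (by omega) (by omega) _ _ p1 p1' (d1 w w' e)
    have e2 := hcw i (by omega) j (by omega) r (by omega) (by omega) _ _ p1 p1' (d1 w w' e)
    have e3 := hcw i' (by omega) j' hj' r (by omega) (by omega) _ _ p1 p1' (d1 w w' e)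
    have e4 := hcw i (by omega) j (by omega) r (by omega) (by omega) _ _ p2 p2' (d2 w w' e)
    have e5 : D.wn J (w₀ + j₂ * z) (f w.1) = D.wn J (w₀ + j₂ * z) (f w'.1) :=
      wn_det (by omega) (by omega) _ _ p1 p1' (d1 w w' e)
    have e6 : D.wn J (w₀ + j₂ * z) (f w.2) = D.wn J (w₀ + j₂ * z) (f w'.2) :=
      wn_det (by omega) (by omega) _ _ p2 p2' (d2 w w' e)
    rw [hvd]
    beta_reduce
    rw [e1, e2, e3, e4, e5, e6]
  have hudet : ∀ a, Det Q lamb (u a) := by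
    intro a w w' h1 h2 e
    obtain ⟨p1, p2, -⟩ := hsup w h1
    obtain ⟨p1', p2', -⟩ := hsup w' h2
    have e2 := hcw i (by omega) j (by omega) r (by omega) (by omega) _ _ p1 p1' (d1 w w' e)
    have e3 := hcw i' (by omega) j' hj' r (by omega) (by omega) _ _ p1 p1' (d1 w w' e)
    rw [hu]
    beta_reduce
    rw [e2, e3]
  have hpdet : Det Q lamb (fun w => D.pa (D.ln (f w.1))) := by
    intro w w' h1 h2 e
    have e1 : D.ln (f w.1) = D.ln (f w'.1) := hln r _ _ (hsup w h1).1 (hsup w' h2).1 (d1 w w' e)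
    show D.pa (D.ln (f w.1)) = D.pa (D.ln (f w'.1))
    rw [e1]
  have hvOk : ∀ a w, 0 < Q w → (v a w).Ok n (kG n K K₂) := by
    intro a w _
    rw [hvd]
    exact vfs_ok hn (by positivity) hδ0 hδ'0 (tr' _ _ _) (tr' _ _ _) (tr' _ _ _) (tr' _ _ _)
      (hH _) (hHv _) (hH _) (hHv _) a
  have huOk : ∀ a w, 0 < Q w → (u a w).1.totalDegree ≤ kG n K K₂ ∧ 0 < (u a w).2 := by
    intro a w _
    rw [hu]
    exact ufs_ok (tr' _ _ _) (tr' _ _ _) a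
  -- the nearness at the times of the cell
  have nr : ∀ (ω : D.Ω), 0 < q ω → ∀ (τ : ℝ), |τ - D.X ω 0| ≤ 1 / 2 ^ r → ∀ i ≤ i₂, ∀ j ≤ M,
      Nr 0 z (Et τ) (D.g i j) (D.g i j) (D.Ψ i j ω) (D.Φ i j ω) (n + 1) := by
    intro ω hω τ hτ i hi j hj
    refine nr_agr hO (hi.trans hi₂M) hj hω (hτ.trans (hsub ?_))
    have := Nat.mul_le_mul_right z hi
    omega
  -- the facts at the exact time
  have hat : ∀ w, 0 < Q w → Av w → (∀ a, (v a w).At ((D.T (f w.1) : ℝ) / 2 ^ J) 1) ∧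
      ∀ a, |eval (pps (D.pa (D.ln (f w.1))) ((D.T (f w.1) : ℝ) / 2 ^ J)) (u a w).1| ≤ (u a w).2 := by
    intro w hw hA
    rw [hAv] at hA
    obtain ⟨hev, hev'⟩ := hA
    obtain ⟨p1, p2, -⟩ := hsup w hw
    have z0 : |D.X (f w.1) 0 - D.X (f w.1) 0| ≤ 1 / 2 ^ r := by
      rw [sub_self, abs_zero]
      positivity
    have z0' : |D.X (f w.1) 0 - D.X (f w.2) 0| ≤ 1 / 2 ^ r := by
      rw [hXX w hw, sub_self, abs_zero]
      positivity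
    have nk := (nr (f w.1) p1 _ z0 i₂ le_rfl j₂ hj₂).mono le_rfl (fun _ h => h) (Nat.le_succ n)
    have nj := (nr (f w.1) p1 _ z0 i hii₂ j (by omega)).mono le_rfl (fun _ h => h) (Nat.le_succ n)
    have nm := nr (f w.1) p1 _ z0 i' hi'i₂ j' hj'
    have nj' := (nr (f w.2) p2 _ z0' i hii₂ j (by omega)).mono le_rfl (fun _ h => h) (Nat.le_succ n)
    rw [hPP w hw] at nj'
    rw [← hO.X_zero]
    have F1 := hconv C z (Et (D.X (f w.1) 0)) (D.g i₂ j₂) (D.g i j) (D.Ψ i₂ j₂ (f w.1)) (D.Φ i₂ j₂ (f w.1))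
      (D.Ψ i j (f w.1)) (D.Φ i j (f w.1)) hC hd hCz (tr _ _ _) (tr' _ _ _) (tr _ _ _) (tr' _ _ _) s1 nk nj
      hev.kj
    have jm : Mn B z (Et (D.X (f w.1) 0)) (D.g i j) (D.g i' j') (D.Ψ i j (f w.1)) (D.Ψ i' j' (f w.1)) n :=
      fun l l1 l2 b hb => hev.jm l l1 l2 b hb
    have F2 := hmn C z (Et (D.X (f w.1) 0)) (D.g i j) (D.g i' j') (D.Ψ i j (f w.1)) (D.Ψ i' j' (f w.1))
      (D.Φ i j (f w.1)) (D.Φ i' j' (f w.1)) hC hd hCz (tr _ _ _) (tr _ _ _) (tr' _ _ _) (tr' _ _ _) jm nj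
      (nm.mono le_rfl (fun _ h => h) (Nat.le_succ n))
    have F4 := hleaf C C'' z (D.X (f w.1) 0) (D.g i j) (D.g i' j') (D.Ψ i j (f w.1)) (D.Φ i j (f w.1))
      (D.Ψ i' j' (f w.1)) (D.Φ i' j' (f w.1)) (H (D.wn J (w₀ + j₂ * z) (f w.1))) (Vt (Sv (f w.1), D.T (f w.1)))
      (1 / 2 ^ R) hC hd hd'' hCz hC''z (tr _ _ _) (tr' _ _ _) (tr _ _ _) (tr' _ _ _) (hH _) (hHv _)
      (hV _) (hVv _) (by positivity) nj nm jm hev.vis (fun b b' hb hb' => hev.leaf b b' hb hb')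
    have vis' := hev'.vis
    rw [hXX w hw, hSS w hw, hTT w hw] at vis'
    have F6 := hpair C C'' z (D.X (f w.1) 0) (D.g i j) (D.Ψ i j (f w.1)) (D.Φ i j (f w.1)) (D.Φ i j (f w.2))
      (H (D.wn J (w₀ + j₂ * z) (f w.1))) (H (D.wn J (w₀ + j₂ * z) (f w.2))) (Vt (Sv (f w.1), D.T (f w.1)))
      (1 / 2 ^ R) hC hd hd'' hCz hC''z (tr _ _ _) (tr' _ _ _) (tr' _ _ _) (hH _) (hHv _) (hH _)
      (hHv _) (hV _) (hVv _) (by positivity) nj nj' hev.vis vis'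
    constructor
    · intro a
      rw [hvd]
      refine vfs_at (tr' _ _ _) (tr' _ _ _) (Nr.chg F1 (hch (by omega)))
        (Mn.chg F2 (hch (by omega))) (fun b hb => ?_) (fun b hb => ?_) a
      · have tx := tr_mxs (g := D.g i j) (g' := D.g i' j') (tr' i j (f w.1)) (tr' i' j' (f w.1))
        have h1 := F4 b _ hb (bz_mem tx.tri _ zero_le_one n)
        rw [map_sub, map_sub, hδ]
        exact h1.trans (mul_le_mul_of_nonneg_right (pow_le_pow_right₀ (by norm_num) (hch le_rfl))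
          (by positivity))
      · have h1 := F6 b _ hb (bz_mem (tr' i j (f w.1)).tri _ zero_le_one n)
        rw [map_sub, map_sub, hδ']
        exact h1.trans (mul_le_mul_of_nonneg_right (pow_le_pow_right₀ (by norm_num) (hch le_rfl))
          (by positivity))
    · intro a
      rw [hu]
      refine ufs_at (fun l l1 l2 => ?_) (fun l l1 l2 => ?_) a
      · rw [hX _ p1 l l2.le, hXe _ p1 _ l l2.le ((tr' i j (f w.1)).tri l)]
        exact hO.hgt i (by omega) j (by omega) _ p1 l l2.le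
      · rw [hX _ p1 l l2, hXe _ p1 _ l l2 ((tr' i' j' (f w.1)).tri l)]
        exact hO.hgt i' (by omega) j' hj' _ p1 l l2
  -- Remez
  have hX₃0 : (0 : ℝ) ≤ X₃ * z := by positivity
  have hzpR : (zp : ℝ) = X₃ * z + z := by
    rw [hzp']
    push_cast
    ring
  obtain ⟨E, hEd⟩ : ∃ E : ℝ, E = 5 * (X₃ * z) + 1 := ⟨_, rfl⟩
  have hE1 : 1 ≤ E := by
    rw [hEd]
    linarith
  have hEz : CR * E ≤ (zr : ℕ) := by
    have h1 : E ≤ 6 * zp := by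
      rw [hEd, hzpR]
      linarith
    have h2 : CR * E ≤ CR * (6 * zp) := mul_le_mul_of_nonneg_left h1 (by linarith)
    have h3 := mul_le_mul_of_nonneg_right hX₀ (Nat.cast_nonneg zp : (0 : ℝ) ≤ zp)
    rw [hzr]
    push_cast
    linarith
  have htm := tm_two (J := J) (r := r) (T := fun v => D.T (f v)) (ln := fun v => D.ln (f v))
    (S := X₃ * z) (C := X₃ * z) hq' (fun v => ρ (f v)) (fun v => Sv (f v)) (by omega)
    (by rw [← hr] at hTm; exact hTm) (by rw [← hr] at hρw; exact hρw) hSρ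
  have hkey' : key = fun v => (Sv (f v), (ρ (f v), D.T (f v))) := by
    rw [hkey, hkyo]
  rw [← hkey', ← hQ] at htm
  obtain ⟨Bv, hB1, hB2, hB3⟩ := hrmz J r zr (Ω' × Ω') ((D.Λ × ℕ) × (D.Λ × ℕ)) Q
    (fun w => D.T (f w.1)) lamb Av E v u (fun w => D.pa (D.ln (f w.1))) hQl (fun w => hO.T_lt _)
    hrJ (fun w w' _ _ e => (Prod.ext_iff.1 (d1 w w' e)).2) hAP hE1 (by
      rw [hlamb, hEd]
      refine le_trans ?_ htm
      linarith) hEz hvdet hudet hpdet hvOk huOk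
    (fun w _ l => (hO.pa_deg _ l).trans (K_le_kG n K K₂)) hat
  -- the choice of the mate
  obtain ⟨ws, hws⟩ := Pool.TIE.sel_pb hf0 hq'.sum_one key (fun v v' => ¬ Bv (v, v'))
  have hPB : c ^ 2 / 2 ≤ Pb q' (fun v => Bv (v, ws (key v))) := by
    have h1 := Pb_compl hq'.sum_one (fun v => Bv (v, ws (key v)))
    have h2 := Pb_compl hQl.sum_one Bv
    rw [← hQ] at hws
    have h3 : Pb Q (fun w => ¬ Bv (w.1, w.2)) = Pb Q (fun w => ¬ Bv w) := rfl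
    rw [h3] at hws
    linarith
  -- the label
  obtain ⟨mt, hmt⟩ : ∃ mt : D.Ω → D.Ω, mt = fun ω => f (ws (kyo ω)) := ⟨_, rfl⟩
  obtain ⟨Gn, hG1, hG2⟩ := detF (q := q) (X := D.pt) (Y := fun ω =>
    gnP n (D.g i j) (D.g i' j') (D.Φ i j (mt ω)) (D.Ψ i j ω) (D.Ψ i' j' ω)
      (H (D.wn J (w₀ + j₂ * z) (mt ω)))) (0 : PN) (by
    intro ω ω' h1 h2 e
    have e1 := hO.s_pt i' (by omega) j' hj' ω ω' h1 h2 e
    have e2 := hO.s_pt i (by omega) j (by omega) ω ω' h1 h2 e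
    have e3 := hO.pt_T ω ω' h1 h2 e
    have e4 := hSp ω ω' h1 h2 e
    have e5 := hρp ω ω' h1 h2 e
    have e6 : mt ω = mt ω' := by
      rw [hmt, hkyo]
      beta_reduce
      rw [e3, e4, e5]
    have e7 : D.Ψ i j ω = D.Ψ i j ω' := by
      unfold NDat2.Ψ
      rw [e2]
    have e8 : D.Ψ i' j' ω = D.Ψ i' j' ω' := by
      unfold NDat2.Ψ
      rw [e1]
    beta_reduce
    rw [e6, e7, e8])
  obtain ⟨Hn, hH1, hH2⟩ := detF (q := q) (X := D.wn J (w₀ + j₂ * z))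
    (Y := fun ω => hN (D.g i j) (D.Φ i j ω) n (H (D.wn J (w₀ + j₂ * z) ω)) (D.pa (D.ln ω)))
    (0 : PN) (by
    intro ω ω' h1 h2 e
    have e1 := hcw i (by omega) j (by omega) (w₀ + j₂ * z) (by omega) (by omega) ω ω' h1 h2 e
    have e2 : D.ln ω = D.ln ω' := hln _ ω ω' h1 h2 e
    show hN (D.g i j) (D.Φ i j ω) n (H (D.wn J (w₀ + j₂ * z) ω)) (D.pa (D.ln ω)) =
      hN (D.g i j) (D.Φ i j ω') n (H (D.wn J (w₀ + j₂ * z) ω')) (D.pa (D.ln ω'))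
    rw [e1, e2, e])
  refine ⟨Gn, Hn, fun x => ?_, fun x => ?_, ?_⟩
  · rcases hG2 x with ⟨ω, _, h2⟩ | h2
    · rw [h2]
      exact gnP_vars hn (tr _ _ _) (tr _ _ _) (tr' _ _ _) (hH _) (hHv _)
    · rw [h2, totalDegree_zero, vars_0]
      exact ⟨Nat.zero_le _, Finset.empty_subset _⟩
  · rcases hH2 x with ⟨ω, _, h2⟩ | h2
    · rw [h2]
      exact ⟨(hN_deg (tr' i j ω).deg (fun l => hO.pa_deg _ l) (hH _)).trans (kN_le_kG n K K₂),
        hN_vars hn (tr' i j ω).tri (hHv _)⟩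
    · rw [h2, totalDegree_zero, vars_0]
      exact ⟨Nat.zero_le _, Finset.empty_subset _⟩
  · refine hPB.trans (Pb_mono' hf0 fun v' hω => ?_)
    obtain ⟨hQω, -⟩ := hB1 _ hω
    obtain ⟨ω, hωd⟩ : ∃ ω, ω = f v' := ⟨_, rfl⟩
    have hω0 : 0 < q ω := by
      rw [hωd]
      exact (hsup _ hQω).1
    have hmt' : f (ws (key v')) = mt ω := by
      rw [hmt, hkey, hωd]
    rw [← hωd]
    -- the estimate
    have main : ∀ b : ℕ → ℝ, D.NB i₂ j₂ (a₀ + i₂ * z) n ω b →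
        |eval b (Gn (D.pt ω)) - Pool.STAT.Glu.hv (D.g i j) (D.Φ i j ω) n
          (H (D.wn J (w₀ + j₂ * z) ω)) b (pps (D.pa (D.ln ω)) (b 0))| ≤
            1 / 2 ^ (D.g i₂ j₂ n + A * z) := by
      intro b hb
      have hτ : |b 0 - D.X ω 0| ≤ 1 / 2 ^ r := by
        rw [hr]
        exact hb.1
      have hS := hB3 _ hω (b 0) (by
        show |b 0 - (D.T (f v') : ℝ) / 2 ^ J| ≤ 1 / 2 ^ r
        rw [← hO.X_zero, ← hωd]
        exact hτ)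
      obtain ⟨hS1, hS2⟩ := hS
      rw [hvd] at hS1
      rw [hu] at hS2
      simp only [hmt', ← hωd] at hS1 hS2
      have hcB : CR * 2 ^ (2 * zr) * 2 ^ (Bx * zp) ≤ 2 ^ (B₁ * zp) := by
        have e : (2 : ℝ) ^ (B₁ * zp) = 2 ^ zp * 2 ^ (2 * zr) * 2 ^ (Bx * zp) := by
          rw [hB₁, hzr, ← pow_add, ← pow_add]
          congr 1
          ring
        rw [e]
        exact mul_le_mul_of_nonneg_right (mul_le_mul_of_nonneg_right (hCRz.trans h2zp)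
          (by positivity)) (by positivity)
      obtain ⟨o1, o2, o3, o4⟩ := vfs_out (tr' _ _ _) (tr' _ _ _) hcB hS1
      obtain ⟨o5, o6⟩ := ufs_out (c₁ := 2 ^ (B₁ * zp)) (pow_le_pow_right₀ (by norm_num) (by
        rw [hB₁, hzr]
        have : (Bx + 2 * X₀ + 1) * zp = Bx * zp + 2 * (X₀ * zp) + zp := by ring
        omega)) hS2
      have h1 := hfin C C' zp (b 0) (D.g i₂ j₂) (D.g i j) (D.g i' j') (D.Ψ i₂ j₂ ω) (D.Φ i₂ j₂ ω)
        (D.Ψ i j ω) (D.Φ i j ω) (D.Ψ i' j' ω) (D.Φ i' j' ω) (D.Φ i j (mt ω))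
        (H (D.wn J (w₀ + j₂ * z) ω)) (H (D.wn J (w₀ + j₂ * z) (mt ω))) (D.pa (D.ln ω))
        (CR * 2 ^ (2 * zr) * δ) (CR * 2 ^ (2 * zr) * δ') hC hd hd' (hCz.trans h2zp)
        (hC'z.trans h2zp) (tr _ _ _) (tr' _ _ _) (tr _ _ _) (tr' _ _ _) (tr _ _ _) (tr' _ _ _)
        (tr' _ _ _) (hH _) (hHv _) (hH _) (hHv _) (by positivity) (by positivity)
        (fun l l1 l2 => (s1 l l1 l2).trans (Nat.add_le_add_left (hch (by omega)) _))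
        (Nr.chg ((nr ω hω0 _ hτ i₂ le_rfl j₂ hj₂).mono le_rfl (fun _ h => h) (Nat.le_succ n))
          (hch le_rfl))
        (Nr.chg ((nr ω hω0 _ hτ i hii₂ j (by omega)).mono le_rfl (fun _ h => h) (Nat.le_succ n))
          (hch le_rfl))
        (Nr.chg (nr ω hω0 _ hτ i' hi'i₂ j' hj') (hch le_rfl)) o1 o2 o5 o6 o3 o4 b ⟨rfl, hb.2⟩
      rw [hG1 ω hω0, eval_gnP (tr _ _ _) (tr _ _ _)]
      refine h1.trans ?_
      have hAz : (A + Cg * (X₃ + 1)) * z = A * z + (x + y + y' + 3 * X₀ + 4) * zp := by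
        rw [hCg, hzp']
        ring
      refine ar_fin (y := y) (y' := y') (gjR := D.g i j n + R) (h8z.trans h2zp)
        (hCRz.trans h2zp) (by linarith) (by rw [hzr]) ?_ ?_ ?_ ?_
      · omega
      · omega
      · rw [hδ, pow_add]
        congr 2
        rw [div_div, mul_comm]
      · rw [hδ', pow_add]
        congr 1
        rw [div_div, mul_comm]
    constructor
    · have hNB : D.NB i₂ j₂ (a₀ + i₂ * z) n ω (D.X ω) :=
        ⟨by rw [sub_self, abs_zero]; positivity, fun l l1 l2 =>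
          hO.pos i₂ hi₂M j₂ hj₂ ω hω0 l l1 l2.le⟩
      have h1 := main _ hNB
      have h2 : Pool.STAT.Glu.hv (D.g i j) (D.Φ i j ω) n (H (D.wn J (w₀ + j₂ * z) ω)) (D.X ω)
          (pps (D.pa (D.ln ω)) (D.X ω 0)) = D.X ω n := by
        rw [hv_lh, hXe ω hω0 _ n le_rfl (lh_vars (tr' i j ω).tri (hHv _)), hX ω hω0 n le_rfl]
        ring
      rw [h2, abs_sub_comm] at h1
      exact h1
    · intro b hb
      rw [hH1 ω hω0, eval_hN]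
      exact main b hb

/-! ### Sub-laws -/

/-- Few bits pass to a sub-law. -/
theorem sub_few {Ω : Type} [Fintype Ω] {q : Ω → ℝ} (hq : IsLaw q) {c : ℝ} (hc : 0 < c)
    {Ω' : Type} [Fintype Ω'] {q' : Ω' → ℝ} {f : Ω' → Ω} (h : SubL q c q' f) {S T : Type}
    (X : Ω → S) (Y : Ω → T) :
    CH q' (fun v => X (f v)) (fun v => Y (f v)) ≤ CH q X Y / c := by
  obtain ⟨hc1, ρ, hρ, -, hm⟩ := Pool.TIE.mix hq h.law hc h.dens
  obtain ⟨h1, -⟩ := hm X Y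
  have h2 := CH_nonneg hρ (fun w => X w.1) (fun w => Y w.1)
  have h3 := mul_nonneg (by linarith : 0 ≤ 1 - c) h2
  rw [SubL.push q' f X Y, le_div_iff₀ hc]
  linarith

/-- The time under a sub-law. -/
theorem sub_time {Ω Λ : Type} [Fintype Ω] {q : Ω → ℝ} (hq : IsLaw q) {c : ℝ} (hc : 0 < c)
    {Ω' : Type} [Fintype Ω'] {q' : Ω' → ℝ} {f : Ω' → Ω} (h : SubL q c q' f) {J r : ℕ}
    (hr : r ≤ J) (T : Ω → ℕ) (ln : Ω → Λ) {S : ℝ}
    (h1 : ((J : ℝ) - r) * Real.log 2 - S ≤ CH q T (fun ω => (ln ω, T ω / 2 ^ (J - r)))) :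
    ((J : ℝ) - r) * Real.log 2 - (S + Real.log 2) / c ≤
      CH q' (fun v => T (f v)) (fun v => (ln (f v), T (f v) / 2 ^ (J - r))) := by
  obtain ⟨hc1, ρ, hρ, hρl, hm⟩ := Pool.TIE.mix hq h.law hc h.dens
  obtain ⟨-, h2⟩ := hm T (fun ω => (ln ω, T ω / 2 ^ (J - r)))
  have h3 : (1 - c) * CH ρ (fun w => T w.1) (fun w => (ln w.1, T w.1 / 2 ^ (J - r))) ≤
      (1 - c) * (((J : ℝ) - r) * Real.log 2) := by
    rcases hc1.lt_or_eq with h4 | h4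
    · refine mul_le_mul_of_nonneg_left ?_ (by linarith)
      refine le_trans (CH_mono_cond hρ fun w w' _ _ e => ?_) (cell_le (hρl h4) hr (fun w => T w.1))
      exact (Prod.ext_iff.1 e).2
    · rw [h4, sub_self, zero_mul, zero_mul]
  have e := SubL.push q' f T (fun ω => (ln ω, T ω / 2 ^ (J - r)))
  rw [e]
  have h5 : c * ((((J : ℝ) - r) * Real.log 2) -
      CH (Pool.Agent.H49.Ent.law q' f) T (fun ω => (ln ω, T ω / 2 ^ (J - r)))) ≤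
      S + Real.log 2 := by linarith
  rw [mul_comm, ← le_div_iff₀ hc] at h5
  linarith

/-- The probability of an event under a sub-law. -/
theorem sub_pb {Ω : Type} [Fintype Ω] {q : Ω → ℝ} {c : ℝ} {Ω' : Type} [Fintype Ω']
    {q' : Ω' → ℝ} {f : Ω' → Ω} (h : SubL q c q' f) (E : Ω → Prop) :
    c * Pb q' (fun v => E (f v)) ≤ Pb q E := by
  classical
  have e : Pb q' (fun v => E (f v)) =
      ∑ ω, if E ω then Pool.Agent.H49.Ent.law q' f ω else 0 := by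
    unfold Pool.BFL.Pb Pool.Agent.H49.Ent.law
    have h1 : ∀ ω, (if E ω then ∑ v, (if f v = ω then q' v else 0) else 0) =
        ∑ v, if f v = ω then (if E (f v) then q' v else 0) else 0 := by
      intro ω
      by_cases hE : E ω
      · rw [if_pos hE]
        refine Finset.sum_congr rfl fun v _ => ?_
        by_cases h2 : f v = ω
        · rw [if_pos h2, if_pos h2, h2, if_pos hE]
        · rw [if_neg h2, if_neg h2]
      · rw [if_neg hE]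
        refine (Finset.sum_eq_zero fun v _ => ?_).symm
        by_cases h2 : f v = ω
        · rw [if_pos h2, h2, if_neg hE]
        · rw [if_neg h2]
    rw [Finset.sum_congr rfl fun ω _ => h1 ω, Finset.sum_comm]
    refine Finset.sum_congr rfl fun v _ => ?_
    rw [Finset.sum_ite_eq]
    simp
  rw [e, Finset.mul_sum]
  unfold Pool.BFL.Pb
  refine Finset.sum_le_sum fun ω _ => ?_
  by_cases hE : E ω
  · rw [if_pos hE, if_pos hE]
    exact h.dens ω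
  · rw [if_neg hE, if_neg hE, mul_zero]

theorem SubL.pos {Ω : Type} [Fintype Ω] {q : Ω → ℝ} {c : ℝ} (hc : 0 < c) {Ω' : Type}
    [Fintype Ω'] {q' : Ω' → ℝ} {f : Ω' → Ω} (h : SubL q c q' f) {v : Ω'} (hv : 0 < q' v) :
    0 < q (f v) := by
  have h1 : 0 < Pool.Agent.H49.Ent.law q' f (f v) := law_pos h.isLaw.nonneg f hv
  exact lt_of_lt_of_le (mul_pos hc h1) (h.dens (f v))

/-- **Gluing with a visible polynomial**: the record is `(s i j, s 0 j)` and a function `U` of the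
exact point, on a sub-law all samples of which satisfy the event. -/
theorem gluS (n K K₂ K₃ B : ℕ) (C₁ : ℝ) (hn : 1 ≤ n) :
    ∃ (Cg K' : ℕ) (C₂ : ℝ), ∀ (c₁ : ℝ) (X₃ : ℕ), 0 < c₁ → C₂ ≤ c₁ * X₃ →
    ∃ (κ₀ : ℝ) (z₀ : ℕ), 0 < κ₀ ∧
    ∀ (A J a₀ w₀ z M i j i' j' i₂ j₂ R : ℕ) (lam gam : ℕ → ℝ) (κ κ' : ℝ) (D : NDat2)
      (q : D.Ω → ℝ) (Ω' : Type) (_ : Fintype Ω') (q' : Ω' → ℝ) (f : Ω' → D.Ω) (𝒰 : Type)
      (U : D.Ω → 𝒰) (Vt : ((D.S × D.S) × 𝒰) × ℕ → PN) (H : D.Λ × ℕ → PN), z₀ ≤ z →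
      κ' ≤ κ₀ → i ≤ i₂ → i' ≤ i₂ → i₂ + Cg * (X₃ + 1) ≤ M → j ≤ j₂ → j₂ ≤ M → j' ≤ M →
      D.Ok2 n K J a₀ w₀ z M lam gam κ C₁ q → D.TmU J w₀ z κ' q → SubL q c₁ q' f →
      (∀ x, (H x).totalDegree ≤ K₂) → (∀ x, (H x).vars ⊆ range n) →
      (∀ x, (Vt x).totalDegree ≤ K₃) → (∀ x, (Vt x).vars ⊆ range n) →
      Det q D.pt U → CH q' (fun v => U (f v)) (fun v => Pool.VAS.zv D i j (f v)) ≤ X₃ * z →
      (∀ l, 1 ≤ l → l < n → D.g i j l ≤ D.g i₂ j₂ l + B * z) →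
      D.g i₂ j₂ n + (A + Cg * (X₃ + 1)) * z ≤ D.g i' j' n →
      D.g i₂ j₂ n + (A + Cg * (X₃ + 1)) * z ≤ D.g i j n + R →
      (∀ v, 0 < q' v → EvV D n J w₀ z i j i' j' i₂ j₂ B
        (fun ω => ((D.s i j ω, D.s 0 j ω), U ω)) Vt H (1 / 2 ^ R) (f v)) →
      D.NewLab2 J a₀ w₀ z i₂ j₂ n A K' (c₁ / 2) q := by
  classical
  obtain ⟨C, hC0, hrec⟩ := Pool.TIE.rec_thm n K
  obtain ⟨Cw, hglu⟩ := gluW n K K₂ K₃ B 1 hn one_pos
  refine ⟨2 * Cw, kG n K K₂, 2 * (|C₁| * (C + 1)), ?_⟩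
  intro c₁ X₃ hc₁ hX₃
  obtain ⟨z₁, hz₁⟩ := hglu (2 * X₃ + 1)
  obtain ⟨z₂, hz₂⟩ := exists_nat_ge ((2 * Real.log 2 + 2 * C) / c₁)
  refine ⟨c₁ / 2, z₁ + z₂ + 1, by positivity, ?_⟩
  intro A J a₀ w₀ z M i j i' j' i₂ j₂ R lam gam κ κ' D q Ω' _ q' f 𝒰 U Vt H hz hκ hii₂ hi'i₂ hi₂
    hjj₂ hj₂ hj' hO hT hS hH hHv hV hVv hU hUf s1 g1 g2 hE
  have hq := hO.isLaw
  have hq0 := hq.nonneg
  have hq' := hS.isLaw
  have hq'0 := hq'.nonneg
  have hz1 : (1 : ℝ) ≤ z := by exact_mod_cast (by omega : 1 ≤ z)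
  have hzz : ((2 * Real.log 2 + 2 * C) / c₁) ≤ z := hz₂.trans (by
    exact_mod_cast (by omega : z₂ ≤ z))
  rw [div_le_iff₀ hc₁] at hzz
  have hlog : 0 ≤ Real.log 2 := Real.log_nonneg (by norm_num)
  have hCw : Cw * (2 * X₃ + 1 + 1) = 2 * Cw * (X₃ + 1) := by ring
  have hi₂M : i₂ ≤ M := by omega
  have htop := hO.top
  have hthin := hO.thin
  have hM1 : i₂ * z ≤ M * z := Nat.mul_le_mul_right z hi₂M
  have hMM : (M + 1) * z = M * z + z := by ring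
  obtain ⟨r, hr⟩ : ∃ r, r = a₀ + i₂ * z := ⟨_, rfl⟩
  have hrJ : r ≤ J := by omega
  have hj : j ≤ M := hjj₂.trans hj₂
  have hi : i ≤ M := hii₂.trans hi₂M
  obtain ⟨r1, r2, r3⟩ := hrec J a₀ w₀ z M lam gam κ C₁ D q (by omega) hO i hi j hj
  obtain ⟨t1, t2, t3⟩ := hrec J a₀ w₀ z M lam gam κ C₁ D q (by omega) hO 0 (Nat.zero_le _) j hj
  obtain ⟨ρ, hρ⟩ : ∃ ρ : D.Ω → (Fin (n + 1) → PN) × (Fin (n + 1) → PN), ρ = fun ω =>
    (Pool.TIE.rec D n K J (a₀ + i * z) i j ω, Pool.TIE.rec D n K J (a₀ + 0 * z) 0 j ω) := ⟨_, rfl⟩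
  obtain ⟨ss, hss⟩ : ∃ ss : D.Ω → D.S × D.S, ss = fun ω => (D.s i j ω, D.s 0 j ω) := ⟨_, rfl⟩
  have hCC : 0 ≤ |C₁| * (C + 1) := mul_nonneg (abs_nonneg _) (by linarith)
  -- the time
  have htc := time_cell (r := r) hq (by omega) hrJ hO.ln_w (S := κ' * z) hT
  have hts := sub_time hq hc₁ hS hrJ D.T D.ln htc
  have hz0 : (0 : ℝ) ≤ z := by linarith
  have e1 : (κ' * z + Real.log 2) / c₁ ≤ (2 * X₃ + 1 : ℕ) * z := by
    rw [div_le_iff₀ hc₁]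
    have h1 : κ' * z ≤ c₁ / 2 * z := mul_le_mul_of_nonneg_right hκ hz0
    have h2 : (z : ℝ) * c₁ ≤ ((2 * X₃ + 1 : ℕ) : ℝ) * z * c₁ := by
      refine mul_le_mul_of_nonneg_right ?_ hc₁.le
      refine le_mul_of_one_le_left hz0 ?_
      push_cast
      have : (0 : ℝ) ≤ X₃ := Nat.cast_nonneg _
      linarith
    linarith
  -- the coarse record
  have e2 : CH q ρ (D.wn J r) ≤ 2 * C := by
    have h1 := CH_chain hq0 (fun ω => Pool.TIE.rec D n K J (a₀ + i * z) i j ω)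
      (fun ω => Pool.TIE.rec D n K J (a₀ + 0 * z) 0 j ω) (D.wn J r)
    have h2 : CH q (fun ω => Pool.TIE.rec D n K J (a₀ + i * z) i j ω)
        (fun ω => (Pool.TIE.rec D n K J (a₀ + 0 * z) 0 j ω, D.wn J r ω)) ≤ C := by
      refine le_trans (CH_mono_cond hq0 fun ω ω' p1 p2 e => ?_) r2
      refine wn_det ?_ hrJ ω ω' p1 p2 (Prod.ext_iff.1 e).2
      have := Nat.mul_le_mul_right z hii₂
      omega
    have h3 : CH q (fun ω => Pool.TIE.rec D n K J (a₀ + 0 * z) 0 j ω) (D.wn J r) ≤ C := by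
      refine le_trans (CH_mono_cond hq0 (wn_det ?_ hrJ)) t2
      omega
    rw [hρ]
    linarith
  have e3 : CH q' (fun v => ρ (f v)) (fun v => D.wn J r (f v)) ≤ ((2 * X₃ + 1 : ℕ) : ℝ) * z := by
    refine (sub_few hq hc₁ hS ρ (D.wn J r)).trans ?_
    rw [div_le_iff₀ hc₁]
    have h2 : (z : ℝ) * c₁ ≤ ((2 * X₃ + 1 : ℕ) : ℝ) * z * c₁ := by
      refine mul_le_mul_of_nonneg_right ?_ hc₁.le
      refine le_mul_of_one_le_left hz0 ?_
      push_cast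
      have : (0 : ℝ) ≤ X₃ := Nat.cast_nonneg _
      linarith
    linarith
  -- the record
  have e4 : CH q ss (fun ω => (ρ ω, D.T ω)) ≤ 2 * (|C₁| * (C + 1)) * z := by
    have h1 := CH_chain hq0 (D.s i j) (D.s 0 j) (fun ω => (ρ ω, D.T ω))
    have h2 : CH q (D.s i j) (fun ω => (D.s 0 j ω, (ρ ω, D.T ω))) ≤ C₁ * (C + 1) * z := by
      refine le_trans (CH_mono_cond hq0 fun ω ω' _ _ e => ?_) r3
      rw [hρ] at e
      simp only [Prod.mk.injEq] at e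
      exact Prod.ext e.2.1.1 e.2.2
    have h3 : CH q (D.s 0 j) (fun ω => (ρ ω, D.T ω)) ≤ C₁ * (C + 1) * z := by
      refine le_trans (CH_mono_cond hq0 fun ω ω' _ _ e => ?_) t3
      rw [hρ] at e
      simp only [Prod.mk.injEq] at e
      exact Prod.ext e.1.2 e.2
    have h4 : C₁ * (C + 1) * z ≤ |C₁| * (C + 1) * z :=
      mul_le_mul_of_nonneg_right (mul_le_mul_of_nonneg_right (le_abs_self C₁) (by linarith)) hz0
    rw [hss]
    linarith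
  have e5 : CH q' (fun v => ss (f v)) (fun v => (ρ (f v), D.T (f v))) ≤ X₃ * z := by
    refine (sub_few hq hc₁ hS ss (fun ω => (ρ ω, D.T ω))).trans ?_
    rw [div_le_iff₀ hc₁]
    have := mul_le_mul_of_nonneg_right hX₃ hz0
    linarith
  have e6 : CH q' (fun v => (ss (f v), U (f v))) (fun v => (ρ (f v), D.T (f v))) ≤
      ((2 * X₃ + 1 : ℕ) : ℝ) * z := by
    have h1 := CH_chain hq'0 (fun v => U (f v)) (fun v => ss (f v))
      (fun v => (ρ (f v), D.T (f v)))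
    have h2 : CH q' (fun v => U (f v)) (fun v => (ss (f v), (ρ (f v), D.T (f v)))) ≤ X₃ * z := by
      refine le_trans (CH_mono_cond hq'0 fun v v' _ _ e => ?_) hUf
      have h3 : ss (f v) = ss (f v') := (Prod.ext_iff.1 e).1
      have h4 : D.T (f v) = D.T (f v') := (Prod.ext_iff.1 (Prod.ext_iff.1 e).2).2
      rw [hss] at h3
      exact Prod.ext h3 h4
    have h3 : CH q' (fun v => (ss (f v), U (f v))) (fun v => (ρ (f v), D.T (f v))) ≤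
        CH q' (fun v => (U (f v), ss (f v))) (fun v => (ρ (f v), D.T (f v))) :=
      CH_mono_left hq'0 fun v v' _ _ e => by
        have h4 := (Prod.ext_iff.1 e).1
        exact Prod.ext (Prod.ext_iff.1 h4).2 (Prod.ext_iff.1 h4).1
    push_cast
    linarith
  have e7 : (1 : ℝ) ≤ Pb q' (fun v => EvV D n J w₀ z i j i' j' i₂ j₂ B
      (fun ω => (ss ω, U ω)) Vt H (1 / 2 ^ R) (f v)) := by
    unfold Pool.BFL.Pb
    refine le_trans hq'.sum_one.ge (Finset.sum_le_sum fun v _ => ?_)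
    rw [hss]
    split_ifs with h1
    · exact le_rfl
    · rcases (hq'0 v).eq_or_lt with h2 | h2
      · exact h2.symm.le
      · exact absurd (hE v h2) h1
  obtain ⟨Gn, Hn, hG, hH', hP⟩ := hz₁ A J a₀ w₀ z M i j i' j' i₂ j₂ R lam gam κ C₁ D q Ω' q' f
    ((D.S × D.S) × 𝒰) ((Fin (n + 1) → PN) × (Fin (n + 1) → PN)) (fun ω => (ss ω, U ω)) ρ Vt H
    (by omega) hii₂ hi'i₂ (by rw [hCw]; exact hi₂) hjj₂ hj₂ hj' hO hq'
    (fun v hv => SubL.pos hc₁ hS hv) hH hHv hV hVv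
    (fun ω ω' p1 p2 e => by
      have h1 := hO.s_pt i hi j hj ω ω' p1 p2 e
      have h2 := hO.s_pt 0 (Nat.zero_le _) j hj ω ω' p1 p2 e
      rw [hss]
      exact Prod.ext (Prod.ext h1 h2) (hU ω ω' p1 p2 e))
    (fun ω ω' p1 p2 e => by
      have h1 := hO.s_pt i hi j hj ω ω' p1 p2 e
      have h2 := hO.s_pt 0 (Nat.zero_le _) j hj ω ω' p1 p2 e
      have h3 := hO.pt_T ω ω' p1 p2 e
      rw [hρ]
      exact Prod.ext (r1 ω ω' p1 p2 (Prod.ext h1 h3)) (t1 ω ω' p1 p2 (Prod.ext h2 h3)))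
    (fun ω ω' _ _ e => by
      rw [hss] at e
      exact (Prod.ext_iff.1 (Prod.ext_iff.1 (Prod.ext_iff.1 e).1).1).1)
    (by
      rw [← hr]
      refine le_trans ?_ hts
      linarith)
    (by rw [← hr]; exact e3) e6 s1 (by rw [hCw]; exact g1) (by rw [hCw]; exact g2) e7
  refine ⟨Gn, Hn, hG, hH', ?_⟩
  have h1 := sub_pb hS (LbE D J a₀ w₀ z i₂ j₂ n A Gn Hn)
  have h2 : c₁ * (1 ^ 2 / 2) ≤ c₁ * Pb q' (fun v => LbE D J a₀ w₀ z i₂ j₂ n A Gn Hn (f v)) :=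
    mul_le_mul_of_nonneg_left hP hc₁.le
  have h3 : c₁ / 2 ≤ Pb q (LbE D J a₀ w₀ z i₂ j₂ n A Gn Hn) := by linarith
  exact h3

end Pool.GLV
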