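import Mathlib

/-!
# The core: the choice of the constants (pure arithmetic)
-/

set_option autoImplicit false

namespace Pool.TIE

open Real

theorem lin_small (Al tl : List ℝ) (hpos : ∀ t ∈ tl, 0 < t) : ∃ (ι : ℝ) (h₁ : ℕ), 0 < ι ∧
    ∀ h : ℕ, h₁ ≤ h → ∀ a ∈ Al, ∀ t ∈ tl, a * (ι * h + 1) ≤ t * h := by
  have hη : ∃ η : ℝ, 0 < η ∧ ∀ t ∈ tl, η ≤ t := by
    clear Al
    induction tl with
    | nil => exact ⟨1, one_pos, fun t ht => absurd ht (by simp)⟩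
    | cons a l ih =>
      obtain ⟨η, h1, h2⟩ := ih fun t ht => hpos t (List.mem_cons_of_mem a ht)
      refine ⟨min a η, lt_min (hpos a (by simp)) h1, fun t ht => ?_⟩
      rcases List.mem_cons.1 ht with rfl | ht
      · exact min_le_left _ _
      · exact (min_le_right _ _).trans (h2 t ht)
  have hA : ∃ A : ℝ, 1 ≤ A ∧ ∀ t ∈ Al, t ≤ A := by
    induction Al with
    | nil => exact ⟨1, le_rfl, fun t ht => absurd ht (by simp)⟩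
    | cons a l ih =>
      obtain ⟨A, h1, h2⟩ := ih
      refine ⟨max a A, h1.trans (le_max_right _ _), fun t ht => ?_⟩
      rcases List.mem_cons.1 ht with rfl | ht
      · exact le_max_left _ _
      · exact (h2 t ht).trans (le_max_right _ _)
  obtain ⟨η, hη, hη'⟩ := hη
  obtain ⟨A, hA, hA'⟩ := hA
  have hA0 : 0 < A := by linarith
  refine ⟨η / (2 * A), ⌈2 * A / η⌉₊, by positivity, fun h hh a ha t ht => ?_⟩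
  have h1 : 2 * A / η ≤ h := (Nat.le_ceil _).trans (by exact_mod_cast hh)
  have h2 : 2 * A ≤ η * h := by
    rw [div_le_iff₀ hη] at h1
    linarith
  have h0 : (0 : ℝ) ≤ h := Nat.cast_nonneg _
  have h3 : a * (η / (2 * A) * h + 1) ≤ A * (η / (2 * A) * h + 1) :=
    mul_le_mul_of_nonneg_right (hA' a ha) (by positivity)
  have h4 : A * (η / (2 * A) * h + 1) = η * h / 2 + A := by field_simp
  have h5 := mul_le_mul_of_nonneg_right (hη' t ht) h0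
  linarith

/-- The conditions on the numbers. -/
structure Num (k K : ℕ) (c ε κ₂ κb π₀ ιL : ℝ) (j₀ XL : ℕ) (ι₁ : ℝ) (X₁ : ℕ) (ι₂ C₂ : ℝ)
    (X₂ : ℕ) (CF σ₁ σ₂ κ κf θ θ₁ θ₂ : ℝ) (h b B e c₂ r c₃ x₁ s₁ x₂ s₂ h' : ℕ) : Prop where
  hrh : r ≤ h
  hh : b + 2 * (K + 1) ≤ h
  hXL : XL ≤ h
  hy : κ * h + e ≤ ⌊κb * (h : ℝ)⌋₊
  h5 : 31 + b + (3 * θ + 17) / π₀ ≤ c / 2 * (⌊κb * (h : ℝ)⌋₊ * Real.log 2)
  hs : 3 * θ + B + 20 ≤ ιL / 2 * h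
  hj : r + j₀ ≤ h
  n1 : X₁ ≤ x₁
  n2 : x₁ ≤ h
  n3 : c₂ + κ * h ≤ x₁
  n4 : θ₁ + b + c₂ ≤ ι₁ * x₁
  n5 : (s₁ : ℝ) ≤ σ₁ * x₁
  n6 : ((k * (K + 1) : ℕ) : ℝ) + e + x₁ ≤ κ₂ * h
  m1 : X₂ ≤ x₂
  m2 : x₂ ≤ x₁
  m3 : c₂ + x₂ ≤ s₁
  m5 : c₃ + κ * h ≤ x₂
  m6 : θ₂ + b + r + c₃ ≤ ι₂ * x₂
  m7 : (s₂ : ℝ) ≤ σ₂ * x₂
  m9 : c₃ + h' ≤ x₂
  m10 : c₃ + h' ≤ s₂
  o1 : κf * h ≤ h'
  o2 : h' ≤ h
  o3 : (c₃ : ℝ) + 1 ≤ ε * h'
  o4 : C₂ * (θ₂ + r + 1) ≤ ε * h'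
  o5 : CF * (8 / c * (θ₂ + 1) + 1) + r +
    (4 * (((K * (K + 1) + K : ℕ) + 1 : ℝ) ^ (k + 1) + 1) + 2) ≤ ε * h'

theorem floor_half' {a : ℝ} {h : ℕ} (h2 : 2 ≤ a * h) :
    a * h / 2 ≤ (⌊a * (h : ℝ)⌋₊ : ℝ) := by
  have h1 := Nat.lt_floor_add_one (a * (h : ℝ))
  linarith

theorem floor_le' {a : ℝ} (ha : 0 < a) (h : ℕ) : (⌊a * (h : ℝ)⌋₊ : ℝ) ≤ a * h :=
  Nat.floor_le (by positivity)

theorem num_of (k K : ℕ) {c ε κ₂ κb π₀ ιL ε₀ : ℝ} (j₀ XL : ℕ) {ι₁ C₁ : ℝ} (X₁ : ℕ) {ι₂ C₂ : ℝ}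
    (X₂ : ℕ) {CF σ₁ σ₂ : ℝ} (hc : 0 < c) (hε : 0 < ε) (hκ₂ : 0 < κ₂) (hκb : 0 < κb)
    (hπ₀ : 0 < π₀) (hιL : 0 < ιL) (hε₀ : 0 < ε₀) (hι₁ : 0 < ι₁) (hC₁ : 1 ≤ C₁) (hι₂ : 0 < ι₂)
    (hC₂ : 1 ≤ C₂) (hCF : 1 ≤ CF) (hσ₁ : 0 < σ₁) (hσ₁1 : σ₁ ≤ 1) (hσ₂ : 0 < σ₂) (hσ₂1 : σ₂ ≤ 1)
    (nB nE n2 : ℕ) :
    ∃ (κ κf ι : ℝ) (h₁ : ℕ), 0 < κ ∧ 0 < κf ∧ κf ≤ 1 ∧ 0 < ι ∧
      ∀ h : ℕ, h₁ ≤ h → ∀ b m : ℕ, (b : ℝ) ≤ ι * h + 1 →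
        (m : ℝ) ≤ (ι * h + ((b + nB : ℕ) : ℝ) + 1) / ε₀ + 2 →
        b + nB + 1 + j₀ * m ≤ h ∧ ∀ i, i < m → ∀ r c₃ : ℕ, r = b + nB + 1 + j₀ * i →
          c₃ = b + nE + n2 + 2 * K + 1 + (r + 1) * K → ∀ θ₁ θ₂ : ℝ,
          θ₁ = 2 * ((2 * K + 6) * (ι * h + ((b + nB : ℕ) : ℝ) + r + 1) + 1) →
          θ₂ = (8 / c + C₁) * (θ₁ + 1) →
          ∃ x₁ s₁ x₂ s₂ h' : ℕ, Num k K c ε κ₂ κb π₀ ιL j₀ XL ι₁ X₁ ι₂ C₂ X₂ CF σ₁ σ₂ κ κf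
            (ι * h) θ₁ θ₂ h b (b + nB) (b + nE) (b + nE + n2) r c₃ x₁ s₁ x₂ s₂ h' := by
  obtain ⟨a₁, ha₁⟩ : ∃ x : ℝ, x = min (κ₂ / 2) 1 := ⟨_, rfl⟩
  have a₁0 : 0 < a₁ := by rw [ha₁]; exact lt_min (by positivity) one_pos
  have a₁1 : a₁ ≤ 1 := by rw [ha₁]; exact min_le_right _ _
  have a₁κ : a₁ ≤ κ₂ / 2 := by rw [ha₁]; exact min_le_left _ _
  clear ha₁
  obtain ⟨a₂, ha₂⟩ : ∃ x : ℝ, x = σ₁ * a₁ / 8 := ⟨_, rfl⟩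
  have a₂0 : 0 < a₂ := by rw [ha₂]; positivity
  have a₂1 : a₂ ≤ a₁ / 8 := by rw [ha₂]; nlinarith
  obtain ⟨κf, hκf⟩ : ∃ x : ℝ, x = σ₂ * a₂ / 8 := ⟨_, rfl⟩
  have κf0 : 0 < κf := by rw [hκf]; positivity
  have κf1 : κf ≤ a₂ / 8 := by rw [hκf]; nlinarith
  obtain ⟨κ, hκ⟩ : ∃ x : ℝ, x = min (κb / 4) (min (a₁ / 4) (a₂ / 4)) := ⟨_, rfl⟩
  have κ0 : 0 < κ := by
    rw [hκ]; exact lt_min (by positivity) (lt_min (by positivity) (by positivity))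
  have κ1 : κ ≤ κb / 4 := by rw [hκ]; exact min_le_left _ _
  have κ2 : κ ≤ a₁ / 4 := by rw [hκ]; exact (min_le_right _ _).trans (min_le_left _ _)
  have κ3 : κ ≤ a₂ / 4 := by rw [hκ]; exact (min_le_right _ _).trans (min_le_right _ _)
  clear hκ
  -- coefficients
  have K0 : (0 : ℝ) ≤ K := Nat.cast_nonneg _
  have j0 : (0 : ℝ) ≤ j₀ := Nat.cast_nonneg _
  obtain ⟨aB, haB⟩ : ∃ x : ℝ, x = 1 + nB := ⟨_, rfl⟩
  have aB0 : 0 ≤ aB := by rw [haB]; positivity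
  obtain ⟨ae, hae⟩ : ∃ x : ℝ, x = 1 + nE := ⟨_, rfl⟩
  have ae0 : 0 ≤ ae := by rw [hae]; positivity
  obtain ⟨a2, ha2⟩ : ∃ x : ℝ, x = 1 + nE + n2 := ⟨_, rfl⟩
  have a20 : 0 ≤ a2 := by rw [ha2]; positivity
  obtain ⟨am, ham⟩ : ∃ x : ℝ, x = (2 + aB) / ε₀ + 2 := ⟨_, rfl⟩
  have am0 : 0 ≤ am := by rw [ham]; positivity
  obtain ⟨ar, har⟩ : ∃ x : ℝ, x = aB + 1 + j₀ * am := ⟨_, rfl⟩
  have ar0 : 0 ≤ ar := by rw [har]; positivity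
  obtain ⟨a3, ha3⟩ : ∃ x : ℝ, x = a2 + (2 * K + 1) + (ar + 1) * K := ⟨_, rfl⟩
  have a30 : 0 ≤ a3 := by rw [ha3]; positivity
  obtain ⟨at1, hat1⟩ : ∃ x : ℝ, x = 2 * ((2 * K + 6) * (2 + aB + ar) + 1) := ⟨_, rfl⟩
  have at10 : 0 ≤ at1 := by rw [hat1]; positivity
  obtain ⟨at2, hat2⟩ : ∃ x : ℝ, x = (8 / c + C₁) * (at1 + 1) := ⟨_, rfl⟩
  have h8c : 0 < 8 / c + C₁ := by positivity
  have at20 : 0 ≤ at2 := by rw [hat2]; positivity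
  obtain ⟨cF, hcF⟩ : ∃ x : ℝ, x = 4 * (((K * (K + 1) + K : ℕ) + 1 : ℝ) ^ (k + 1) + 1) + 2 :=
    ⟨_, rfl⟩
  have cF0 : 0 ≤ cF := by rw [hcF]; positivity
  -- the elements of the list
  obtain ⟨l1, hl1⟩ : ∃ x : ℝ, x = 8 := ⟨_, rfl⟩
  obtain ⟨l2, hl2⟩ : ∃ x : ℝ, x = ar + j₀ := ⟨_, rfl⟩
  obtain ⟨l3, hl3⟩ : ∃ x : ℝ, x = 2 * K + 3 := ⟨_, rfl⟩
  obtain ⟨l5, hl5⟩ : ∃ x : ℝ, x = 32 + 20 / π₀ := ⟨_, rfl⟩
  obtain ⟨l6, hl6⟩ : ∃ x : ℝ, x = 23 + aB := ⟨_, rfl⟩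
  obtain ⟨l7, hl7⟩ : ∃ x : ℝ, x = XL := ⟨_, rfl⟩
  obtain ⟨l8, hl8⟩ : ∃ x : ℝ, x = ae + (k * (K + 1) : ℕ) := ⟨_, rfl⟩
  obtain ⟨l9, hl9⟩ : ∃ x : ℝ, x = X₁ := ⟨_, rfl⟩
  obtain ⟨l10, hl10⟩ : ∃ x : ℝ, x = at1 + 1 + a2 := ⟨_, rfl⟩
  obtain ⟨l11, hl11⟩ : ∃ x : ℝ, x = X₂ := ⟨_, rfl⟩
  obtain ⟨l12, hl12⟩ : ∃ x : ℝ, x = at2 + 1 + ar + a3 := ⟨_, rfl⟩
  obtain ⟨l13, hl13⟩ : ∃ x : ℝ, x = a3 + 1 := ⟨_, rfl⟩
  obtain ⟨l14, hl14⟩ : ∃ x : ℝ, x = C₂ * (at2 + ar + 1) := ⟨_, rfl⟩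
  obtain ⟨l15, hl15⟩ : ∃ x : ℝ, x = CF * (8 / c * (at2 + 1) + 1) + ar + cF := ⟨_, rfl⟩
  obtain ⟨t1, ht1⟩ : ∃ x : ℝ, x = 1 := ⟨_, rfl⟩
  obtain ⟨t2, ht2⟩ : ∃ x : ℝ, x = κb / 4 := ⟨_, rfl⟩
  obtain ⟨t3, ht3⟩ : ∃ x : ℝ, x = c * κb / 8 := ⟨_, rfl⟩
  obtain ⟨t4, ht4⟩ : ∃ x : ℝ, x = ιL / 2 := ⟨_, rfl⟩
  obtain ⟨t5, ht5⟩ : ∃ x : ℝ, x = κ₂ / 2 := ⟨_, rfl⟩
  obtain ⟨t6, ht6⟩ : ∃ x : ℝ, x = a₁ / 4 := ⟨_, rfl⟩
  obtain ⟨t7, ht7⟩ : ∃ x : ℝ, x = ι₁ * a₁ / 2 := ⟨_, rfl⟩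
  obtain ⟨t8, ht8⟩ : ∃ x : ℝ, x = a₂ := ⟨_, rfl⟩
  obtain ⟨t9, ht9⟩ : ∃ x : ℝ, x = a₂ / 4 := ⟨_, rfl⟩
  obtain ⟨t10, ht10⟩ : ∃ x : ℝ, x = ι₂ * a₂ / 2 := ⟨_, rfl⟩
  obtain ⟨t11, ht11⟩ : ∃ x : ℝ, x = κf := ⟨_, rfl⟩
  obtain ⟨t12, ht12⟩ : ∃ x : ℝ, x = ε * κf := ⟨_, rfl⟩
  obtain ⟨ι, h₁, ι0, hlin⟩ := lin_small
    [l1, l2, l3, ae, l5, l6, l7, l8, l9, a2, l10, l11, a3, l12, l13, l14, l15, ar]
    [t1, t2, t3, t4, t5, t6, t7, t8, t9, t10, t11, t12] (by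
      simp only [List.forall_mem_cons]
      refine ⟨?_, ?_, ?_, ?_, ?_, ?_, ?_, ?_, ?_, ?_, ?_, ?_, ?_⟩
      · rw [ht1]; positivity
      · rw [ht2]; positivity
      · rw [ht3]; positivity
      · rw [ht4]; positivity
      · rw [ht5]; positivity
      · rw [ht6]; positivity
      · rw [ht7]; positivity
      · rw [ht8]; positivity
      · rw [ht9]; positivity
      · rw [ht10]; positivity
      · rw [ht11]; positivity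
      · rw [ht12]; positivity
      · intro x hx
        simp at hx)
  refine ⟨κ, κf, ι, h₁, κ0, κf0, by linarith, ι0, ?_⟩
  intro h hh b m hb hm
  have hL := hlin h hh
  obtain ⟨u, hu⟩ : ∃ u : ℝ, u = ι * h + 1 := ⟨_, rfl⟩
  have h0 : (0 : ℝ) ≤ h := Nat.cast_nonneg _
  have hιh : 0 ≤ ι * h := by positivity
  have u1 : 1 ≤ u := by rw [hu]; linarith
  have u0 : 0 ≤ u := by linarith
  have θu : ι * h ≤ u := by rw [hu]; linarith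
  rw [← hu] at hL hb
  obtain ⟨θ, hθ⟩ : ∃ θ : ℝ, θ = ι * h := ⟨_, rfl⟩
  rw [← hθ] at hm θu hιh
  rw [← hθ]
  -- bounds by u
  have mu : ∀ n : ℕ, (n : ℝ) ≤ n * u := fun n => le_mul_of_one_le_right (Nat.cast_nonneg _) u1
  have bB : ((b + nB : ℕ) : ℝ) ≤ aB * u := by
    push_cast
    rw [haB]
    linarith only [mu nB, hb]
  have be : ((b + nE : ℕ) : ℝ) ≤ ae * u := by
    push_cast
    rw [hae]
    linarith only [mu nE, hb]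
  have b2 : ((b + nE + n2 : ℕ) : ℝ) ≤ a2 * u := by
    push_cast
    rw [ha2]
    linarith only [mu nE, mu n2, hb]
  have bm : (m : ℝ) ≤ am * u := by
    have h1 : (θ + ((b + nB : ℕ) : ℝ) + 1) / ε₀ ≤ ((2 + aB) * u) / ε₀ :=
      div_le_div_of_nonneg_right (by linarith only [θu, bB, u1]) hε₀.le
    have h2 : (2 + aB) * u / ε₀ = (2 + aB) / ε₀ * u := by ring
    rw [ham]
    linarith only [h1, h2, u1, hm]
  have hK : ∀ a ∈ [l1, l2, l3, ae, l5, l6, l7, l8, l9, a2, l10, l11, a3, l12, l13, l14, l15, ar],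
      a * u ≤ 1 * h := fun a ha => by
    have := hL a ha t1 (by simp)
    rwa [ht1] at this
  have hrm : ((b + nB + 1 + j₀ * m : ℕ) : ℝ) ≤ ar * u := by
    push_cast at bB ⊢
    rw [har]
    have := mul_le_mul_of_nonneg_left bm j0
    linarith only [this, bB, u1]
  refine ⟨?_, ?_⟩
  · have h1 := hK ar (by simp)
    have h2 : ((b + nB + 1 + j₀ * m : ℕ) : ℝ) ≤ h := by linarith only [h1, hrm]
    exact_mod_cast h2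
  intro i hi r c₃ hr hc₃ θ₁ θ₂ hθ₁ hθ₂
  have br : (r : ℝ) ≤ ar * u := by
    have h1 : r ≤ b + nB + 1 + j₀ * m := by
      rw [hr]
      have : j₀ * i ≤ j₀ * m := Nat.mul_le_mul_left _ hi.le
      omega
    have h2 : (r : ℝ) ≤ ((b + nB + 1 + j₀ * m : ℕ) : ℝ) := by exact_mod_cast h1
    linarith only [h2, hrm]
  have r0 : (0 : ℝ) ≤ r := Nat.cast_nonneg _
  have b3 : (c₃ : ℝ) ≤ a3 * u := by
    rw [hc₃]
    push_cast at b2 ⊢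
    rw [ha3]
    have h1 : ((r : ℝ) + 1) * K ≤ ((ar + 1) * u) * K :=
      mul_le_mul_of_nonneg_right (by linarith only [br, u1]) K0
    linarith only [h1, b2, mu K, u1]
  have bt1 : θ₁ ≤ at1 * u := by
    rw [hθ₁, hat1]
    have h1 : θ + ((b + nB : ℕ) : ℝ) + r + 1 ≤ (2 + aB + ar) * u := by
      linarith only [θu, bB, br, u1]
    have h2 := mul_le_mul_of_nonneg_left h1 (by positivity : (0 : ℝ) ≤ 2 * K + 6)
    linarith only [h2, u1]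
  have θ₁0 : 0 ≤ θ₁ := by rw [hθ₁]; positivity
  have bt2 : θ₂ ≤ at2 * u := by
    rw [hθ₂, hat2]
    have h1 : θ₁ + 1 ≤ (at1 + 1) * u := by linarith only [bt1, u1]
    have h2 := mul_le_mul_of_nonneg_left h1 h8c.le
    linarith only [h2]
  have θ₂0 : 0 ≤ θ₂ := by rw [hθ₂]; positivity
  have hl80 : ∀ t ∈ [t1, t2, t3, t4, t5, t6, t7, t8, t9, t10, t11, t12], 8 ≤ t * h := fun t ht => by
    have := hL l1 (by simp) t ht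
    rw [hl1] at this
    linarith only [this, u1]
  -- the numbers
  obtain ⟨x₁, hx₁⟩ : ∃ x₁, x₁ = ⌊a₁ * (h : ℝ)⌋₊ := ⟨_, rfl⟩
  have x₁u : (x₁ : ℝ) ≤ a₁ * h := by rw [hx₁]; exact floor_le' a₁0 h
  have x₁l : a₁ * h / 2 ≤ x₁ := by
    rw [hx₁]
    refine floor_half' ?_
    have := hl80 t6 (by simp)
    rw [ht6] at this
    linarith only [this]
  obtain ⟨s₁, hs₁⟩ : ∃ s₁, s₁ = ⌊σ₁ * (x₁ : ℝ)⌋₊ := ⟨_, rfl⟩
  have s₁u : (s₁ : ℝ) ≤ σ₁ * x₁ := by rw [hs₁]; exact floor_le' hσ₁ x₁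
  have hσx : σ₁ * (a₁ * h / 2) ≤ σ₁ * x₁ := mul_le_mul_of_nonneg_left x₁l hσ₁.le
  have s₁l : σ₁ * x₁ / 2 ≤ s₁ := by
    rw [hs₁]
    refine floor_half' ?_
    have := hl80 t8 (by simp)
    rw [ht8, ha₂] at this
    linarith only [this, hσx]
  obtain ⟨x₂, hx₂⟩ : ∃ x₂, x₂ = ⌊a₂ * (h : ℝ)⌋₊ := ⟨_, rfl⟩
  have x₂u : (x₂ : ℝ) ≤ a₂ * h := by rw [hx₂]; exact floor_le' a₂0 h
  have x₂l : a₂ * h / 2 ≤ x₂ := by
    rw [hx₂]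
    refine floor_half' ?_
    have := hl80 t9 (by simp)
    rw [ht9] at this
    linarith only [this]
  obtain ⟨s₂, hs₂⟩ : ∃ s₂, s₂ = ⌊σ₂ * (x₂ : ℝ)⌋₊ := ⟨_, rfl⟩
  have s₂u : (s₂ : ℝ) ≤ σ₂ * x₂ := by rw [hs₂]; exact floor_le' hσ₂ x₂
  have hσx2 : σ₂ * (a₂ * h / 2) ≤ σ₂ * x₂ := mul_le_mul_of_nonneg_left x₂l hσ₂.le
  have s₂l : σ₂ * x₂ / 2 ≤ s₂ := by
    rw [hs₂]
    refine floor_half' ?_
    have := hl80 t11 (by simp)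
    rw [ht11, hκf] at this
    linarith only [this, hσx2]
  have a₂h : a₂ * h = σ₁ * a₁ / 8 * h := by rw [ha₂]
  have κfh : κf * h = σ₂ * a₂ / 8 * h := by rw [hκf]
  have a₁h : 0 ≤ a₁ * h := by positivity
  have a₂h0 : 0 ≤ a₂ * h := by positivity
  have c₃s : (c₃ : ℝ) ≤ κf * h := by
    have := hL a3 (by simp) t11 (by simp)
    rw [ht11] at this
    linarith only [this, b3]
  have s₂l' : 2 * (κf * h) ≤ s₂ := by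
    rw [κfh]
    linarith only [s₂l, hσx2]
  have c₃s₂ : c₃ ≤ s₂ := by
    have h1 : 0 ≤ κf * h := by positivity
    have h2 : (c₃ : ℝ) ≤ s₂ := by linarith only [h1, c₃s, s₂l']
    exact_mod_cast h2
  obtain ⟨h', hh'⟩ : ∃ h', h' = s₂ - c₃ := ⟨_, rfl⟩
  have h'e : (h' : ℝ) = s₂ - c₃ := by rw [hh', Nat.cast_sub c₃s₂]
  have h'l : κf * h ≤ h' := by rw [h'e]; linarith only [s₂l', c₃s]
  have h'ε : ε * κf * h ≤ ε * h' := by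
    rw [mul_assoc]
    exact mul_le_mul_of_nonneg_left h'l hε.le
  have x₂0 : (0 : ℝ) ≤ x₂ := Nat.cast_nonneg _
  have s₂x₂ : s₂ ≤ x₂ := by
    have h1 : σ₂ * x₂ ≤ 1 * x₂ := mul_le_mul_of_nonneg_right hσ₂1 x₂0
    have h2 : (s₂ : ℝ) ≤ x₂ := by linarith only [h1, s₂u]
    exact_mod_cast h2
  have x₂x₁ : x₂ ≤ x₁ := by
    have h1 : a₂ * h ≤ a₁ / 8 * h := mul_le_mul_of_nonneg_right a₂1 h0
    have h2 : (x₂ : ℝ) ≤ x₁ := by linarith only [h1, x₂u, x₁l, a₁h]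
    exact_mod_cast h2
  have x₁h : x₁ ≤ h := by
    have h1 : a₁ * h ≤ 1 * h := mul_le_mul_of_nonneg_right a₁1 h0
    have h2 : (x₁ : ℝ) ≤ h := by linarith only [h1, x₁u]
    exact_mod_cast h2
  have κbf : κb * h / 2 ≤ (⌊κb * (h : ℝ)⌋₊ : ℝ) := by
    refine floor_half' ?_
    have := hl80 t2 (by simp)
    rw [ht2] at this
    linarith only [this]
  have log2 : (1 : ℝ) / 2 ≤ Real.log 2 := by linarith [Real.log_two_gt_d9]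
  have bκ1 : κ * h ≤ κb / 4 * h := mul_le_mul_of_nonneg_right κ1 h0
  have bκ2 : κ * h ≤ a₁ / 4 * h := mul_le_mul_of_nonneg_right κ2 h0
  have bκ3 : κ * h ≤ a₂ / 4 * h := mul_le_mul_of_nonneg_right κ3 h0
  refine ⟨x₁, s₁, x₂, s₂, h', ?_⟩
  constructor
  · have h1 := hK ar (by simp)
    have h2 : (r : ℝ) ≤ h := by linarith only [h1, br]
    exact_mod_cast h2
  · have h1 := hK l3 (by simp)
    rw [hl3] at h1
    have h2 : ((b + 2 * (K + 1) : ℕ) : ℝ) ≤ h := by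
      push_cast
      linarith only [h1, hb, mu K, u1]
    exact_mod_cast h2
  · have h1 := hK l7 (by simp)
    rw [hl7] at h1
    have h2 : (XL : ℝ) ≤ h := by linarith only [h1, mu XL]
    exact_mod_cast h2
  · have h1 := hL ae (by simp) t2 (by simp)
    rw [ht2] at h1
    linarith only [h1, be, bκ1, κbf]
  · have h1 := hL l5 (by simp) t3 (by simp)
    rw [ht3, hl5] at h1
    have h2 : (3 * θ + 17) / π₀ ≤ 20 * u / π₀ :=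
      div_le_div_of_nonneg_right (by linarith only [θu, u1]) hπ₀.le
    have h3 : 20 * u / π₀ = 20 / π₀ * u := by ring
    have h4 : κb * h / 2 * (1 / 2) ≤ (⌊κb * (h : ℝ)⌋₊ : ℝ) * Real.log 2 :=
      mul_le_mul κbf log2 (by norm_num) (Nat.cast_nonneg _)
    have h5 := mul_le_mul_of_nonneg_left h4 (by positivity : 0 ≤ c / 2)
    linarith only [h1, h2, h3, h5, hb, u1]
  · have h1 := hL l6 (by simp) t4 (by simp)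
    rw [ht4, hl6] at h1
    linarith only [h1, θu, bB, u1]
  · have h1 := hK l2 (by simp)
    rw [hl2] at h1
    have h2 : ((r + j₀ : ℕ) : ℝ) ≤ h := by
      push_cast
      linarith only [h1, br, mu j₀]
    exact_mod_cast h2
  · have h1 := hL l9 (by simp) t6 (by simp)
    rw [ht6, hl9] at h1
    have h2 : (X₁ : ℝ) ≤ x₁ := by linarith only [h1, mu X₁, x₁l, a₁h]
    exact_mod_cast h2
  · exact x₁h
  · have h1 := hL a2 (by simp) t6 (by simp)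
    rw [ht6] at h1
    linarith only [h1, b2, bκ2, x₁l]
  · have h1 := hL l10 (by simp) t7 (by simp)
    rw [ht7, hl10] at h1
    have h2 : ι₁ * (a₁ * h / 2) ≤ ι₁ * x₁ := mul_le_mul_of_nonneg_left x₁l hι₁.le
    linarith only [h1, h2, bt1, hb, b2]
  · exact s₁u
  · have h1 := hL l8 (by simp) t5 (by simp)
    rw [ht5, hl8] at h1
    have h2 : a₁ * h ≤ κ₂ / 2 * h := mul_le_mul_of_nonneg_right a₁κ h0
    linarith only [h1, h2, be, x₁u, mu (k * (K + 1))]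
  · have h1 := hL l11 (by simp) t9 (by simp)
    rw [ht9, hl11] at h1
    have h2 : (X₂ : ℝ) ≤ x₂ := by linarith only [h1, mu X₂, x₂l, a₂h0]
    exact_mod_cast h2
  · exact x₂x₁
  · have h1 := hL a2 (by simp) t8 (by simp)
    rw [ht8] at h1
    have h2 : ((b + nE + n2 + x₂ : ℕ) : ℝ) ≤ s₁ := by
      push_cast at b2 ⊢
      linarith only [h1, b2, x₂u, s₁l, hσx, a₂h]
    exact_mod_cast h2
  · have h1 := hL a3 (by simp) t9 (by simp)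
    rw [ht9] at h1
    linarith only [h1, b3, bκ3, x₂l]
  · have h1 := hL l12 (by simp) t10 (by simp)
    rw [ht10, hl12] at h1
    have h2 : ι₂ * (a₂ * h / 2) ≤ ι₂ * x₂ := mul_le_mul_of_nonneg_left x₂l hι₂.le
    linarith only [h1, h2, bt2, hb, br, b3]
  · exact s₂u
  · clear hL hK hl80
    omega
  · clear hL hK hl80
    omega
  · exact h'l
  · clear hL hK hl80
    omega
  · have h1 := hL l13 (by simp) t12 (by simp)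
    rw [ht12, hl13] at h1
    linarith only [h1, b3, u1, h'ε]
  · have h1 := hL l14 (by simp) t12 (by simp)
    rw [ht12, hl14] at h1
    have h2 : θ₂ + r + 1 ≤ (at2 + ar + 1) * u := by linarith only [bt2, br, u1]
    have h3 := mul_le_mul_of_nonneg_left h2 (by linarith only [hC₂] : 0 ≤ C₂)
    linarith only [h1, h3, h'ε]
  · have h1 := hL l15 (by simp) t12 (by simp)
    rw [ht12, hl15] at h1
    rw [← hcF]
    have h2 : θ₂ + 1 ≤ (at2 + 1) * u := by linarith only [bt2, u1]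
    have h3 := mul_le_mul_of_nonneg_left h2 (by positivity : 0 ≤ 8 / c)
    have h4 : 8 / c * (θ₂ + 1) + 1 ≤ (8 / c * (at2 + 1) + 1) * u := by linarith only [h3, u1]
    have h5 := mul_le_mul_of_nonneg_left h4 (by linarith only [hCF] : 0 ≤ CF)
    have h6 : cF ≤ cF * u := le_mul_of_one_le_right cF0 u1
    linarith only [h1, h5, h6, br, h'ε]

end Pool.TIE
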