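import Pool.Agent.H88.TIE.CoreF
import Pool.Agent.H88.TIE.Num
import Pool.Agent.H65.TIE.F2
import Pool.Agent.H65.TIE.W2
import Pool.Agent.H77.TIE.StepF

/-!
# The core
-/

set_option autoImplicit false

namespace Pool.TIE

open Finset Real
open Pool.Agent.H49.Ent Pool.Agent.H32.Dense Pool.STK Pool.BFL Pool.MIC Pool.LBL Pool.GLM
open Pool.K2S Pool.KAF Pool.M5 Pool.SLO

theorem pow_n8 (k K k₀ b e : ℕ) (hbe : b ≤ e) :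
    ((K : ℝ) + 1) ^ (k + 2) * 2 ^ (K + k₀ * K) * 2 ^ b + 2 ^ e ≤
      2 ^ (e + ((k + 2) * (K + 1) + K + k₀ * K + 1)) := by
  have h1 := pow_K K (k + 2)
  have h2 : ((K : ℝ) + 1) ^ (k + 2) * 2 ^ (K + k₀ * K) * 2 ^ b ≤
      2 ^ ((k + 2) * (K + 1)) * 2 ^ (K + k₀ * K) * 2 ^ e := by
    have h3 : (2 : ℝ) ^ b ≤ 2 ^ e := pow_le_pow_right₀ (by norm_num) hbe
    exact mul_le_mul (mul_le_mul_of_nonneg_right h1 (by positivity)) h3 (by positivity)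
      (by positivity)
  have h4 : (2 : ℝ) ^ ((k + 2) * (K + 1)) * 2 ^ (K + k₀ * K) * 2 ^ e =
      2 ^ (e + ((k + 2) * (K + 1) + K + k₀ * K)) := by
    rw [← pow_add, ← pow_add]
    congr 1
    ring
  have h5 : (2 : ℝ) ^ e ≤ 2 ^ (e + ((k + 2) * (K + 1) + K + k₀ * K)) :=
    pow_le_pow_right₀ (by norm_num) (Nat.le_add_right _ _)
  have h6 : (2 : ℝ) ^ (e + ((k + 2) * (K + 1) + K + k₀ * K + 1)) =
      2 ^ (e + ((k + 2) * (K + 1) + K + k₀ * K)) * 2 := pow_succ _ _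
  rw [h6]
  linarith

/-- **The first digits.** -/
theorem dig_mk {Ω ζ 𝒬 ℛ : Type} [Fintype Ω] {k : ℕ} {p : Ω → ℝ} {Z : Ω → ζ} {Q : Ω → 𝒬}
    {R : Ω → ℛ} {W : Ω → Fin k → ℤ} {t : Ω → ℤ} {nu : Ω → ℝ} {S F₂ : Ω → Pl k}
    {P : Ω → Polynomial ℝ} {X h K : ℕ} {θ c₀ κ π' : ℝ}
    (hC : CoreH p Z Q R W t nu S F₂ P X h K θ θ c₀ κ π') {b B e m j₀ : ℕ} {ε₀ : ℝ}
    (hD : (mkCd p Z Q R W t nu S F₂ P X h b B (B + 1) e).Ok K)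
    (hm : B + 1 + j₀ * m ≤ h) (hm0 : 0 < m) (hε : θ + B + 1 ≤ m * ε₀) :
    ∃ i, i < m ∧ ∀ r, r = B + 1 + j₀ * i → j₀ * Real.log 2 - ε₀ ≤
      CH (mkCd p Z Q R W t nu S F₂ P X h b B r e).p
        (fun ω => (mkCd p Z Q R W t nu S F₂ P X h b B r e).NT ω /
          2 ^ ((mkCd p Z Q R W t nu S F₂ P X h b B r e).M -
            ((mkCd p Z Q R W t nu S F₂ P X h b B r e).r + j₀)))
        (fun ω => ((mkCd p Z Q R W t nu S F₂ P X h b B r e).hi ω,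
          ((mkCd p Z Q R W t nu S F₂ P X h b B r e).n1 ω,
            ((mkCd p Z Q R W t nu S F₂ P X h b B r e).W ω,
              ((mkCd p Z Q R W t nu S F₂ P X h b B r e).R ω,
                ((mkCd p Z Q R W t nu S F₂ P X h b B r e).Q ω,
                  (mkCd p Z Q R W t nu S F₂ P X h b B r e).Z ω)))))) := by
  have h1 := Cd.NT_full hD (inf_mk hC b B (B + 1) e)
  have hX := hC.hX
  obtain ⟨i, hi, h2⟩ := dig (p := p) hC.isLaw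
    (mkCd p Z Q R W t nu S F₂ P X h b B (B + 1) e).NT
    (fun ω => ((mkCd p Z Q R W t nu S F₂ P X h b B (B + 1) e).n1 ω, (W ω, (R ω, (Q ω, Z ω)))))
    (M := (mkCd p Z Q R W t nu S F₂ P X h b B (B + 1) e).M) (r₁ := B + 1) (m := m) (j₀ := j₀)
    (Δ := θ + B + 1) (ε₀ := ε₀) (fun ω _ => Cd.NT_mem hD ω) h1 (by
      have : (mkCd p Z Q R W t nu S F₂ P X h b B (B + 1) e).M = X + B + 1 := rfl
      rw [this]
      omega) hm0 hε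
  refine ⟨i, hi, fun r hr => ?_⟩
  subst hr
  exact h2

/-- **The core**, with the degree before the error. -/
theorem core_of (hF2 : F2Stmt) (hW2 : W2Stmt) (k K : ℕ) (c₀ ε : ℝ) (hc₀ : 0 < c₀) (hε : 0 < ε) :
    ∃ (h₁ : ℕ) (κ' κ ϖ c₁ ι : ℝ), 0 < κ' ∧ κ' ≤ 1 ∧ 0 < κ ∧ 0 < ϖ ∧ 0 < c₁ ∧ 0 < ι ∧
      CoreAt k K c₀ ε (K * (K + 1) + K) h₁ κ' κ ϖ c₁ ι := by
  obtain ⟨c, hc⟩ : ∃ c : ℝ, c = min c₀ 1 := ⟨_, rfl⟩
  have c0 : 0 < c := by rw [hc]; exact lt_min hc₀ one_pos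
  have c1 : c ≤ 1 := by rw [hc]; exact min_le_right _ _
  have cc₀ : c ≤ c₀ := by rw [hc]; exact min_le_left _ _
  clear hc
  obtain ⟨κ₂, κb, π₀, ιL, ε₀, k₀, j₀, XL, hκ₂, hκb, hκb1, hπ₀, hιL, hε₀, hL⟩ :=
    l1a k K K (3 * K + 1) (c / 2) (1 / 2) (by positivity) (by norm_num)
  obtain ⟨σ₁, ι₁, C₁, X₁, hσ₁, hσ₁1, hι₁, hC₁, hw1⟩ := w1 k K c c0 c1
  obtain ⟨σ₂, ι₂, C₂, X₂, hσ₂, hσ₂1, hι₂, hC₂, hw2⟩ := hW2 k K c c0 c1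
  obtain ⟨CF, hCF, hf2⟩ := hF2 k K
  obtain ⟨n2, hn2⟩ : ∃ n2, n2 = (k + 2) * (K + 1) + K + k₀ * K + 1 := ⟨_, rfl⟩
  obtain ⟨κ, κf, ι, h₁, κ0, κf0, κf1, ι0, hnum⟩ := num_of k K (C₁ := C₁) j₀ XL X₁ X₂ c0 hε hκ₂ hκb
    hπ₀ hιL hε₀ hι₁ hC₁ hι₂ hC₂ hCF hσ₁ hσ₁1 hσ₂ hσ₂1 (k * (K + 1) + 1)
    (k * (K + 1) + (K + 1) + 2 * K) n2
  obtain ⟨π', hπ'⟩ : ∃ π' : ℝ, π' = min π₀ (1 / 2 * (c / 8)) := ⟨_, rfl⟩
  have π'0 : 0 < π' := by rw [hπ']; exact lt_min hπ₀ (by positivity)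
  have π'1 : π' ≤ π₀ := by rw [hπ']; exact min_le_left _ _
  have π'2 : π' ≤ 1 / 2 * (c / 8) := by rw [hπ']; exact min_le_right _ _
  clear hπ'
  refine ⟨h₁, κf, κ, π', 1 / 2 * (c / 8) * (c / 8), ι, κf0, κf1, κ0, π'0, by positivity, ι0, ?_⟩
  intro Ω ζ 𝒬 ℛ _ p Z Q R W t nu S F₂ P X h hh hC
  have h0 : (0 : ℝ) ≤ h := Nat.cast_nonneg _
  obtain ⟨θ, hθ⟩ : ∃ θ : ℝ, θ = ι * h := ⟨_, rfl⟩
  have θ0 : 0 ≤ θ := by rw [hθ]; positivity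
  obtain ⟨b, hb⟩ : ∃ b, b = ⌈θ⌉₊ := ⟨_, rfl⟩
  have hθb : θ ≤ b := by rw [hb]; exact Nat.le_ceil _
  have hbθ : (b : ℝ) ≤ θ + 1 := by rw [hb]; exact (Nat.ceil_lt_add_one θ0).le
  obtain ⟨m, hm⟩ : ∃ m, m = ⌈(θ + ((b + (k * (K + 1) + 1) : ℕ) : ℝ) + 1) / ε₀⌉₊ + 1 := ⟨_, rfl⟩
  have hm0 : 0 < m := by rw [hm]; exact Nat.succ_pos _
  have hm1 : (m : ℝ) ≤ (θ + ((b + (k * (K + 1) + 1) : ℕ) : ℝ) + 1) / ε₀ + 2 := by
    rw [hm]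
    have := (Nat.ceil_lt_add_one (by positivity :
      0 ≤ (θ + ((b + (k * (K + 1) + 1) : ℕ) : ℝ) + 1) / ε₀)).le
    push_cast at this ⊢
    linarith only [this]
  have hm2 : θ + ((b + (k * (K + 1) + 1) : ℕ) : ℝ) + 1 ≤ m * ε₀ := by
    have h1 : (θ + ((b + (k * (K + 1) + 1) : ℕ) : ℝ) + 1) / ε₀ ≤ m := by
      rw [hm]
      have := Nat.le_ceil ((θ + ((b + (k * (K + 1) + 1) : ℕ) : ℝ) + 1) / ε₀)
      push_cast at this ⊢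
      linarith only [this]
    rwa [div_le_iff₀ hε₀] at h1
  have hnum' := hnum h hh b m
  rw [← hθ] at hnum' hC
  obtain ⟨hm3, hnum''⟩ := hnum' hbθ hm1
  -- the first digits
  have hr0 : b + (k * (K + 1) + 1) + 1 ≤ h := le_trans (Nat.le_add_right _ _) hm3
  have hh0 : b + 2 * (K + 1) ≤ h := by
    obtain ⟨x₁, s₁, x₂, s₂, h', hN⟩ := hnum'' 0 hm0 _ _ rfl rfl _ _ rfl rfl
    exact hN.hh
  have hD0 := ok_mk hC hθb (le_refl (b + (k * (K + 1) + 1) + 1)) hr0 hh0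
  obtain ⟨i, hi, hdig⟩ := dig_mk hC hD0 hm3 hm0 hm2
  obtain ⟨r, hr⟩ : ∃ r, r = b + (k * (K + 1) + 1) + 1 + j₀ * i := ⟨_, rfl⟩
  have hdig' := hdig r hr
  clear hdig
  obtain ⟨c₃, hc₃⟩ : ∃ c₃, c₃ = b + (k * (K + 1) + (K + 1) + 2 * K) + n2 + 2 * K + 1 + (r + 1) * K :=
    ⟨_, rfl⟩
  obtain ⟨θ₁, hθ₁⟩ : ∃ θ₁ : ℝ, θ₁ = 2 * ((2 * K + 6) * (θ + ((b + (k * (K + 1) + 1) : ℕ) : ℝ) +
    r + 1) + 1) := ⟨_, rfl⟩
  obtain ⟨θ₂, hθ₂⟩ : ∃ θ₂ : ℝ, θ₂ = (8 / c + C₁) * (θ₁ + 1) := ⟨_, rfl⟩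
  obtain ⟨x₁, s₁, x₂, s₂, h', hN⟩ := hnum'' i hi r c₃ hr hc₃ θ₁ θ₂ hθ₁ hθ₂
  have hDr := ok_mk hC hθb (b := b) (r := r) (by omega) hN.hrh hN.hh
  have hI := inf_mk hC b (b + (k * (K + 1) + 1)) r (b + (k * (K + 1) + (K + 1) + 2 * K))
  have hNf := nf_mk hC b (b + (k * (K + 1) + 1)) r (b + (k * (K + 1) + (K + 1) + 2 * K))
  obtain ⟨D, hDd⟩ : ∃ D, D = mkCd p Z Q R W t nu S F₂ P X h b (b + (k * (K + 1) + 1)) r
    (b + (k * (K + 1) + (K + 1) + 2 * K)) := ⟨_, rfl⟩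
  have hX := hC.hX
  have hav := Cd.avgA hDr hI θ0 (κ := κb) (κ₁ := κ) (π₀ := π₀) (ι := ιL) (ε₀ := ε₀) (j₀ := j₀) c1
    hπ₀ (hNf.mono cc₀ le_rfl π'1) κ0.le hιL.le hN.hy hN.h5 hN.hs (by
      have h1 := hN.hj
      show r + j₀ ≤ X + (b + (k * (K + 1) + 1)) + 1
      omega) hdig'
  have hPr := hL _ _ _ _ _ _ _ _ _ _ h hN.hXL hav
  have hFb := Cd.fx_base hDr hI θ0
  rw [← hDd] at hDr hI hNf hPr hFb
  have hDp : D.Ω = Ω := by rw [hDd]; rfl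
  -- the good event
  obtain ⟨Bad, hBad⟩ : ∃ Bad : Set (Om D K), Bad = {u | (∃ j j', j ≠ j' ∧
      |D.th (u.1 j) - D.th (u.1 j')| < (2 : ℝ) ^ (-(k₀ : ℤ))) ∨
      ∃ i : Mon k K, (2 : ℝ) ^ (-(κ₂ * h)) < |D.cof K u.2 i -
        (Lagrange.interpolate univ (fun j => D.th (u.1 j))
          (fun j => D.cof K (u.1 j) i)).eval (D.th u.2)|} := ⟨_, rfl⟩
  rw [← hBad] at hPr
  have hE : 1 / 2 ≤ Pb (q1 D.p D.Lm K) (fun u => ¬ u ∈ Bad) := by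
    have e1 := Pb_not hFb.law.sum_one (fun u => u ∈ Bad)
    have e2 : Pr (q1 D.p D.Lm K) Bad = Pb (q1 D.p D.Lm K) (fun u => u ∈ Bad) := law_True _ _
    rw [e2] at hPr
    linarith only [e1, hPr]
  have hE0 : 0 < Pb (q1 D.p D.Lm K) (fun u => ¬ u ∈ Bad) := by linarith only [hE]
  have hFe := (hFb.ev hDr zero_le_one _ hE0).mono (θ' := θ₁) (d' := 1 / 2) (by
    rw [hθ₁]
    have e1 : 0 ≤ (2 * K + 6) * (θ + D.B + D.r + 1) + 1 := by positivity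
    have e2 : ((2 * K + 6) * (θ + D.B + D.r + 1) + 1) /
        Pb (q1 D.p D.Lm K) (fun u => ¬ u ∈ Bad) ≤
        ((2 * K + 6) * (θ + D.B + D.r + 1) + 1) / (1 / 2) :=
      div_le_div_of_nonneg_left e1 (by norm_num) hE
    have e3 : ((2 * K + 6) * (θ + D.B + D.r + 1) + 1) / (1 / 2) =
      2 * ((2 * K + 6) * (θ + D.B + D.r + 1) + 1) := by ring
    have e4 : (D.B : ℝ) = ((b + (k * (K + 1) + 1) : ℕ) : ℝ) := by rw [hDd]; rfl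
    have e5 : (D.r : ℝ) = r := by rw [hDd]; rfl
    rw [← e4, ← e5]
    linarith only [e2, e3]) (by linarith only [hE])
  have hhD : (D.h : ℝ) = h := by rw [hDd]; rfl
  have hA : ∀ u, 0 < cond (q1 D.p D.Lm K) (fun u => ¬ u ∈ Bad) True u →
      D.Apx K k₀ (2 ^ D.e * (2 : ℝ) ^ (-(κ₂ * D.h))) u := fun u hu => by
    have e1 := (ev_pos hFb.law.nonneg _ hu).2
    refine Cd.apx_of ?_
    rw [hBad, Set.mem_ofPred_eq, ← hhD] at e1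
    exact e1
  have hfin := core_chain k K c c0 c1 hC₁ hC₂ hw1 hw2 hf2 D (d := 1 / 2) (κ := κ) (k₀ := k₀)
    (c₂ := b + (k * (K + 1) + (K + 1) + 2 * K) + n2) (c₃ := c₃) (x₁ := x₁) (s₁ := s₁) (x₂ := x₂)
    (s₂ := s₂) (h' := h') hDr hFe (by norm_num) hA (hNf.mono cc₀ le_rfl π'2) κ0.le (by positivity)
    (by rw [hθ₁]; positivity) hN.n1 (by rw [hDd]; exact hN.n2) (by rw [hDd]; exact hN.n3)
    (by rw [hDd]; exact hN.n4) hN.n5 (Cd.prec (by rw [hDd]; exact hN.n6))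
    (by rw [hDd]; exact Nat.le_add_right _ _) (by
      rw [hDd, hn2]
      exact pow_n8 k K k₀ b _ (Nat.le_add_right _ _)) hθ₂ hN.m1 hN.m2 hN.m3 (by
      have e1 := hN.hrh
      have e2 := hN.m2
      have e3 := hN.n2
      rw [hDd]
      show r + x₂ ≤ X
      omega) (by rw [hDd]; exact hN.m5) (by rw [hDd]; exact hN.m6) hN.m7 (by rw [hDd]; exact hc₃)
    hN.m9 hN.m10
  clear hA hFe hE hE0 hBad hPr hFb hNf hI hDr hav hdig'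
  subst hDd
  obtain ⟨q', G, g1, g2, g3, g4, g5⟩ := hfin
  refine ⟨_, inferInstance, q', fun u => u.2, h', G, g1, hN.o1, hN.o2, g2, fun u α => ?_, ?_, ?_⟩
  · refine (g3 u α).trans ?_
    rw [← Real.rpow_natCast]
    refine Real.rpow_le_rpow_of_exponent_le (by norm_num) ?_
    push_cast
    exact hN.o3
  · exact g4.trans hN.o4
  · refine le_trans ?_ g5
    have e1 := hN.o5
    show ((k : ℝ) + 1) * (X * Real.log 2) - ε * h' ≤ (k + 1) * (X * Real.log 2) -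
      (CF * (8 / c * (θ₂ + 1) + 1) + r +
        (4 * (((K * (K + 1) + K : ℕ) + 1 : ℝ) ^ (k + 1) + 1) + 2))
    linarith only [e1]

/-- **The core.** -/
theorem core : CoreStmt := fun k K c₀ ε hc₀ hε => ⟨_, core_of f2_thm w2_thm k K c₀ ε hc₀ hε⟩

/-- **The core**, with the degree before the error. -/
theorem core_ord : CoreOrd := fun k K c₀ hc₀ =>
  ⟨_, fun ε hε => core_of f2_thm w2_thm k K c₀ ε hc₀ hε⟩

/-- **One step.** -/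
theorem step_thm : StepS := step_s core_ord

/-- **STEP V.** -/
theorem all_thm : AllS := all_s core_ord

end Pool.TIE
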