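import Pool.Agent.H46.MIC.W0s

/-!
# All of the base at fixed time (STEP V): statements

One context variable `z` (the closed label and the exact time). `V` are the digits of the base
coordinates, in the order of the chain, `nu` the exact height of the target in units `2 ^ (-h₀)`.
Every base coordinate `c` has a shape `s c` over earlier coordinates (its sheet: `v c = n c + s c (v)`,
`n c` constant on the sheet). `sd c = true` for the coordinates of smaller ratio than the target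
(their sheets are over the coordinates of larger ratio and the closer ones), `sd c = false` for the
coordinates of larger ratio. `rk c` is the distance of the ratio to the ratio of the target.
A claim for a set `M` of coordinates: given the sheets of the coordinates outside `M` there is a
polynomial `F` of few bits in the coordinates of `M` such that `M` is full given `F` and the height
`nu - F (v)`.
-/

set_option autoImplicit false

namespace Pool.TIE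

open Finset MvPolynomial
open Pool.Agent.H49.Ent Pool.Agent.H32.Dense Pool.STK Pool.BFL

/-- Digits of a real number. -/
noncomputable def dg (h : ℕ) (x : ℝ) : ℤ := ⌊(2 : ℝ) ^ h * x⌋

/-- Data: law, context, digits of the base, height, shapes. -/
structure Dat (m : ℕ) : Type 1 where
  Ω : Type
  Γ : Type
  fin : Fintype Ω
  p : Ω → ℝ
  z : Ω → Γ
  V : Ω → Fin m → ℤ
  nu : Ω → ℤ
  s : Ω → Fin m → Pl m
  X : ℕ
  h₀ : ℕ

attribute [instance] Dat.fin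

namespace Dat

variable {m : ℕ} (D : Dat m)

/-- The same data on an extension of the sample space. -/
def pull {Ω' : Type} [Fintype Ω'] (q : Ω' → ℝ) (f : Ω' → D.Ω) : Dat m where
  Ω := Ω'
  Γ := D.Γ
  fin := inferInstance
  p := q
  z := fun ω => D.z (f ω)
  V := fun ω => D.V (f ω)
  nu := fun ω => D.nu (f ω)
  s := fun ω => D.s (f ω)
  X := D.X
  h₀ := D.h₀

/-- The position. -/
noncomputable def v (ω : D.Ω) : Fin m → ℝ := fun c => (D.V ω c : ℝ) / 2 ^ D.X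

/-- The height of the target. -/
noncomputable def nr (ω : D.Ω) : ℝ := (D.nu ω : ℝ) / 2 ^ D.h₀

/-- The height of the sheet of the coordinate `c`. -/
noncomputable def ht (c : Fin m) (ω : D.Ω) : ℤ :=
  dg D.X (D.v ω c - eval (D.v ω) (D.s ω c))

/-- The coordinates of the set `M`. -/
def on (M : Finset (Fin m)) (ω : D.Ω) : Fin m → ℤ := fun c => if c ∈ M then D.V ω c else 0

/-- The sheets of the coordinates outside `M`. -/
noncomputable def out (M : Finset (Fin m)) (ω : D.Ω) : Fin m → Option (ℤ × Pl m) := fun c =>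
  if c ∈ M then none else some (D.ht c ω, D.s ω c)

/-- The height over `F`, to `h` digits. -/
noncomputable def hF (h : ℕ) (F : D.Ω → Pl m) (ω : D.Ω) : ℤ :=
  dg h (D.nr ω - eval (D.v ω) (F ω))

end Dat

/-- A sub-law of an extension, with density at most `1 / c`. -/
structure SubL {Ω : Type} (p : Ω → ℝ) (c : ℝ) {Ω' : Type} [Fintype Ω'] (q : Ω' → ℝ)
    (f : Ω' → Ω) : Prop where
  isLaw : IsLaw q
  dens : ∀ ω, c * law q f ω ≤ p ω

/-- **Nonfull rows** of the height, for all sub-laws of density at most `1 / π`. -/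
def NFd {m : ℕ} (D : Dat m) (h : ℕ) (c κ π : ℝ) : Prop :=
  ∀ (Ω' : Type) [Fintype Ω'] (q : Ω' → ℝ) (f : Ω' → D.Ω), SubL D.p π q f →
    ∀ r r' : ℕ, r ≤ r' → r' ≤ h → κ * h ≤ (r' : ℝ) - r →
      CH q (fun ω => dg r' (D.nr (f ω))) (fun ω => (dg r (D.nr (f ω)), (D.V (f ω), D.z (f ω)))) ≤
        (1 - c) * ((r' : ℝ) - r) * Real.log 2

/-- **The claim** for the set `M`. -/
structure Claim {m : ℕ} (D : Dat m) (M : Finset (Fin m)) (h K : ℕ) (b θ : ℝ)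
    (F : D.Ω → Pl m) : Prop where
  vars : ∀ ω, (F ω).vars ⊆ M
  deg : ∀ ω, (F ω).totalDegree ≤ K
  cf : ∀ ω α, |coeff α (F ω)| ≤ (2 : ℝ) ^ b
  few : CH D.p F (fun ω => (D.out M ω, D.z ω)) ≤ θ
  full : M.card * (D.X * Real.log 2) - θ ≤
    CH D.p (D.on M) (fun ω => (D.hF h F ω, (F ω, (D.out M ω, D.z ω))))

/-- The general hypotheses. -/
structure Hyp {m : ℕ} (D : Dat m) (K : ℕ) (b θ : ℝ) : Prop where
  isLaw : IsLaw D.p
  V_lt : ∀ ω c, 0 ≤ D.V ω c ∧ D.V ω c < 2 ^ D.X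
  h_le : 2 * D.h₀ ≤ D.X
  s_deg : ∀ ω c, (D.s ω c).totalDegree ≤ K
  s_cf : ∀ ω c α, |coeff α (D.s ω c)| ≤ (2 : ℝ) ^ b
  s_vars : ∀ ω c, ∀ c' ∈ (D.s ω c).vars, c' < c
  nr_le : ∀ ω, |D.nr ω| ≤ (2 : ℝ) ^ b
  /-- the height is independent of the shapes, given the base -/
  nu_s : CH D.p D.nu (fun ω => (D.V ω, D.z ω)) ≤ CH D.p D.nu (fun ω => (D.s ω, (D.V ω, D.z ω))) + θ

/-- The set `M` is full given the sheets outside and the shapes of `c` and `c'`. -/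
def FulM {m : ℕ} (D : Dat m) (M : Finset (Fin m)) (c c' : Fin m) (θ : ℝ) : Prop :=
  M.card * (D.X * Real.log 2) - θ ≤
    CH D.p (D.on M) (fun ω => ((D.s ω c, D.s ω c'), (D.out M ω, D.z ω)))

/-- **The core, hypotheses.** Context `Z`; `W` and `t` are full digits; `Q` is hidden and
determines (with `Z`) the shape `S` of the sheet of `t` over `W`; `F₂` is the shape of the target on
this sheet; `P` is the shape of the target in the direction of `t` for fixed `W`, a function of `Z`,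
`W` and the hidden `R`. -/
structure CoreH {Ω ζ 𝒬 ℛ : Type} [Fintype Ω] {k : ℕ} (p : Ω → ℝ) (Z : Ω → ζ) (Q : Ω → 𝒬)
    (R : Ω → ℛ) (W : Ω → Fin k → ℤ) (t : Ω → ℤ) (nu : Ω → ℝ) (S F₂ : Ω → Pl k)
    (P : Ω → Polynomial ℝ) (X h K : ℕ) (b θ c₀ κ π : ℝ) : Prop where
  isLaw : IsLaw p
  hX : 2 * h ≤ X
  W_lt : ∀ ω i, 0 ≤ W ω i ∧ W ω i < 2 ^ X
  t_lt : ∀ ω, 0 ≤ t ω ∧ t ω < 2 ^ X
  S_det : Det p (fun ω => (Q ω, Z ω)) S
  P_det : Det p (fun ω => (W ω, (R ω, Z ω))) P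
  S_deg : ∀ ω, (S ω).totalDegree ≤ K
  F_deg : ∀ ω, (F₂ ω).totalDegree ≤ K
  P_deg : ∀ ω, (P ω).natDegree ≤ K
  S_cf : ∀ ω α, |coeff α (S ω)| ≤ (2 : ℝ) ^ b
  F_cf : ∀ ω α, |coeff α (F₂ ω)| ≤ (2 : ℝ) ^ b
  P_cf : ∀ ω i, |(P ω).coeff i| ≤ (2 : ℝ) ^ b
  nu_le : ∀ ω, |nu ω| ≤ (2 : ℝ) ^ b
  full : (k + 1) * (X * Real.log 2) - θ ≤
    CH p (fun ω => (W ω, t ω)) (fun ω => (Q ω, Z ω))
  /-- `W` is full given the sheet of `t` and the leaf of the target over it -/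
  fullW : k * (X * Real.log 2) - θ ≤ CH p W (fun ω =>
    (dg h (nu ω - eval (fun i => (W ω i : ℝ) / 2 ^ X) (F₂ ω)), (F₂ ω,
      (dg X ((t ω : ℝ) / 2 ^ X - eval (fun i => (W ω i : ℝ) / 2 ^ X) (S ω)), (Q ω, Z ω)))))
  /-- `t` is full given `W` and the leaf of the target over `t` -/
  fullt : X * Real.log 2 - θ ≤ CH p t (fun ω =>
    (dg h (nu ω - (P ω).eval ((t ω : ℝ) / 2 ^ X)), (W ω, (R ω, (Q ω, Z ω)))))
  few : CH p F₂ (fun ω =>
    (dg X ((t ω : ℝ) / 2 ^ X - eval (fun i => (W ω i : ℝ) / 2 ^ X) (S ω)), (Q ω, Z ω))) ≤ θ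
  /-- the height is independent of the hidden data, given the position -/
  nuQR : CH p (fun ω => dg h (nu ω)) (fun ω => (W ω, (t ω, Z ω))) ≤
    CH p (fun ω => dg h (nu ω)) (fun ω => (R ω, (Q ω, (W ω, (t ω, Z ω))))) + θ
  nf : ∀ (Ω' : Type) [Fintype Ω'] (q : Ω' → ℝ) (f : Ω' → Ω), SubL p π q f →
    ∀ r r' : ℕ, r ≤ r' → r' ≤ h → κ * h ≤ (r' : ℝ) - r →
      CH q (fun ω => dg r' (nu (f ω)))
        (fun ω => (dg r (nu (f ω)), (W (f ω), (t (f ω), Z (f ω))))) ≤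
        (1 - c₀) * ((r' : ℝ) - r) * Real.log 2

/-- **The core.** -/
def CoreStmt : Prop :=
  ∀ (k K : ℕ) (c₀ ε : ℝ), 0 < c₀ → 0 < ε → ∃ (K' h₁ : ℕ) (κ' κ π c₁ ι : ℝ), 0 < κ' ∧ κ' ≤ 1 ∧
    0 < κ ∧ 0 < π ∧ 0 < c₁ ∧ 0 < ι ∧
    ∀ (Ω ζ 𝒬 ℛ : Type) [Fintype Ω] (p : Ω → ℝ) (Z : Ω → ζ) (Q : Ω → 𝒬) (R : Ω → ℛ)
      (W : Ω → Fin k → ℤ) (t : Ω → ℤ) (nu : Ω → ℝ) (S F₂ : Ω → Pl k) (P : Ω → Polynomial ℝ)
      (X h : ℕ), h₁ ≤ h →
      CoreH p Z Q R W t nu S F₂ P X h K (ι * h) (ι * h) c₀ κ π →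
      ∃ (Ω' : Type) (_ : Fintype Ω') (q : Ω' → ℝ) (f : Ω' → Ω) (h' : ℕ) (G : Ω' → Pl (k + 1)),
        SubL p c₁ q f ∧ κ' * h ≤ h' ∧ h' ≤ h ∧ (∀ ω, (G ω).totalDegree ≤ K') ∧
        (∀ ω α, |coeff α (G ω)| ≤ (2 : ℝ) ^ (ε * h')) ∧
        CH q G (fun ω => Z (f ω)) ≤ ε * h' ∧
        (k + 1) * (X * Real.log 2) - ε * h' ≤ CH q (fun ω => (W (f ω), t (f ω)))
          (fun ω => (dg h' (nu (f ω) - eval (Fin.cons ((t (f ω) : ℝ) / 2 ^ X)
            (fun i => (W (f ω) i : ℝ) / 2 ^ X) : Fin (k + 1) → ℝ) (G ω)), (G ω, Z (f ω))))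

/-- **One step**: from the claims for `M` without `c` and without `c'` to the claim for `M`.
Constants in the order of dependence: given the target `ε`, there are `ι` (all errors relative to
`h`), `κ`, `π` (rows), such that the claim holds for a sub-law at the precision `h' ≥ κ' h`. -/
def StepStmt : Prop :=
  ∀ (m K : ℕ) (c₀ ε : ℝ), 0 < c₀ → 0 < ε → ∃ (K' h₁ : ℕ) (κ' κ π c₁ ι : ℝ), 0 < κ' ∧ κ' ≤ 1 ∧
    0 < κ ∧ 0 < π ∧ 0 < c₁ ∧ 0 < ι ∧
    ∀ (D : Dat m) (M : Finset (Fin m)) (c c' : Fin m) (h : ℕ) (F F' : D.Ω → Pl m), c ∈ M →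
      c' ∈ M → c < c' → h₁ ≤ h → h ≤ D.h₀ → Hyp D K (ι * h) (ι * h) →
      NFd D h c₀ κ π → FulM D M c c' (ι * h) →
      Claim D (M.erase c) h K (ι * h) (ι * h) F → Claim D (M.erase c') h K (ι * h) (ι * h) F' →
      ∃ (Ω' : Type) (_ : Fintype Ω') (q : Ω' → ℝ) (f : Ω' → D.Ω) (h' : ℕ) (G : Ω' → Pl m),
        SubL D.p c₁ q f ∧ κ' * h ≤ h' ∧ h' ≤ h ∧
        Claim (D.pull q f) M h' K' (ε * h') (ε * h') G

/-- **Restriction**: from the claim for `M` to the claim for `M` without `c`, with the sheet of `c`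
in the context. -/
def RestrStmt : Prop :=
  ∀ (m K : ℕ), ∃ (K' : ℕ) (C : ℝ), 1 ≤ C ∧
    ∀ (D : Dat m) (M : Finset (Fin m)) (c : Fin m) (h h' : ℕ) (b θ : ℝ) (F : D.Ω → Pl m), c ∈ M →
      0 ≤ b → 0 ≤ θ → h' ≤ h → h ≤ D.h₀ → (h' : ℝ) + C * (b + 1) ≤ D.X → Hyp D K b θ →
      ((M.erase c).card * (D.X * Real.log 2) - θ ≤
        CH D.p (D.on (M.erase c)) (fun ω => (D.out (M.erase c) ω, D.z ω))) →
      Claim D M h K b θ F →
      ∃ G : D.Ω → Pl m, Claim D (M.erase c) h' K' (C * (b + 1)) (C * (θ + b + 1)) G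

/-- Sub-laws: the hypotheses and the claims are inherited. -/
def SubStmt : Prop :=
  ∀ (m K : ℕ) (c : ℝ), 0 < c → ∃ C : ℝ, 1 ≤ C ∧
    ∀ (D : Dat m) (Ω' : Type) [Fintype Ω'] (q : Ω' → ℝ) (f : Ω' → D.Ω) (b θ : ℝ), 0 ≤ θ →
      Hyp D K b θ → SubL D.p c q f →
      Hyp (D.pull q f) K b (C * (θ + 1)) ∧
      (∀ h c₀ κ π, 0 < π → NFd D h c₀ κ π → NFd (D.pull q f) h c₀ κ (π / c)) ∧
      (∀ M c' c'', FulM D M c' c'' θ → FulM (D.pull q f) M c' c'' (C * (θ + 1))) ∧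
      (∀ M h F, Claim D M h K b θ F →
        Claim (D.pull q f) M h K b (C * (θ + 1)) (fun ω => F (f ω)))

/-- **STEP V**: claims for all one-sided sets give the claim for the whole base. -/
def AllStmt : Prop :=
  ∀ (m K : ℕ) (c₀ ε : ℝ), 0 < c₀ → 0 < ε → ∃ (K' h₁ : ℕ) (κ' κ π c₁ ι : ℝ), 0 < κ' ∧ κ' ≤ 1 ∧
    0 < κ ∧ 0 < π ∧ 0 < c₁ ∧ 0 < ι ∧
    ∀ (D : Dat m) (sd : Fin m → Bool) (rk : Fin m → ℕ) (F₁ F₂ : D.Ω → Pl m), h₁ ≤ D.h₀ →
      (∀ c c', rk c = rk c' → sd c = sd c' → c = c') →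
      Hyp D K (ι * D.h₀) (ι * D.h₀) → NFd D D.h₀ c₀ κ π →
      -- the set of the `i` closest smaller and the `j` closest larger ratios is full given the
      -- sheets outside and the shapes of its outermost coordinates
      (∀ i j, ∀ c c', sd c = true → sd c' = false → rk c = i → rk c' = j →
        FulM D (univ.filter fun a => (sd a = true ∧ rk a ≤ i) ∨ (sd a = false ∧ rk a ≤ j)) c c'
          (ι * D.h₀)) →
      -- the two own leaves
      Claim D (univ.filter fun a => sd a = true) D.h₀ K (ι * D.h₀) (ι * D.h₀) F₁ →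
      Claim D (univ.filter fun a => sd a = false) D.h₀ K (ι * D.h₀) (ι * D.h₀) F₂ →
      ∃ (Ω' : Type) (_ : Fintype Ω') (q : Ω' → ℝ) (f : Ω' → D.Ω) (h' : ℕ) (G : Ω' → Pl m),
        SubL D.p c₁ q f ∧ κ' * D.h₀ ≤ h' ∧ h' ≤ D.h₀ ∧
        Claim (D.pull q f) univ h' K' (ε * h') (ε * h') G

/-- **From events to sub-laws**: a bound of a conditional entropy on all events of probability at
least `π'` holds, with a small loss, for all sub-laws of density at most `1 / π`. -/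
def DensStmt : Prop :=
  ∀ (e π : ℝ), 0 < e → 0 < π → ∃ (π' M₀ : ℝ), 0 < π' ∧
    ∀ (Ω α β : Type) [Fintype Ω] (p : Ω → ℝ) (A : Ω → α) (B : Ω → β) (N M : ℝ), IsLaw p →
      M₀ ≤ M →
      (∀ (Ω' : Type) [Fintype Ω'] (q : Ω' → ℝ) (f : Ω' → Ω), IsLaw q →
        CH q (fun ω => A (f ω)) (fun ω => B (f ω)) ≤ M) →
      (∀ E : Ω → Prop, π' ≤ Pb p E → CH (cond p E True) A B ≤ N) →
      ∀ (Ω' : Type) [Fintype Ω'] (q : Ω' → ℝ) (f : Ω' → Ω), SubL p π q f →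
        CH q (fun ω => A (f ω)) (fun ω => B (f ω)) ≤ N + e * M

end Pool.TIE
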