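import Pool.Agent.H88.TIE.Ic
import Pool.Agent.H81.SLP.CoreW
import Pool.Agent.H5.K2.PRICE

/-!
# Reference samples of the line are independent of one more sample
-/

set_option autoImplicit false

namespace Pool.TIE

open Finset Real
open Pool.Agent.H49.Ent Pool.Agent.H32.Dense Pool.STK Pool.BFL Pool.MIC Pool.SLO

variable {Ω Λ τ γ : Type} [Fintype Ω] {p : Ω → ℝ}

theorem q1_nonneg (hp : ∀ ω, 0 ≤ p ω) (L : Ω → Λ) (n : ℕ) (u) : 0 ≤ q1 p L n u :=
  glue_nonneg (fun v => tup_nonneg hp L n v) hp u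

theorem q1_snd (hp : ∀ ω, 0 ≤ p ω) (L : Ω → Λ) (n : ℕ) :
    Marg (q1 p L n) p (fun u => u.2) :=
  marg_snd hp (fun z => tup_law hp L n z)

theorem q1_fst (hp : ∀ ω, 0 ≤ p ω) (L : Ω → Λ) (n : ℕ) (j : Fin (n + 1)) :
    Marg (q1 p L n) p (fun u => u.1 j) :=
  (marg_fst (fun v => tup_nonneg hp L n v) (fun z => tup_law hp L n z)).comp (tup_marg hp L n j)

theorem q1_isLaw (hp : IsLaw p) (L : Ω → Λ) (n : ℕ) : IsLaw (q1 p L n) :=
  ⟨fun u => q1_nonneg hp.nonneg L n u, by rw [(q1_snd hp.nonneg L n).sum]; exact hp.sum_one⟩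

theorem q1_L (hp : ∀ ω, 0 ≤ p ω) (L : Ω → Λ) (n : ℕ) {u : (Fin (n + 1) → Ω) × Ω}
    (hu : 0 < q1 p L n u) (j : Fin (n + 1)) : L (u.1 j) = L u.2 := by
  have h1 := (glue_pos_iff (fun v => tup_nonneg hp L n v) hp u).1 hu
  have h2 := ((tup_pos_iff hp L n u.1).1 h1.1).2 j
  rw [← h1.2.2]
  exact h2

/-- The entropy of the tuple given the line. -/
theorem CH_tup (hp : IsLaw p) (L : Ω → Λ) (T : Ω → τ) (n : ℕ) :
    CH (tup p L n) (fun v j => T (v j)) (fun v => L (v 0)) = (n + 1) * CH p T L := by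
  induction n with
  | zero =>
    have h1 := (tup_marg hp.nonneg L 0 0).CH T L
    have h2 : CH (tup p L 0) (fun v j => T (v j)) (fun v => L (v 0)) =
        CH (tup p L 0) (fun v => T (v 0)) (fun v => L (v 0)) := by
      refine CH_congr (tup_nonneg hp.nonneg L 0) ?_ ?_ (fun _ _ _ _ h => h)
        (fun _ _ _ _ h => h)
      · intro v v' _ _ h
        exact congrFun (Prod.ext_iff.1 h).1 0
      · intro v v' _ _ h
        funext j
        show T (v j) = T (v' j)
        rw [show j = 0 from Fin.ext (by omega)]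
        exact (Prod.ext_iff.1 h).1
    rw [h2, h1]
    push_cast
    ring
  | succ n ih =>
    have hg0 : ∀ w, 0 ≤ glue (tup p L n) p (fun v => L (v 0)) L w :=
      fun w => glue_nonneg (tup_nonneg hp.nonneg L n) hp.nonneg w
    have hM := tup_snoc hp.nonneg L n
    have h1 : CH (tup p L (n + 1)) (fun v j => T (v j)) (fun v => L (v 0)) =
        CH (tup p L (n + 1)) (fun v => ((fun j => T (Fin.init v j)), T (v (Fin.last (n + 1)))))
          (fun v => L (Fin.init v (0 : Fin (n + 1)))) := by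
      refine CH_congr (tup_nonneg hp.nonneg L (n + 1)) ?_ ?_ ?_ ?_
      · intro v v' _ _ h
        have h4 := (Prod.ext_iff.1 h).1
        refine Prod.ext ?_ (congrFun h4 (Fin.last (n + 1)))
        funext j
        exact congrFun h4 j.castSucc
      · intro v v' _ _ h
        have h4 := (Prod.ext_iff.1 h).1
        have h5 : T (v (Fin.last (n + 1))) = T (v' (Fin.last (n + 1))) := (Prod.ext_iff.1 h4).2
        funext j
        show T (v j) = T (v' j)
        refine Fin.lastCases h5 (fun i => ?_) j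
        exact congrFun (Prod.ext_iff.1 h4).1 i
      · intro v v' _ _ h
        exact h
      · intro v v' _ _ h
        exact h
    have h2 := hM.CH (fun w => ((fun j => T (w.1 j)), T w.2)) (fun w => L (w.1 0))
    have h3 := CH_chain hg0 (fun w => (fun j => T (w.1 j))) (fun w => T w.2) (fun w => L (w.1 0))
    have h4 : CH (glue (tup p L n) p (fun v => L (v 0)) L) (fun w => T w.2)
        (fun w => L (w.1 0)) = CH p T L := by
      rw [← (marg_snd (Z₁ := fun v : Fin (n + 1) → Ω => L (v 0)) (Z₂ := L) hp.nonneg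
        (fun z => tup_law hp.nonneg L n z)).CH T L]
      refine CH_congr hg0 (fun _ _ _ _ h => (Prod.ext_iff.1 h).1)
        (fun _ _ _ _ h => (Prod.ext_iff.1 h).1) ?_ ?_
      · intro w w' hw hw' h
        have e1 := ((glue_pos_iff (tup_nonneg hp.nonneg L n) hp.nonneg w).1 hw).2.2
        have e2 := ((glue_pos_iff (tup_nonneg hp.nonneg L n) hp.nonneg w').1 hw').2.2
        exact (e1.symm.trans h).trans e2
      · intro w w' hw hw' h
        have e1 := ((glue_pos_iff (tup_nonneg hp.nonneg L n) hp.nonneg w).1 hw).2.2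
        have e2 := ((glue_pos_iff (tup_nonneg hp.nonneg L n) hp.nonneg w').1 hw').2.2
        exact (e1.trans h).trans e2.symm
    have h5 : CH (glue (tup p L n) p (fun v => L (v 0)) L) (fun w => (fun j => T (w.1 j)))
        (fun w => (T w.2, L (w.1 0))) = CH (tup p L n) (fun v j => T (v j)) (fun v => L (v 0)) := by
      have h6 := CH_glue_fst (Z₁ := fun v : Fin (n + 1) → Ω => L (v 0)) (Z₂ := L)
        (tup_nonneg hp.nonneg L n) hp.nonneg (fun z => tup_law hp.nonneg L n z)
        (fun v j => T (v j)) (Y := fun v => L (v 0)) T (fun _ _ _ _ h => h)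
      rw [← h6]
      exact CH_swc hg0 _ _ _
    rw [h1]
    refine Eq.trans h2 ?_
    rw [h3, h4, h5, ih]
    push_cast
    ring

/-- The entropy of the reference given the sample. -/
theorem CH_q1 (hp : IsLaw p) (L : Ω → Λ) (T : Ω → τ) (n : ℕ) :
    CH (q1 p L n) (fun u j => T (u.1 j)) (fun u => u.2) = (n + 1) * CH p T L := by
  have h6 := CH_glue_fst (Z₁ := fun v : Fin (n + 1) → Ω => L (v 0)) (Z₂ := L)
    (tup_nonneg hp.nonneg L n) hp.nonneg (fun z => tup_law hp.nonneg L n z)
    (fun v j => T (v j)) (Y := fun v => L (v 0)) (fun ω : Ω => ω) (fun _ _ _ _ h => h)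
  rw [← CH_tup hp L T n, ← h6]
  refine CH_congr (q1_nonneg hp.nonneg L n) (fun _ _ _ _ h => (Prod.ext_iff.1 h).1)
    (fun _ _ _ _ h => (Prod.ext_iff.1 h).1) ?_ (fun _ _ _ _ h => (Prod.ext_iff.1 h).2)
  intro w w' hw hw' h
  have e1 := q1_L hp.nonneg L n hw 0
  have e2 := q1_L hp.nonneg L n hw' 0
  refine Prod.ext ?_ h
  show L (w.1 0) = L (w'.1 0)
  rw [e1, e2]
  exact congrArg L h

/-- **The references are almost independent of one more sample.** -/
theorem Ic_q1 (hp : IsLaw p) (L : Ω → Λ) (T : Ω → τ) (g : Ω → γ) (hg : Det p L g) (n : ℕ) :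
    Ic (q1 p L n) (fun u j => T (u.1 j)) (fun u => u.2) (fun u => g u.2) ≤
      (n + 1) * Ic p T L g := by
  have hq := q1_nonneg hp.nonneg L n
  unfold Ic
  have h1 : CH (q1 p L n) (fun u j => T (u.1 j)) (fun u => (u.2, g u.2)) =
      (n + 1) * CH p T L := by
    rw [← CH_q1 hp L T n]
    refine CH_congr hq (fun _ _ _ _ h => (Prod.ext_iff.1 h).1)
      (fun _ _ _ _ h => (Prod.ext_iff.1 h).1) (fun _ _ _ _ h => (Prod.ext_iff.1 h).1) ?_
    intro w w' _ _ h
    exact Prod.ext h (congrArg g h)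
  have h2 : CH p T (fun ω => (L ω, g ω)) = CH p T L :=
    CH_congr hp.nonneg (fun _ _ _ _ h => (Prod.ext_iff.1 h).1)
      (fun _ _ _ _ h => (Prod.ext_iff.1 h).1) (fun _ _ _ _ h => (Prod.ext_iff.1 h).1)
      (fun ω ω' a b h => Prod.ext h (hg ω ω' a b h))
  have h3 := Pool.CLU.CH_pi_le hq (n + 1) (fun j u => T (u.1 j)) (fun u => g u.2)
  have h4 : ∀ j : Fin (n + 1), CH (q1 p L n) (fun u => T (u.1 j)) (fun u => g u.2) =
      CH p T g := by
    intro j
    rw [← (q1_fst hp.nonneg L n j).CH T g]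
    refine CH_congr hq (fun _ _ _ _ h => (Prod.ext_iff.1 h).1)
      (fun _ _ _ _ h => (Prod.ext_iff.1 h).1) ?_ ?_
    · intro w w' hw hw' h
      have p1 := (q1_fst hp.nonneg L n j).pos hq hw
      have p2 := (q1_fst hp.nonneg L n j).pos hq hw'
      have s1 := (q1_snd hp.nonneg L n).pos hq hw
      have s2 := (q1_snd hp.nonneg L n).pos hq hw'
      have e1 := hg _ _ p1 s1 (q1_L hp.nonneg L n hw j)
      have e2 := hg _ _ p2 s2 (q1_L hp.nonneg L n hw' j)
      exact (e1.trans h).trans e2.symm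
    · intro w w' hw hw' h
      have p1 := (q1_fst hp.nonneg L n j).pos hq hw
      have p2 := (q1_fst hp.nonneg L n j).pos hq hw'
      have s1 := (q1_snd hp.nonneg L n).pos hq hw
      have s2 := (q1_snd hp.nonneg L n).pos hq hw'
      have e1 := hg _ _ p1 s1 (q1_L hp.nonneg L n hw j)
      have e2 := hg _ _ p2 s2 (q1_L hp.nonneg L n hw' j)
      exact (e1.symm.trans h).trans e2
  rw [Finset.sum_congr rfl fun j _ => h4 j, Finset.sum_const, Finset.card_univ, Fintype.card_fin,
    nsmul_eq_mul] at h3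
  push_cast at h3
  rw [h1, h2]
  linarith

end Pool.TIE
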