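import Pool.Agent.H81.SLP.CoreK

/-!
# Lemma L1 for a law with contexts, abstract data

`L` is the line, `T` the time with its coefficients, `g` the context (a function of the line), `y`
the position and `c` the unknown numbers of the line, `N` the height, `th` the real time, `s` and
`co` the coefficients at the time. Outside contexts of small probability the data satisfy the
hypotheses of L1, so that for most references of `n + 1` samples of one line and one more sample of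
this line the coefficients at the sample are the interpolation of the coefficients at the reference.
-/

set_option autoImplicit false

namespace Pool.TIE

open Finset Real
open Pool.Agent.H49.Ent Pool.Agent.H32.Dense Pool.STK Pool.K2S Pool.KAF Pool.M5 Pool.SLO

/-- The value at `y` of the polynomial with the coefficients `a`, without constant term. -/
noncomputable def pv {k K : ℕ} (a : Mon k K → ℝ) (y : Fin k → ℝ) : ℝ :=
  ∑ i : Mon k K, a i * mono (i : Fin k → ℕ) y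

/-- Average hypotheses of L1. -/
structure AvgA {Ω Λ Τ γ : Type} [Fintype Ω] {k n K : ℕ} (p : Ω → ℝ) (L : Ω → Λ) (T : Ω → Τ)
    (g : Ω → γ) (y : Ω → Fin k → ℤ) (c : Ω → Fin n → ℤ) (N : Ω → ℤ) (th s : Ω → ℝ)
    (co : Ω → Mon k K → ℝ) (X A : ℕ) (cc κ π₀ ι ε₀ : ℝ) (j₀ : ℕ) : Prop where
  law : IsLaw p
  g_L : Det p L g
  y_L : Det p L y
  c_L : Det p L c
  th_T : Det p T th
  s_T : Det p T s
  co_T : Det p T co
  N_LT : Det p (fun ω => (L ω, T ω)) N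
  hy : ∀ ω, 0 < p ω → ∀ j, 0 ≤ y ω j ∧ y ω j < 2 ^ X
  hc : ∀ ω, 0 < p ω → ∀ j, |(c ω j : ℝ)| ≤ 2 ^ X
  hth : ∀ ω, 0 < p ω → 0 ≤ th ω ∧ th ω < 1
  hco : ∀ ω, 0 < p ω → ∀ i, |co ω i| ≤ (2 : ℝ) ^ (ι * X)
  hZ : ∀ ω ω', 0 < p ω → 0 < p ω' → L ω = L ω' →
    |((N ω' : ℝ) - N ω) - 2 ^ X * (∑ a : Fin n,
      (th ω' ^ (a.val + 1) - th ω ^ (a.val + 1)) * (c ω a / 2 ^ X) - (s ω' - s ω) -
      (pv (co ω') (fun j => (y ω j : ℝ) / 2 ^ X) - pv (co ω) (fun j => (y ω j : ℝ) / 2 ^ X)))| ≤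
      2 ^ A
  h1 : Pool.KVA.MI p T L g ≤ ι * X
  h1f : (1 - ι) * X * Real.log 2 ≤ CH p (fun ω => ⌊(2 : ℝ) ^ X * th ω⌋) L
  h1a : j₀ * Real.log 2 - ε₀ ≤ CH p (fun ω => ⌊(2 : ℝ) ^ j₀ * th ω⌋) L
  h2 : Pool.KVA.MI p N (fun ω => (y ω, c ω)) (fun ω => (T ω, g ω)) ≤ ι * X
  h3 : (k - ι) * X * Real.log 2 ≤ CH p y g
  h5 : ∀ j : ℕ, (j + 1) * ⌊κ * X⌋₊ ≤ X → ∀ E : Set Ω, π₀ ≤ Pr p E →
    CH (rs p E) (fun ω => N ω / 2 ^ (X - (j + 1) * ⌊κ * X⌋₊))
      (fun ω => ((N ω / 2 ^ (X - j * ⌊κ * X⌋₊), T ω), g ω)) ≤ (1 - cc) * ⌊κ * X⌋₊ * Real.log 2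

/-- The data of L1 in one context. -/
noncomputable def ldA {Ω Λ Τ : Type} [Fintype Ω] {k n K : ℕ} (q p : Ω → ℝ) (L : Ω → Λ)
    (T : Ω → Τ) (y : Ω → Fin k → ℤ) (c : Ω → Fin n → ℤ) (N : Ω → ℤ) (th s : Ω → ℝ)
    (co : Ω → Mon k K → ℝ) (X : ℕ) : LDat k n (Mon k K) where
  Om := Ω
  Lam := Λ
  Tau := Τ
  P := q
  L := L
  T := T
  y := fac p L y 0
  c := fac p L c 0
  N := N
  th := fac p T th 0
  s := fac p T s 0
  co := fac p T co 0
  X := X

theorem ldA_Q1 {Ω Λ Τ : Type} [Fintype Ω] {k n K : ℕ} (q p : Ω → ℝ) (L : Ω → Λ)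
    (T : Ω → Τ) (y : Ω → Fin k → ℤ) (c : Ω → Fin n → ℤ) (N : Ω → ℤ) (th s : Ω → ℝ)
    (co : Ω → Mon k K → ℝ) (X : ℕ) : (ldA q p L T y c N th s co X).Q1 = q1 q L n := by
  classical
  have h1 : (ldA q p L T y c N th s co X).Qr = tup q L n := by
    funext v
    exact (tup_eq q L n v).symm
  unfold LDat.Q1 q1
  rw [h1]
  rfl

section ctx

variable {Ω Λ Τ γ : Type} [Fintype Ω] {k n K : ℕ} {p : Ω → ℝ} {L : Ω → Λ} {T : Ω → Τ}
  {g : Ω → γ} {y : Ω → Fin k → ℤ} {c : Ω → Fin n → ℤ} {N : Ω → ℤ} {th s : Ω → ℝ}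
  {co : Ω → Mon k K → ℝ} {X A j₀ : ℕ} {cc κ π₀ ι ε₀ : ℝ}

/-- The hypotheses of L1 in one context, from those of the context. -/
theorem good5 (h : AvgA p L T g y c N th s co X A cc κ π₀ ι ε₀ j₀) (b : Bas k (Mon k K))
    (hb : ∀ i, b.g i = mono (i : Fin k → ℕ)) {q : Ω → ℝ} (hq : IsLaw q)
    (hqp : ∀ ω, 0 < q ω → 0 < p ω) {c₁ κ' π₁ ι₁ ε₁ : ℝ} (hιι : ι ≤ ι₁)
    (g1 : Pool.KVA.MI q T L (fun _ => ()) ≤ ι₁ * X)
    (g2 : (1 - ι₁) * X * Real.log 2 ≤ CH q (fun ω => ⌊(2 : ℝ) ^ X * th ω⌋) L)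
    (g3 : j₀ * Real.log 2 - ε₁ ≤ CH q (fun ω => ⌊(2 : ℝ) ^ j₀ * th ω⌋) L)
    (g4 : Pool.KVA.MI q N (fun ω => (y ω, c ω)) T ≤ ι₁ * X)
    (g5 : (k - ι₁) * X * Real.log 2 ≤ Pool.Agent.H49.Ent.H q y)
    (g6 : ∀ j : ℕ, (j + 1) * ⌊κ' * X⌋₊ ≤ X → ∀ E : Set Ω, π₁ ≤ Pr q E →
      CH (cond q (fun ω => ω ∈ E) True) (fun ω => N ω / 2 ^ (X - (j + 1) * ⌊κ' * X⌋₊))
        (fun ω => (N ω / 2 ^ (X - j * ⌊κ' * X⌋₊), T ω)) ≤ (1 - c₁) * ⌊κ' * X⌋₊ * Real.log 2) :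
    Good5 b A c₁ κ' π₁ ι₁ ε₁ j₀ (ldA q p L T y c N th s co X) := by
  have hX : (0 : ℝ) < 2 ^ X := by positivity
  have ey : ∀ ω, 0 < p ω → fac p L y 0 (L ω) = y ω := fun ω hω => fac_eq h.y_L hω
  have ec : ∀ ω, 0 < p ω → fac p L c 0 (L ω) = c ω := fun ω hω => fac_eq h.c_L hω
  have et : ∀ ω, 0 < p ω → fac p T th 0 (T ω) = th ω := fun ω hω => fac_eq h.th_T hω
  have es : ∀ ω, 0 < p ω → fac p T s 0 (T ω) = s ω := fun ω hω => fac_eq h.s_T hω
  have eo : ∀ ω, 0 < p ω → fac p T co 0 (T ω) = co ω := fun ω hω => fac_eq h.co_T hω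
  refine ⟨⟨hq, ?_, ?_, ?_, ?_, ?_, ?_⟩, ⟨g1, ?_, ?_⟩, ?_, ?_, ?_⟩
  · intro l j
    change |((fac p L y 0 l j : ℤ) : ℝ) / 2 ^ X| ≤ 1
    rw [abs_div, abs_of_pos hX, div_le_one hX]
    refine fac_mem (Q := fun v : Fin k → ℤ => ∀ j, |((v j : ℤ) : ℝ)| ≤ 2 ^ X)
      (fun j => by simp) (fun ω hω j => ?_) l j
    obtain ⟨h1, h2⟩ := h.hy ω hω j
    have h1' : (0 : ℝ) ≤ (y ω j : ℝ) := by exact_mod_cast h1
    have h2' : (y ω j : ℝ) < 2 ^ X := by exact_mod_cast h2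
    rw [abs_of_nonneg h1']
    exact h2'.le
  · intro l a
    change |((fac p L c 0 l a : ℤ) : ℝ) / 2 ^ X| ≤ 1
    rw [abs_div, abs_of_pos hX, div_le_one hX]
    exact fac_mem (Q := fun v : Fin n → ℤ => ∀ j, |((v j : ℤ) : ℝ)| ≤ 2 ^ X)
      (fun j => by simp) (fun ω hω j => h.hc ω hω j) l a
  · intro ω ω' h1 h2 h3
    exact h.N_LT ω ω' (hqp ω h1) (hqp ω' h2) h3
  · intro t
    change 0 ≤ fac p T th 0 t ∧ fac p T th 0 t < 1
    exact fac_mem (Q := fun x : ℝ => 0 ≤ x ∧ x < 1) ⟨le_rfl, one_pos⟩ (fun ω hω => h.hth ω hω) t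
  · intro t i
    change |fac p T co 0 t i| ≤ (2 : ℝ) ^ (ι₁ * X)
    refine fac_mem (Q := fun v : Mon k K → ℝ => ∀ i, |v i| ≤ (2 : ℝ) ^ (ι₁ * X))
      (fun i => by
        rw [Pi.zero_apply, abs_zero]
        positivity) (fun ω hω i => (h.hco ω hω i).trans ?_) t i
    exact Real.rpow_le_rpow_of_exponent_le (by norm_num)
      (mul_le_mul_of_nonneg_right hιι (Nat.cast_nonneg _))
  · intro ω ω' h1 h2 h3
    have p1 := hqp ω h1
    have p2 := hqp ω' h2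
    have h4 := h.hZ ω ω' p1 p2 h3
    refine le_trans (le_of_eq ?_) h4
    unfold LDat.Z pol
    have e1 : (ldA q p L T y c N th s co X).y ((ldA q p L T y c N th s co X).L ω) = y ω := ey ω p1
    have e2 : (ldA q p L T y c N th s co X).c ((ldA q p L T y c N th s co X).L ω) = c ω := ec ω p1
    have e3 : (ldA q p L T y c N th s co X).th ((ldA q p L T y c N th s co X).T ω) = th ω :=
      et ω p1
    have e4 : (ldA q p L T y c N th s co X).th ((ldA q p L T y c N th s co X).T ω') = th ω' :=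
      et ω' p2
    have e5 : (ldA q p L T y c N th s co X).s ((ldA q p L T y c N th s co X).T ω) = s ω :=
      es ω p1
    have e6 : (ldA q p L T y c N th s co X).s ((ldA q p L T y c N th s co X).T ω') = s ω' :=
      es ω' p2
    have e7 : (ldA q p L T y c N th s co X).co ((ldA q p L T y c N th s co X).T ω) = co ω :=
      eo ω p1
    have e8 : (ldA q p L T y c N th s co X).co ((ldA q p L T y c N th s co X).T ω') = co ω' :=
      eo ω' p2
    rw [e1, e2, e3, e4, e5, e6, e7, e8]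
    simp only [hb]
    rfl
  · change (1 - ι₁) * X * Real.log 2 ≤ CH q (fun ω => ⌊(2 : ℝ) ^ X * fac p T th 0 (T ω)⌋) L
    rw [CH_supp hq.nonneg (W := L) (W' := L)
      (X' := fun ω => ⌊(2 : ℝ) ^ X * th ω⌋) (fun ω hω => by rw [et ω (hqp ω hω)])
      (fun _ _ => rfl)]
    exact g2
  · change j₀ * Real.log 2 - ε₁ ≤ CH q (fun ω => ⌊(2 : ℝ) ^ j₀ * fac p T th 0 (T ω)⌋) L
    rw [CH_supp hq.nonneg (W := L) (W' := L)
      (X' := fun ω => ⌊(2 : ℝ) ^ j₀ * th ω⌋) (fun ω hω => by rw [et ω (hqp ω hω)])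
      (fun _ _ => rfl)]
    exact g3
  · change Pool.KVA.MI q N (fun ω => (fac p L y 0 (L ω), fac p L c 0 (L ω))) T ≤ ι₁ * X
    refine le_trans (le_of_eq ?_) g4
    have hee : ∀ ω, 0 < q ω → (fac p L y 0 (L ω), fac p L c 0 (L ω)) = (y ω, c ω) := by
      intro ω hω
      rw [ey ω (hqp ω hω), ec ω (hqp ω hω)]
    unfold Pool.KVA.MI
    rw [CH_supp hq.nonneg (W := T) (W' := T) hee (fun _ _ => rfl),
      CH_supp hq.nonneg (W := T) (W' := T)
        (X := fun ω => (N ω, (fac p L y 0 (L ω), fac p L c 0 (L ω))))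
        (fun ω hω => by rw [hee ω hω]) (fun _ _ => rfl)]
  · change (k - ι₁) * X * Real.log 2 ≤ Pool.Agent.H49.Ent.H q (fun ω => fac p L y 0 (L ω))
    refine g5.trans (le_of_eq (H_congr hq.nonneg ?_ ?_)) <;> intro ω ω' hω hω' e
    · have e1 : fac p L y 0 (L ω) = fac p L y 0 (L ω') := e
      rw [ey ω (hqp ω hω), ey ω' (hqp ω' hω')] at e1
      exact e1
    · change fac p L y 0 (L ω) = fac p L y 0 (L ω')
      rw [ey ω (hqp ω hω), ey ω' (hqp ω' hω')]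
      exact e
  · intro j _ hj E hE
    exact g6 j hj E hE

end ctx

/-- **Lemma L1 for a law with contexts.** -/
theorem l1a (k n K A : ℕ) (cc ε : ℝ) (hcc : 0 < cc) (hε : 0 < ε) :
    ∃ (κ₂ κ π₀ ι ε₀ : ℝ) (k₀ j₀ X₀ : ℕ), 0 < κ₂ ∧ 0 < κ ∧ κ ≤ 1 ∧ 0 < π₀ ∧ 0 < ι ∧ 0 < ε₀ ∧
      ∀ {Ω Λ Τ γ : Type} [Fintype Ω] (p : Ω → ℝ) (L : Ω → Λ) (T : Ω → Τ) (g : Ω → γ)
        (y : Ω → Fin k → ℤ) (c : Ω → Fin n → ℤ) (N : Ω → ℤ) (th s : Ω → ℝ)
        (co : Ω → Mon k K → ℝ) (X : ℕ), X₀ ≤ X →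
        AvgA p L T g y c N th s co X A cc κ π₀ ι ε₀ j₀ →
        Pr (q1 p L n) {u | (∃ j j', j ≠ j' ∧
            |th (u.1 j) - th (u.1 j')| < (2 : ℝ) ^ (-(k₀ : ℤ))) ∨
          ∃ i : Mon k K, (2 : ℝ) ^ (-(κ₂ * X)) < |co u.2 i -
            (Lagrange.interpolate univ (fun j => th (u.1 j))
              (fun j => co (u.1 j) i)).eval (th u.2)|} ≤ ε := by
  classical
  obtain ⟨b, hb1, hb2⟩ := Pool.Agent.H1.M5.tay_thm k K
  set c₁ : ℝ := min (cc / 2) (1 / 2) with hc₁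
  have hc₁0 : 0 < c₁ := lt_min (by positivity) (by norm_num)
  have hc₁c : c₁ < cc := (min_le_left _ _).trans_lt (by linarith)
  have hc₁1 : c₁ < 1 := (min_le_right _ _).trans_lt (by norm_num)
  obtain ⟨κ₂, κ, π₁, ι₁, ε₁, k₀, j₀, X₁, a1, hκ, hκ1, hπ, hι, hε₁, hL⟩ :=
    (l1w_thm l1_thm Pool.M5.T86.tic_thm) k n K A b c₁ (ε / 2) hb1 hb2 hc₁0 (by positivity)
  have hl2 : 0 < Real.log 2 := Real.log_pos one_lt_two
  set nb : ℕ := ⌈2 / κ⌉₊ + 1 with hnb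
  have hnb0 : (0 : ℝ) < nb := by
    rw [hnb]
    positivity
  set η₁ : ℝ := ε / 16 with hη₁
  have hη₁0 : 0 < η₁ := by positivity
  set ι : ℝ := min ι₁ (min η₁ (η₁ * ι₁ / 2)) with hιd
  have hι0 : 0 < ι := lt_min hι (lt_min hη₁0 (by positivity))
  have hιc : ι ≤ ι₁ := min_le_left _ _
  have hιb : ι ≤ η₁ * ι₁ / 2 := (min_le_right _ _).trans (min_le_right _ _)
  set X₀ : ℕ := ⌈2 / κ⌉₊ + ⌈2 / (η₁ * ι₁)⌉₊ + 3 with hX₀
  refine ⟨κ₂, κ, η₁ * π₁ / nb, ι, η₁ * ε₁, k₀, j₀, max X₁ X₀, a1, hκ, hκ1, by positivity, hι0,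
    by positivity, ?_⟩
  intro Ω Λ Τ γ _ p L T g y c N th s co X hX hav
  have hp := hav.law
  have hp0 := hp.nonneg
  have hXr : (X₀ : ℝ) ≤ X := by exact_mod_cast (le_max_right _ _).trans hX
  have hX1 : 2 / κ ≤ X := by
    have h1 := Nat.le_ceil (2 / κ)
    have h2 : ((⌈2 / κ⌉₊ : ℕ) : ℝ) ≤ X₀ := by exact_mod_cast (by omega : ⌈2 / κ⌉₊ ≤ X₀)
    linarith
  have hX3 : 2 / (η₁ * ι₁) ≤ X := by
    have h1 := Nat.le_ceil (2 / (η₁ * ι₁))
    have h2 : ((⌈2 / (η₁ * ι₁)⌉₊ : ℕ) : ℝ) ≤ X₀ := by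
      exact_mod_cast (by omega : ⌈2 / (η₁ * ι₁)⌉₊ ≤ X₀)
    linarith
  have hX4 : 3 ≤ X := by
    have := (le_max_right _ _).trans hX
    omega
  have hXpos : (0 : ℝ) < X := by
    have : (3 : ℝ) ≤ X := by exact_mod_cast hX4
    linarith
  -- the height of the blocks
  set h : ℕ := ⌊κ * (X : ℝ)⌋₊ with hh
  have hκX : 2 ≤ κ * X := by
    rw [div_le_iff₀ hκ] at hX1
    linarith
  have hh1 : κ * X < h + 1 := Nat.lt_floor_add_one _
  have hhκ : κ * X / 2 ≤ h := by linarith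
  have hh0 : (0 : ℝ) < h := by linarith
  set g' : Ω → γ × Prop := fun ω => (g ω, True) with hg'
  have hgg : Det p L g' := fun ω ω' h1 h2 h3 => Prod.ext (hav.g_L ω ω' h1 h2 h3) rfl
  -- the choice
  have hpick := pick (p := p) hp g (fun _ => True) L T N (fun ω => (y ω, c ω)) y
    (fun ω => ⌊(2 : ℝ) ^ X * th ω⌋) (fun ω => ⌊(2 : ℝ) ^ j₀ * th ω⌋)
    (my := k * X * Real.log 2) (m₁ := X * Real.log 2) (m₂ := j₀ * Real.log 2)
    (e₁ := ι * X) (e₂ := ι * X * Real.log 2) (e₃ := η₁ * ε₁) (e₄ := ι * X)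
    (e₅ := ι * X * Real.log 2 + Real.log 2)
    (θ₁ := ι₁ * X) (θ₂ := ι₁ * X * Real.log 2) (θ₃ := ε₁) (θ₄ := ι₁ * X)
    (θ₅ := ι₁ * X * Real.log 2) (by positivity) (by positivity) hε₁ (by positivity)
    (by positivity) hav.g_L (fun _ _ _ _ _ => rfl) (fun _ _ _ _ _ => rfl)
    (fun p' hp' hpp => H_box hp' _ fun ω hω j => hav.hy ω (hpp ω hω) j)
    (fun p' hp' hpp => H_box1 hp' _ (fun ω hω => by
      have t01 := hav.hth ω (hpp ω hω)
      exact floor_unit_mem t01.1 t01.2) _)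
    (fun p' hp' hpp => H_box1 hp' _ (fun ω hω => by
      have t01 := hav.hth ω (hpp ω hω)
      exact floor_unit_mem t01.1 t01.2) _)
    hav.h1 (by
      have := hav.h1f
      linarith) hav.h1a hav.h2 (by
      have := hav.h3
      linarith)
  have hempty : Pr p {ω : Ω | ¬ True} = 0 := by
    rw [Pool.KAF.Pr_eq]
    simp
  rw [hempty] at hpick
  -- the rows
  have hrow := Pool.SLP.h5_ctx (R := Fin nb) hp g'
    (fun r ω => if ((r : ℕ) + 1) * h ≤ X then N ω / 2 ^ (X - ((r : ℕ) + 1) * h) else 0)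
    (fun r ω => (N ω / 2 ^ (X - (r : ℕ) * h), T ω))
    ((1 - c₁) * h * Real.log 2) (η₁ * π₁ / nb) π₁ hπ (by positivity) (by
      intro E hE r
      have hr0 : ∀ ω, 0 ≤ rs p E ω := fun ω => cond_nonneg hp0 _ _ ω
      by_cases hr : ((r : ℕ) + 1) * h ≤ X
      · simp only [if_pos hr]
        have h1 := hav.h5 r hr E hE
        have h2 : CH (rs p E) (fun ω => N ω / 2 ^ (X - ((r : ℕ) + 1) * h))
            (fun ω => ((N ω / 2 ^ (X - (r : ℕ) * h), T ω), g' ω)) ≤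
            CH (rs p E) (fun ω => N ω / 2 ^ (X - ((r : ℕ) + 1) * h))
            (fun ω => ((N ω / 2 ^ (X - (r : ℕ) * h), T ω), g ω)) := by
          refine CH_mono_cond hr0 ?_
          intro ω ω' _ _ h'
          exact Prod.ext (Prod.ext_iff.1 h').1 (Prod.ext_iff.1 (Prod.ext_iff.1 h').2).1
        refine (h2.trans h1).trans_lt ?_
        have h3 : (1 - cc) * (h : ℝ) < (1 - c₁) * h := by nlinarith
        nlinarith
      · simp only [if_neg hr]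
        have h1 : CH (rs p E) (fun _ => (0 : ℤ)) (fun ω =>
            ((N ω / 2 ^ (X - (r : ℕ) * h), T ω), g' ω)) = 0 :=
          CH_eq_zero hr0 fun _ _ _ _ _ => rfl
        rw [h1]
        have : 0 < 1 - c₁ := by linarith
        positivity)
  rw [Fintype.card_fin] at hrow
  have hrow' : η₁ * π₁ / nb * nb / π₁ = η₁ := by
    field_simp
  rw [hrow'] at hrow
  -- the bad contexts
  set bad : Set (γ × Prop) := {z | ¬ Good5 b A c₁ κ π₁ ι₁ ε₁ j₀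
    (ldA (cond p g' z) p L T y c N th s co X)} with hbad
  have hbadP : Pr p {ω | g' ω ∈ bad} ≤ ε / 2 := by
    have hU := Pool.M5T.Pr_or (p := p) hp0
      (A := {ω | g' ω ∈ bad})
      (B := {ω | ¬ (True ∧
        Pool.KVA.MI (cond p g' (g' ω)) T L (fun _ => ()) ≤ ι₁ * X ∧
        X * Real.log 2 - ι₁ * X * Real.log 2 ≤ CH (cond p g' (g' ω))
          (fun ω => ⌊(2 : ℝ) ^ X * th ω⌋) L ∧
        j₀ * Real.log 2 - ε₁ ≤ CH (cond p g' (g' ω)) (fun ω => ⌊(2 : ℝ) ^ j₀ * th ω⌋) L ∧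
        Pool.KVA.MI (cond p g' (g' ω)) N (fun ω => (y ω, c ω)) T ≤ ι₁ * X ∧
        k * X * Real.log 2 - ι₁ * X * Real.log 2 ≤
          Pool.Agent.H49.Ent.H (cond p g' (g' ω)) y)})
      (C := {ω | ∃ (r : Fin nb) (E : Set Ω), π₁ ≤ Pr (cond p g' (g' ω)) E ∧
        (1 - c₁) * h * Real.log 2 ≤ CH (rs (cond p g' (g' ω)) E)
          (fun ω => if ((r : ℕ) + 1) * h ≤ X then N ω / 2 ^ (X - ((r : ℕ) + 1) * h) else 0)
          (fun ω => (N ω / 2 ^ (X - (r : ℕ) * h), T ω))})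
      (by
        intro ω hω hA'
        by_contra hcon
        rw [not_or] at hcon
        obtain ⟨hB', hC'⟩ := hcon
        apply hA'
        obtain ⟨-, g1, g2, g3, g4, g5⟩ := not_not.1 hB'
        have hz : 0 < law p g' (g' ω) := law_pos hp0 g' hω
        have hzl : IsLaw (cond p g' (g' ω)) :=
          ⟨fun v => cond_nonneg hp0 g' _ v, sum_cond p g' hz.ne'⟩
        refine good5 hav b hb1 hzl (fun ω' h' => ((cond_pos_iff hp0 g' _ ω').1 h').1) hιc g1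
          (le_trans (le_of_eq ?_) g2) g3 g4 (le_trans (le_of_eq ?_) g5) ?_
        · ring
        · ring
        · intro j hj E hE
          have hjnb : j < nb := by
            have h1 : ((j : ℝ) + 1) * h ≤ X := by exact_mod_cast hj
            have h2 : ((j : ℝ) + 1) * (κ * X / 2) ≤ X :=
              (mul_le_mul_of_nonneg_left hhκ (by positivity)).trans h1
            have h3 : ((j : ℝ) + 1) * (κ / 2) ≤ 1 := by
              by_contra h4
              rw [not_le] at h4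
              nlinarith
            have h4 : ((j : ℝ) + 1) ≤ 2 / κ := by
              rw [le_div_iff₀ hκ]
              linarith
            have h5 := Nat.le_ceil (2 / κ)
            have h6 : ((j : ℝ) + 1) ≤ (⌈2 / κ⌉₊ : ℕ) := h4.trans h5
            have h7 : j + 1 ≤ ⌈2 / κ⌉₊ := by exact_mod_cast h6
            omega
          by_contra hlt
          rw [not_le] at hlt
          apply hC'
          refine ⟨⟨j, hjnb⟩, E, hE, ?_⟩
          have hj' : (j + 1) * h ≤ X := hj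
          simp only [if_pos hj']
          exact hlt.le)
    have e1 : ι * X / (ι₁ * X) ≤ η₁ / 2 := by
      rw [div_le_iff₀ (by positivity)]
      nlinarith
    have e2 : ι * X * Real.log 2 / (ι₁ * X * Real.log 2) ≤ η₁ / 2 := by
      rw [div_le_iff₀ (by positivity)]
      have : ι * X ≤ η₁ / 2 * (ι₁ * X) := by nlinarith
      nlinarith
    have e3 : η₁ * ε₁ / ε₁ = η₁ := by field_simp
    have e5 : (ι * X * Real.log 2 + Real.log 2) / (ι₁ * X * Real.log 2) ≤ η₁ := by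
      rw [div_le_iff₀ (by positivity)]
      have h1 : 1 ≤ η₁ / 2 * (ι₁ * X) := by
        rw [div_le_iff₀ (by positivity)] at hX3
        linarith
      have h2 : ι * X ≤ η₁ / 2 * (ι₁ * X) := by nlinarith
      nlinarith
    rw [e3] at hpick
    have hfin := hU.trans (add_le_add hpick hrow)
    refine hfin.trans ?_
    have : η₁ = ε / 16 := hη₁
    linarith
  refine (q1_mix (n := n) hp (L := L) (g := g') hgg _ bad (ε := ε / 2) (by positivity)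
    (fun z hz hzb => ?_)).trans (by linarith)
  obtain ⟨g1, g2, g3, g4, g5⟩ := not_not.1 hzb
  have h4 := hL (ldA (cond p g' z) p L T y c N th s co X) g1 ((le_max_left _ _).trans hX) g2 g3
    g4 g5
  rw [ldA_Q1] at h4
  have hz0 : ∀ ω, 0 ≤ cond p g' z ω := fun ω => cond_nonneg hp0 g' z ω
  have hq0 : ∀ u, 0 ≤ q1 (cond p g' z) L n u := fun u =>
    glue_nonneg (fun v => tup_nonneg hz0 _ n v) hz0 u
  refine (Pool.KAF.Pr_mono hq0 fun u hu hA' => ?_).trans h4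
  have hu' := (glue_pos_iff (Z₁ := fun v : Fin (n + 1) → Ω => L (v 0))
    (Z₂ := L) (fun v => tup_nonneg hz0 L n v) hz0 u).1 hu
  have hu1 := (tup_pos_iff hz0 L n u.1).1 hu'.1
  have p1 : ∀ j, 0 < p (u.1 j) := fun j => ((cond_pos_iff hp0 g' z _).1 (hu1.1 j)).1
  have p2 : 0 < p u.2 := ((cond_pos_iff hp0 g' z _).1 hu'.2.1).1
  have hthe : ∀ ω, 0 < p ω → fac p T th 0 (T ω) = th ω := fun ω hω => fac_eq hav.th_T hω
  have hcoe : ∀ ω, 0 < p ω → fac p T co 0 (T ω) = co ω := fun ω hω => fac_eq hav.co_T hω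
  rcases hA' with ⟨j, j', hj, hjj⟩ | ⟨i, hi⟩
  · left
    intro hs
    have h6 := hs j j' hj
    change (2 : ℝ) ^ (-(k₀ : ℤ)) ≤ |fac p T th 0 (T (u.1 j)) - fac p T th 0 (T (u.1 j'))| at h6
    rw [hthe _ (p1 j), hthe _ (p1 j')] at h6
    linarith
  · right
    refine ⟨i, ?_⟩
    change (2 : ℝ) ^ (-(κ₂ * X)) < |fac p T co 0 (T u.2) i - (Lagrange.interpolate univ
      (fun j => fac p T th 0 (T (u.1 j))) (fun j => fac p T co 0 (T (u.1 j)) i)).eval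
      (fac p T th 0 (T u.2))|
    have e1 : (fun j => fac p T th 0 (T (u.1 j))) = fun j => th (u.1 j) :=
      funext fun j => hthe _ (p1 j)
    have e2 : (fun j => fac p T co 0 (T (u.1 j)) i) = fun j => co (u.1 j) i :=
      funext fun j => by rw [hcoe _ (p1 j)]
    rw [e1, e2, hcoe _ p2, hthe _ p2]
    exact hi

end Pool.TIE
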