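import Pool.Agent.H88.TIE.Nfl
import Pool.Agent.H88.TIE.L1A

/-!
# The core: the hypotheses of L1
-/

set_option autoImplicit false

namespace Pool.TIE

open Finset Real
open Pool.Agent.H49.Ent Pool.Agent.H32.Dense Pool.STK Pool.BFL Pool.MIC Pool.LBL Pool.GLM
open Pool.K2S Pool.KAF Pool.M5 Pool.SLO

namespace Cd

variable {k : ℕ} (D : Cd k)

/-- The scaled coefficients of the height in the time. -/
noncomputable def cm (K : ℕ) (ω : D.Ω) (a : Fin K) : ℤ := dg D.h ((D.Pt ω).coeff (a + 1) / 2 ^ D.e)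

/-- The scaled constant coefficient of the leaf. -/
noncomputable def sm (ω : D.Ω) : ℝ := MvPolynomial.coeff 0 (D.F ω) / 2 ^ D.e

/-- The scaled coefficients of the leaf. -/
noncomputable def cof (K : ℕ) (ω : D.Ω) (i : Mon k K) : ℝ :=
  MvPolynomial.coeff (Finsupp.equivFunOnFinite.symm (i : Fin k → ℕ)) (D.F ω) / 2 ^ D.e

/-- The scaled height over the leaf. -/
noncomputable def xm (ω : D.Ω) : ℝ := (D.nut ω - MvPolynomial.eval (D.w ω) (D.F ω)) / 2 ^ D.e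

/-- Its digits. -/
noncomputable def Nm (ω : D.Ω) : ℤ := dg D.h (D.xm ω)

/-- The position to `h` digits. -/
noncomputable def ym (ω : D.Ω) : Fin k → ℤ := fun i => D.W ω i / 2 ^ (D.X - D.h)

variable {D} {K : ℕ} {θ : ℝ}

theorem Pt_of (hD : D.Ok K) {ω ω' : D.Ω} (h : 0 < D.p ω) (h' : 0 < D.p ω')
    (e : D.L0 ω = D.L0 ω') : D.Pt ω = D.Pt ω' := by
  simp only [L0, Prod.mk.injEq] at e
  obtain ⟨e1, e2, e3, e4, e5⟩ := e
  have h1 : D.P ω = D.P ω' := hD.P_det ω ω' h h' (by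
    simp only [Prod.mk.injEq]
    exact ⟨e1, e2, e4⟩)
  have h2 : D.al ω = D.al ω' := by
    unfold al
    rw [Sw_of hD h h' e1 e3 e4, e5]
  unfold Pt
  rw [h1, h2]

theorem xm_of (hD : D.Ok K) {ω ω' : D.Ω} (h : 0 < D.p ω) (h' : 0 < D.p ω')
    (e : D.Lm ω = D.Lm ω') (e' : D.Tm ω = D.Tm ω') : D.xm ω = D.xm ω' := by
  have e1 := (Prod.ext_iff.1 e).1
  have e2 : D.L0 ω = D.L0 ω' := (Prod.ext_iff.1 e).2
  have e3 : D.n1 ω = D.n1 ω' := e1
  have e4 : D.nt ω = D.nt ω' := (Prod.ext_iff.1 e').1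
  have e5 : D.F ω = D.F ω' := (Prod.ext_iff.1 e').2
  have e6 : D.W ω = D.W ω' := (Prod.ext_iff.1 e2).1
  unfold xm nut
  rw [e3, Pt_of hD h h' e2, th_of_nt e4, w_of_W e6, e5]

theorem xm_near (hD : D.Ok K) (ω : D.Ω) :
    |D.xm ω - (D.nu ω - MvPolynomial.eval (D.w ω) (D.F ω)) / 2 ^ D.e| ≤ 2 / 2 ^ D.h := by
  have h1 := nut_near hD ω
  have h2 : (0 : ℝ) < 2 ^ D.e := by positivity
  have h3 : D.xm ω - (D.nu ω - MvPolynomial.eval (D.w ω) (D.F ω)) / 2 ^ D.e =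
      (D.nut ω - D.nu ω) / 2 ^ D.e := by
    unfold xm
    ring
  rw [h3, abs_div, abs_of_pos h2]
  refine le_trans ?_ h1
  exact div_le_self (abs_nonneg _) (one_le_pow₀ (by norm_num))

/-- The scaled height is near a function of `n2`. -/
theorem xm_n2 (hD : D.Ok K) (ω : D.Ω) : |D.xm ω - (D.n2 ω : ℝ) / 2 ^ D.h / 2 ^ D.e| ≤
    3 / 2 ^ D.h := by
  have h1 := xm_near hD ω
  have h2 : (0 : ℝ) < 2 ^ D.e := by positivity
  have h3 := dg_le D.h (D.nu ω - MvPolynomial.eval (D.w ω) (D.F ω))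
  have h4 : |(D.nu ω - MvPolynomial.eval (D.w ω) (D.F ω)) / 2 ^ D.e -
      (D.n2 ω : ℝ) / 2 ^ D.h / 2 ^ D.e| ≤ 1 / 2 ^ D.h := by
    rw [← sub_div, abs_div, abs_of_pos h2]
    refine le_trans ?_ h3
    exact div_le_self (abs_nonneg _) (one_le_pow₀ (by norm_num))
  have h5 : (3 : ℝ) / 2 ^ D.h = 2 / 2 ^ D.h + 1 / 2 ^ D.h := by ring
  rw [h5]
  have h6 : D.xm ω - (D.n2 ω : ℝ) / 2 ^ D.h / 2 ^ D.e =
      (D.xm ω - (D.nu ω - MvPolynomial.eval (D.w ω) (D.F ω)) / 2 ^ D.e) +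
      ((D.nu ω - MvPolynomial.eval (D.w ω) (D.F ω)) / 2 ^ D.e -
      (D.n2 ω : ℝ) / 2 ^ D.h / 2 ^ D.e) := by ring
  rw [h6]
  exact (abs_add_le _ _).trans (add_le_add h1 h4)

/-- The leaf over the position, to `h` digits. -/
theorem F_pv (hD : D.Ok K) (ω : D.Ω) :
    |MvPolynomial.eval (D.w ω) (D.F ω) / 2 ^ D.e -
      (D.sm ω + pv (D.cof K ω) (fun j => (D.ym ω j : ℝ) / 2 ^ D.h))| ≤ K / 2 ^ D.h := by
  have h2 : (0 : ℝ) < 2 ^ D.e := by positivity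
  have hh : (0 : ℝ) < 2 ^ D.h := by positivity
  have hhX : D.h ≤ D.X := by have := hD.hX; omega
  obtain ⟨y, hy⟩ : ∃ y : Fin k → ℝ, y = fun j => (D.ym ω j : ℝ) / 2 ^ D.h := ⟨_, rfl⟩
  rw [← hy]
  have hy1 : ∀ j, 0 ≤ y j ∧ y j ≤ D.w ω j ∧ D.w ω j - y j ≤ 1 / 2 ^ D.h := by
    intro j
    rw [hy]
    simp only
    have e1 : D.ym ω j = dg D.h (D.w ω j) := by
      rw [dg_coarse hhX]
      unfold ym w dg
      congr 1
      have : (2 : ℝ) ^ D.X * ((D.W ω j : ℝ) / 2 ^ D.X) = D.W ω j := by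
        field_simp
      rw [this, Int.floor_intCast]
    rw [e1]
    unfold dg
    have a1 := Int.floor_le ((2 : ℝ) ^ D.h * D.w ω j)
    have a2 := Int.lt_floor_add_one ((2 : ℝ) ^ D.h * D.w ω j)
    refine ⟨?_, ?_, ?_⟩
    · refine div_nonneg ?_ hh.le
      have : 0 ≤ ⌊(2 : ℝ) ^ D.h * D.w ω j⌋ := by
        rw [Int.floor_nonneg]
        have := (w_mem hD ω j).1
        positivity
      exact_mod_cast this
    · rw [div_le_iff₀ hh]
      linarith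
    · rw [sub_le_iff_le_add, ← add_div, le_div_iff₀ hh]
      linarith
  have hy2 : ∀ j, |y j| ≤ 1 := fun j => by
    rw [abs_of_nonneg (hy1 j).1]
    linarith [(hy1 j).2.1, (w_mem hD ω j).2]
  have hy3 : ∀ j, |D.w ω j - y j| ≤ 1 / 2 ^ D.h := fun j => by
    rw [abs_of_nonneg (by linarith [(hy1 j).2.1])]
    exact (hy1 j).2.2
  have h4 := lip_ml (D.F ω) (w_abs hD ω) hy2 (by positivity) hy3
  have h5 := eval_sub_zero (hD.F_deg ω) y
  have h6 : MvPolynomial.eval (0 : Fin k → ℝ) (D.F ω) = MvPolynomial.coeff 0 (D.F ω) := by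
    rw [MvPolynomial.eval_zero]
    rfl
  have h7 : D.sm ω + pv (D.cof K ω) y = MvPolynomial.eval y (D.F ω) / 2 ^ D.e := by
    have e1 : MvPolynomial.eval y (D.F ω) = MvPolynomial.coeff 0 (D.F ω) +
        ∑ al : Mon k K, MvPolynomial.coeff (Finsupp.equivFunOnFinite.symm (al : Fin k → ℕ)) (D.F ω) *
          mono (al : Fin k → ℕ) y := by
      rw [← h5, h6]
      ring
    rw [e1]
    unfold sm pv cof
    rw [add_div, Finset.sum_div]
    congr 1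
    refine Finset.sum_congr rfl fun i _ => ?_
    ring
  rw [h7, ← sub_div, abs_div, abs_of_pos h2, div_le_iff₀ h2]
  refine h4.trans ?_
  have h8 := F_ml hD ω
  have h9 : ((D.F ω).totalDegree : ℝ) ≤ K := by exact_mod_cast hD.F_deg ω
  have h10 : ((D.F ω).totalDegree : ℝ) * ml (D.F ω) ≤ K * 2 ^ D.e :=
    mul_le_mul h9 h8 (ml_nn _) (Nat.cast_nonneg _)
  calc ((D.F ω).totalDegree : ℝ) * ml (D.F ω) * (1 / 2 ^ D.h) ≤ K * 2 ^ D.e * (1 / 2 ^ D.h) :=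
        mul_le_mul_of_nonneg_right h10 (by positivity)
    _ = K / 2 ^ D.h * 2 ^ D.e := by ring

theorem eval_range {K : ℕ} {q : Polynomial ℝ} (hq : q.natDegree ≤ K) (x : ℝ) :
    q.eval x = q.coeff 0 + ∑ a : Fin K, x ^ (a.val + 1) * q.coeff (a + 1) := by
  rw [Polynomial.eval_eq_sum_range' (n := K + 1) (by omega), Finset.sum_range_succ']
  rw [pow_zero, mul_one, add_comm]
  congr 1
  rw [Finset.sum_range]
  refine Finset.sum_congr rfl fun i _ => ?_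
  ring

theorem floor_diff (x y : ℝ) : |((⌊y⌋ : ℝ) - ⌊x⌋) - (y - x)| ≤ 1 := by
  have a1 := Int.floor_le x
  have a2 := Int.lt_floor_add_one x
  have a3 := Int.floor_le y
  have a4 := Int.lt_floor_add_one y
  rw [abs_le]
  constructor <;> linarith

/-- The equation of L1. -/
theorem hZ (hD : D.Ok K) {ω ω' : D.Ω} (h : 0 < D.p ω) (h' : 0 < D.p ω')
    (e : D.Lm ω = D.Lm ω') :
    |((D.Nm ω' : ℝ) - D.Nm ω) - 2 ^ D.h * (∑ a : Fin K,
      (D.th ω' ^ (a.val + 1) - D.th ω ^ (a.val + 1)) * (D.cm K ω a / 2 ^ D.h) -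
      (D.sm ω' - D.sm ω) -
      (pv (D.cof K ω') (fun j => (D.ym ω j : ℝ) / 2 ^ D.h) -
        pv (D.cof K ω) (fun j => (D.ym ω j : ℝ) / 2 ^ D.h)))| ≤ 2 ^ (3 * K + 1) := by
  have h2 : (0 : ℝ) < 2 ^ D.e := by positivity
  have hh : (0 : ℝ) < 2 ^ D.h := by positivity
  have e1 : D.n1 ω = D.n1 ω' := (Prod.ext_iff.1 e).1
  have e2 : D.L0 ω = D.L0 ω' := (Prod.ext_iff.1 e).2
  have e3 : D.W ω = D.W ω' := (Prod.ext_iff.1 e2).1
  have e4 : D.ym ω = D.ym ω' := by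
    unfold ym
    rw [e3]
  have e5 := Pt_of hD h h' e2
  obtain ⟨y, hy⟩ : ∃ y : Fin k → ℝ, y = fun j => (D.ym ω j : ℝ) / 2 ^ D.h := ⟨_, rfl⟩
  have f1 := F_pv hD ω
  have f2 := F_pv hD ω'
  rw [← e4, ← hy] at f2
  rw [← hy] at f1 ⊢
  obtain ⟨f, hf⟩ : ∃ f, f = MvPolynomial.eval (D.w ω) (D.F ω) / 2 ^ D.e -
    (D.sm ω + pv (D.cof K ω) y) := ⟨_, rfl⟩
  obtain ⟨f', hf'⟩ : ∃ f', f' = MvPolynomial.eval (D.w ω') (D.F ω') / 2 ^ D.e -
    (D.sm ω' + pv (D.cof K ω') y) := ⟨_, rfl⟩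
  rw [← hf] at f1
  rw [← hf'] at f2
  have g1 := floor_diff (2 ^ D.h * D.xm ω) (2 ^ D.h * D.xm ω')
  have g2 : D.xm ω' - D.xm ω = ∑ a : Fin K, (D.th ω' ^ (a.val + 1) - D.th ω ^ (a.val + 1)) *
      ((D.Pt ω).coeff (a + 1) / 2 ^ D.e) - (D.sm ω' - D.sm ω) -
      (pv (D.cof K ω') y - pv (D.cof K ω) y) - (f' - f) := by
    have c1 : D.nut ω' - D.nut ω = ∑ a : Fin K,
        (D.th ω' ^ (a.val + 1) - D.th ω ^ (a.val + 1)) * (D.Pt ω).coeff (a + 1) := by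
      unfold nut
      rw [← e5, ← e1, eval_range (Pt_deg hD ω), eval_range (Pt_deg hD ω)]
      have c2 : ∑ a : Fin K, (D.th ω' ^ (a.val + 1) - D.th ω ^ (a.val + 1)) *
          (D.Pt ω).coeff (a + 1) = ∑ a : Fin K, D.th ω' ^ (a.val + 1) * (D.Pt ω).coeff (a + 1) -
          ∑ a : Fin K, D.th ω ^ (a.val + 1) * (D.Pt ω).coeff (a + 1) := by
        rw [← Finset.sum_sub_distrib]
        refine Finset.sum_congr rfl fun i _ => ?_
        ring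
      rw [c2]
      ring
    have c3 : ∑ a : Fin K, (D.th ω' ^ (a.val + 1) - D.th ω ^ (a.val + 1)) *
        ((D.Pt ω).coeff (a + 1) / 2 ^ D.e) = (D.nut ω' - D.nut ω) / 2 ^ D.e := by
      rw [c1, Finset.sum_div]
      refine Finset.sum_congr rfl fun i _ => ?_
      ring
    rw [c3, hf, hf']
    unfold xm
    ring
  have g3 : |∑ a : Fin K, (D.th ω' ^ (a.val + 1) - D.th ω ^ (a.val + 1)) *
      ((D.Pt ω).coeff (a + 1) / 2 ^ D.e) - ∑ a : Fin K,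
      (D.th ω' ^ (a.val + 1) - D.th ω ^ (a.val + 1)) * (D.cm K ω a / 2 ^ D.h)| ≤ K / 2 ^ D.h := by
    rw [← Finset.sum_sub_distrib]
    refine (Finset.abs_sum_le_sum_abs _ _).trans ?_
    have c1 : ∀ a : Fin K, |(D.th ω' ^ (a.val + 1) - D.th ω ^ (a.val + 1)) *
        ((D.Pt ω).coeff (a + 1) / 2 ^ D.e) -
        (D.th ω' ^ (a.val + 1) - D.th ω ^ (a.val + 1)) * (D.cm K ω a / 2 ^ D.h)| ≤ 1 / 2 ^ D.h := by
      intro a
      rw [← mul_sub, abs_mul]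
      have c2 : |D.th ω' ^ (a.val + 1) - D.th ω ^ (a.val + 1)| ≤ 1 := by
        obtain ⟨t1, t2⟩ := th_mem (D := D) ω
        obtain ⟨t3, t4⟩ := th_mem (D := D) ω'
        have t5 := pow_nonneg t1 (a.val + 1)
        have t6 := pow_nonneg t3 (a.val + 1)
        have t7 := pow_le_one₀ (n := a.val + 1) t1 t2.le
        have t8 := pow_le_one₀ (n := a.val + 1) t3 t4.le
        rw [abs_le]
        constructor <;> linarith
      have c3 := dg_le D.h ((D.Pt ω).coeff (a + 1) / 2 ^ D.e)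
      calc _ ≤ 1 * (1 / 2 ^ D.h) := mul_le_mul c2 c3 (abs_nonneg _) zero_le_one
        _ = _ := one_mul _
    refine (Finset.sum_le_sum fun a _ => c1 a).trans (le_of_eq ?_)
    rw [Finset.sum_const, Finset.card_univ, Fintype.card_fin, nsmul_eq_mul]
    ring
  obtain ⟨A, hA⟩ : ∃ A, A = ∑ a : Fin K, (D.th ω' ^ (a.val + 1) - D.th ω ^ (a.val + 1)) *
      ((D.Pt ω).coeff (a + 1) / 2 ^ D.e) := ⟨_, rfl⟩
  obtain ⟨A', hA'⟩ : ∃ A', A' = ∑ a : Fin K,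
      (D.th ω' ^ (a.val + 1) - D.th ω ^ (a.val + 1)) * (D.cm K ω a / 2 ^ D.h) := ⟨_, rfl⟩
  rw [← hA, ← hA'] at g3
  rw [← hA] at g2
  rw [← hA']
  have g4 : ((D.Nm ω' : ℝ) - D.Nm ω) - 2 ^ D.h * (A' - (D.sm ω' - D.sm ω) -
      (pv (D.cof K ω') y - pv (D.cof K ω) y)) =
      (((D.Nm ω' : ℝ) - D.Nm ω) - (2 ^ D.h * D.xm ω' - 2 ^ D.h * D.xm ω)) +
      2 ^ D.h * ((A - A') - f' + f) := by
    have : 2 ^ D.h * D.xm ω' - 2 ^ D.h * D.xm ω = 2 ^ D.h * (D.xm ω' - D.xm ω) := by ring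
    rw [this, g2]
    ring
  rw [g4]
  have g5 : |2 ^ D.h * ((A - A') - f' + f)| ≤ 3 * K := by
    rw [abs_mul, abs_of_pos hh]
    have c1 : |(A - A') - f' + f| ≤ 3 * K / 2 ^ D.h := by
      have c2 : (3 : ℝ) * K / 2 ^ D.h = K / 2 ^ D.h + K / 2 ^ D.h + K / 2 ^ D.h := by ring
      rw [c2]
      rw [abs_le] at f1 f2 g3 ⊢
      constructor <;> linarith
    calc 2 ^ D.h * |(A - A') - f' + f| ≤ 2 ^ D.h * (3 * K / 2 ^ D.h) :=
          mul_le_mul_of_nonneg_left c1 hh.le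
      _ = 3 * K := by field_simp
  have g6 : |((D.Nm ω' : ℝ) - D.Nm ω) - (2 ^ D.h * D.xm ω' - 2 ^ D.h * D.xm ω)| ≤ 1 := g1
  refine ((abs_add_le _ _).trans (add_le_add g6 g5)).trans ?_
  have g7 : (1 : ℝ) + 3 * K ≤ 2 ^ (3 * K + 1) := by
    have : 3 * K + 1 < 2 ^ (3 * K + 1) := Nat.lt_two_pow_self
    have h3 : ((3 * K + 1 : ℕ) : ℝ) ≤ ((2 ^ (3 * K + 1) : ℕ) : ℝ) := by exact_mod_cast this.le
    push_cast at h3
    linarith
  exact g7

end Cd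

end Pool.TIE
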