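import Pool.Agent.H88.TIE.Base

/-!
# The core: the hypotheses of L1, verified
-/

set_option autoImplicit false

namespace Pool.TIE

open Finset Real
open Pool.Agent.H49.Ent Pool.Agent.H32.Dense Pool.STK Pool.BFL Pool.MIC Pool.LBL Pool.GLM
open Pool.K2S Pool.KAF Pool.M5 Pool.SLO

theorem subL_rs {Ω : Type} [Fintype Ω] {p : Ω → ℝ} (hp : IsLaw p) (E : Set Ω) {π₀ : ℝ}
    (hπ : 0 < π₀) (hE : π₀ ≤ Pr p E) : SubL p π₀ (rs p E) (fun ω => ω) := by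
  have h1 : Pr p E = Pb p (fun ω => ω ∈ E) := law_True p _
  rw [h1] at hE
  have hE0 : 0 < Pb p (fun ω => ω ∈ E) := lt_of_lt_of_le hπ hE
  refine ⟨isLaw_ev hp _ hE0, fun ω => ?_⟩
  have h2 : Pool.Agent.H49.Ent.law (rs p E) (fun ω => ω) ω = Pb (rs p E) (fun ω' => ω' = ω) := rfl
  have h3 := Pb_cond_le hp.nonneg (fun ω => ω ∈ E) (fun ω' => ω' = ω) hE0
  rw [le_div_iff₀ hE0] at h3
  have h4 : Pb p (fun ω' => ω' = ω) = p ω := by
    classical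
    unfold Pb
    simp
  rw [h4] at h3
  rw [h2]
  have h5 : 0 ≤ Pb (rs p E) (fun ω' => ω' = ω) :=
    Pb_nonneg (fun ω => cond_nonneg hp.nonneg _ _ ω) _
  have h6 := mul_le_mul_of_nonneg_right hE h5
  have h7 : Pb (rs p E) (fun ω' => ω' = ω) * Pb p (fun ω => ω ∈ E) ≤ p ω := h3
  linarith

namespace Cd

variable {k : ℕ} {D : Cd k} {K : ℕ} {θ : ℝ}

theorem Nm_n2 (hD : D.Ok K) : CH D.p D.Nm (fun ω => (D.n2 ω, (D.Tm ω, D.gm ω))) ≤ 14 := by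
  have h := CH_nearL hD.law D.xm (fun ω => (D.n2 ω : ℝ) / 2 ^ D.h / 2 ^ D.e)
    (fun ω => (D.n2 ω, (D.Tm ω, D.gm ω))) (fun ω ω' _ _ h => by
      simp only [Prod.mk.injEq] at h
      simp only
      rw [h.1]) (c := 3) (by norm_num) D.h (fun ω _ => xm_n2 hD ω)
  norm_num at h
  exact h

theorem th_dig (hD : D.Ok K) {x : ℕ} (hx : x ≤ D.M - D.r) (ω : D.Ω) :
    ⌊(2 : ℝ) ^ x * D.th ω⌋ = D.lo ω / 2 ^ (D.M - D.r - x) := by
  have h0 := dg_coarse hx (D.th ω)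
  unfold dg at h0
  rw [h0]
  unfold th
  have : (2 : ℝ) ^ (D.M - D.r) * ((D.lo ω : ℝ) / 2 ^ (D.M - D.r)) = D.lo ω := by
    field_simp
  rw [this, Int.floor_intCast]

/-- Nonfull blocks of the scaled height over the leaf. -/
theorem nf_block (hD : D.Ok K) (hI : D.Inf θ) (hθ : 0 ≤ θ) {c₀ κ₁ π₀ : ℝ} (hc₁ : c₀ ≤ 1)
    (hπ : 0 < π₀) (hN : D.NFc c₀ κ₁ π₀) (hκ₁ : 0 ≤ κ₁) {y j : ℕ}
    (hy : κ₁ * D.h + D.e ≤ y) (hj : (j + 1) * y ≤ D.h)
    (h5 : 31 + D.b + (3 * θ + 17) / π₀ ≤ c₀ / 2 * (y * Real.log 2)) (E : Set D.Ω)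
    (hE : π₀ ≤ Pr D.p E) :
    CH (rs D.p E) (fun ω => D.Nm ω / 2 ^ (D.h - (j + 1) * y))
      (fun ω => ((D.Nm ω / 2 ^ (D.h - j * y), D.Tm ω), D.gm ω)) ≤
      (1 - c₀ / 2) * y * Real.log 2 := by
  have hp := hD.law
  have hl2 : 0 < Real.log 2 := Real.log_pos (by norm_num)
  obtain ⟨q, hqd⟩ : ∃ q, q = rs D.p E := ⟨_, rfl⟩
  have hsub := subL_rs hp E hπ hE
  rw [← hqd] at hsub ⊢
  have hq := hsub.isLaw.nonneg
  have hqp : ∀ ω, 0 < q ω → 0 < D.p ω := fun ω hω => by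
    rw [hqd] at hω
    exact ((cond_pos_iff hp.nonneg _ _ ω).1 hω).1
  have hjy : j * y ≤ D.h := le_trans (Nat.mul_le_mul_right y (Nat.le_succ j)) hj
  have hey : D.e ≤ y := by
    have h1 : 0 ≤ κ₁ * D.h := by positivity
    have h2 : (D.e : ℝ) ≤ y := by linarith
    exact_mod_cast h2
  have hr2 : D.e ≤ (j + 1) * y := hey.trans (Nat.le_mul_of_pos_left y (by omega))
  have e1 : (fun ω => D.Nm ω / 2 ^ (D.h - (j + 1) * y)) = fun ω => dg ((j + 1) * y) (D.xm ω) := by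
    funext ω
    exact (dg_coarse hj (D.xm ω)).symm
  have e2 : (fun ω => ((D.Nm ω / 2 ^ (D.h - j * y), D.Tm ω), D.gm ω)) =
      fun ω => ((dg (j * y) (D.xm ω), D.Tm ω), D.gm ω) := by
    funext ω
    rw [dg_coarse hjy (D.xm ω)]
    rfl
  rw [e1, e2]
  obtain ⟨N2, hN2⟩ : ∃ N2 : D.Ω → ℤ, N2 = fun ω => dg ((j + 1) * y) (D.xm ω) := ⟨_, rfl⟩
  obtain ⟨N1, hN1⟩ : ∃ N1 : D.Ω → ℤ, N1 = fun ω => dg (j * y) (D.xm ω) := ⟨_, rfl⟩
  -- the position in the condition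
  have a1 := CH_indep hq N2 D.W (fun ω => ((N1 ω, D.Tm ω), D.gm ω))
  have a2 : Ic q D.W N2 (fun ω => ((N1 ω, D.Tm ω), D.gm ω)) =
      Ic q D.W N2 (fun ω => (N1 ω, (D.Tm ω, D.gm ω))) := by
    refine Ic_congr hq ?_ ?_ <;> intro u u' _ _ h <;> simp only [Prod.mk.injEq] at h ⊢ <;> tauto
  have a3 := Ic_cond_le hq D.W N2 N1 (fun ω => (D.Tm ω, D.gm ω))
  have a4 : Ic q D.W (fun ω => (N1 ω, N2 ω)) (fun ω => (D.Tm ω, D.gm ω)) ≤
      Ic q D.W D.Nm (fun ω => (D.Tm ω, D.gm ω)) :=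
    Ic_mono_right hq fun ω ω' _ _ h => by
      have h1 : D.Nm ω = D.Nm ω' := (Prod.ext_iff.1 h).1
      rw [hN1, hN2]
      simp only
      rw [dg_coarse hj, dg_coarse hj, dg_coarse hjy, dg_coarse hjy]
      have h2 : dg D.h (D.xm ω) = dg D.h (D.xm ω') := h1
      rw [h2]
  have a5 : Ic q D.W D.Nm (fun ω => (D.Tm ω, D.gm ω)) ≤ (3 * θ + 17) / π₀ := by
    have hPb : π₀ ≤ Pb D.p (fun ω => ω ∈ E) := by
      rw [← law_True]
      exact hE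
    have hPb0 : 0 < Pb D.p (fun ω => ω ∈ E) := lt_of_lt_of_le hπ hPb
    have b1 := Ic_event hp D.W D.Nm (fun ω => (D.Tm ω, D.gm ω)) (fun ω => ω ∈ E) hPb0
    have b2 := Ic_near_right hp.nonneg D.W D.n2 D.Nm (fun ω => (D.Tm ω, D.gm ω))
    have b3 : Ic D.p D.W D.n2 (fun ω => (D.Tm ω, D.gm ω)) ≤
        Ic D.p D.L0 D.n2 (fun ω => (D.Tm ω, D.gm ω)) :=
      Ic_mono_left hp.nonneg fun ω ω' _ _ h => (Prod.ext_iff.1 (Prod.ext_iff.1 h).1).1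
    have b4 := i2 hD hI
    have b5 := Nm_n2 hD
    have b6 : Real.log 2 ≤ 1 := by linarith [Real.log_two_lt_d9]
    rw [hqd]
    refine b1.trans ?_
    have b7 : Ic D.p D.W D.Nm (fun ω => (D.Tm ω, D.gm ω)) + Real.log 2 ≤ 3 * θ + 17 := by
      linarith
    refine (div_le_div_of_nonneg_right b7 hPb0.le).trans ?_
    exact div_le_div_of_nonneg_left (by positivity) hπ hPb
  -- nonfull
  have a6 := nf_gen hsub.isLaw D.nu D.xm (fun ω => MvPolynomial.eval (D.w ω) (D.F ω))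
    (fun ω => (D.W ω, (D.Tm ω, D.gm ω))) (fun ω => (D.W ω, (D.t ω, D.Z ω)))
    (fun ω ω' _ _ h => by
      simp only [Tm, Prod.mk.injEq] at h
      simp only
      rw [w_of_W h.1, h.2.1.2]) (fun ω ω' a a' h => by
      simp only [Tm, gm, Prod.mk.injEq] at h ⊢
      obtain ⟨e1, ⟨e2, e3⟩, e5, e6, e7⟩ := h
      exact ⟨e1, t_of hD (hqp ω a) (hqp ω' a') e2 e1 e6 e7, e7⟩)
    (b := D.b) (e := D.e) (r₁ := j * y) (r₂ := (j + 1) * y) (κ := 2) (by norm_num) hr2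
    (Nat.mul_le_mul_right y (Nat.le_succ j)) hD.nu_le (fun ω _ => by
      refine (xm_near hD ω).trans ?_
      exact div_le_div_of_nonneg_left (by norm_num) (by positivity)
        (pow_le_pow_right₀ (by norm_num) hj))
  obtain ⟨r, hr⟩ : ∃ r, r = j * y - D.e := ⟨_, rfl⟩
  obtain ⟨r', hr'⟩ : ∃ r', r' = (j + 1) * y - D.e := ⟨_, rfl⟩
  rw [← hr, ← hr'] at a6
  have hjj : (j + 1) * y = j * y + y := by ring
  have hrr : r ≤ r' := by omega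
  have hrr2 : r' ≤ r + y := by omega
  have hrr3 : y ≤ r' - r + D.e := by omega
  have a7 := hN D.Ω q (fun ω => ω) hsub r r' hrr (by omega) (by
    have h1 : (y : ℝ) ≤ ((r' - r + D.e : ℕ) : ℝ) := by exact_mod_cast hrr3
    push_cast [Nat.cast_sub hrr] at h1
    linarith)
  have a8 : (1 - c₀) * ((r' : ℝ) - r) * Real.log 2 ≤ (1 - c₀) * y * Real.log 2 := by
    have h1 : (r' : ℝ) - r ≤ y := by
      have : (r' : ℝ) ≤ ((r + y : ℕ) : ℝ) := by exact_mod_cast hrr2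
      push_cast at this
      linarith
    exact mul_le_mul_of_nonneg_right (mul_le_mul_of_nonneg_left h1 (by linarith)) hl2.le
  have a9 : CH q N2 (fun ω => (D.W ω, ((N1 ω, D.Tm ω), D.gm ω))) =
      CH q (fun ω => dg ((j + 1) * y) (D.xm ω))
        (fun ω => (dg (j * y) (D.xm ω), (D.W ω, (D.Tm ω, D.gm ω)))) := by
    rw [hN2, hN1]
    refine CH_congr hq (fun _ _ _ _ h => (Prod.ext_iff.1 h).1)
      (fun _ _ _ _ h => (Prod.ext_iff.1 h).1) ?_ ?_ <;> intro u u' _ _ h <;>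
      simp only [Prod.mk.injEq] at h ⊢ <;> tauto
  have goal : CH q N2 (fun ω => ((N1 ω, D.Tm ω), D.gm ω)) ≤ (1 - c₀ / 2) * y * Real.log 2 := by
    have h1 : (1 - c₀ / 2) * y * Real.log 2 =
        (1 - c₀) * y * Real.log 2 + c₀ / 2 * (y * Real.log 2) := by ring
    rw [h1]
    linarith
  rw [hN2, hN1] at goal
  exact goal

/-- **The hypotheses of L1.** -/
theorem avgA (hD : D.Ok K) (hI : D.Inf θ) (hθ : 0 ≤ θ) {c₀ κ κ₁ π₀ ι ε₀ : ℝ} {j₀ : ℕ}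
    (hc₁ : c₀ ≤ 1) (hπ : 0 < π₀) (hN : D.NFc c₀ κ₁ π₀) (hκ₁ : 0 ≤ κ₁) (hι : 0 ≤ ι)
    (hy : κ₁ * D.h + D.e ≤ ⌊κ * D.h⌋₊)
    (h5 : 31 + D.b + (3 * θ + 17) / π₀ ≤ c₀ / 2 * (⌊κ * D.h⌋₊ * Real.log 2))
    (hs : 3 * θ + D.B + 20 ≤ ι / 2 * D.h) (hj : D.r + j₀ ≤ D.M)
    (hdig : j₀ * Real.log 2 - ε₀ ≤ CH D.p (fun ω => D.NT ω / 2 ^ (D.M - (D.r + j₀)))
      (fun ω => (D.hi ω, (D.n1 ω, (D.W ω, (D.R ω, (D.Q ω, D.Z ω))))))) :
    AvgA D.p D.Lm D.Tm D.gm D.ym (D.cm K) D.Nm D.th D.sm (D.cof K) D.h (3 * K + 1) (c₀ / 2)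
      κ π₀ ι ε₀ j₀ := by
  have hp := hD.law
  have hl2 : 0 < Real.log 2 := Real.log_pos (by norm_num)
  have hl2' : Real.log 2 ≤ 1 := by linarith [Real.log_two_lt_d9]
  have hl2'' : (1 : ℝ) / 2 ≤ Real.log 2 := by linarith [Real.log_two_gt_d9]
  have hB : (0 : ℝ) ≤ D.B := Nat.cast_nonneg _
  have hh0 : (0 : ℝ) ≤ D.h := Nat.cast_nonneg _
  have hM := r_le_M hD
  have hhM : D.h ≤ D.M - D.r := by omega
  have hBl : ((D.B : ℝ) + 1) * Real.log 2 ≤ D.B + 1 := by nlinarith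
  have hιh : ι / 2 * D.h ≤ ι * D.h * Real.log 2 := by
    have h1 : 0 ≤ ι * D.h := by positivity
    nlinarith
  have hιh' : ι / 2 * D.h ≤ ι * D.h := by
    have h1 : 0 ≤ ι * D.h := by positivity
    linarith
  have hhX : D.h ≤ D.X := by have := hD.hX; omega
  refine ⟨hp, gm_L, ?_, ?_, ?_, ?_, ?_, ?_, ?_, ?_, ?_, ?_, ?_, ?_, ?_, ?_, ?_, ?_, ?_⟩
  · intro ω ω' _ _ h
    have h1 : D.W ω = D.W ω' := (Prod.ext_iff.1 (Prod.ext_iff.1 h).2).1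
    unfold ym
    rw [h1]
  · intro ω ω' a a' h
    unfold cm
    rw [Pt_of hD a a' (Prod.ext_iff.1 h).2]
  · intro ω ω' _ _ h
    exact th_of_nt (Prod.ext_iff.1 h).1
  · intro ω ω' _ _ h
    have h1 : D.F ω = D.F ω' := (Prod.ext_iff.1 h).2
    unfold sm
    rw [h1]
  · intro ω ω' _ _ h
    have h1 : D.F ω = D.F ω' := (Prod.ext_iff.1 h).2
    unfold cof
    rw [h1]
  · intro ω ω' a a' h
    unfold Nm
    rw [xm_of hD a a' (Prod.ext_iff.1 h).1 (Prod.ext_iff.1 h).2]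
  · intro ω _ j
    obtain ⟨h1, h2⟩ := hD.W_lt ω j
    unfold ym
    refine ⟨Int.ediv_nonneg h1 (by positivity), Int.ediv_lt_of_lt_mul (by positivity) ?_⟩
    rw [← pow_add]
    rwa [show D.h + (D.X - D.h) = D.X by omega]
  · intro ω _ j
    have hh : (0 : ℝ) < 2 ^ D.h := by positivity
    have h1 : |(D.Pt ω).coeff (j + 1) / 2 ^ D.e| ≤ 1 := by
      rw [abs_div, abs_of_pos (by positivity : (0 : ℝ) < 2 ^ D.e), div_le_one (by positivity)]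
      exact (coeff_le_l1 _ _).trans (Pt_l1 hD ω)
    rw [abs_le] at h1
    unfold cm dg
    have h2 : (-(2 : ℤ) ^ D.h) ≤ ⌊(2 : ℝ) ^ D.h * ((D.Pt ω).coeff (j + 1) / 2 ^ D.e)⌋ := by
      rw [Int.le_floor]
      push_cast
      nlinarith
    have h3 := Int.floor_le ((2 : ℝ) ^ D.h * ((D.Pt ω).coeff (j + 1) / 2 ^ D.e))
    have h4 : ((-(2 : ℤ) ^ D.h : ℤ) : ℝ) ≤
        (⌊(2 : ℝ) ^ D.h * ((D.Pt ω).coeff (j + 1) / 2 ^ D.e)⌋ : ℝ) := by exact_mod_cast h2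
    push_cast at h4
    rw [abs_le]
    constructor
    · linarith
    · nlinarith
  · intro ω _
    exact th_mem ω
  · intro ω _ i
    unfold cof
    rw [abs_div, abs_of_pos (by positivity : (0 : ℝ) < 2 ^ D.e)]
    have h1 : |MvPolynomial.coeff (Finsupp.equivFunOnFinite.symm (i : Fin k → ℕ)) (D.F ω)| /
        2 ^ D.e ≤ 1 := by
      rw [div_le_one (by positivity)]
      exact (coeff_le_ml _ _).trans (F_ml hD ω)
    exact h1.trans (Real.one_le_rpow (by norm_num) (by positivity))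
  · intro ω ω' a a' h
    exact hZ hD a a' h
  · rw [MI_eq hp.nonneg]
    have h1 := i1 hD hI
    unfold Ic at h1
    linarith
  · have h1 : (fun ω => ⌊(2 : ℝ) ^ D.h * D.th ω⌋) =
        fun ω => D.lo ω / 2 ^ (D.M - D.r - D.h) := by
      funext ω
      exact th_dig hD hhM ω
    rw [h1]
    have h2 := full_fst hp D.lo D.Lm (r := D.h) hhM (lo_full hD hI)
    linarith
  · have hj' : j₀ ≤ D.M - D.r := by omega
    have h1 : (fun ω => ⌊(2 : ℝ) ^ j₀ * D.th ω⌋) =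
        fun ω => D.lo ω / 2 ^ (D.M - D.r - j₀) := by
      funext ω
      exact th_dig hD hj' ω
    rw [h1]
    have h2 : CH D.p (fun ω => D.NT ω / 2 ^ (D.M - (D.r + j₀)))
        (fun ω => (D.hi ω, (D.n1 ω, (D.W ω, (D.R ω, (D.Q ω, D.Z ω)))))) ≤
        CH D.p (fun ω => D.lo ω / 2 ^ (D.M - D.r - j₀))
        (fun ω => (D.hi ω, (D.n1 ω, (D.W ω, (D.R ω, (D.Q ω, D.Z ω)))))) := by
      refine CH_mono_left hp.nonneg fun ω ω' _ _ h => ?_
      simp only [Prod.mk.injEq] at h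
      obtain ⟨e1, e2, _⟩ := h
      have e3 : D.M - (D.r + j₀) = D.M - D.r - j₀ := by omega
      have e4 : ∀ ω : D.Ω, D.NT ω / 2 ^ (D.M - D.r - j₀) =
          D.lo ω / 2 ^ (D.M - D.r - j₀) + 2 ^ j₀ * D.hi ω := by
        intro ω
        rw [NT_eq]
        have e5 : (2 : ℤ) ^ (D.M - D.r) * D.hi ω =
            2 ^ j₀ * D.hi ω * 2 ^ (D.M - D.r - j₀) := by
          have : (2 : ℤ) ^ (D.M - D.r) = 2 ^ j₀ * 2 ^ (D.M - D.r - j₀) := by
            rw [← pow_add]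
            congr 1
            omega
          rw [this]
          ring
        rw [e5, Int.add_mul_ediv_right _ _ (by positivity)]
      rw [e3, e4, e4, e1, e2]
    refine hdig.trans (h2.trans (le_of_eq ?_))
    refine CH_congr hp.nonneg (fun _ _ _ _ h => (Prod.ext_iff.1 h).1)
      (fun _ _ _ _ h => (Prod.ext_iff.1 h).1) ?_ ?_ <;> intro u u' _ _ h <;>
      simp only [Lm, L0, Prod.mk.injEq] at h ⊢ <;> tauto
  · rw [MI_eq hp.nonneg]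
    have h1 : Ic D.p D.Nm (fun ω => (D.ym ω, D.cm K ω)) (fun ω => (D.Tm ω, D.gm ω)) ≤
        Ic D.p D.Nm D.L0 (fun ω => (D.Tm ω, D.gm ω)) :=
      Ic_mono_right hp.nonneg fun ω ω' a a' h => by
        have e1 : D.L0 ω = D.L0 ω' := (Prod.ext_iff.1 h).1
        have e2 : D.W ω = D.W ω' := (Prod.ext_iff.1 e1).1
        simp only [Prod.mk.injEq]
        unfold ym cm
        rw [e2, Pt_of hD a a' e1]
        exact ⟨rfl, rfl⟩
    have h2 := Ic_symm hp.nonneg D.Nm D.L0 (fun ω => (D.Tm ω, D.gm ω))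
    have h3 := Ic_near_right hp.nonneg D.L0 D.n2 D.Nm (fun ω => (D.Tm ω, D.gm ω))
    have h4 := Nm_n2 hD
    have h5' := i2 hD hI
    unfold Ic at h1 h2 h3 h5'
    linarith
  · have h1 := f3 hD hI
    have h2 : CH D.p D.W (fun ω => (D.n2 ω, (D.Tm ω, D.gm ω))) ≤ CH D.p D.W D.gm :=
      CH_mono_cond hp.nonneg fun _ _ _ _ h => (Prod.ext_iff.1 (Prod.ext_iff.1 h).2).2
    have h3 := full_fst_vec hp D.W D.gm (X := D.X) (r := D.h) hhX (θ := θ) (by linarith)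
    have h4 : CH D.p (fun ω i => D.W ω i / 2 ^ (D.X - D.h)) D.gm = CH D.p D.ym D.gm := rfl
    rw [h4] at h3
    linarith
  · intro j hj' E hE
    exact nf_block hD hI hθ hc₁ hπ hN hκ₁ hy hj' h5 E hE

end Cd

end Pool.TIE
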