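import Pool.Agent.H88.TIE.Fx
import Pool.Agent.H46.MIC.Cpn

/-!
# The core: the facts on the space of references, and on events
-/

set_option autoImplicit false

namespace Pool.TIE

open Finset Real
open Pool.Agent.H49.Ent Pool.Agent.H32.Dense Pool.STK Pool.BFL Pool.MIC
open Pool.M5 Pool.SLO

theorem Marg.Ic_eq {Ω Ω' A B C : Type} [Fintype Ω] [Fintype Ω'] {q : Ω' → ℝ} {p : Ω → ℝ}
    {pr : Ω' → Ω} (h : Marg q p pr) (a : Ω → A) (b : Ω → B) (c : Ω → C) :
    Ic q (fun w => a (pr w)) (fun w => b (pr w)) (fun w => c (pr w)) = Ic p a b c := by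
  unfold Ic
  rw [h.CH a c, h.CH a (fun ω => (b ω, c ω))]

namespace Cd

variable {k : ℕ} {D : Cd k} {K : ℕ} {θ : ℝ}

/-- **The facts on the space of references.** -/
theorem fx_base (hD : D.Ok K) (hI : D.Inf θ) (hθ : 0 ≤ θ) :
    D.Fx K (q1 D.p D.Lm K) ((2 * K + 6) * (θ + D.B + D.r + 1)) 1 := by
  have hp := hD.law
  have hq := q1_nonneg hp.nonneg D.Lm K
  have hM := q1_snd hp.nonneg D.Lm K
  obtain ⟨q, hqd⟩ : ∃ q : Om D K → ℝ, q = q1 D.p D.Lm K := ⟨_, rfl⟩
  have hl2 : Real.log 2 ≤ 1 := by linarith [Real.log_two_lt_d9]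
  have hl20 : 0 < Real.log 2 := Real.log_pos (by norm_num)
  have hB : (0 : ℝ) ≤ D.B := Nat.cast_nonneg _
  have hr0 : (0 : ℝ) ≤ D.r := Nat.cast_nonneg _
  have hK0 : (0 : ℝ) ≤ K := Nat.cast_nonneg _
  have hBl : ((D.B : ℝ) + 1) * Real.log 2 ≤ D.B + 1 := by nlinarith
  have hrl : (D.r : ℝ) * Real.log 2 ≤ D.r := by nlinarith
  -- the references
  have key : Ic q (D.ref K) (fun u => u.2) (fun u => D.gm u.2) ≤
      (K + 1) * (2 * θ + (D.B + 1)) := by
    have h1 := Ic_q1 hp D.Lm D.Tm D.gm gm_L K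
    have h2 := i1 hD hI
    rw [hqd]
    refine h1.trans (mul_le_mul_of_nonneg_left (by linarith) (by positivity))
  obtain ⟨δ, hδ⟩ : ∃ δ : ℝ, δ = (K + 1) * (2 * θ + (D.B + 1)) := ⟨_, rfl⟩
  rw [← hδ] at key
  rw [← hqd] at hq hM ⊢
  have hmain : δ + (3 * θ + D.B + D.r + 2) ≤ (2 * K + 6) * (θ + D.B + D.r + 1) := by
    rw [hδ]
    nlinarith [mul_nonneg hK0 hB, mul_nonneg hK0 hr0, mul_nonneg hK0 hθ]
  have refl : ∀ {A : Type} (f : Om D K → A), Det q (fun u => u.2) f →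
      Ic q (D.ref K) f (fun u => D.gm u.2) ≤ δ := fun f hf =>
    (Ic_mono_right hq fun u u' a b h => hf u u' a b (Prod.ext_iff.1 h).1).trans key
  refine ⟨by rw [hqd]; exact q1_isLaw hp D.Lm K, fun u hu => ⟨hM.pos hq hu, fun j => ?_⟩,
    fun ω => ?_, ?_, ?_, ?_, ?_, ?_⟩
  · rw [hqd] at hu
    exact (q1_fst hp.nonneg D.Lm K j).pos (q1_nonneg hp.nonneg D.Lm K) hu
  · rw [hM.law (fun ω => ω) ω, one_mul]
    refine le_of_eq ?_
    classical
    unfold Pool.Agent.H49.Ent.law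
    simp
  · have h1 := Ic_indep hq (fun u : Om D K => D.Lm u.2) (fun u => D.Tm u.2) (D.ref K)
      (fun u => D.gm u.2)
    have h2 := refl (fun u => (D.Lm u.2, D.Tm u.2)) fun u u' _ _ h => by
      simp only at h ⊢
      rw [h]
    have h3 := Marg.Ic_eq hM D.Lm D.Tm D.gm
    have h4 := i1 hD hI
    rw [Ic_symm hp.nonneg] at h4
    linarith
  · have h0 : Ic q (fun u : Om D K => D.L0 u.2) (fun u => D.n2 u.2)
        (fun u => (D.Tm u.2, (D.ref K u, D.gm u.2))) =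
        Ic q (fun u : Om D K => D.L0 u.2) (fun u => D.n2 u.2)
        (fun u => (D.ref K u, (D.Tm u.2, D.gm u.2))) := by
      refine Ic_congr hq ?_ ?_ <;> intro u u' _ _ h <;> simp only [Prod.mk.injEq] at h ⊢ <;> tauto
    have h1 := Ic_indep hq (fun u : Om D K => D.L0 u.2) (fun u => D.n2 u.2) (D.ref K)
      (fun u => (D.Tm u.2, D.gm u.2))
    have h2 := Ic_cond_le hq (D.ref K) (fun u => (D.L0 u.2, D.n2 u.2)) (fun u => D.Tm u.2)
      (fun u => D.gm u.2)
    have h3 := refl (fun u => (D.Tm u.2, (D.L0 u.2, D.n2 u.2))) fun u u' _ _ h => by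
      simp only at h ⊢
      rw [h]
    have h4 := Marg.Ic_eq hM D.L0 D.n2 (fun ω => (D.Tm ω, D.gm ω))
    have h5 := i2 hD hI
    rw [h0]
    linarith
  · have h1 := CH_indep hq (fun u : Om D K => D.W u.2) (D.ref K)
      (fun u => (D.n2 u.2, (D.Tm u.2, D.gm u.2)))
    have h2 := Ic_cond_le hq (D.ref K) (fun u => D.W u.2) (fun u => (D.n2 u.2, D.Tm u.2))
      (fun u => D.gm u.2)
    have h3 := refl (fun u => ((D.n2 u.2, D.Tm u.2), D.W u.2)) fun u u' _ _ h => by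
      simp only at h ⊢
      rw [h]
    have h4 := hM.CH D.W (fun ω => (D.n2 ω, (D.Tm ω, D.gm ω)))
    have h5 := f3 hD hI
    have h6 : Ic q (D.ref K) (fun u => D.W u.2) (fun u => ((D.n2 u.2, D.Tm u.2), D.gm u.2)) =
        Ic q (D.ref K) (fun u => D.W u.2) (fun u => (D.n2 u.2, (D.Tm u.2, D.gm u.2))) := by
      refine Ic_congr hq ?_ ?_ <;> intro u u' _ _ h <;> simp only [Prod.mk.injEq] at h ⊢ <;> tauto
    have h7 : CH q (fun u : Om D K => D.W u.2)
        (fun u => (D.ref K u, (D.n2 u.2, (D.Tm u.2, D.gm u.2)))) =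
        CH q (fun u : Om D K => D.W u.2)
        (fun u => (D.n2 u.2, (D.Tm u.2, (D.ref K u, D.gm u.2)))) := by
      refine CH_congr hq (fun _ _ _ _ h => (Prod.ext_iff.1 h).1)
        (fun _ _ _ _ h => (Prod.ext_iff.1 h).1) ?_ ?_ <;> intro u u' _ _ h <;>
        simp only [Prod.mk.injEq] at h ⊢ <;> tauto
    linarith
  · have h1 := CH_indep hq (fun u : Om D K => D.lo u.2) (D.ref K) (fun u => D.Lm u.2)
    have h2 := Ic_cond_le hq (D.ref K) (fun u => D.lo u.2) (fun u => D.Lm u.2)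
      (fun u => D.gm u.2)
    have h3 := refl (fun u => (D.Lm u.2, D.lo u.2)) fun u u' _ _ h => by
      simp only at h ⊢
      rw [h]
    have h4 := hM.CH D.lo D.Lm
    have h5 := lo_full hD hI
    have h6 : Ic q (D.ref K) (fun u => D.lo u.2) (fun u => (D.Lm u.2, D.gm u.2)) =
        Ic q (D.ref K) (fun u => D.lo u.2) (fun u => D.Lm u.2) := by
      refine Ic_congr hq (fun _ _ _ _ h => (Prod.ext_iff.1 h).1) fun u u' a b h => ?_
      exact Prod.ext h (gm_L u.2 u'.2 (hM.pos hq a) (hM.pos hq b) h)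
    have h7 := CH_swc hq (fun u : Om D K => D.lo u.2) (D.ref K) (fun u => D.Lm u.2)
    linarith
  · have h1 : Ic q (fun u : Om D K => (D.ref K u, D.gm u.2))
        (fun u => (D.nh u.2, (D.W u.2, D.t u.2))) (fun u => D.Z u.2) ≤
        Ic q (fun u : Om D K => ((D.Q u.2, D.hi u.2), D.ref K u))
        (fun u => (D.nh u.2, (D.W u.2, D.t u.2))) (fun u => D.Z u.2) :=
      Ic_mono_left hq fun u u' _ _ h => by
        simp only [gm, Prod.mk.injEq] at h ⊢
        tauto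
    rw [Ic_chain' hq _ (fun u : Om D K => (D.Q u.2, D.hi u.2)) (D.ref K) (fun u => D.Z u.2),
      Ic_chain' hq _ (fun u : Om D K => D.Q u.2) (fun u => D.hi u.2) (fun u => D.Z u.2)] at h1
    have h2 := Marg.Ic_eq hM D.Q (fun ω => (D.nh ω, (D.W ω, D.t ω))) D.Z
    have h3 := i6 hD hI
    have h4 := Ic_le_left hq (fun u : Om D K => D.hi u.2)
      (fun u => (D.nh u.2, (D.W u.2, D.t u.2))) (fun u => (D.Q u.2, D.Z u.2))
    have h5 : CH q (fun u : Om D K => D.hi u.2) (fun u => (D.Q u.2, D.Z u.2)) ≤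
        D.r * Real.log 2 := by
      have := hM.CH D.hi (fun ω => (D.Q ω, D.Z ω))
      rw [this]
      exact CH_lt hp _ _ fun ω _ => hi_mem hD ω
    have h6 : Ic q (D.ref K) (fun u => (D.nh u.2, (D.W u.2, D.t u.2)))
        (fun u => ((D.Q u.2, D.hi u.2), D.Z u.2)) =
        Ic q (D.ref K) (fun u => (D.nh u.2, (D.W u.2, D.t u.2))) (fun u => D.gm u.2) := by
      refine Ic_congr hq ?_ ?_ <;> intro u u' _ _ h <;>
        simp only [gm, Prod.mk.injEq] at h ⊢ <;> tauto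
    have h7 := refl (fun u => (D.nh u.2, (D.W u.2, D.t u.2))) fun u u' _ _ h => by
      simp only at h ⊢
      rw [h]
    linarith

variable {q : Om D K → ℝ} {d : ℝ}

/-- **The facts on an event.** -/
theorem Fx.ev (hD : D.Ok K) (hF : D.Fx K q θ d) (hd : 0 ≤ d) (E : Om D K → Prop)
    (hE : 0 < Pb q E) : D.Fx K (cond q E True) ((θ + 1) / Pb q E) (d * Pb q E) := by
  have hq := hF.law.nonneg
  have hl2 : Real.log 2 ≤ 1 := by linarith [Real.log_two_lt_d9]
  have hle : ∀ x : ℝ, x ≤ θ → (x + Real.log 2) / Pb q E ≤ (θ + 1) / Pb q E := fun x hx =>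
    div_le_div_of_nonneg_right (by linarith) hE.le
  have hle' : (θ + Real.log 2) / Pb q E ≤ (θ + 1) / Pb q E := hle θ le_rfl
  refine ⟨isLaw_ev hF.law E hE, fun u hu => hF.supp u (ev_pos hq E hu).1, fun ω => ?_, ?_, ?_, ?_,
    ?_, ?_⟩
  · have h1 := hF.dens ω
    have h2 : Pool.Agent.H49.Ent.law (cond q E True) (fun u => u.2) ω =
        Pb (cond q E True) (fun u => u.2 = ω) := rfl
    have h3 : Pool.Agent.H49.Ent.law q (fun u => u.2) ω = Pb q (fun u => u.2 = ω) := rfl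
    have h4 := Pb_cond_le hq E (fun u => u.2 = ω) hE
    rw [le_div_iff₀ hE] at h4
    rw [h2]
    rw [h3] at h1
    have h5 := mul_le_mul_of_nonneg_left h4 hd
    linarith
  · exact (Ic_event hF.law _ _ _ E hE).trans (hle _ hF.i1)
  · exact (Ic_event hF.law _ _ _ E hE).trans (hle _ hF.i2)
  · have h1 := full_event hF.law (fun u => D.W u.2)
      (fun u => (D.n2 u.2, (D.Tm u.2, (D.ref K u, D.gm u.2)))) E hE
      (fun q' hq' _ => CH_lt_vec hq' _ _ (X := D.X) fun u _ i => hD.W_lt u.2 i) hF.f3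
    linarith
  · have h1 := full_event hF.law (fun u => D.lo u.2) (fun u => (D.Lm u.2, D.ref K u)) E hE
      (fun q' hq' _ => CH_lt hq' _ _ (X := D.M - D.r) fun u _ => lo_mem u.2) hF.f4
    linarith
  · exact (Ic_event hF.law _ _ _ E hE).trans (hle _ hF.i6)

theorem Fx.mono (hF : D.Fx K q θ d) {θ' d' : ℝ} (hθ : θ ≤ θ') (hd : d' ≤ d) :
    D.Fx K q θ' d' := by
  refine ⟨hF.law, hF.supp, fun ω => ?_, hF.i1.trans hθ, hF.i2.trans hθ, ?_, ?_, hF.i6.trans hθ⟩
  · exact (mul_le_mul_of_nonneg_right hd (law_nonneg hF.law.nonneg _ _)).trans (hF.dens ω)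
  · have := hF.f3
    linarith
  · have := hF.f4
    linarith

end Cd

end Pool.TIE
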