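import Pool.Agent.H41.GSD.Shp
import Pool.Agent.H55.GEN.Glu
import Pool.Agent.H90.STAT.Spl
import Pool.Agent.H36.KBX.Coef
import Pool.Agent.H46.MicA.Der
import Pool.Agent.H36.KBX.LPC

/-!
# Change of the chart

Two triangular systems `S'` and `S` which are near on the unit boxes of `S'`, the same sides `g`,
at one time `t`. `hgt S P` is the height of the polynomial `P` over `S` in the scaled chart of `S`,
`crd S' S` are the scaled coordinates over `S'` as polynomials in the scaled coordinates over `S`.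
`chg S' S F` is the height in the chart of `S'` read in the chart of `S`: for `F = hgt S' P` it
is `hgt S P`. It has controlled coefficients, and its gradient is near to the gradient of `hgt S P`
if the gradient of `F` is near to the gradient of `hgt S' P`.
-/

set_option autoImplicit false

namespace Pool.CHT

open Finset MvPolynomial
open Pool.Agent.H49.Ent Pool.Agent.H32.Dense Pool.STK Pool.STAT Pool.MIC Pool.MIC.Frm Pool.MicA
open Pool.STAT.Glu Pool.STAT.CLO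
open Pool.Agent.H36.KBX (bx coef_bound eval_bound coeff_pderiv_bound)
open Pool.BFL (Pl Pb)
open Pool.GSD (deg_scl_le deg_C_mul)

/-- The height of `P` over the system `S`, in the scaled chart of `S` at the time `t`. -/
noncomputable def hgt (n z : ℕ) (g : ℕ → ℕ) (S : ℕ → PN) (t : ℝ) (P : PN) : Pl (n - 1) :=
  scl (n - 1) z (C ((2 : ℝ) ^ g n) * sl (n - 1) (bind₁ (nuc g (atT t S)) (P - S n)))

/-- The scaled coordinates over `S'` in the scaled chart of `S` at the time `t`. -/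
noncomputable def crd (n z : ℕ) (g : ℕ → ℕ) (S' S : ℕ → PN) (t : ℝ) (l : Fin (n - 1)) :
    Pl (n - 1) :=
  scl (n - 1) z (C (1 / (4 * 2 ^ z)) * (sl (n - 1) (bind₁ (nuc g (atT t S))
    (C ((2 : ℝ) ^ g (l + 1)) * (X ((l : ℕ) + 1) - S' (l + 1)))) + C (2 * 2 ^ z)))

/-- A height in the chart of `S'` read in the chart of `S`. -/
noncomputable def chg (n z : ℕ) (g : ℕ → ℕ) (S' S : ℕ → PN) (t : ℝ) (F : Pl (n - 1)) :
    Pl (n - 1) :=
  hgt n z g S t (S' n) + bind₁ (crd n z g S' S t) F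

section basic

variable {n z : ℕ} {g : ℕ → ℕ} {S' S : ℕ → PN} {t : ℝ}

theorem eval_hgt (P : PN) (y : Fin (n - 1) → ℝ) : eval y (hgt n z g S t P) =
    (2 : ℝ) ^ g n * (eval (spt (n - 1) z g S t y) P - eval (spt (n - 1) z g S t y) (S n)) := by
  unfold hgt
  rw [eval_scl, map_mul, eval_C, eval_sl, eval_fr', map_sub]
  rfl

theorem eval_crd (y : Fin (n - 1) → ℝ) (l : Fin (n - 1)) : eval y (crd n z g S' S t l) =
    up z (nat g S' (spt (n - 1) z g S t y) (l + 1)) := by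
  unfold crd
  rw [eval_scl, map_mul, eval_C, map_add, eval_C, eval_sl, eval_fr', map_mul, eval_C, map_sub,
    eval_X]
  unfold up nat
  rw [one_div, inv_mul_eq_div]
  rfl

theorem eval_chg (F : Pl (n - 1)) (y : Fin (n - 1) → ℝ) : eval y (chg n z g S' S t F) =
    eval y (hgt n z g S t (S' n)) +
      eval (fun l : Fin (n - 1) => up z (nat g S' (spt (n - 1) z g S t y) (l + 1))) F := by
  unfold chg
  rw [map_add]
  congr 1
  refine (eval₂Hom_bind₁ (RingHom.id ℝ) y _ _).trans ?_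
  congr 2
  funext l
  exact eval_crd y l

theorem nat_atT (b : ℕ → ℝ) (l : ℕ) : nat g (atT t S) b (l + 1) = nat g S b (l + 1) := by
  unfold nat atT
  rw [Function.update_of_ne (by omega)]

theorem spt_zero (hS : TriN S) {m : ℕ} (y : Fin m → ℝ) : spt m z g S t y 0 = t := by
  unfold spt
  rw [pt_eq (MicA.tri_atT hS t), ex1_zero, zero_div, add_zero]
  unfold atT
  rw [Function.update_self, eval_C]

theorem nat_spt (hS : TriN S) {m : ℕ} (y : Fin m → ℝ) (l : Fin m) :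
    nat g S (spt m z g S t y) (l + 1) = 4 * 2 ^ z * y l - 2 * 2 ^ z := by
  rw [← nat_atT (t := t)]
  unfold spt
  rw [nat_pt (MicA.tri_atT hS t), ex1_succ _ l.2]

theorem up_inv (x : ℝ) : 4 * 2 ^ z * up z x - 2 * 2 ^ z = x := by
  unfold up
  field_simp
  ring

theorem spt_nat (hS : TriN S) {b : ℕ → ℝ} (hb : b 0 = t) {r : ℕ} (hr : r < n) :
    spt (n - 1) z g S t (fun l : Fin (n - 1) => up z (nat g S b (l + 1))) r = b r := by
  subst hb
  unfold spt
  simp only [up_inv]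
  exact pt_own hS b hr

/-- The coordinates over `S'` of a point of the chart of `S`: the point is the same. -/
theorem spt_crd (hS : TriN S) (hS' : TriN S') (y : Fin (n - 1) → ℝ) {r : ℕ} (hr : r < n) :
    spt (n - 1) z g S' t
        (fun l : Fin (n - 1) => up z (nat g S' (spt (n - 1) z g S t y) (l + 1))) r =
      spt (n - 1) z g S t y r :=
  spt_nat hS' (spt_zero hS y) hr

/-- **The heights in the two charts.** -/
theorem hgt_chg (hS : TriN S) (hS' : TriN S') {P : PN} (hP : P.vars ⊆ range n) :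
    hgt n z g S t P = chg n z g S' S t (hgt n z g S' t P) := by
  refine MvPolynomial.funext fun y => ?_
  rw [eval_chg, eval_hgt, eval_hgt, eval_hgt]
  have h1 : eval (spt (n - 1) z g S' t
      fun l : Fin (n - 1) => up z (nat g S' (spt (n - 1) z g S t y) (l + 1))) P = eval (spt (n - 1) z g S t y) P :=
    Pool.SYS35.eval_congr hP fun i hi => spt_crd hS hS' y hi
  have h2 : eval (spt (n - 1) z g S' t
      fun l : Fin (n - 1) => up z (nat g S' (spt (n - 1) z g S t y) (l + 1))) (S' n) = eval (spt (n - 1) z g S t y) (S' n) :=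
    Pool.SYS35.eval_congr (hS' n) fun i hi => spt_crd hS hS' y hi
  rw [h1, h2]
  ring

/-- At a point over the time `t`. -/
theorem eval_hgt_own (hS : TriN S) {b : ℕ → ℝ} (hb : b 0 = t) {P : PN} (hP : P.vars ⊆ range n) :
    eval (fun l : Fin (n - 1) => up z (nat g S b (l + 1))) (hgt n z g S t P) =
      (2 : ℝ) ^ g n * (eval b P - eval b (S n)) := by
  rw [eval_hgt]
  rw [Pool.SYS35.eval_congr hP fun i hi => spt_nat hS hb hi,
    Pool.SYS35.eval_congr (hS n) fun i hi => spt_nat hS hb hi]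

theorem eval_crd_own (hS : TriN S) (hS' : TriN S') {b : ℕ → ℝ} (hb : b 0 = t)
    (l : Fin (n - 1)) :
    eval (fun l : Fin (n - 1) => up z (nat g S b (l + 1))) (crd n z g S' S t l) =
      up z (nat g S' b (l + 1)) := by
  have hl := l.2
  have h1 : spt (n - 1) z g S t (fun l : Fin (n - 1) => up z (nat g S b (l + 1))) (l + 1) =
      b (l + 1) := spt_nat hS hb (by omega)
  have h2 : eval (spt (n - 1) z g S t fun l : Fin (n - 1) => up z (nat g S b (l + 1)))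
      (S' (l + 1)) = eval b (S' (l + 1)) :=
    Pool.SYS35.eval_congr (hS' (l + 1)) fun i hi => spt_nat hS hb (by omega)
  rw [eval_crd]
  congr 1
  show (2 : ℝ) ^ g (l + 1) * (_ - _) = (2 : ℝ) ^ g (l + 1) * (_ - _)
  rw [h1, h2]

/-- **The own height**: the height of the point over `chg F` is the height of the point over
`F`. -/
theorem own_chg (hS : TriN S) (hS' : TriN S') {b : ℕ → ℝ} (hb : b 0 = t) (F : Pl (n - 1)) :
    nat g S b n - eval (fun l : Fin (n - 1) => up z (nat g S b (l + 1))) (chg n z g S' S t F) =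
      nat g S' b n - eval (fun l : Fin (n - 1) => up z (nat g S' b (l + 1))) F := by
  have h1 : eval (fun l : Fin (n - 1) => up z (nat g S b (l + 1))) (chg n z g S' S t F) =
      (2 : ℝ) ^ g n * (eval b (S' n) - eval b (S n)) +
        eval (fun l : Fin (n - 1) => up z (nat g S' b (l + 1))) F := by
    unfold chg
    rw [map_add, eval_hgt_own hS hb (hS' n)]
    congr 1
    refine (eval₂Hom_bind₁ (RingHom.id ℝ) _ _ _).trans ?_
    congr 2
    funext l
    exact eval_crd_own hS hS' hb l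
  rw [h1]
  unfold nat
  ring

/-! ### Degrees -/

theorem deg_hgt {K Kf : ℕ} (hS : TriN S) (dS : ∀ k, (S k).totalDegree ≤ K) {P : PN}
    (hP : P.vars ⊆ range n) (dP : P.totalDegree ≤ Kf) (hK : K ≤ Kf) :
    (hgt n z g S t P).totalDegree ≤ Kf * (K + 1) ^ n := by
  unfold hgt
  refine (deg_scl_le _ _ _).trans ((deg_C_mul _ _).trans ((deg_sl _ _).trans ?_))
  refine deg_fr (MicA.tri_atT hS t) (fun i _ => ?_) (AdxRow.vars_sub_le hP (hS n))
    ((totalDegree_sub _ _).trans (max_le dP ((dS n).trans hK)))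
  unfold atT
  rcases Nat.eq_zero_or_pos i with rfl | hi
  · rw [Function.update_self, totalDegree_C]
    exact Nat.zero_le _
  · rw [Function.update_of_ne (by omega)]
    exact dS i

theorem deg_crd {K : ℕ} (hS : TriN S) (hS' : TriN S') (dS : ∀ k, (S k).totalDegree ≤ K)
    (dS' : ∀ k, (S' k).totalDegree ≤ K) (l : Fin (n - 1)) :
    (crd n z g S' S t l).totalDegree ≤ (K + 1) ^ (n + 1) := by
  unfold crd
  refine (deg_scl_le _ _ _).trans ((deg_C_mul _ _).trans ((totalDegree_add _ _).trans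
    (max_le ((deg_sl _ _).trans ?_) ?_)))
  · have hl := l.2
    have hv : (C ((2 : ℝ) ^ g (l + 1)) * (X ((l : ℕ) + 1) - S' (l + 1)) : PN).vars ⊆ range n := by
      refine AdxRow.vars_mul_le (AdxRow.vars_C_le _) (AdxRow.vars_sub_le ?_ ?_)
      · exact AdxRow.vars_X_le (by omega)
      · exact (hS' (l + 1)).trans (Finset.range_mono (by omega))
    refine (deg_fr (K := K) (K' := K + 1) (m := n) (MicA.tri_atT hS t) (fun i _ => ?_) hv ?_).trans ?_
    · unfold atT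
      rcases Nat.eq_zero_or_pos i with rfl | hi
      · rw [Function.update_self, totalDegree_C]
        exact Nat.zero_le _
      · rw [Function.update_of_ne (by omega)]
        exact dS i
    · refine (totalDegree_mul _ _).trans ?_
      rw [totalDegree_C, zero_add]
      refine (totalDegree_sub _ _).trans (max_le ?_ ((dS' _).trans (Nat.le_succ _)))
      rw [totalDegree_X]
      omega
    · rw [pow_succ, mul_comm]
  · rw [totalDegree_C]
    exact Nat.zero_le _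

theorem deg_bindF {m k B : ℕ} {f : Fin m → Pl k} (hf : ∀ l, (f l).totalDegree ≤ B) (F : Pl m) :
    (bind₁ f F).totalDegree ≤ F.totalDegree * B := by
  rw [bind₁, aeval_def, eval₂_eq]
  refine totalDegree_finsetSum_le fun d hd => ?_
  refine (totalDegree_mul _ _).trans ?_
  have h0 : (algebraMap ℝ (MvPolynomial (Fin k) ℝ) (coeff d F)).totalDegree = 0 := by
    rw [algebraMap_eq, totalDegree_C]
  rw [h0, zero_add]
  refine (totalDegree_finsetProd _ _).trans ?_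
  refine (Finset.sum_le_sum (g := fun j => d j * B) fun j _ => ?_).trans ?_
  · exact (totalDegree_pow _ _).trans (Nat.mul_le_mul_left _ (hf j))
  · rw [← Finset.sum_mul]
    exact Nat.mul_le_mul_right _ (le_totalDegree hd)

/-- The degree of `chg`. -/
theorem deg_chg {K Kf : ℕ} (hS : TriN S) (hS' : TriN S') (dS : ∀ k, (S k).totalDegree ≤ K)
    (dS' : ∀ k, (S' k).totalDegree ≤ K) {F : Pl (n - 1)} (hF : F.totalDegree ≤ Kf) :
    (chg n z g S' S t F).totalDegree ≤ (Kf + 1) * (K + 1) ^ (n + 1) := by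
  unfold chg
  refine (totalDegree_add _ _).trans (max_le ?_ ?_)
  · refine (deg_hgt hS dS (hS' n) (dS' n) le_rfl).trans ?_
    calc K * (K + 1) ^ n ≤ (K + 1) * (K + 1) ^ n := Nat.mul_le_mul_right _ (Nat.le_succ _)
      _ = 1 * (K + 1) ^ (n + 1) := by ring
      _ ≤ (Kf + 1) * (K + 1) ^ (n + 1) := Nat.mul_le_mul_right _ (by omega)
  · exact (deg_bindF (deg_crd hS hS' dS dS') F).trans
      (Nat.mul_le_mul_right _ (hF.trans (Nat.le_succ _)))

end basic

/-! ### Bounds -/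

section bounds

theorem box_le {z x : ℕ} (hz : 1 ≤ z) {y : ℝ} (hy : |y| ≤ 2 ^ (x * z)) :
    |4 * 2 ^ z * y - 2 * 2 ^ z| ≤ 2 ^ ((x + 4) * z) := by
  have e1 : (2 : ℝ) ^ ((x + 4) * z) = 2 ^ (3 * z) * (2 ^ z * 2 ^ (x * z)) := by
    rw [← pow_add, ← pow_add]
    congr 1
    ring
  have e2 : (8 : ℝ) ≤ 2 ^ (3 * z) := by
    calc (8 : ℝ) = 2 ^ (3 * 1) := by norm_num
      _ ≤ 2 ^ (3 * z) := pow_le_pow_right₀ (by norm_num) (by omega)
  have e3 : (1 : ℝ) ≤ 2 ^ (x * z) := one_le_pow₀ (by norm_num)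
  have e4 : (0 : ℝ) < 2 ^ z := by positivity
  have e5 : |4 * 2 ^ z * y| = 4 * 2 ^ z * |y| := by
    rw [abs_mul, abs_of_pos (by positivity)]
  have e6 : |(2 : ℝ) * 2 ^ z| = 2 * 2 ^ z := abs_of_pos (by positivity)
  have e7 := abs_sub (4 * 2 ^ z * y) (2 * 2 ^ z)
  rw [e5, e6] at e7
  rw [e1]
  have e8 : 4 * 2 ^ z * |y| ≤ 4 * (2 ^ z * 2 ^ (x * z)) := by
    have := mul_le_mul_of_nonneg_left hy (by positivity : (0 : ℝ) ≤ 4 * 2 ^ z)
    linarith
  have e9 : (2 : ℝ) * 2 ^ z ≤ 2 * (2 ^ z * 2 ^ (x * z)) := by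
    have := mul_le_mul_of_nonneg_left e3 e4.le
    linarith
  have e10 : 8 * (2 ^ z * 2 ^ (x * z)) ≤ 2 ^ (3 * z) * ((2 : ℝ) ^ z * 2 ^ (x * z)) :=
    mul_le_mul_of_nonneg_right e2 (by positivity)
  have e11 : (0 : ℝ) ≤ 2 ^ z * 2 ^ (x * z) := by positivity
  linarith

theorem up_le {z Y : ℕ} {x : ℝ} (hx : |x| ≤ 2 ^ (Y * z)) : |up z x| ≤ 2 ^ (Y * z) := by
  unfold up
  have e1 : (1 : ℝ) ≤ 2 ^ z := one_le_pow₀ (by norm_num)
  have e2 : (1 : ℝ) ≤ 2 ^ (Y * z) := one_le_pow₀ (by norm_num)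
  rw [abs_div, abs_of_pos (by positivity : (0 : ℝ) < 4 * 2 ^ z), div_le_iff₀ (by positivity)]
  have e3 := abs_add_le x (2 * 2 ^ z)
  rw [abs_of_pos (by positivity : (0 : ℝ) < 2 * 2 ^ z)] at e3
  have e4 : (2 : ℝ) ^ (Y * z) * 1 ≤ 2 ^ (Y * z) * 2 ^ z :=
    mul_le_mul_of_nonneg_left e1 (by positivity)
  have e5 : (1 : ℝ) * 2 ^ z ≤ 2 ^ (Y * z) * 2 ^ z :=
    mul_le_mul_of_nonneg_right e2 (by positivity)
  have e6 : (2 : ℝ) ^ (Y * z) * (4 * 2 ^ z) = 4 * (2 ^ (Y * z) * 2 ^ z) := by ring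
  rw [e6]
  linarith

/-- The point of the chart is in the dilated box. -/
theorem spt_mem {n z x : ℕ} {g : ℕ → ℕ} {S : ℕ → PN} {t : ℝ} (hz : 1 ≤ z) (hS : TriN S)
    {y : Fin (n - 1) → ℝ} (hy : ∀ l, |y l| ≤ 2 ^ (x * z)) :
    Bt (2 ^ ((x + 4) * z)) (Et t) g S n (spt (n - 1) z g S t y) := by
  refine ⟨spt_zero hS y, fun l l1 l2 => ?_⟩
  obtain ⟨k, rfl⟩ : ∃ k, l = k + 1 := ⟨l - 1, by omega⟩
  have h1 := nat_spt (z := z) (g := g) (t := t) hS y ⟨k, by omega⟩
  have h2 := box_le hz (hy ⟨k, by omega⟩)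
  rw [← h1] at h2
  unfold nat at h2
  rw [abs_mul, abs_of_pos (by positivity)] at h2
  rw [le_div_iff₀ (by positivity), mul_comm]
  exact h2

/-- **The coordinates over `S'` and the height of `S'` on boxes of the chart of `S`.** -/
theorem sup_le (n K x : ℕ) : ∃ Y : ℕ, ∀ (Cd : ℝ) (z : ℕ) (g : ℕ → ℕ) (S' S : ℕ → PN) (t : ℝ),
    1 ≤ Cd → DilP n K Cd → 2 * Cd ≤ 2 ^ z → 1 ≤ z → 1 ≤ n → Tr K S' → Tr K S →
    Nr 0 z (Et t) g g S' S (n + 1) → ∀ y : Fin (n - 1) → ℝ, (∀ l, |y l| ≤ 2 ^ (x * z)) →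
    (∀ l, |eval y (crd n z g S' S t l)| ≤ 2 ^ (Y * z)) ∧
      |eval y (hgt n z g S t (S' n))| ≤ 2 ^ (Y * z) := by
  obtain ⟨x₁, hx₁⟩ : ∃ x₁, x₁ = upr (K * (K + 1) ^ (n + 1)) n (x + 4) := ⟨_, rfl⟩
  obtain ⟨Y, hY⟩ : ∃ Y, Y = K * (K + 1) ^ (n + 1) * x₁ + 1 + x₁ := ⟨_, rfl⟩
  refine ⟨Y, ?_⟩
  intro Cd z g S' S t hC hd hz hz1 hn a' a hN y hy
  obtain ⟨b, hb⟩ : ∃ b, b = spt (n - 1) z g S t y := ⟨_, rfl⟩
  have m1 : ∀ l', 1 ≤ l' → l' < n → ∀ b, Bt 1 (Et t) g S' l' b →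
      |eval b (S' l') - eval b (S l')| ≤ 1 / 2 ^ g l' := by
    intro l' h1 h2 b hb
    have := hN l' h1 (by omega) b hb
    rwa [abs_sub_comm, Nat.zero_mul, pow_zero] at this
  have b0 : Bt (2 ^ ((x + 4) * z)) (Et t) g S n b := by
    rw [hb]
    exact spt_mem hz1 a.tri hy
  have b1 : Bt (2 ^ (x₁ * z)) (Et t) g S' n b := by
    rw [hx₁]
    exact incl' hC hd hz a'.tri a.tri a'.deg a.deg m1 le_rfl b0 n le_rfl
  have hpow : ∀ w ≤ Y, (2 : ℝ) ^ (w * z) ≤ 2 ^ (Y * z) := fun w hw =>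
    pow_le_pow_right₀ (by norm_num) (Nat.mul_le_mul_right _ hw)
  constructor
  · intro l
    rw [eval_crd, ← hb]
    refine up_le ?_
    have hl := l.2
    have h1 := b1.2 (l + 1) (by omega) (by omega)
    unfold nat
    rw [abs_mul, abs_of_pos (by positivity)]
    rw [le_div_iff₀ (by positivity), mul_comm] at h1
    exact h1.trans (hpow x₁ (by omega))
  · rw [eval_hgt, ← hb, abs_mul, abs_of_pos (by positivity)]
    have c1 := dil_sub (x := x₁) (y := K * (K + 1) ^ (n + 1) * x₁ + 1) hd hz a'.tri a'.deg le_rfl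
      (a'.tri n) (a.tri n) (a'.deg n) (a.deg n) (by positivity : (0 : ℝ) ≤ 1 / 2 ^ g n) le_rfl
      (fun b' hb' => by
        have := hN n hn (by omega) b' hb'
        rwa [abs_sub_comm, Nat.zero_mul, pow_zero] at this) b1
    calc (2 : ℝ) ^ g n * |eval b (S' n) - eval b (S n)|
        ≤ 2 ^ g n * (2 ^ ((K * (K + 1) ^ (n + 1) * x₁ + 1) * z) * (1 / 2 ^ g n)) :=
          mul_le_mul_of_nonneg_left c1 (by positivity)
      _ = 2 ^ ((K * (K + 1) ^ (n + 1) * x₁ + 1) * z) := by field_simp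
      _ ≤ 2 ^ (Y * z) := hpow _ (by omega)

/-- A constant is a power of two. -/
theorem two_pow_ge (C : ℝ) : ∃ c : ℕ, ∀ z : ℕ, 1 ≤ z → C ≤ 2 ^ (c * z) := by
  obtain ⟨c, hc⟩ := pow_unbounded_of_one_lt C (by norm_num : (1 : ℝ) < 2)
  refine ⟨c, fun z hz => hc.le.trans (pow_le_pow_right₀ (by norm_num) ?_)⟩
  exact Nat.le_mul_of_pos_right c hz

/-- **The coefficients.** -/
theorem cf_le (n K : ℕ) : ∃ Y : ℕ, ∀ (Cd : ℝ) (z : ℕ) (g : ℕ → ℕ) (S' S : ℕ → PN) (t : ℝ),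
    1 ≤ Cd → DilP n K Cd → 2 * Cd ≤ 2 ^ z → 1 ≤ z → 1 ≤ n → Tr K S' → Tr K S →
    Nr 0 z (Et t) g g S' S (n + 1) →
    (∀ l α, |coeff α (crd n z g S' S t l)| ≤ 2 ^ (Y * z)) ∧
      ∀ α, |coeff α (hgt n z g S t (S' n))| ≤ 2 ^ (Y * z) := by
  obtain ⟨Y, h⟩ := sup_le n K 0
  obtain ⟨Cc, hCc, hc⟩ := coef_bound (n - 1) ((K + 1) ^ (n + 1))
  obtain ⟨c, hc2⟩ := two_pow_ge Cc
  refine ⟨c + Y, ?_⟩
  intro Cd z g S' S t hC hd hz hz1 hn a' a hN
  have key : ∀ α (P : Pl (n - 1)), P.totalDegree ≤ (K + 1) ^ (n + 1) →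
      (∀ y : Fin (n - 1) → ℝ, (∀ i, |y i| ≤ 1) → |eval y P| ≤ 2 ^ (Y * z)) →
      |coeff α P| ≤ 2 ^ ((c + Y) * z) := by
    intro α P hP hy
    refine (hc P _ hP hy α).trans ?_
    rw [Nat.add_mul, pow_add]
    exact mul_le_mul_of_nonneg_right (hc2 z hz1) (by positivity)
  have h1 : ∀ y : Fin (n - 1) → ℝ, (∀ i, |y i| ≤ 1) → _ := fun y hy =>
    h Cd z g S' S t hC hd hz hz1 hn a' a hN y (fun l => by
      rw [Nat.zero_mul, pow_zero]
      exact hy l)
  refine ⟨fun l α => key α _ (deg_crd a.tri a'.tri a.deg a'.deg l) fun y hy => (h1 y hy).1 l,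
    fun α => key α _ ?_ fun y hy => (h1 y hy).2⟩
  refine (deg_hgt a.tri a.deg (a'.tri n) (a'.deg n) le_rfl).trans ?_
  rw [pow_succ, mul_comm]
  exact Nat.mul_le_mul_left _ (Nat.le_succ _)

/-- **The coefficients of `chg`.** -/
theorem cf_chg (n K Kf : ℕ) : ∃ Y : ℕ, ∀ (Cd : ℝ) (z : ℕ) (g : ℕ → ℕ) (S' S : ℕ → PN) (t : ℝ)
    (F : Pl (n - 1)) (M : ℝ), 1 ≤ Cd → DilP n K Cd → 2 * Cd ≤ 2 ^ z → 1 ≤ z → 1 ≤ n →
    Tr K S' → Tr K S → Nr 0 z (Et t) g g S' S (n + 1) → F.totalDegree ≤ Kf → 1 ≤ M →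
    (∀ α, |coeff α F| ≤ M) → ∀ α, |coeff α (chg n z g S' S t F)| ≤ 2 ^ (Y * z) * M := by
  obtain ⟨Y, h⟩ := sup_le n K 0
  obtain ⟨Cc, hCc, hc⟩ := coef_bound (n - 1) ((Kf + 1) * (K + 1) ^ (n + 1))
  obtain ⟨c, hc2⟩ := two_pow_ge (Cc * (1 + (bx (n - 1) Kf).card))
  refine ⟨c + (Y + Y * ((n - 1) * Kf)), ?_⟩
  intro Cd z g S' S t F M hC hd hz hz1 hn a' a hN dF hM hF α
  refine (hc (chg n z g S' S t F) ((1 + (bx (n - 1) Kf).card) *
    (2 ^ ((Y + Y * ((n - 1) * Kf)) * z) * M)) (deg_chg a.tri a'.tri a.deg a'.deg dF) ?_ α).trans ?_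
  · intro y hy
    obtain ⟨h1, h2⟩ := h Cd z g S' S t hC hd hz hz1 hn a' a hN y (fun l => by
      rw [Nat.zero_mul, pow_zero]
      exact hy l)
    unfold chg
    rw [map_add]
    have e1 : eval y (bind₁ (crd n z g S' S t) F) =
        eval (fun l => eval y (crd n z g S' S t l)) F := by
      refine (eval₂Hom_bind₁ (RingHom.id ℝ) y _ _).trans ?_
      rfl
    have e2 := eval_bound F dF M (2 ^ (Y * z)) (one_le_pow₀ (by norm_num)) hF _ h1
    rw [e1]
    refine (abs_add_le _ _).trans ((add_le_add h2 e2).trans ?_)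
    have e3 : (2 : ℝ) ^ ((Y + Y * ((n - 1) * Kf)) * z) =
        2 ^ (Y * z) * (2 ^ (Y * z)) ^ ((n - 1) * Kf) := by
      rw [← pow_mul, ← pow_add]
      congr 1
      ring
    have p1 : (1 : ℝ) ≤ 2 ^ (Y * z) := one_le_pow₀ (by norm_num)
    have p2 : (1 : ℝ) ≤ (2 ^ (Y * z)) ^ ((n - 1) * Kf) := one_le_pow₀ p1
    rw [e3, add_mul, one_mul]
    refine add_le_add ?_ (mul_le_mul_of_nonneg_left ?_ (Nat.cast_nonneg _))
    · calc (2 : ℝ) ^ (Y * z) = 2 ^ (Y * z) * 1 * 1 := by ring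
        _ ≤ 2 ^ (Y * z) * (2 ^ (Y * z)) ^ ((n - 1) * Kf) * M :=
          mul_le_mul (mul_le_mul_of_nonneg_left p2 (by positivity)) hM zero_le_one (by positivity)
    · calc M * (2 ^ (Y * z)) ^ ((n - 1) * Kf) = 1 * (2 ^ (Y * z)) ^ ((n - 1) * Kf) * M := by ring
        _ ≤ 2 ^ (Y * z) * (2 ^ (Y * z)) ^ ((n - 1) * Kf) * M :=
          mul_le_mul_of_nonneg_right (mul_le_mul_of_nonneg_right p1 (by positivity))
            (by linarith)
  · have e4 : (2 : ℝ) ^ ((c + (Y + Y * ((n - 1) * Kf))) * z) =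
        2 ^ (c * z) * 2 ^ ((Y + Y * ((n - 1) * Kf)) * z) := by
      rw [← pow_add]
      congr 1
      ring
    rw [e4]
    calc Cc * ((1 + (bx (n - 1) Kf).card) * (2 ^ ((Y + Y * ((n - 1) * Kf)) * z) * M)) =
        Cc * (1 + (bx (n - 1) Kf).card) * (2 ^ ((Y + Y * ((n - 1) * Kf)) * z) * M) := by ring
      _ ≤ 2 ^ (c * z) * (2 ^ ((Y + Y * ((n - 1) * Kf)) * z) * M) :=
        mul_le_mul_of_nonneg_right (hc2 z hz1) (by positivity)
      _ = _ := by ring

/-- **The gradient of `chg`**: if the gradients of `F` and of the height of `P` over `S'` are near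
at the point with the coordinates `y` over `S`, then the gradients of `chg F` and of the height of
`P` over `S` are near there. -/
theorem grad_chg (n K x : ℕ) : ∃ Y : ℕ, ∀ (Cd : ℝ) (z : ℕ) (g : ℕ → ℕ) (S' S : ℕ → PN) (t : ℝ),
    1 ≤ Cd → DilP n K Cd → 2 * Cd ≤ 2 ^ z → 1 ≤ z → 1 ≤ n → Tr K S' → Tr K S →
    Nr 0 z (Et t) g g S' S (n + 1) → ∀ y : Fin (n - 1) → ℝ, (∀ l, |y l| ≤ 2 ^ (x * z)) →
    ∀ (P : PN) (F : Pl (n - 1)) (E : ℝ), P.vars ⊆ range n →
      (∀ m, |eval (fun l => eval y (crd n z g S' S t l)) (pderiv m F) -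
        eval (fun l => eval y (crd n z g S' S t l)) (pderiv m (hgt n z g S' t P))| ≤ E) →
      ∀ m, |eval y (pderiv m (chg n z g S' S t F)) - eval y (pderiv m (hgt n z g S t P))| ≤
        2 ^ (Y * z) * E := by
  obtain ⟨Y, h⟩ := cf_le n K
  obtain ⟨D, hD⟩ : ∃ D, D = (K + 1) ^ (n + 1) := ⟨_, rfl⟩
  obtain ⟨c, hc⟩ := two_pow_ge (((n - 1 : ℕ) : ℝ) * ((bx (n - 1) D).card * (D + 1)))
  refine ⟨c + Y + x * ((n - 1) * D), ?_⟩
  intro Cd z g S' S t hC hd hz hz1 hn a' a hN y hy P F E hP hE m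
  obtain ⟨h1, -⟩ := h Cd z g S' S t hC hd hz hz1 hn a' a hN
  have e0 : pderiv m (chg n z g S' S t F) - pderiv m (hgt n z g S t P) =
      pderiv m (bind₁ (crd n z g S' S t) (F - hgt n z g S' t P)) := by
    rw [hgt_chg a.tri a'.tri hP]
    unfold chg
    rw [map_sub, map_sub, map_add, map_add]
    ring
  rw [← map_sub, e0, pderiv_bind, map_sum]
  have hE0 : 0 ≤ E := (abs_nonneg _).trans (hE m)
  have e1 : ∀ k : Fin (n - 1), |eval y (bind₁ (crd n z g S' S t)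
      (pderiv k (F - hgt n z g S' t P)) * pderiv m (crd n z g S' S t k))| ≤
      E * ((bx (n - 1) D).card * (2 ^ (Y * z) * (D + 1) * (2 ^ (x * z)) ^ ((n - 1) * D))) := by
    intro k
    rw [map_mul, abs_mul]
    refine mul_le_mul ?_ ?_ (abs_nonneg _) hE0
    · have e2 : eval y (bind₁ (crd n z g S' S t) (pderiv k (F - hgt n z g S' t P))) =
          eval (fun l => eval y (crd n z g S' S t l)) (pderiv k (F - hgt n z g S' t P)) := by
        refine (eval₂Hom_bind₁ (RingHom.id ℝ) y _ _).trans ?_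
        rfl
      rw [e2, map_sub, map_sub]
      exact hE k
    · have d1 : (crd n z g S' S t k).totalDegree ≤ D := by
        rw [hD]
        exact deg_crd a.tri a'.tri a.deg a'.deg k
      exact eval_bound _ ((Pool.Agent.H50.PW.totalDegree_pderiv_le _ m).trans d1) _ _
        (one_le_pow₀ (by norm_num)) (coeff_pderiv_bound _ d1 _ (h1 k) m) y hy
  refine (Finset.abs_sum_le_sum_abs _ _).trans ((Finset.sum_le_sum fun k _ => e1 k).trans ?_)
  rw [Finset.sum_const, Finset.card_univ, Fintype.card_fin, nsmul_eq_mul]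
  have e3 : (2 : ℝ) ^ ((c + Y + x * ((n - 1) * D)) * z) =
      2 ^ (c * z) * (2 ^ (Y * z) * (2 ^ (x * z)) ^ ((n - 1) * D)) := by
    rw [← pow_mul, ← pow_add, ← pow_add]
    congr 1
    ring
  rw [e3]
  calc ((n - 1 : ℕ) : ℝ) * (E * ((bx (n - 1) D).card * (2 ^ (Y * z) * (D + 1) *
        (2 ^ (x * z)) ^ ((n - 1) * D)))) =
      (((n - 1 : ℕ) : ℝ) * ((bx (n - 1) D).card * (D + 1))) *
        (2 ^ (Y * z) * (2 ^ (x * z)) ^ ((n - 1) * D)) * E := by ring
    _ ≤ 2 ^ (c * z) * (2 ^ (Y * z) * (2 ^ (x * z)) ^ ((n - 1) * D)) * E := by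
      refine mul_le_mul_of_nonneg_right (mul_le_mul_of_nonneg_right (hc z hz1) ?_) hE0
      positivity

/-- The gradient at near points. -/
theorem grad_near (m D : ℕ) : ∃ C : ℝ, 1 ≤ C ∧ ∀ (F : Pl m) (M δ : ℝ) (y y' : Fin m → ℝ),
    F.totalDegree ≤ D → (∀ α, |coeff α F| ≤ M) → (∀ l, |y l| ≤ 2) → (∀ l, |y' l| ≤ 2) →
    (∀ l, |y l - y' l| ≤ δ) → ∀ l, |eval y (pderiv l F) - eval y' (pderiv l F)| ≤ C * M * δ := by
  refine ⟨m * ((bx m D).card * ((D + 1) * (D + 1) * 2 ^ (m * D))) + 1, by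
    have : (0 : ℝ) ≤ m * ((bx m D).card * ((D + 1) * (D + 1) * 2 ^ (m * D))) := by positivity
    linarith, ?_⟩
  intro F M δ y y' dF hF hy hy' hyy l
  have hM : 0 ≤ M := (abs_nonneg _).trans (hF 0)
  have hδ : 0 ≤ δ := (abs_nonneg _).trans (hyy l)
  have d1 : (pderiv l F).totalDegree ≤ D :=
    (Pool.Agent.H50.PW.totalDegree_pderiv_le _ l).trans dF
  have h1 := coeff_pderiv_bound F dF M hF l
  have h2 := Pool.Agent.H36.KBX.mvt_seg (pderiv l F) y' y
    ((bx m D).card * (M * (D + 1) * (D + 1) * 2 ^ (m * D))) δ hyy (fun τ t0 t1 i => by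
      refine eval_bound _ ((Pool.Agent.H50.PW.totalDegree_pderiv_le _ i).trans d1) _ 2
        (by norm_num) (coeff_pderiv_bound _ d1 _ h1 i) _ fun i => ?_
      have e1 : y' i + τ * (y i - y' i) = (1 - τ) * y' i + τ * y i := by ring
      rw [e1]
      refine (abs_add_le _ _).trans ?_
      rw [abs_mul, abs_mul, abs_of_nonneg t0, abs_of_nonneg (by linarith : 0 ≤ 1 - τ)]
      have e2 := mul_le_mul_of_nonneg_left (hy' i) (by linarith : 0 ≤ 1 - τ)
      have e3 := mul_le_mul_of_nonneg_left (hy i) t0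
      linarith)
  refine h2.trans ?_
  have e4 : (m : ℝ) * ((bx m D).card * (M * (D + 1) * (D + 1) * 2 ^ (m * D)) * δ) =
      m * ((bx m D).card * ((D + 1) * (D + 1) * 2 ^ (m * D))) * (M * δ) := by ring
  rw [e4, mul_assoc _ M δ]
  refine mul_le_mul_of_nonneg_right (by linarith) (by positivity)

end bounds

/-! ### The chart of a cell -/

section cell

open Pool.GSD (ztS)

open Classical in
/-- **The change of the chart** from the visible side `Ψ i j` to the line side `Φ i j`, at the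
exact time, truncated. -/
noncomputable def kapC (D : NDat2) (n z i j bb : ℕ) (F : D.Ω → Pl (n - 1)) (ω : D.Ω) :
    Pl (n - 1) :=
  if ∀ α, |coeff α (chg n z (D.g i j) (D.Ψ i j ω) (D.Φ i j ω) (D.X ω 0) (F ω))| ≤ 2 ^ bb then
    chg n z (D.g i j) (D.Ψ i j ω) (D.Φ i j ω) (D.X ω 0) (F ω) else 0

variable {D : NDat2} {n K J a₀ w₀ z M : ℕ} {lam gam : ℕ → ℝ} {κ C₁ : ℝ} {q : D.Ω → ℝ}

theorem tr_vis (hO : D.Ok2 n K J a₀ w₀ z M lam gam κ C₁ q) (i j : ℕ) (ω : D.Ω) :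
    Tr K (D.Ψ i j ω) := ⟨hO.G_tri i j _, hO.G_deg i j _⟩

theorem tr_line (hO : D.Ok2 n K J a₀ w₀ z M lam gam κ C₁ q) (i j : ℕ) (ω : D.Ω) :
    Tr K (D.Φ i j ω) := ⟨hO.P_tri i j _, hO.P_deg i j _⟩

/-- The degree of `kapC`, for all samples. -/
theorem deg_kapC (hO : D.Ok2 n K J a₀ w₀ z M lam gam κ C₁ q) {i j bb Kf : ℕ}
    {F : D.Ω → Pl (n - 1)} (hF : ∀ ω, (F ω).totalDegree ≤ Kf) (ω : D.Ω) :
    (kapC D n z i j bb F ω).totalDegree ≤ (Kf + 1) * (K + 1) ^ (n + 1) := by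
  classical
  unfold kapC
  split_ifs
  · exact deg_chg (tr_line hO i j ω).tri (tr_vis hO i j ω).tri (tr_line hO i j ω).deg
      (tr_vis hO i j ω).deg (hF ω)
  · rw [totalDegree_zero]
    exact Nat.zero_le _

/-- The coefficients of `kapC`, for all samples. -/
theorem cf_kapC {i j bb : ℕ} {F : D.Ω → Pl (n - 1)} (ω : D.Ω) (α : Fin (n - 1) →₀ ℕ) :
    |coeff α (kapC D n z i j bb F ω)| ≤ 2 ^ bb := by
  classical
  unfold kapC
  split_ifs with h
  · exact h α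
  · rw [coeff_zero, abs_zero]
    positivity

/-- `kapC` is a function of the sides, of the time and of `F`. -/
theorem det_kapC {i j bb : ℕ} {Y : Type} {y : D.Ω → Y} {F : D.Ω → Pl (n - 1)}
    (h1 : Det q y (D.Ψ i j)) (h2 : Det q y (D.Φ i j)) (h3 : Det q y (fun ω => D.X ω 0))
    (h4 : Det q y F) : Det q y (kapC D n z i j bb F) := by
  intro ω ω' a b h
  have e3 : D.X ω 0 = D.X ω' 0 := h3 ω ω' a b h
  unfold kapC
  rw [h1 ω ω' a b h, h2 ω ω' a b h, e3, h4 ω ω' a b h]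

/-- **`kapC` is a function of the context and of the time**, if `F` is. -/
theorem det_kapC_c (hO : D.Ok2 n K J a₀ w₀ z M lam gam κ C₁ q) {i j bb : ℕ} (hi : i ≤ M)
    (hj : j ≤ M) {F : D.Ω → Pl (n - 1)} (hF : Det q (fun ω => (D.c i j ω, D.T ω)) F) :
    Det q (fun ω => (D.c i j ω, D.T ω)) (kapC D n z i j bb F) := by
  refine det_kapC (fun ω ω' a b h => ?_) (fun ω ω' _ _ h => ?_) (fun ω ω' _ _ h => ?_) hF
  · unfold NDat2.Ψ
    rw [hO.s_c i hi j hj ω ω' a b h]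
  · have e : D.c i j ω = D.c i j ω' := (Prod.ext_iff.1 h).1
    unfold NDat2.Φ
    rw [e]
  · have e : D.T ω = D.T ω' := (Prod.ext_iff.1 h).2
    show D.X ω 0 = D.X ω' 0
    rw [hO.X_zero ω, hO.X_zero ω', e]

theorem nr_cell (hO : D.Ok2 n K J a₀ w₀ z M lam gam κ C₁ q) {i j : ℕ} (hi : i ≤ M) (hj : j ≤ M)
    {ω : D.Ω} (hω : 0 < q ω) :
    Nr 0 z (Et (D.X ω 0)) (D.g i j) (D.g i j) (D.Ψ i j ω) (D.Φ i j ω) (n + 1) :=
  nr_agr hO hi hj hω (by rw [sub_self, abs_zero]; positivity)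

/-- **The change of the chart in a cell.** `Y z` digits are lost. `kapC` is not truncated; the
height of the point over `kapC` is the height over `F`; if the gradient of `F` at the own position
over the visible side is near to the gradient of the height of `P` over the visible side, the same
is true over the line side. -/
theorem chart_cell (n K Kf : ℕ) : ∃ Y z₀ : ℕ, ∀ (J a₀ w₀ z M i j : ℕ) (lam gam : ℕ → ℝ)
    (κ C₁ : ℝ) (D : NDat2) (q : D.Ω → ℝ), z₀ ≤ z → 1 ≤ n → i ≤ M → j ≤ M →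
    D.Ok2 n K J a₀ w₀ z M lam gam κ C₁ q → ∀ ω : D.Ω, 0 < q ω →
    (∀ (F : D.Ω → Pl (n - 1)) (b bb : ℕ), (F ω).totalDegree ≤ Kf →
      (∀ α, |coeff α (F ω)| ≤ 2 ^ b) → Y * z + b ≤ bb →
      kapC D n z i j bb F ω =
        chg n z (D.g i j) (D.Ψ i j ω) (D.Φ i j ω) (D.X ω 0) (F ω)) ∧
    (∀ F : Pl (n - 1), ztS D i j (D.Φ i j) ω n -
        eval (fun l : Fin (n - 1) => up z (ztS D i j (D.Φ i j) ω (l + 1)))
          (chg n z (D.g i j) (D.Ψ i j ω) (D.Φ i j ω) (D.X ω 0) F) =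
      ztS D i j (D.Ψ i j) ω n -
        eval (fun l : Fin (n - 1) => up z (ztS D i j (D.Ψ i j) ω (l + 1))) F) ∧
    ∀ (P : PN) (F : Pl (n - 1)) (E : ℝ), P.vars ⊆ range n →
      (∀ m, |eval (fun l : Fin (n - 1) => up z (ztS D i j (D.Ψ i j) ω (l + 1))) (pderiv m F) -
        eval (fun l : Fin (n - 1) => up z (ztS D i j (D.Ψ i j) ω (l + 1)))
          (pderiv m (hgt n z (D.g i j) (D.Ψ i j ω) (D.X ω 0) P))| ≤ E) →
      ∀ m, |eval (fun l : Fin (n - 1) => up z (ztS D i j (D.Φ i j) ω (l + 1)))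
          (pderiv m (chg n z (D.g i j) (D.Ψ i j ω) (D.Φ i j ω) (D.X ω 0) F)) -
        eval (fun l : Fin (n - 1) => up z (ztS D i j (D.Φ i j) ω (l + 1)))
          (pderiv m (hgt n z (D.g i j) (D.Φ i j ω) (D.X ω 0) P))| ≤ 2 ^ (Y * z) * E := by
  obtain ⟨Cd, hCd, hd⟩ := dilB n K
  obtain ⟨Y₁, h1⟩ := cf_chg n K Kf
  obtain ⟨Y₂, h2⟩ := grad_chg n K 0
  obtain ⟨z₁, hz₁⟩ := exists_nat_ge (2 * Cd)
  refine ⟨Y₁ + Y₂, z₁ + 1, ?_⟩
  intro J a₀ w₀ z M i j lam gam κ C₁ D q hz hn hi hj hO ω hω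
  have hz1 : 1 ≤ z := by omega
  have hCz : 2 * Cd ≤ 2 ^ z := two_le_of hz₁ (by omega : z₁ ≤ z)
  have hN := nr_cell hO hi hj hω
  have tS := (tr_line hO i j ω)
  have tS' := (tr_vis hO i j ω)
  refine ⟨?_, ?_, ?_⟩
  · intro F b bb dF cF hbb
    classical
    unfold kapC
    rw [if_pos]
    intro α
    refine (h1 Cd z _ _ _ _ (F ω) (2 ^ b) hCd hd hCz hz1 hn tS' tS hN dF
      (one_le_pow₀ (by norm_num)) cF α).trans ?_
    rw [← pow_add]
    refine pow_le_pow_right₀ (by norm_num) (le_trans ?_ hbb)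
    have := Nat.mul_le_mul_right z (Nat.le_add_right Y₁ Y₂)
    omega
  · intro F
    exact own_chg tS.tri tS'.tri rfl F
  · intro P F E hP hE m
    have hE0 : 0 ≤ E := (abs_nonneg _).trans (hE m)
    have hy : ∀ l : Fin (n - 1), |up z (ztS D i j (D.Φ i j) ω (l + 1))| ≤ 2 ^ (0 * z) := by
      intro l
      rw [Nat.zero_mul, pow_zero]
      have hl := l.2
      have h3 := hO.hgt i hi j hj ω hω (l + 1) (by omega)
      have h4 : |ztS D i j (D.Φ i j) ω (l + 1)| ≤ 1 := by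
        unfold ztS nat
        rw [abs_mul, abs_of_pos (by positivity)]
        rw [le_div_iff₀ (by positivity), mul_comm] at h3
        exact h3
      have h5 := Pool.GSD.up_bd (z := z) h4
      rw [abs_of_nonneg h5.1]
      exact h5.2.le
    have e1 : ∀ l : Fin (n - 1),
        eval (fun l : Fin (n - 1) => up z (ztS D i j (D.Φ i j) ω (l + 1)))
          (crd n z (D.g i j) (D.Ψ i j ω) (D.Φ i j ω) (D.X ω 0) l) =
        up z (ztS D i j (D.Ψ i j) ω (l + 1)) := fun l => eval_crd_own tS.tri tS'.tri rfl l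
    have h3 := h2 Cd z _ _ _ _ hCd hd hCz hz1 hn tS' tS hN _ hy P F E hP (by
      simp only [e1]
      exact hE) m
    refine h3.trans (mul_le_mul_of_nonneg_right (pow_le_pow_right₀ (by norm_num) ?_) hE0)
    exact Nat.mul_le_mul_right _ (Nat.le_add_left _ _)

end cell

end Pool.CHT
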