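import Pool.Agent.H88.TIE.Out

/-!
# The core: assembly
-/

set_option autoImplicit false

namespace Pool.TIE

open Finset Real
open Pool.Agent.H49.Ent Pool.Agent.H32.Dense Pool.STK Pool.BFL Pool.MIC Pool.LBL Pool.GLM
open Pool.K2S Pool.KAF Pool.M5 Pool.SLO

/-- The chain of the errors at one place: from the facts on the space of references to the output. -/
theorem core_chain (k K : ℕ) (c : ℝ) (hc0 : 0 < c) (hc1 : c ≤ 1) {σ₁ ι₁ C₁ σ₂ ι₂ C₂ CF : ℝ}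
    {X₁ X₂ : ℕ} (hC₁ : 1 ≤ C₁) (hC₂ : 1 ≤ C₂)
    (h1 : ∀ (D : Cd k) (q : Om D K → ℝ) (θ d δ κ : ℝ) (k₀ c₂ x s : ℕ), D.Ok K → D.Fx K q θ d →
      (∀ u, 0 < q u → D.Apx K k₀ δ u) → D.NFc c κ d →
      X₁ ≤ x → x ≤ D.h → 0 ≤ κ → c₂ + κ * D.h ≤ x → θ + D.b + c₂ ≤ ι₁ * x → 0 ≤ θ → 0 ≤ δ →
      (s : ℝ) ≤ σ₁ * x →
      ((K : ℝ) + 1) ^ k * δ ≤ 1 / 2 ^ x →
      D.e ≤ c₂ → ((K : ℝ) + 1) ^ (k + 2) * 2 ^ (K + k₀ * K) * 2 ^ D.b + 2 ^ D.e ≤ 2 ^ c₂ →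
      ∃ E : Om D K → Prop, c / 8 ≤ Pb q E ∧
        CH (cond q E True) (fun u => Pool.MIC.rk s (D.kap K c₂ u))
          (fun u => (D.ref K u, D.gm u.2)) ≤ C₁ * (θ + 1))
    (h2 : ∀ (D : Cd k) (q : Om D K → ℝ) (θ d δ κ : ℝ) (k₀ c₂ s c₃ x s' : ℕ), D.Ok K →
      D.Fx K q θ d →
      (∀ u, 0 < q u → D.Apx K k₀ δ u) → D.NFc c κ d → 0 ≤ θ → 0 ≤ δ →
      CH q (fun u => Pool.MIC.rk s (D.kap K c₂ u)) (fun u => (D.ref K u, D.gm u.2)) ≤ θ →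
      X₂ ≤ x → x ≤ D.h → c₂ + x ≤ s → ((K : ℝ) + 1) ^ k * δ ≤ 1 / 2 ^ x → c₂ ≤ c₃ →
      D.r + x ≤ D.X → 0 ≤ κ → c₃ + κ * D.h ≤ x → θ + D.b + D.r + c₃ ≤ ι₂ * x →
      (s' : ℝ) ≤ σ₂ * x →
      (∀ u, 0 < q u → l1 (D.dif K c₂ u) ≤ 1) →
      (∀ u, 0 < q u → (∑ i, l1 (D.phi K u i)) + l1 (D.rcp K c₂ s u) ≤ 2 ^ c₃) →
      (∀ u, 0 < q u → ml (D.Ft K c₂ s u) ≤ 2 ^ c₃) →
      ∃ E : Om D K → Prop, c / 8 ≤ Pb q E ∧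
        CH (cond q E True) (fun u => Pool.MIC.rk s' (MvPolynomial.C (1 / 2 ^ c₃) * D.Ft K c₂ s u))
          (fun u => D.Z u.2) ≤ C₂ * (θ + D.r + 1))
    (h3 : ∀ (D : Cd k) (q : Om D K → ℝ) (θ d δ : ℝ) (k₀ c₂ s c₃ x : ℕ), D.Ok K → D.Fx K q θ d →
      (∀ u, 0 < q u → D.Apx K k₀ δ u) → 0 ≤ θ → 0 ≤ δ →
      CH q (fun u => Pool.MIC.rk s (D.kap K c₂ u)) (fun u => (D.ref K u, D.gm u.2)) ≤ θ →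
      x ≤ D.h → c₂ + x ≤ s → ((K : ℝ) + 1) ^ k * δ ≤ 1 / 2 ^ x → c₂ ≤ c₃ →
      D.r + x ≤ D.X →
      (∀ u, 0 < q u → l1 (D.dif K c₂ u) ≤ 1) →
      (∀ u, 0 < q u → (∑ i, l1 (D.phi K u i)) + l1 (D.rcp K c₂ s u) ≤ 2 ^ c₃) →
      (∀ u, 0 < q u → ml (D.Ft K c₂ s u) ≤ 2 ^ c₃) →
      ((k : ℝ) + 1) * (D.X * Real.log 2) - (CF * (θ + 1) + D.r) ≤
        CH q (fun u => (D.t u.2, D.W u.2))
          (fun u => (D.n3 K c₂ s c₃ x u, (D.Ft K c₂ s u, D.Z u.2))))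
    (D : Cd k) {q : Om D K → ℝ} {θ₁ d δ κ : ℝ} {k₀ c₂ c₃ x₁ s₁ x₂ s₂ h' : ℕ} (hD : D.Ok K)
    (hF : D.Fx K q θ₁ d) (hd : 0 < d) (hA : ∀ u, 0 < q u → D.Apx K k₀ δ u)
    (hN : D.NFc c κ (d * (c / 8))) (hκ : 0 ≤ κ) (hδ : 0 ≤ δ) (hθ₁ : 0 ≤ θ₁)
    (n1 : X₁ ≤ x₁) (n2 : x₁ ≤ D.h) (n3 : c₂ + κ * D.h ≤ x₁) (n4 : θ₁ + D.b + c₂ ≤ ι₁ * x₁)
    (n5 : (s₁ : ℝ) ≤ σ₁ * x₁) (n6 : ((K : ℝ) + 1) ^ k * δ ≤ 1 / 2 ^ x₁) (n7 : D.e ≤ c₂)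
    (n8 : ((K : ℝ) + 1) ^ (k + 2) * 2 ^ (K + k₀ * K) * 2 ^ D.b + 2 ^ D.e ≤ 2 ^ c₂)
    {θ₂ : ℝ} (hθ₂ : θ₂ = (8 / c + C₁) * (θ₁ + 1))
    (m1 : X₂ ≤ x₂) (m2 : x₂ ≤ x₁) (m3 : c₂ + x₂ ≤ s₁) (m4 : D.r + x₂ ≤ D.X)
    (m5 : c₃ + κ * D.h ≤ x₂) (m6 : θ₂ + D.b + D.r + c₃ ≤ ι₂ * x₂) (m7 : (s₂ : ℝ) ≤ σ₂ * x₂)
    (m8 : c₃ = c₂ + 2 * K + 1 + (D.r + 1) * K) (m9 : c₃ + h' ≤ x₂) (m10 : c₃ + h' ≤ s₂) :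
    ∃ (q' : Om D K → ℝ) (G : Om D K → Pl (k + 1)),
      SubL D.p (d * (c / 8) * (c / 8)) q' (fun u => u.2) ∧
      (∀ u, (G u).totalDegree ≤ K * (K + 1) + K) ∧
      (∀ u α, |MvPolynomial.coeff α (G u)| ≤ 2 ^ (c₃ + 1)) ∧
      CH q' G (fun u => D.Z u.2) ≤ C₂ * (θ₂ + D.r + 1) ∧
      ((k : ℝ) + 1) * (D.X * Real.log 2) - (CF * (8 / c * (θ₂ + 1) + 1) + D.r +
        (4 * (((K * (K + 1) + K : ℕ) + 1 : ℝ) ^ (k + 1) + 1) + 2)) ≤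
        CH q' (fun u => (D.W u.2, D.t u.2))
          (fun u => (dg h' (D.nu u.2 - MvPolynomial.eval (D.zz u.2) (G u)), (G u, D.Z u.2))) := by
  have hc8 : 0 < c / 8 := by positivity
  have h8c : 0 < 8 / c := by positivity
  have hC₁0 : 0 ≤ C₁ := by linarith
  have hθ₂0 : 0 ≤ θ₂ := by rw [hθ₂]; positivity
  have hc23 : c₂ ≤ c₃ := by rw [m8]; omega
  -- first event
  obtain ⟨E₁, hE₁, few₁⟩ := h1 D q θ₁ d δ κ k₀ c₂ x₁ s₁ hD hF hA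
    (hN.mono le_rfl le_rfl (by nlinarith)) n1 n2 hκ n3 n4 hθ₁ hδ n5 n6 n7 n8
  have hE₁0 : 0 < Pb q E₁ := lt_of_lt_of_le hc8 hE₁
  obtain ⟨q₂, hq₂⟩ : ∃ q₂, q₂ = cond q E₁ True := ⟨_, rfl⟩
  have hF₂ : D.Fx K q₂ θ₂ (d * (c / 8)) := by
    rw [hq₂]
    refine (hF.ev hD hd.le E₁ hE₁0).mono ?_ (mul_le_mul_of_nonneg_left hE₁ hd.le)
    have a1 : (θ₁ + 1) / Pb q E₁ ≤ (θ₁ + 1) / (c / 8) :=
      div_le_div_of_nonneg_left (by linarith) hc8 hE₁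
    have a2 : (θ₁ + 1) / (c / 8) = 8 / c * (θ₁ + 1) := by field_simp
    have a3 : 0 ≤ C₁ * (θ₁ + 1) := by positivity
    rw [hθ₂, add_mul]
    linarith
  have hA₂ : ∀ u, 0 < q₂ u → D.Apx K k₀ δ u := fun u hu => by
    rw [hq₂] at hu
    exact hA u (ev_pos hF.law.nonneg E₁ hu).1
  have few₁' : CH q₂ (fun u => Pool.MIC.rk s₁ (D.kap K c₂ u)) (fun u => (D.ref K u, D.gm u.2)) ≤
      θ₂ := by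
    rw [hq₂]
    refine few₁.trans ?_
    have a3 : 0 ≤ 8 / c * (θ₁ + 1) := by positivity
    rw [hθ₂, add_mul]
    linarith
  have n6' : ((K : ℝ) + 1) ^ k * δ ≤ 1 / 2 ^ x₂ := n6.trans
    (div_le_div_of_nonneg_left (by norm_num) (by positivity) (pow_le_pow_right₀ (by norm_num) m2))
  have hdif : ∀ u, D.Apx K k₀ δ u → l1 (D.dif K c₂ u) ≤ 1 := fun u hu => Cd.dif_l1 hD hu n8
  have hpow : (2 : ℝ) ^ (c₂ + 2 * K + 1) ≤ 2 ^ c₃ := by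
    refine pow_le_pow_right₀ (by norm_num) ?_
    rw [m8]
    omega
  have hparts : ∀ u, D.Apx K k₀ δ u →
      (∑ i, l1 (D.phi K u i)) + l1 (D.rcp K c₂ s₁ u) ≤ 2 ^ c₃ := fun u hu =>
    (Cd.parts_l1 hD hu n8).trans hpow
  have hml : ∀ u, D.Apx K k₀ δ u → ml (D.Ft K c₂ s₁ u) ≤ 2 ^ c₃ := fun u hu => by
    rw [m8]
    exact Cd.Ft_ml hD hu n8
  -- second event
  obtain ⟨E₂, hE₂, few₂⟩ := h2 D q₂ θ₂ (d * (c / 8)) δ κ k₀ c₂ s₁ c₃ x₂ s₂ hD hF₂ hA₂ hN hθ₂0 hδ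
    few₁' m1 (m2.trans n2) m3 n6' hc23 m4 hκ m5 m6 m7 (fun u hu => hdif u (hA₂ u hu))
    (fun u hu => hparts u (hA₂ u hu)) (fun u hu => hml u (hA₂ u hu))
  have hE₂0 : 0 < Pb q₂ E₂ := lt_of_lt_of_le hc8 hE₂
  obtain ⟨q₃, hq₃⟩ : ∃ q₃, q₃ = cond q₂ E₂ True := ⟨_, rfl⟩
  rw [← hq₃] at few₂
  have hF₃ : D.Fx K q₃ (8 / c * (θ₂ + 1)) (d * (c / 8) * (c / 8)) := by
    rw [hq₃]
    refine (hF₂.ev hD (by positivity) E₂ hE₂0).mono ?_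
      (mul_le_mul_of_nonneg_left hE₂ (by positivity))
    have a1 : (θ₂ + 1) / Pb q₂ E₂ ≤ (θ₂ + 1) / (c / 8) :=
      div_le_div_of_nonneg_left (by linarith) hc8 hE₂
    have a2 : (θ₂ + 1) / (c / 8) = 8 / c * (θ₂ + 1) := by field_simp
    linarith
  have hA₃ : ∀ u, 0 < q₃ u → D.Apx K k₀ δ u := fun u hu => by
    rw [hq₃] at hu
    exact hA₂ u (ev_pos hF₂.law.nonneg E₂ hu).1
  have few₃ : CH q₃ (fun u => Pool.MIC.rk s₁ (D.kap K c₂ u)) (fun u => (D.ref K u, D.gm u.2)) ≤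
      8 / c * (θ₂ + 1) := by
    rw [hq₃]
    refine (CH_event hF₂.law _ _ E₂ hE₂0).trans ?_
    have a1 : CH q₂ (fun u => Pool.MIC.rk s₁ (D.kap K c₂ u)) (fun u => (D.ref K u, D.gm u.2)) /
        Pb q₂ E₂ ≤ θ₂ / Pb q₂ E₂ := div_le_div_of_nonneg_right few₁' hE₂0.le
    have a2 : θ₂ / Pb q₂ E₂ ≤ θ₂ / (c / 8) := div_le_div_of_nonneg_left hθ₂0 hc8 hE₂
    have a3 : θ₂ / (c / 8) = 8 / c * θ₂ := by field_simp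
    have a4 : 8 / c * (θ₂ + 1) = 8 / c * θ₂ + 8 / c := by ring
    linarith
  have hfull := h3 D q₃ (8 / c * (θ₂ + 1)) (d * (c / 8) * (c / 8)) δ k₀ c₂ s₁ c₃ x₂ hD hF₃ hA₃
    (by positivity) hδ few₃ (m2.trans n2) m3 n6' hc23 m4 (fun u hu => hdif u (hA₃ u hu))
    (fun u hu => hparts u (hA₃ u hu)) (fun u hu => hml u (hA₃ u hu))
  obtain ⟨G, g1, g2, g3, g4⟩ := Cd.output (K' := K * (K + 1) + K) (h' := h') hD hF₃.law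
    (fun u hu => Cd.Ft_deg hD (hA₃ u hu)) (fun u hu => hml u (hA₃ u hu)) hfull few₂ m9 m10
  refine ⟨q₃, G, ⟨hF₃.law, hF₃.dens⟩, g1, g2, g3, ?_⟩
  exact g4

end Pool.TIE
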