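import Pool.Agent.H88.TIE.Core

/-!
# The core: constants
-/

set_option autoImplicit false

namespace Pool.TIE

open Finset Real
open Pool.Agent.H49.Ent Pool.Agent.H32.Dense Pool.STK Pool.BFL Pool.MIC Pool.LBL Pool.GLM
open Pool.K2S Pool.KAF Pool.M5 Pool.SLO

section mk

variable {Ω ζ 𝒬 ℛ : Type} [inst : Fintype Ω] {k : ℕ} (p : Ω → ℝ) (Z : Ω → ζ) (Q : Ω → 𝒬)
  (R : Ω → ℛ) (W : Ω → Fin k → ℤ) (t : Ω → ℤ) (nu : Ω → ℝ) (S F₂ : Ω → Pl k)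
  (P : Ω → Polynomial ℝ) (X h b B r e : ℕ)

/-- The data of the core. -/
def mkCd : Cd k where
  Ω := Ω
  ζ := ζ
  𝒬 := 𝒬
  ℛ := ℛ
  fin := inst
  p := p
  Z := Z
  Q := Q
  R := R
  W := W
  t := t
  nu := nu
  S := S
  F := F₂
  P := P
  X := X
  h := h
  b := b
  B := B
  r := r
  e := e

variable {p Z Q R W t nu S F₂ P X h} {K : ℕ} {θ c₀ κ π' : ℝ}

theorem ok_mk (hC : CoreH p Z Q R W t nu S F₂ P X h K θ θ c₀ κ π') {b r : ℕ}
    (hb : θ ≤ b) (hr : b + (k * (K + 1) + 1) + 1 ≤ r) (hrh : r ≤ h)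
    (hh : b + 2 * (K + 1) ≤ h) :
    (mkCd p Z Q R W t nu S F₂ P X h b (b + (k * (K + 1) + 1)) r
      (b + (k * (K + 1) + (K + 1) + 2 * K))).Ok K := by
  have hpow : (2 : ℝ) ^ θ ≤ 2 ^ b := by
    rw [← Real.rpow_natCast]
    exact Real.rpow_le_rpow_of_exponent_le (by norm_num) hb
  have hk := pow_K K k
  have h1 := pow_K K 1
  have h2 := pow_K K 2
  have hb0 : (0 : ℝ) < 2 ^ b := by positivity
  refine ⟨hC.isLaw, hC.hX, hC.W_lt, hC.t_lt, hC.S_det, hC.P_det, hC.S_deg, hC.F_deg, hC.P_deg,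
    fun ω α => (hC.S_cf ω α).trans hpow, fun ω α => (hC.F_cf ω α).trans hpow,
    fun ω i => (hC.P_cf ω i).trans hpow, fun ω => (hC.nu_le ω).trans hpow, ?_, hr, hrh, ?_, ?_, ?_⟩
  · show ((K : ℝ) + 1) ^ k * 2 ^ b + 1 ≤ 2 ^ (b + (k * (K + 1) + 1))
    have e1 : (2 : ℝ) ^ (b + (k * (K + 1) + 1)) = 2 * (2 ^ (k * (K + 1)) * 2 ^ b) := by ring
    have e2 : (1 : ℝ) ≤ 2 ^ (k * (K + 1)) * 2 ^ b := by
      rw [← pow_add]
      exact one_le_pow₀ (by norm_num)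
    have e3 := mul_le_mul_of_nonneg_right hk hb0.le
    rw [e1]
    linarith
  · show ((K : ℝ) + 1) ^ 2 * 2 ^ b ≤ 2 ^ h
    refine (mul_le_mul_of_nonneg_right h2 hb0.le).trans ?_
    rw [← pow_add]
    exact pow_le_pow_right₀ (by norm_num) (by omega)
  · show ((K : ℝ) + 1) ^ k * 2 ^ b ≤ 2 ^ (b + (k * (K + 1) + (K + 1) + 2 * K))
    refine (mul_le_mul_of_nonneg_right hk hb0.le).trans ?_
    rw [← pow_add]
    exact pow_le_pow_right₀ (by norm_num) (by omega)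
  · show ((K : ℝ) + 1) * 2 ^ b * 3 ^ K ≤ 2 ^ (b + (k * (K + 1) + (K + 1) + 2 * K))
    rw [pow_one, one_mul] at h1
    have e1 : (3 : ℝ) ^ K ≤ 2 ^ (2 * K) := by
      rw [pow_mul]
      exact pow_le_pow_left₀ (by norm_num) (by norm_num) K
    have e2 : ((K : ℝ) + 1) * 2 ^ b * 3 ^ K ≤ 2 ^ (K + 1) * 2 ^ b * 2 ^ (2 * K) :=
      mul_le_mul (mul_le_mul_of_nonneg_right h1 hb0.le) e1 (by positivity) (by positivity)
    refine e2.trans ?_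
    rw [← pow_add, ← pow_add]
    exact pow_le_pow_right₀ (by norm_num) (by omega)

theorem inf_mk (hC : CoreH p Z Q R W t nu S F₂ P X h K θ θ c₀ κ π') (b B r e : ℕ) :
    (mkCd p Z Q R W t nu S F₂ P X h b B r e).Inf θ :=
  ⟨hC.full, hC.fullW, hC.fullt, hC.few, hC.nuQR⟩

theorem nf_mk (hC : CoreH p Z Q R W t nu S F₂ P X h K θ θ c₀ κ π') (b B r e : ℕ) :
    (mkCd p Z Q R W t nu S F₂ P X h b B r e).NFc c₀ κ π' :=
  fun Ω' _ q f hs r r' hr hr' hκ => hC.nf Ω' q f hs r r' hr hr' hκ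

end mk

end Pool.TIE
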