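import Pool.Agent.H88.TIE.Ic
import Pool.Agent.H50.LBL.Pl1
import Pool.Agent.H50.LBL.Ml1

/-!
# The choice of the first digits; norms of polynomials
-/

set_option autoImplicit false

namespace Pool.TIE

open Finset Real
open Pool.Agent.H49.Ent Pool.Agent.H32.Dense Pool.STK Pool.BFL Pool.MIC Pool.LBL Pool.GLM

variable {Ω B : Type} [Fintype Ω] {p : Ω → ℝ}

/-- **The choice of the first digits**: among `m` consecutive blocks of `j₀` digits of an almost full
number there is one which is almost full given the digits before it. -/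
theorem dig (hp : IsLaw p) (n : Ω → ℤ) (b : Ω → B) {M r₁ m j₀ : ℕ} {Δ ε₀ : ℝ}
    (hn : ∀ ω, 0 < p ω → 0 ≤ n ω ∧ n ω < 2 ^ M) (hf : M * Real.log 2 - Δ ≤ CH p n b)
    (hm : r₁ + j₀ * m ≤ M) (hm0 : 0 < m) (hε : Δ ≤ m * ε₀) :
    ∃ i, i < m ∧ j₀ * Real.log 2 - ε₀ ≤
      CH p (fun ω => n ω / 2 ^ (M - (r₁ + j₀ * i + j₀)))
        (fun ω => (n ω / 2 ^ (M - (r₁ + j₀ * i)), b ω)) := by
  classical
  by_contra hcon
  push Not at hcon
  have h1 : ∀ m' : ℕ, m' ≤ m → CH p (fun ω => n ω / 2 ^ (M - (r₁ + j₀ * m'))) b ≤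
      r₁ * Real.log 2 + m' * (j₀ * Real.log 2 - ε₀) := by
    intro m'
    induction m' with
    | zero =>
      intro _
      have h2 : CH p (fun ω => n ω / 2 ^ (M - (r₁ + j₀ * 0))) b ≤
          ((r₁ + j₀ * 0 : ℕ) : ℝ) * Real.log 2 := by
        refine CH_lt hp _ _ fun ω hω => ?_
        obtain ⟨a1, a2⟩ := hn ω hω
        have hr : r₁ + j₀ * 0 ≤ M := by omega
        refine ⟨Int.ediv_nonneg a1 (by positivity), ?_⟩
        refine Int.ediv_lt_of_lt_mul (by positivity) ?_
        rw [← pow_add]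
        rwa [show r₁ + j₀ * 0 + (M - (r₁ + j₀ * 0)) = M by omega]
      push_cast at h2 ⊢
      linarith
    | succ m' ih =>
      intro hm'
      have h2 := ih (by omega)
      have h3 := hcon m' (by omega)
      have h4 := CH_le_add hp.nonneg (fun ω => n ω / 2 ^ (M - (r₁ + j₀ * (m' + 1))))
        (fun ω => n ω / 2 ^ (M - (r₁ + j₀ * m'))) b
      have h5 : r₁ + j₀ * m' + j₀ = r₁ + j₀ * (m' + 1) := by ring
      rw [h5] at h3
      push_cast
      linarith
  have h2 := h1 m le_rfl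
  have h3 := full_fst hp n b (r := r₁ + j₀ * m) hm hf
  push_cast at h3
  have h5 : ∃ m', m = m' + 1 := ⟨m - 1, by omega⟩
  have h4 := hcon 0 hm0
  obtain ⟨m', hm'⟩ := h5
  -- the last block is strictly smaller
  have h6 := h1 m' (by omega)
  have h7 := hcon m' (by omega)
  have h8 := CH_le_add hp.nonneg (fun ω => n ω / 2 ^ (M - (r₁ + j₀ * (m' + 1))))
    (fun ω => n ω / 2 ^ (M - (r₁ + j₀ * m'))) b
  have h9 : r₁ + j₀ * m' + j₀ = r₁ + j₀ * (m' + 1) := by ring
  rw [h9] at h7
  rw [hm'] at h3 hε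
  push_cast at h3 hε
  linarith

/-! ### Norms of polynomials -/

theorem ml_le {k K : ℕ} {q : Pl k} (hq : q.totalDegree ≤ K) {M : ℝ}
    (hM : ∀ α, |MvPolynomial.coeff α q| ≤ M) : ml q ≤ (K + 1) ^ k * M := by
  classical
  have hM0 : 0 ≤ M := (abs_nonneg _).trans (hM 0)
  have h1 := ml_eq (q := q) (S := Pool.Agent.H36.KBX.bx k K) (fun α hα =>
    Pool.Agent.H36.KBX.support_bx q hq hα)
  rw [h1]
  have h2 : ((Pool.Agent.H36.KBX.bx k K).card : ℝ) ≤ (K + 1) ^ k := by
    have h3 : (Pool.Agent.H36.KBX.bx k K).card ≤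
        (Fintype.piFinset fun _ : Fin k => Finset.range (K + 1)).card := by
      refine Finset.card_le_card_of_injOn (fun α => ⇑α) (fun α hα => ?_)
        (fun a _ b _ h => DFunLike.coe_injective h)
      rw [Finset.mem_coe, Fintype.mem_piFinset]
      intro i
      rw [Finset.mem_range]
      exact Nat.lt_succ_of_le (Pool.Agent.H36.KBX.mem_bx.1 hα i)
    rw [Fintype.card_piFinset, Finset.prod_const, Finset.card_range, Finset.card_univ,
      Fintype.card_fin] at h3
    exact_mod_cast h3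
  calc ∑ α ∈ Pool.Agent.H36.KBX.bx k K, |MvPolynomial.coeff α q| ≤
      ∑ _α ∈ Pool.Agent.H36.KBX.bx k K, M := Finset.sum_le_sum fun α _ => hM α
    _ = (Pool.Agent.H36.KBX.bx k K).card * M := by rw [Finset.sum_const, nsmul_eq_mul]
    _ ≤ _ := mul_le_mul_of_nonneg_right h2 hM0

theorem l1_le {K : ℕ} {q : Polynomial ℝ} (hq : q.natDegree ≤ K) {M : ℝ}
    (hM : ∀ i, |q.coeff i| ≤ M) : l1 q ≤ (K + 1) * M := by
  have h1 := l1_eq (q := q) (S := Finset.range (K + 1)) (fun i hi => by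
    rw [Finset.mem_range]
    have := Polynomial.le_natDegree_of_mem_supp i hi
    omega)
  rw [h1]
  calc ∑ i ∈ Finset.range (K + 1), |q.coeff i| ≤ ∑ _i ∈ Finset.range (K + 1), M :=
        Finset.sum_le_sum fun i _ => hM i
    _ = (K + 1) * M := by
      rw [Finset.sum_const, nsmul_eq_mul, Finset.card_range]
      push_cast
      rfl

theorem coeff_le_ml {k : ℕ} (q : Pl k) (α : Fin k →₀ ℕ) : |MvPolynomial.coeff α q| ≤ ml q := by
  unfold ml
  by_cases h : α ∈ q.support
  · exact Finset.single_le_sum (f := fun α => |MvPolynomial.coeff α q|)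
      (fun _ _ => abs_nonneg _) h
  · rw [MvPolynomial.notMem_support_iff.1 h, abs_zero]
    exact ml_nn q

theorem coeff_le_l1 (q : Polynomial ℝ) (i : ℕ) : |q.coeff i| ≤ l1 q := by
  unfold l1
  by_cases h : i ∈ q.support
  · exact Finset.single_le_sum (f := fun i => |q.coeff i|) (fun _ _ => abs_nonneg _) h
  · rw [Polynomial.notMem_support_iff.1 h, abs_zero]
    exact l1_nn q

/-- Composition with a polynomial in several variables. -/
theorem ml_aeval {k K : ℕ} (θ : Pl k) {M : ℝ} (hM : 1 ≤ M) (hθ : ml θ ≤ M) (q : Polynomial ℝ)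
    (hq : q.natDegree ≤ K) : ml (Polynomial.aeval θ q) ≤ l1 q * M ^ K := by
  classical
  rw [Polynomial.aeval_eq_sum_range]
  refine (ml_sum _ _).trans ?_
  have h1 := l1_eq (q := q) (S := Finset.range (q.natDegree + 1)) (fun i hi => by
    rw [Finset.mem_range]
    have := Polynomial.le_natDegree_of_mem_supp i hi
    omega)
  rw [h1, Finset.sum_mul]
  refine Finset.sum_le_sum fun i hi => ?_
  have h2 : ml (q.coeff i • θ ^ i) ≤ |q.coeff i| * M ^ i := by
    rw [MvPolynomial.smul_eq_C_mul]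
    refine ml_mul_le (by rw [ml_C]) ?_
    have h3 := ml_prod (Finset.range i) (fun _ => θ) M (by linarith) (fun _ _ => hθ)
    rwa [Finset.prod_const, Finset.card_range] at h3
  refine h2.trans (mul_le_mul_of_nonneg_left (pow_le_pow_right₀ hM ?_) (abs_nonneg _))
  rw [Finset.mem_range] at hi
  omega

theorem deg_aeval {k K D : ℕ} (θ : Pl k) (hθ : θ.totalDegree ≤ D) (q : Polynomial ℝ)
    (hq : q.natDegree ≤ K) : (Polynomial.aeval θ q).totalDegree ≤ K * D := by
  classical
  rw [Polynomial.aeval_eq_sum_range]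
  refine (MvPolynomial.totalDegree_finsetSum _ _).trans (Finset.sup_le fun i hi => ?_)
  refine (MvPolynomial.totalDegree_smul_le _ _).trans ?_
  refine (MvPolynomial.totalDegree_pow _ _).trans ?_
  rw [Finset.mem_range] at hi
  exact Nat.mul_le_mul (by omega) hθ

theorem eval_aeval {k : ℕ} (θ : Pl k) (q : Polynomial ℝ) (z : Fin k → ℝ) :
    MvPolynomial.eval z (Polynomial.aeval θ q) = q.eval (MvPolynomial.eval z θ) := by
  rw [Polynomial.aeval_def, Polynomial.hom_eval₂, Polynomial.eval]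
  congr 1
  ext a
  simp

end Pool.TIE
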