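import Pool.Agent.H88.TIE.CoreZ
import Pool.Agent.H20.TIE.Pre

/-!
# STEP V, final forms
-/

set_option autoImplicit false

namespace Pool.TIE

open Finset MvPolynomial
open Pool.Agent.H49.Ent Pool.Agent.H32.Dense Pool.STK Pool.BFL

/-- **STEP V** at a free height. -/
theorem all_h_thm : AllH := all_h step_thm

/-- **STEP V** from the two own leaves. -/
theorem pre_thm (m K : ℕ) (c₀ : ℝ) (hc₀ : 0 < c₀) : ∃ K' : ℕ, ∀ ε : ℝ, 0 < ε →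
    ∃ (h₁ : ℕ) (κ' κ π c₁ ι : ℝ), 0 < κ' ∧ κ' ≤ 1 ∧ 0 < κ ∧ 0 < π ∧ 0 < c₁ ∧ 0 < ι ∧
    ∀ (D : Dat m) (sd : Fin m → Bool) (rk : Fin m → ℕ) (kap₁ kap₂ : D.Ω → Pl m), h₁ ≤ D.h₀ →
      (∀ c c', rk c = rk c' → sd c = sd c' → c = c') →
      Hyp D K (ι * D.h₀) (ι * D.h₀) → NFd D D.h₀ c₀ κ π →
      (∀ i j, ∀ c c', sd c = true → sd c' = false → rk c = i → rk c' = j →
        FulM D (univ.filter fun a => (sd a = true ∧ rk a ≤ i) ∨ (sd a = false ∧ rk a ≤ j)) c c'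
          (ι * D.h₀)) →
      Pre D (univ.filter fun a => sd a = true) K (ι * D.h₀) (ι * D.h₀) kap₁ →
      Pre D (univ.filter fun a => sd a = false) K (ι * D.h₀) (ι * D.h₀) kap₂ →
      ∃ (Ω' : Type) (_ : Fintype Ω') (q : Ω' → ℝ) (f : Ω' → D.Ω) (h' : ℕ) (G : Ω' → Pl m),
        SubL D.p c₁ q f ∧ κ' * D.h₀ ≤ h' ∧ h' ≤ D.h₀ ∧
        Claim (D.pull q f) univ h' K' (ε * h') (ε * h') G := pre_all all_thm m K c₀ hc₀

end Pool.TIE
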