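import Pool.Agent.H88.TIE.Phi

/-!
# The core: bounds of the total shape
-/

set_option autoImplicit false

namespace Pool.TIE

open Finset Real
open Pool.Agent.H49.Ent Pool.Agent.H32.Dense Pool.STK Pool.BFL Pool.MIC Pool.LBL Pool.GLM
open Pool.M5 Pool.M5.L31 Pool.SLO

theorem ml_rename {k : ℕ} (q : Pl k) : ml (MvPolynomial.rename Fin.succ q : Pl (k + 1)) ≤ ml q := by
  classical
  have h1 : (MvPolynomial.rename Fin.succ q : Pl (k + 1)) = ∑ α ∈ q.support,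
      MvPolynomial.monomial (Finsupp.mapDomain Fin.succ α) (MvPolynomial.coeff α q) := by
    conv_lhs => rw [q.as_sum]
    rw [map_sum]
    refine Finset.sum_congr rfl fun α _ => ?_
    rw [MvPolynomial.rename_monomial]
  rw [h1]
  refine (ml_sum _ _).trans ?_
  unfold ml
  refine Finset.sum_le_sum fun α _ => ?_
  have := ml_monomial (d := k + 1) (Finsupp.mapDomain Fin.succ α) (MvPolynomial.coeff α q)
  unfold ml at this
  rw [this]

theorem deg_rename {k : ℕ} (q : Pl k) :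
    (MvPolynomial.rename Fin.succ q : Pl (k + 1)).totalDegree ≤ q.totalDegree :=
  MvPolynomial.totalDegree_rename_le _ _

theorem ml_Xi {k : ℕ} (i : Fin k) : ml (MvPolynomial.X i : Pl k) ≤ 1 := by
  have h : (MvPolynomial.X i : Pl k) = MvPolynomial.monomial (Finsupp.single i 1) 1 := rfl
  rw [h, ml_monomial, abs_one]

namespace Cd

variable {k : ℕ} {D : Cd k} {K : ℕ} {q : Om D K → ℝ} {θ d δ : ℝ} {k₀ c₂ s c₃ x : ℕ}

theorem The_ml (hD : D.Ok K) (u : Om D K) : ml (D.The K u) ≤ 2 ^ (D.r + 1) := by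
  have h2r : (0 : ℝ) < 2 ^ D.r := by positivity
  have h2B : (0 : ℝ) < 2 ^ (D.B + 1) := by positivity
  have hbe := be_pos (D := D)
  have h1 : ml (D.S u.2) ≤ 2 ^ D.B - 1 := by
    have := ml_le (hD.S_deg u.2) (hD.S_cf u.2)
    linarith [hD.hB]
  have h2 : ml (MvPolynomial.X 0 - MvPolynomial.rename Fin.succ (D.S u.2) +
      MvPolynomial.C (2 ^ D.B) : Pl (k + 1)) ≤ 2 ^ (D.B + 1) := by
    have a1 := ml_Xi (0 : Fin (k + 1))
    have a2 := ml_rename (D.S u.2)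
    have a3 : ml (MvPolynomial.C (2 ^ D.B) : Pl (k + 1)) = 2 ^ D.B := by
      rw [ml_C, abs_of_pos (by positivity)]
    have a4 := ml_sub (MvPolynomial.X 0 : Pl (k + 1)) (MvPolynomial.rename Fin.succ (D.S u.2))
    have a5 := ml_add (MvPolynomial.X 0 - MvPolynomial.rename Fin.succ (D.S u.2) : Pl (k + 1))
      (MvPolynomial.C (2 ^ D.B))
    have a6 : (2 : ℝ) ^ (D.B + 1) = 2 ^ D.B + 2 ^ D.B := by ring
    linarith
  have h3 : ml (MvPolynomial.C (1 / D.be) * (MvPolynomial.X 0 -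
      MvPolynomial.rename Fin.succ (D.S u.2) + MvPolynomial.C (2 ^ D.B)) : Pl (k + 1)) ≤
      2 ^ D.r := by
    have a1 := ml_mul_le (p := (MvPolynomial.C (1 / D.be) : Pl (k + 1))) (a := 1 / D.be)
      (by rw [ml_C, abs_of_pos (by positivity)]) h2
    refine a1.trans (le_of_eq ?_)
    unfold be
    field_simp
  have h4 : ml (MvPolynomial.C (D.hi u.2 : ℝ) : Pl (k + 1)) ≤ 2 ^ D.r := by
    rw [ml_C]
    obtain ⟨a1, a2⟩ := hi_mem hD u.2
    have a1' : (0 : ℝ) ≤ D.hi u.2 := by exact_mod_cast a1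
    have a2' : (D.hi u.2 : ℝ) < 2 ^ D.r := by exact_mod_cast a2
    rw [abs_of_nonneg a1']
    exact a2'.le
  have h5 : (2 : ℝ) ^ (D.r + 1) = 2 ^ D.r + 2 ^ D.r := by ring
  unfold The
  rw [h5]
  exact (ml_sub _ _).trans (add_le_add h3 h4)

theorem The_deg (hD : D.Ok K) (u : Om D K) : (D.The K u).totalDegree ≤ K + 1 := by
  unfold The
  refine (MvPolynomial.totalDegree_sub _ _).trans (max_le ?_ ?_)
  · refine (MvPolynomial.totalDegree_mul _ _).trans ?_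
    rw [MvPolynomial.totalDegree_C, zero_add]
    refine (MvPolynomial.totalDegree_add _ _).trans (max_le ?_ ?_)
    · refine (MvPolynomial.totalDegree_sub _ _).trans (max_le ?_ ?_)
      · rw [MvPolynomial.totalDegree_X]
        omega
      · exact (deg_rename _).trans ((hD.S_deg u.2).trans (Nat.le_succ K))
    · rw [MvPolynomial.totalDegree_C]
      omega
  · rw [MvPolynomial.totalDegree_C]
    omega

theorem rcp_deg (u : Om D K) : (D.rcp K c₂ s u).natDegree ≤ K := by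
  unfold rcp
  refine Polynomial.natDegree_sum_le_of_forall_le _ _ fun j _ => ?_
  refine (Polynomial.natDegree_C_mul_X_pow_le _ _).trans ?_
  have := j.2
  omega

theorem rk_abs (P : Pl 1) (s : ℕ) {M : ℝ} (hM : ∀ α, |MvPolynomial.coeff α P| ≤ M)
    (α : Fin 1 →₀ ℕ) : |(rk s P α : ℝ) / 2 ^ s| ≤ M + 1 := by
  have h2 : (0 : ℝ) < 2 ^ s := by positivity
  have hM0 : 0 ≤ M := (abs_nonneg _).trans (hM 0)
  unfold rk
  by_cases h : α = 0
  · rw [if_pos h]
    simp only [Int.cast_zero, zero_div, abs_zero]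
    linarith
  · rw [if_neg h]
    have h3 := dg_le s (MvPolynomial.coeff α P)
    have h4 : (1 : ℝ) / 2 ^ s ≤ 1 := by
      rw [div_le_one h2]
      exact one_le_pow₀ (by norm_num)
    have h5 := hM α
    unfold dg at h3
    rw [abs_le] at h3 h5 ⊢
    constructor <;> linarith

theorem rcp_l1 (hD : D.Ok K) {u : Om D K} (hA : D.Apx K k₀ δ u)
    (hc : ((K : ℝ) + 1) ^ (k + 2) * 2 ^ (K + k₀ * K) * 2 ^ D.b + 2 ^ D.e ≤ 2 ^ c₂) :
    l1 (D.rcp K c₂ s u) ≤ K * (2 * 2 ^ c₂) := by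
  have h1 : ∀ α, |MvPolynomial.coeff α (D.kap K c₂ u)| ≤ 1 := fun α =>
    (coeff_le_ml _ α).trans (kap_ml hD hA hc)
  unfold rcp
  have h2 := l1_sum_le univ (fun j : Fin K => Polynomial.C (2 ^ c₂ *
    ((rk s (D.kap K c₂ u) (Finsupp.single 0 (j.val + 1)) : ℝ) / 2 ^ s)) *
    Polynomial.X ^ (j.val + 1)) (2 * 2 ^ c₂) (fun j _ => by
      rw [Polynomial.C_mul_X_pow_eq_monomial, l1_monomial, abs_mul,
        abs_of_pos (by positivity : (0 : ℝ) < 2 ^ c₂)]
      have h3 := rk_abs (D.kap K c₂ u) s h1 (Finsupp.single 0 (j.val + 1))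
      have h4 : (0 : ℝ) < 2 ^ c₂ := by positivity
      nlinarith)
  rwa [Finset.card_univ, Fintype.card_fin] at h2

/-- The sum of the norms of the parts of the total shape. -/
theorem parts_l1 (hD : D.Ok K) {u : Om D K} (hA : D.Apx K k₀ δ u)
    (hc : ((K : ℝ) + 1) ^ (k + 2) * 2 ^ (K + k₀ * K) * 2 ^ D.b + 2 ^ D.e ≤ 2 ^ c₂) :
    (∑ i, l1 (D.phi K u i)) + l1 (D.rcp K c₂ s u) ≤ 2 ^ (c₂ + 2 * K + 1) := by
  have h1 : (∑ i, l1 (D.phi K u i)) ≤ 2 ^ c₂ := by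
    have h2 : (∑ i, l1 (D.phi K u i)) ≤ ∑ _i : Mon k K,
        ((K : ℝ) + 1) ^ 2 * 2 ^ (K + k₀ * K) * 2 ^ D.b :=
      Finset.sum_le_sum fun i _ => phi_l1 hD hA i
    rw [Finset.sum_const, Finset.card_univ, nsmul_eq_mul] at h2
    have h3 := card_Mon k K
    have h4 : (0 : ℝ) ≤ ((K : ℝ) + 1) ^ 2 * 2 ^ (K + k₀ * K) * 2 ^ D.b := by positivity
    have h5 := mul_le_mul_of_nonneg_right h3 h4
    have h6 : ((K : ℝ) + 1) ^ k * (((K : ℝ) + 1) ^ 2 * 2 ^ (K + k₀ * K) * 2 ^ D.b) =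
        ((K : ℝ) + 1) ^ (k + 2) * 2 ^ (K + k₀ * K) * 2 ^ D.b := by ring
    have h7 : (0 : ℝ) ≤ 2 ^ D.e := by positivity
    linarith
  have h2 := rcp_l1 (s := s) hD hA hc
  have h3 : (2 : ℝ) ^ (c₂ + 2 * K + 1) = 2 ^ c₂ * 2 ^ (2 * K + 1) := by
    rw [← pow_add]
    congr 1
  have h4 : (1 : ℝ) + 2 * K ≤ 2 ^ (2 * K + 1) := by
    have : 2 * K + 1 < 2 ^ (2 * K + 1) := Nat.lt_two_pow_self
    have h5 : ((2 * K + 1 : ℕ) : ℝ) ≤ ((2 ^ (2 * K + 1) : ℕ) : ℝ) := by exact_mod_cast this.le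
    push_cast at h5
    linarith
  have h5 : (0 : ℝ) < 2 ^ c₂ := by positivity
  rw [h3]
  nlinarith

/-- The norm of the total shape. -/
theorem Ft_ml (hD : D.Ok K) {u : Om D K} (hA : D.Apx K k₀ δ u)
    (hc : ((K : ℝ) + 1) ^ (k + 2) * 2 ^ (K + k₀ * K) * 2 ^ D.b + 2 ^ D.e ≤ 2 ^ c₂) :
    ml (D.Ft K c₂ s u) ≤ 2 ^ (c₂ + 2 * K + 1 + (D.r + 1) * K) := by
  have hM1 : (1 : ℝ) ≤ 2 ^ (D.r + 1) := one_le_pow₀ (by norm_num)
  have h1 := parts_l1 (s := s) hD hA hc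
  have h2 : ml (∑ i : Mon k K, Polynomial.aeval (D.The K u) (D.phi K u i) *
      MvPolynomial.rename Fin.succ
        (MvPolynomial.monomial (Finsupp.equivFunOnFinite.symm (i : Fin k → ℕ)) 1) : Pl (k + 1)) ≤
      (∑ i, l1 (D.phi K u i)) * (2 ^ (D.r + 1)) ^ K := by
    refine (ml_sum _ _).trans ?_
    rw [Finset.sum_mul]
    refine Finset.sum_le_sum fun i _ => ?_
    have a1 := ml_aeval (D.The K u) hM1 (The_ml hD u) (D.phi K u i) (phi_deg hA i)
    have a2 : ml (MvPolynomial.rename Fin.succ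
        (MvPolynomial.monomial (Finsupp.equivFunOnFinite.symm (i : Fin k → ℕ)) (1 : ℝ)) :
          Pl (k + 1)) ≤ 1 := by
      refine (ml_rename _).trans ?_
      rw [ml_monomial, abs_one]
    have a3 := ml_mul_le a1 a2
    rwa [mul_one] at a3
  have h3 := ml_aeval (D.The K u) hM1 (The_ml hD u) (D.rcp K c₂ s u) (rcp_deg u)
  have h4 : ml (D.Ft K c₂ s u) ≤ ((∑ i, l1 (D.phi K u i)) + l1 (D.rcp K c₂ s u)) *
      (2 ^ (D.r + 1)) ^ K := by
    unfold Ft
    refine (ml_add _ _).trans ?_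
    rw [add_mul]
    exact add_le_add h2 h3
  refine h4.trans ?_
  have h5 : (2 : ℝ) ^ (c₂ + 2 * K + 1 + (D.r + 1) * K) =
      2 ^ (c₂ + 2 * K + 1) * (2 ^ (D.r + 1)) ^ K := by
    rw [← pow_mul, ← pow_add]
  rw [h5]
  exact mul_le_mul_of_nonneg_right h1 (by positivity)

theorem Ft_deg (hD : D.Ok K) {u : Om D K} (hA : D.Apx K k₀ δ u) :
    (D.Ft K c₂ s u).totalDegree ≤ K * (K + 1) + K := by
  unfold Ft
  refine (MvPolynomial.totalDegree_add _ _).trans (max_le ?_ ?_)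
  · refine (MvPolynomial.totalDegree_finsetSum _ _).trans (Finset.sup_le fun i _ => ?_)
    refine (MvPolynomial.totalDegree_mul _ _).trans ?_
    refine Nat.add_le_add (deg_aeval _ (The_deg hD u) _ (phi_deg hA i)) ?_
    refine (deg_rename _).trans ((MvPolynomial.totalDegree_monomial_le _ _).trans ?_)
    rw [Finsupp.sum_fintype _ _ (fun _ => rfl)]
    have h1 := i.2
    unfold Mon at h1
    exact (Finset.mem_filter.1 h1).2.2
  · exact (deg_aeval _ (The_deg hD u) _ (rcp_deg u)).trans (Nat.le_add_right _ _)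

end Cd

end Pool.TIE
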