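import Pool.Agent.H88.TIE.Ic

/-!
# W0 with one height coordinate, simple constants
-/

set_option autoImplicit false

namespace Pool.TIE

open Finset Real
open Pool.Agent.H49.Ent Pool.Agent.H32.Dense Pool.STK Pool.BFL Pool.MIC

theorem w0r (m K : ℕ) (η C₀ : ℝ) (hη : 0 < η) (hη1 : η ≤ 1) (hC₀ : 0 ≤ C₀) :
    ∃ (σ ι C : ℝ) (X₀ : ℕ), 0 < σ ∧ σ ≤ 1 ∧ 0 < ι ∧ 1 ≤ C ∧
    ∀ (Ω Γ : Type) [Fintype Ω] (p : Ω → ℝ) (X s : ℕ) (G : Ω → Γ) (Y : Ω → Fin m → ℤ)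
      (n nu : Ω → ℤ) (kap : Ω → Pl m) (θ : ℝ), IsLaw p → X₀ ≤ X → 0 ≤ θ → θ ≤ ι * X →
      (s : ℝ) ≤ σ * X →
      (∀ ω, 0 < p ω → ∀ i, |((Y ω i : ℤ) : ℝ)| ≤ 2 ^ X) →
      (∀ ω, 0 < p ω → (kap ω).totalDegree ≤ K) →
      (∀ ω, 0 < p ω → ∀ k, k ≠ 0 → |MvPolynomial.coeff k (kap ω)| ≤ 1) →
      (∀ ω, 0 < p ω → |((nu ω : ℤ) : ℝ) - (n ω : ℤ) - 2 ^ X *
        MvPolynomial.eval (fun i => ((Y ω i : ℤ) : ℝ) / 2 ^ X) (kap ω)| ≤ C₀) →
      CH p kap G ≤ CH p kap (fun ω => (nu ω, (Y ω, G ω))) + θ →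
      m * (X * Real.log 2) - θ ≤ CH p Y (fun ω => (n ω, (kap ω, G ω))) →
      CH p nu (fun ω => (Y ω, G ω)) ≤ (1 - η) * (X * Real.log 2) →
      ∃ E : Ω → Prop, η / 4 ≤ Pb p E ∧
        CH (cond p E True) (fun ω => rk s (kap ω)) G ≤ C * (θ + 1) := by
  obtain ⟨C, hC1, hw⟩ := w0s m K
  have hC0 : 0 < C := by linarith
  obtain ⟨a, ha⟩ : ∃ a : ℝ, a = 4 * C / η := ⟨_, rfl⟩
  have ha1 : 4 ≤ a := by
    rw [ha, le_div_iff₀ hη]
    nlinarith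
  have ha0 : 0 < a := by linarith
  obtain ⟨ι, hι⟩ : ∃ ι : ℝ, ι = η / (8 * C * (a + 1)) := ⟨_, rfl⟩
  have hι0 : 0 < ι := by rw [hι]; positivity
  obtain ⟨X₀, hX₀⟩ : ∃ X₀ : ℕ, X₀ = ⌈8 * C * (a + 2 + C₀) / η⌉₊ + 1 := ⟨_, rfl⟩
  refine ⟨η / (8 * C), ι, C + Real.log (1 / η) + 4 / η, X₀, by positivity, ?_, hι0, ?_, ?_⟩
  · rw [div_le_one (by positivity)]
    linarith
  · have h1 : 0 ≤ Real.log (1 / η) := Real.log_nonneg (by
      rw [le_div_iff₀ hη]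
      linarith)
    have h2 : 0 < 4 / η := by positivity
    linarith
  intro Ω Γ _ p X s G Y n nu kap θ hp hX hθ hθX hs hY hdeg hcf hnu H1 H2 H3
  have hXr : 8 * C * (a + 2 + C₀) / η ≤ X := by
    have h1 := Nat.le_ceil (8 * C * (a + 2 + C₀) / η)
    have h2 : ((⌈8 * C * (a + 2 + C₀) / η⌉₊ : ℕ) : ℝ) ≤ X := by
      exact_mod_cast (by omega : ⌈8 * C * (a + 2 + C₀) / η⌉₊ ≤ X)
    linarith
  have hXr' : 8 * C * (a + 2 + C₀) ≤ η * X := by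
    rw [div_le_iff₀ hη] at hXr
    linarith
  have hX0 : 0 < X := by omega
  have hXp : (0 : ℝ) < X := by exact_mod_cast hX0
  obtain ⟨u, hu⟩ : ∃ u : ℕ, u = ⌈a * (θ + 1)⌉₊ := ⟨_, rfl⟩
  have hu1 : a * (θ + 1) ≤ u := by rw [hu]; exact Nat.le_ceil _
  have hu2 : (u : ℝ) < a * (θ + 1) + 1 := by
    rw [hu]
    exact Nat.ceil_lt_add_one (by positivity)
  have hu0 : (0 : ℝ) < u := lt_of_lt_of_le (by positivity) hu1
  have hu1' : 1 ≤ u := by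
    have : 0 < u := by exact_mod_cast hu0
    omega
  have hθ' : 8 * C * (a + 1) * θ ≤ η * X := by
    have h1 := mul_le_mul_of_nonneg_left hθX (by positivity : 0 ≤ 8 * C * (a + 1))
    have h2 : 8 * C * (a + 1) * (ι * X) = η * X := by
      rw [hι]
      field_simp
    linarith
  have hs' : 8 * C * s ≤ η * X := by
    have h1 := mul_le_mul_of_nonneg_left hs (by positivity : 0 ≤ 8 * C)
    have h2 : 8 * C * (η / (8 * C) * X) = η * X := by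
      field_simp
    linarith
  have hlast : C * (X * (θ + (0 : ℕ) + 1) / u) ≤ η * X / 4 := by
    have h1 : X * (θ + (0 : ℕ) + 1) / u ≤ X / a := by
      rw [div_le_div_iff₀ hu0 ha0]
      push_cast
      have h2 := mul_le_mul_of_nonneg_left hu1 hXp.le
      nlinarith
    have h2 := mul_le_mul_of_nonneg_left h1 hC0.le
    have h3 : C * (X / a) = η * X / 4 := by
      rw [ha]
      field_simp
    linarith
  have hfirst : C * (s + (0 : ℕ) + u + (0 : ℕ) + 1 + θ + C₀) ≤ η * X * (3 / 4) := by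
    push_cast
    have h1 : C * u ≤ C * (a * (θ + 1) + 1) := mul_le_mul_of_nonneg_left hu2.le hC0.le
    have h2 : 0 ≤ C * (a * θ) := by positivity
    have h3 : 0 ≤ C * θ := by positivity
    have h4 : 0 ≤ η * X := by positivity
    nlinarith
  obtain ⟨E, hE, hE2⟩ := hw Ω Γ p X 0 0 s u G Y n nu kap θ C₀ η hp hu1' hθ hC₀ hη hη1 hX0
    (fun ω hω i => by
      rw [pow_zero, one_mul]
      exact hY ω hω i) hdeg
    (fun ω hω k hk => by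
      rw [pow_zero]
      exact hcf ω hω k hk) hnu H1 H2 H3 (by linarith)
  refine ⟨E, hE, hE2.trans ?_⟩
  have h1 : 0 ≤ Real.log (1 / η) := Real.log_nonneg (by
    rw [le_div_iff₀ hη]
    linarith)
  have h2 : 4 * (θ + 1) / η = 4 / η * (θ + 1) := by ring
  rw [h2, add_mul, add_mul]
  have h3 : C * 1 ≤ C * (θ + 1) := mul_le_mul_of_nonneg_left (by linarith) hC0.le
  have h4 : Real.log (1 / η) * 1 ≤ Real.log (1 / η) * (θ + 1) :=
    mul_le_mul_of_nonneg_left (by linarith) h1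
  linarith

end Pool.TIE
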