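import Pool.Agent.H88.TIE.Avg
import Pool.Agent.H88.TIE.Tup
import Pool.Agent.H88.TIE.W0r

/-!
# The core: references, the interpolated leaf, the two applications of W0 (definitions)

The space is `Om D K`: `K + 1` samples of one line (the references) and one more sample of it.
-/

set_option autoImplicit false

namespace Pool.TIE

open Finset Real
open Pool.Agent.H49.Ent Pool.Agent.H32.Dense Pool.STK Pool.BFL Pool.MIC Pool.LBL Pool.GLM
open Pool.M5 Pool.SLO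

/-- References and a sample. -/
abbrev Om {k : ℕ} (D : Cd k) (K : ℕ) : Type := (Fin (K + 1) → D.Ω) × D.Ω

namespace Cd

variable {k : ℕ} (D : Cd k)

/-- The times and leaves of the references. -/
noncomputable def ref (K : ℕ) (u : Om D K) : Fin (K + 1) → ℤ × Pl k := fun j => D.Tm (u.1 j)

/-- **The facts** for a law on the space, with errors `θ`; the density of the sample with respect to
`D.p` is at most `1 / d`. -/
structure Fx (K : ℕ) (q : Om D K → ℝ) (θ d : ℝ) : Prop where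
  law : IsLaw q
  supp : ∀ u, 0 < q u → 0 < D.p u.2 ∧ ∀ j, 0 < D.p (u.1 j)
  dens : ∀ ω, d * Pool.Agent.H49.Ent.law q (fun u => u.2) ω ≤ D.p ω
  /-- the time is independent of the line -/
  i1 : Ic q (fun u => D.Lm u.2) (fun u => D.Tm u.2) (fun u => (D.ref K u, D.gm u.2)) ≤ θ
  /-- the height over the leaf on the sheet is independent of the line -/
  i2 : Ic q (fun u => D.L0 u.2) (fun u => D.n2 u.2)
    (fun u => (D.Tm u.2, (D.ref K u, D.gm u.2))) ≤ θ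
  /-- the position is full given the leaf on the sheet -/
  f3 : k * (D.X * Real.log 2) - θ ≤ CH q (fun u => D.W u.2)
    (fun u => (D.n2 u.2, (D.Tm u.2, (D.ref K u, D.gm u.2))))
  /-- the time is full given the line -/
  f4 : ((D.M - D.r : ℕ) : ℝ) * Real.log 2 - θ ≤ CH q (fun u => D.lo u.2)
    (fun u => (D.Lm u.2, D.ref K u))
  /-- the hidden data are independent of the exact point -/
  i6 : Ic q (fun u => (D.ref K u, D.gm u.2)) (fun u => (D.nh u.2, (D.W u.2, D.t u.2)))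
    (fun u => D.Z u.2) ≤ θ

/-- Nonfull digits of the height, for all sub-laws. -/
def NFc (c₀ κ d : ℝ) : Prop :=
  ∀ (Ω' : Type) [Fintype Ω'] (q : Ω' → ℝ) (f : Ω' → D.Ω), SubL D.p d q f →
    ∀ r r' : ℕ, r ≤ r' → r' ≤ D.h → κ * D.h ≤ (r' : ℝ) - r →
      CH q (fun ω => dg r' (D.nu (f ω)))
        (fun ω => (dg r (D.nu (f ω)), (D.W (f ω), (D.t (f ω), D.Z (f ω))))) ≤
        (1 - c₀) * ((r' : ℝ) - r) * Real.log 2

/-- The interpolated coefficients, polynomials in the time. -/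
noncomputable def phi (K : ℕ) (u : Om D K) (i : Mon k K) : Polynomial ℝ :=
  Lagrange.interpolate univ (fun j => D.th (u.1 j))
    (fun j => MvPolynomial.coeff (Finsupp.equivFunOnFinite.symm (i : Fin k → ℕ)) (D.F (u.1 j)))

/-- The good event: the references are separated and the interpolation is right at the sample. -/
structure Apx (K k₀ : ℕ) (δ : ℝ) (u : Om D K) : Prop where
  sep : ∀ j j', j ≠ j' → (2 : ℝ) ^ (-(k₀ : ℤ)) ≤ |D.th (u.1 j) - D.th (u.1 j')|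
  apx : ∀ i : Mon k K, |MvPolynomial.coeff (Finsupp.equivFunOnFinite.symm (i : Fin k → ℕ))
    (D.F u.2) - (D.phi K u i).eval (D.th u.2)| ≤ δ

/-- The interpolated leaf over the position of the sample, a polynomial in the time. -/
noncomputable def psi (K : ℕ) (u : Om D K) : Polynomial ℝ :=
  ∑ i : Mon k K, Polynomial.C (mono (i : Fin k → ℕ) (D.w u.2)) * D.phi K u i

/-- The difference of the two shapes in the direction of the time, scaled by `2 ^ (-c₂)`. -/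
noncomputable def dif (K c₂ : ℕ) (u : Om D K) : Polynomial ℝ :=
  Polynomial.C (1 / 2 ^ c₂) * (D.Pt u.2 - D.psi K u)

/-- As a polynomial in one variable, for W0. -/
noncomputable def kap (K c₂ : ℕ) (u : Om D K) : Pl 1 :=
  Polynomial.aeval (MvPolynomial.X 0) (D.dif K c₂ u)

/-- The difference from its first `s` digits, not scaled, without constant term. -/
noncomputable def rcp (K c₂ s : ℕ) (u : Om D K) : Polynomial ℝ :=
  ∑ j : Fin K, Polynomial.C (2 ^ c₂ * ((rk s (D.kap K c₂ u) (Finsupp.single 0 (j.val + 1)) : ℝ) /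
    2 ^ s)) * Polynomial.X ^ (j.val + 1)

/-- The time as a polynomial in `(t, W)`. -/
noncomputable def The (K : ℕ) (u : Om D K) : Pl (k + 1) :=
  MvPolynomial.C (1 / D.be) * (MvPolynomial.X 0 - MvPolynomial.rename Fin.succ (D.S u.2) +
    MvPolynomial.C (2 ^ D.B)) - MvPolynomial.C (D.hi u.2 : ℝ)

/-- **The total shape**, a polynomial in `(t, W)`. -/
noncomputable def Ft (K c₂ s : ℕ) (u : Om D K) : Pl (k + 1) :=
  (∑ i : Mon k K, Polynomial.aeval (D.The K u) (D.phi K u i) * MvPolynomial.rename Fin.succ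
    (MvPolynomial.monomial (Finsupp.equivFunOnFinite.symm (i : Fin k → ℕ)) 1)) +
    Polynomial.aeval (D.The K u) (D.rcp K c₂ s u)

/-- The point `(t, W)`. -/
noncomputable def zz (ω : D.Ω) : Fin (k + 1) → ℝ := Fin.cons (D.ta ω) (D.w ω)

/-- The position `(t, W)` to `x` digits. -/
noncomputable def Yz (x : ℕ) (ω : D.Ω) : Fin (k + 1) → ℤ :=
  Fin.cons (D.t ω / 2 ^ (D.X - x)) (fun i => D.W ω i / 2 ^ (D.X - x))

/-- The height over the total shape, scaled by `2 ^ (-c₃)`, to `x` digits. -/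
noncomputable def n3 (K c₂ s c₃ x : ℕ) (u : Om D K) : ℤ :=
  dg x ((D.nu u.2 - MvPolynomial.eval (D.zz u.2) (D.Ft K c₂ s u)) / 2 ^ c₃)

end Cd

/-- **First application of W0.** All errors in `θ`. -/
def W1Stmt : Prop :=
  ∀ (k K : ℕ) (c₀ : ℝ), 0 < c₀ → c₀ ≤ 1 → ∃ (σ ι C : ℝ) (X₀ : ℕ), 0 < σ ∧ σ ≤ 1 ∧ 0 < ι ∧ 1 ≤ C ∧
    ∀ (D : Cd k) (q : Om D K → ℝ) (θ d δ κ : ℝ) (k₀ c₂ x s : ℕ), D.Ok K → D.Fx K q θ d →
      (∀ u, 0 < q u → D.Apx K k₀ δ u) → D.NFc c₀ κ d →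
      X₀ ≤ x → x ≤ D.h → 0 ≤ κ → c₂ + κ * D.h ≤ x → θ + D.b + c₂ ≤ ι * x → 0 ≤ θ → 0 ≤ δ →
      (s : ℝ) ≤ σ * x →
      ((K : ℝ) + 1) ^ k * δ ≤ 1 / 2 ^ x →
      D.e ≤ c₂ → ((K : ℝ) + 1) ^ (k + 2) * 2 ^ (K + k₀ * K) * 2 ^ D.b + 2 ^ D.e ≤ 2 ^ c₂ →
      ∃ E : Om D K → Prop, c₀ / 8 ≤ Pb q E ∧
        CH (cond q E True) (fun u => rk s (D.kap K c₂ u)) (fun u => (D.ref K u, D.gm u.2)) ≤
          C * (θ + 1)

/-- **The position is full given the total shape and the height over it.** -/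
def F2Stmt : Prop :=
  ∀ (k K : ℕ), ∃ C : ℝ, 1 ≤ C ∧
    ∀ (D : Cd k) (q : Om D K → ℝ) (θ d δ : ℝ) (k₀ c₂ s c₃ x : ℕ), D.Ok K → D.Fx K q θ d →
      (∀ u, 0 < q u → D.Apx K k₀ δ u) → 0 ≤ θ → 0 ≤ δ →
      CH q (fun u => rk s (D.kap K c₂ u)) (fun u => (D.ref K u, D.gm u.2)) ≤ θ →
      x ≤ D.h → c₂ + x ≤ s → ((K : ℝ) + 1) ^ k * δ ≤ 1 / 2 ^ x → c₂ ≤ c₃ →
      D.r + x ≤ D.X →
      (∀ u, 0 < q u → l1 (D.dif K c₂ u) ≤ 1) →
      (∀ u, 0 < q u → (∑ i, l1 (D.phi K u i)) + l1 (D.rcp K c₂ s u) ≤ 2 ^ c₃) →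
      (∀ u, 0 < q u → ml (D.Ft K c₂ s u) ≤ 2 ^ c₃) →
      ((k : ℝ) + 1) * (D.X * Real.log 2) - (C * (θ + 1) + D.r) ≤
        CH q (fun u => (D.t u.2, D.W u.2))
          (fun u => (D.n3 K c₂ s c₃ x u, (D.Ft K c₂ s u, D.Z u.2)))

/-- **Second application of W0.** -/
def W2Stmt : Prop :=
  ∀ (k K : ℕ) (c₀ : ℝ), 0 < c₀ → c₀ ≤ 1 → ∃ (σ ι C : ℝ) (X₀ : ℕ), 0 < σ ∧ σ ≤ 1 ∧ 0 < ι ∧ 1 ≤ C ∧
    ∀ (D : Cd k) (q : Om D K → ℝ) (θ d δ κ : ℝ) (k₀ c₂ s c₃ x s' : ℕ), D.Ok K → D.Fx K q θ d →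
      (∀ u, 0 < q u → D.Apx K k₀ δ u) → D.NFc c₀ κ d → 0 ≤ θ → 0 ≤ δ →
      CH q (fun u => rk s (D.kap K c₂ u)) (fun u => (D.ref K u, D.gm u.2)) ≤ θ →
      X₀ ≤ x → x ≤ D.h → c₂ + x ≤ s → ((K : ℝ) + 1) ^ k * δ ≤ 1 / 2 ^ x → c₂ ≤ c₃ →
      D.r + x ≤ D.X → 0 ≤ κ → c₃ + κ * D.h ≤ x → θ + D.b + D.r + c₃ ≤ ι * x → (s' : ℝ) ≤ σ * x →
      (∀ u, 0 < q u → l1 (D.dif K c₂ u) ≤ 1) →
      (∀ u, 0 < q u → (∑ i, l1 (D.phi K u i)) + l1 (D.rcp K c₂ s u) ≤ 2 ^ c₃) →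
      (∀ u, 0 < q u → ml (D.Ft K c₂ s u) ≤ 2 ^ c₃) →
      ∃ E : Om D K → Prop, c₀ / 8 ≤ Pb q E ∧
        CH (cond q E True) (fun u => rk s' (MvPolynomial.C (1 / 2 ^ c₃) * D.Ft K c₂ s u))
          (fun u => D.Z u.2) ≤ C * (θ + D.r + 1)

end Pool.TIE
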