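import Pool.Agent.H88.TIE.Dig

/-!
# The core: data, the deterministic part
-/

set_option autoImplicit false

namespace Pool.TIE

open Finset Real
open Pool.Agent.H49.Ent Pool.Agent.H32.Dense Pool.STK Pool.BFL Pool.MIC Pool.LBL Pool.GLM

/-- Data of the core. -/
structure Cd (k : ℕ) : Type 1 where
  Ω : Type
  ζ : Type
  𝒬 : Type
  ℛ : Type
  fin : Fintype Ω
  p : Ω → ℝ
  Z : Ω → ζ
  Q : Ω → 𝒬
  R : Ω → ℛ
  W : Ω → Fin k → ℤ
  t : Ω → ℤ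
  nu : Ω → ℝ
  S : Ω → Pl k
  F : Ω → Pl k
  P : Ω → Polynomial ℝ
  X : ℕ
  h : ℕ
  b : ℕ
  B : ℕ
  r : ℕ
  e : ℕ

attribute [instance] Cd.fin

namespace Cd

variable {k : ℕ} (D : Cd k)

/-- The position. -/
noncomputable def w (ω : D.Ω) : Fin k → ℝ := fun i => (D.W ω i : ℝ) / 2 ^ D.X

/-- The last coordinate. -/
noncomputable def ta (ω : D.Ω) : ℝ := (D.t ω : ℝ) / 2 ^ D.X

/-- The sheet over the position. -/
noncomputable def Sw (ω : D.Ω) : ℝ := MvPolynomial.eval (D.w ω) (D.S ω)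

/-- The height of the sheet. -/
noncomputable def nt (ω : D.Ω) : ℤ := dg D.X (D.ta ω - D.Sw ω)

/-- The number of digits of the height of the sheet. -/
def M : ℕ := D.X + D.B + 1

/-- The height of the sheet, nonnegative. -/
noncomputable def NT (ω : D.Ω) : ℤ := D.nt ω + 2 ^ (D.X + D.B)

/-- The first `r` digits of the height of the sheet. -/
noncomputable def hi (ω : D.Ω) : ℤ := D.NT ω / 2 ^ (D.M - D.r)

/-- The other digits. -/
noncomputable def lo (ω : D.Ω) : ℤ := D.NT ω % 2 ^ (D.M - D.r)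

/-- The time. -/
noncomputable def th (ω : D.Ω) : ℝ := (D.lo ω : ℝ) / 2 ^ (D.M - D.r)

/-- The unit of the time. -/
noncomputable def be : ℝ := 2 ^ (D.B + 1) / 2 ^ D.r

/-- The origin of the time. -/
noncomputable def al (ω : D.Ω) : ℝ := D.Sw ω + D.be * D.hi ω - 2 ^ D.B

/-- The height as a polynomial in the time, over a fixed position. -/
noncomputable def Pt (ω : D.Ω) : Polynomial ℝ :=
  (D.P ω).comp (Polynomial.C (D.al ω) + Polynomial.C D.be * Polynomial.X)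

/-- The height over the leaf in the direction of the last coordinate. -/
noncomputable def n1 (ω : D.Ω) : ℤ := dg D.h (D.nu ω - (D.P ω).eval (D.ta ω))

/-- The height over the leaf on the sheet. -/
noncomputable def n2 (ω : D.Ω) : ℤ := dg D.h (D.nu ω - MvPolynomial.eval (D.w ω) (D.F ω))

/-- The height, as a function of the line and the time. -/
noncomputable def nut (ω : D.Ω) : ℝ := (D.n1 ω : ℝ) / 2 ^ D.h + (D.Pt ω).eval (D.th ω)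

/-- The digits of the height. -/
noncomputable def nh (ω : D.Ω) : ℤ := dg D.h (D.nu ω)

/-- General bounds. -/
structure Ok (K : ℕ) : Prop where
  law : IsLaw D.p
  hX : 2 * D.h ≤ D.X
  W_lt : ∀ ω i, 0 ≤ D.W ω i ∧ D.W ω i < 2 ^ D.X
  t_lt : ∀ ω, 0 ≤ D.t ω ∧ D.t ω < 2 ^ D.X
  S_det : Det D.p (fun ω => (D.Q ω, D.Z ω)) D.S
  P_det : Det D.p (fun ω => (D.W ω, (D.R ω, D.Z ω))) D.P
  S_deg : ∀ ω, (D.S ω).totalDegree ≤ K
  F_deg : ∀ ω, (D.F ω).totalDegree ≤ K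
  P_deg : ∀ ω, (D.P ω).natDegree ≤ K
  S_cf : ∀ ω α, |MvPolynomial.coeff α (D.S ω)| ≤ (2 : ℝ) ^ D.b
  F_cf : ∀ ω α, |MvPolynomial.coeff α (D.F ω)| ≤ (2 : ℝ) ^ D.b
  P_cf : ∀ ω i, |(D.P ω).coeff i| ≤ (2 : ℝ) ^ D.b
  nu_le : ∀ ω, |D.nu ω| ≤ (2 : ℝ) ^ D.b
  hB : ((K : ℝ) + 1) ^ k * 2 ^ D.b + 1 ≤ 2 ^ D.B
  hr : D.B + 1 ≤ D.r
  hrh : D.r ≤ D.h
  hh : ((K : ℝ) + 1) ^ 2 * 2 ^ D.b ≤ 2 ^ D.h
  he : ((K : ℝ) + 1) ^ k * 2 ^ D.b ≤ 2 ^ D.e
  he' : ((K : ℝ) + 1) * 2 ^ D.b * 3 ^ K ≤ 2 ^ D.e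

variable {D} {K : ℕ}

theorem w_mem (hD : D.Ok K) (ω : D.Ω) (i : Fin k) : 0 ≤ D.w ω i ∧ D.w ω i < 1 := by
  have h2 : (0 : ℝ) < 2 ^ D.X := by positivity
  obtain ⟨h3, h4⟩ := hD.W_lt ω i
  have h3' : (0 : ℝ) ≤ D.W ω i := by exact_mod_cast h3
  have h4' : (D.W ω i : ℝ) < 2 ^ D.X := by exact_mod_cast h4
  unfold w
  exact ⟨div_nonneg h3' h2.le, by rwa [div_lt_one h2]⟩

theorem w_abs (hD : D.Ok K) (ω : D.Ω) (i : Fin k) : |D.w ω i| ≤ 1 := by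
  obtain ⟨h1, h2⟩ := w_mem hD ω i
  rw [abs_of_nonneg h1]
  exact h2.le

theorem ta_mem (hD : D.Ok K) (ω : D.Ω) : 0 ≤ D.ta ω ∧ D.ta ω < 1 := by
  have h2 : (0 : ℝ) < 2 ^ D.X := by positivity
  obtain ⟨h3, h4⟩ := hD.t_lt ω
  have h3' : (0 : ℝ) ≤ D.t ω := by exact_mod_cast h3
  have h4' : (D.t ω : ℝ) < 2 ^ D.X := by exact_mod_cast h4
  unfold ta
  exact ⟨div_nonneg h3' h2.le, by rwa [div_lt_one h2]⟩

theorem Sw_abs (hD : D.Ok K) (ω : D.Ω) : |D.Sw ω| ≤ ((K : ℝ) + 1) ^ k * 2 ^ D.b := by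
  unfold Sw
  exact (eval_ml _ (w_abs hD ω)).trans (ml_le (hD.S_deg ω) (hD.S_cf ω))

theorem NT_mem (hD : D.Ok K) (ω : D.Ω) : 0 ≤ D.NT ω ∧ D.NT ω < 2 ^ D.M := by
  have h2 : (0 : ℝ) < 2 ^ D.X := by positivity
  have h1 := Sw_abs hD ω
  obtain ⟨h3, h4⟩ := ta_mem hD ω
  have h5 := hD.hB
  rw [abs_le] at h1
  have h6 : -(2 : ℝ) ^ D.B ≤ D.ta ω - D.Sw ω := by linarith
  have h7 : D.ta ω - D.Sw ω < (2 : ℝ) ^ D.B := by linarith
  unfold NT nt dg M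
  constructor
  · have h8 : (-(2 : ℤ) ^ (D.X + D.B)) ≤ ⌊(2 : ℝ) ^ D.X * (D.ta ω - D.Sw ω)⌋ := by
      rw [Int.le_floor]
      push_cast
      rw [pow_add]
      nlinarith
    linarith
  · have h8 : ⌊(2 : ℝ) ^ D.X * (D.ta ω - D.Sw ω)⌋ < (2 : ℤ) ^ (D.X + D.B) := by
      rw [Int.floor_lt]
      push_cast
      rw [pow_add]
      nlinarith
    have h9 : (2 : ℤ) ^ (D.X + D.B + 1) = 2 ^ (D.X + D.B) + 2 ^ (D.X + D.B) := by ring
    linarith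

theorem r_le_M (hD : D.Ok K) : D.r + D.h ≤ D.M := by
  have h1 := hD.hrh
  have h2 := hD.hX
  unfold M
  omega

theorem lo_mem (ω : D.Ω) : 0 ≤ D.lo ω ∧ D.lo ω < 2 ^ (D.M - D.r) :=
  ⟨Int.emod_nonneg _ (by positivity), Int.emod_lt_of_pos _ (by positivity)⟩

theorem hi_mem (hD : D.Ok K) (ω : D.Ω) : 0 ≤ D.hi ω ∧ D.hi ω < 2 ^ D.r := by
  obtain ⟨a1, a2⟩ := NT_mem hD ω
  have h1 := r_le_M hD
  refine ⟨Int.ediv_nonneg a1 (by positivity), ?_⟩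
  refine Int.ediv_lt_of_lt_mul (by positivity) ?_
  rw [← pow_add]
  rwa [show D.r + (D.M - D.r) = D.M by omega]

theorem th_mem (ω : D.Ω) : 0 ≤ D.th ω ∧ D.th ω < 1 := by
  have h2 : (0 : ℝ) < 2 ^ (D.M - D.r) := by positivity
  obtain ⟨h3, h4⟩ := lo_mem (D := D) ω
  have h3' : (0 : ℝ) ≤ D.lo ω := by exact_mod_cast h3
  have h4' : (D.lo ω : ℝ) < 2 ^ (D.M - D.r) := by exact_mod_cast h4
  unfold th
  exact ⟨div_nonneg h3' h2.le, by rwa [div_lt_one h2]⟩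

theorem th_abs (ω : D.Ω) : |D.th ω| ≤ 1 := by
  obtain ⟨h1, h2⟩ := th_mem (D := D) ω
  rw [abs_of_nonneg h1]
  exact h2.le

theorem be_pos : 0 < D.be := by
  unfold be
  positivity

theorem be_le (hD : D.Ok K) : D.be ≤ 1 := by
  unfold be
  rw [div_le_one (by positivity)]
  exact pow_le_pow_right₀ (by norm_num) hD.hr

theorem NT_eq (ω : D.Ω) : D.NT ω = D.lo ω + 2 ^ (D.M - D.r) * D.hi ω := by
  unfold lo hi
  exact (Int.emod_add_mul_ediv _ _).symm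

/-- The time is the height of the sheet. -/
theorem time (hD : D.Ok K) (ω : D.Ω) :
    D.al ω + D.be * D.th ω = D.Sw ω + (D.nt ω : ℝ) / 2 ^ D.X := by
  have h1 := NT_eq (D := D) ω
  have h2 : ((D.nt ω : ℤ) : ℝ) + 2 ^ (D.X + D.B) =
      D.lo ω + 2 ^ (D.M - D.r) * D.hi ω := by
    have : ((D.NT ω : ℤ) : ℝ) = D.lo ω + 2 ^ (D.M - D.r) * D.hi ω := by
      rw [h1]
      push_cast
      ring
    rw [← this]
    unfold NT
    push_cast
    ring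
  have hr := r_le_M hD
  have h3 : (2 : ℝ) ^ (D.M - D.r) * 2 ^ D.r = 2 ^ (D.X + D.B + 1) := by
    rw [← pow_add]
    congr 1
    unfold M at hr ⊢
    omega
  have h4 : (0 : ℝ) < 2 ^ (D.M - D.r) := by positivity
  have h5 : (0 : ℝ) < 2 ^ D.r := by positivity
  have h6 : (0 : ℝ) < 2 ^ D.X := by positivity
  have h7 : (D.lo ω : ℝ) = (D.nt ω : ℝ) + 2 ^ (D.X + D.B) - 2 ^ (D.M - D.r) * D.hi ω := by linarith
  unfold al th be
  rw [h7]
  have h8 : (2 : ℝ) ^ (D.B + 1) / 2 ^ D.r / 2 ^ (D.M - D.r) = 1 / 2 ^ D.X := by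
    rw [div_div, mul_comm ((2 : ℝ) ^ D.r), h3]
    rw [show D.X + D.B + 1 = D.X + (D.B + 1) by ring, pow_add 2 D.X]
    field_simp
  have h9 : (2 : ℝ) ^ (D.B + 1) / 2 ^ D.r * (((D.nt ω : ℝ) + 2 ^ (D.X + D.B) -
      2 ^ (D.M - D.r) * D.hi ω) / 2 ^ (D.M - D.r)) =
      (2 : ℝ) ^ (D.B + 1) / 2 ^ D.r / 2 ^ (D.M - D.r) * ((D.nt ω : ℝ) + 2 ^ (D.X + D.B)) -
      (2 : ℝ) ^ (D.B + 1) / 2 ^ D.r * D.hi ω := by
    field_simp
  rw [h9, h8, pow_add]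
  field_simp
  ring

/-- The last coordinate is determined by the height and the sheet. -/
theorem t_eq (ω : D.Ω) : D.t ω = D.nt ω - ⌊-((2 : ℝ) ^ D.X * D.Sw ω)⌋ := by
  have h2 : (0 : ℝ) < 2 ^ D.X := by positivity
  have h1 : D.nt ω = D.t ω + ⌊-((2 : ℝ) ^ D.X * D.Sw ω)⌋ := by
    unfold nt dg ta
    rw [← Int.floor_intCast_add]
    congr 1
    field_simp
    ring
  linarith

theorem ta_near (hD : D.Ok K) (ω : D.Ω) : |D.ta ω - (D.al ω + D.be * D.th ω)| ≤ 1 / 2 ^ D.X := by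
  rw [time hD]
  have h1 := dg_le D.X (D.ta ω - D.Sw ω)
  have e : D.ta ω - (D.Sw ω + (D.nt ω : ℝ) / 2 ^ D.X) =
      D.ta ω - D.Sw ω - (dg D.X (D.ta ω - D.Sw ω) : ℝ) / 2 ^ D.X := by
    unfold nt
    ring
  rw [e]
  exact h1

theorem ta_near' (hD : D.Ok K) (ω : D.Ω) : D.al ω + D.be * D.th ω ≤ D.ta ω := by
  rw [time hD]
  have h2 : (0 : ℝ) < 2 ^ D.X := by positivity
  have h1 := Int.floor_le ((2 : ℝ) ^ D.X * (D.ta ω - D.Sw ω))
  have h3 : (D.nt ω : ℝ) / 2 ^ D.X ≤ D.ta ω - D.Sw ω := by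
    rw [div_le_iff₀ h2]
    unfold nt dg
    linarith
  linarith

theorem ta_abs (hD : D.Ok K) (ω : D.Ω) : |D.ta ω| ≤ 1 := by
  obtain ⟨h1, h2⟩ := ta_mem hD ω
  rw [abs_of_nonneg h1]
  exact h2.le

theorem tt_abs (hD : D.Ok K) (ω : D.Ω) : |D.al ω + D.be * D.th ω| ≤ 1 := by
  obtain ⟨h1, h2⟩ := ta_mem hD ω
  have h3 := ta_near hD ω
  have h4 := ta_near' hD ω
  have h5 : 1 / (2 : ℝ) ^ D.X ≤ 1 := by
    rw [div_le_one (by positivity)]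
    exact one_le_pow₀ (by norm_num)
  rw [abs_le] at h3 ⊢
  constructor <;> linarith

theorem P_l1 (hD : D.Ok K) (ω : D.Ω) : l1 (D.P ω) ≤ ((K : ℝ) + 1) * 2 ^ D.b :=
  l1_le (hD.P_deg ω) (hD.P_cf ω)

theorem Pt_eval (ω : D.Ω) (x : ℝ) :
    (D.Pt ω).eval x = (D.P ω).eval (D.al ω + D.be * x) := by
  unfold Pt
  simp [Polynomial.eval_comp]

theorem P_near (hD : D.Ok K) (ω : D.Ω) :
    |(D.P ω).eval (D.ta ω) - (D.Pt ω).eval (D.th ω)| ≤ 1 / 2 ^ D.h := by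
  rw [Pt_eval]
  refine (lip_l1 _ (ta_abs hD ω) (tt_abs hD ω)).trans ?_
  have h1 := ta_near hD ω
  have h2 := P_l1 hD ω
  have h3 : ((D.P ω).natDegree : ℝ) ≤ K := by exact_mod_cast hD.P_deg ω
  have h4 := l1_nn (D.P ω)
  have h5 : ((D.P ω).natDegree : ℝ) * l1 (D.P ω) ≤ K * (((K : ℝ) + 1) * 2 ^ D.b) :=
    mul_le_mul h3 h2 h4 (Nat.cast_nonneg _)
  have h6 : ((D.P ω).natDegree : ℝ) * l1 (D.P ω) * |D.ta ω - (D.al ω + D.be * D.th ω)| ≤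
      K * (((K : ℝ) + 1) * 2 ^ D.b) * (1 / 2 ^ D.X) :=
    mul_le_mul h5 h1 (abs_nonneg _) (by positivity)
  refine h6.trans ?_
  have h7 : (K : ℝ) * (((K : ℝ) + 1) * 2 ^ D.b) ≤ 2 ^ D.h := by
    refine le_trans ?_ hD.hh
    have h8 : (0 : ℝ) ≤ 2 ^ D.b := by positivity
    have h9 : (0 : ℝ) ≤ K := Nat.cast_nonneg _
    nlinarith [mul_nonneg h9 h8]
  have h8 : (2 : ℝ) ^ D.X = 2 ^ D.h * 2 ^ (D.X - D.h) := by
    rw [← pow_add]
    congr 1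
    have := hD.hX
    omega
  have h9 : (2 : ℝ) ^ D.h ≤ 2 ^ (D.X - D.h) := by
    refine pow_le_pow_right₀ (by norm_num) ?_
    have := hD.hX
    omega
  have h10 : (0 : ℝ) < 2 ^ D.h := by positivity
  have h11 : (0 : ℝ) < 2 ^ (D.X - D.h) := by positivity
  rw [h8, mul_one_div, div_le_div_iff₀ (by positivity) h10]
  nlinarith

/-- The height is near its value as a function of the line and the time. -/
theorem nut_near (hD : D.Ok K) (ω : D.Ω) : |D.nut ω - D.nu ω| ≤ 2 / 2 ^ D.h := by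
  have h1 := P_near hD ω
  have h2 := dg_le D.h (D.nu ω - (D.P ω).eval (D.ta ω))
  have e : D.nut ω - D.nu ω = -(D.nu ω - (D.P ω).eval (D.ta ω) -
      (dg D.h (D.nu ω - (D.P ω).eval (D.ta ω)) : ℝ) / 2 ^ D.h) -
      ((D.P ω).eval (D.ta ω) - (D.Pt ω).eval (D.th ω)) := by
    unfold nut n1
    ring
  rw [e]
  have h3 : (2 : ℝ) / 2 ^ D.h = 1 / 2 ^ D.h + 1 / 2 ^ D.h := by ring
  rw [h3]
  rw [abs_le] at h1 h2 ⊢
  constructor <;> linarith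

theorem al_abs (hD : D.Ok K) (ω : D.Ω) : |D.al ω| ≤ 2 := by
  have h1 := tt_abs hD ω
  have h2 := be_le hD
  have h3 := be_pos (D := D)
  obtain ⟨h4, h5⟩ := th_mem (D := D) ω
  have h6 : D.be * D.th ω ≤ 1 := by nlinarith
  have h7 : 0 ≤ D.be * D.th ω := by positivity
  rw [abs_le] at h1 ⊢
  constructor <;> linarith

theorem l1_comp {q θ : Polynomial ℝ} {M : ℝ} (hM : 1 ≤ M) (hθ : l1 θ ≤ M)
    (hq : q.natDegree ≤ K) : l1 (q.comp θ) ≤ l1 q * M ^ K := by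
  classical
  rw [Polynomial.comp, Polynomial.eval₂_eq_sum_range]
  refine (l1_sum _ _).trans ?_
  have h1 := l1_eq (q := q) (S := Finset.range (q.natDegree + 1)) (fun i hi => by
    rw [Finset.mem_range]
    have := Polynomial.le_natDegree_of_mem_supp i hi
    omega)
  rw [h1, Finset.sum_mul]
  refine Finset.sum_le_sum fun i hi => ?_
  have h2 : l1 (Polynomial.C (q.coeff i) * θ ^ i) ≤ |q.coeff i| * M ^ i := by
    refine l1_mul_le (by rw [l1_C]) ?_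
    have h3 := l1_prod (Finset.range i) (fun _ => θ) M (by linarith) (fun _ _ => hθ)
    rwa [Finset.prod_const, Finset.card_range] at h3
  refine h2.trans (mul_le_mul_of_nonneg_left (pow_le_pow_right₀ hM ?_) (abs_nonneg _))
  rw [Finset.mem_range] at hi
  omega

theorem Pt_l1 (hD : D.Ok K) (ω : D.Ω) : l1 (D.Pt ω) ≤ 2 ^ D.e := by
  have h1 : l1 (Polynomial.C (D.al ω) + Polynomial.C D.be * Polynomial.X) ≤ 3 := by
    refine (l1_add _ _).trans ?_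
    rw [l1_C, Polynomial.C_mul_X_eq_monomial, l1_monomial]
    have h2 := be_le hD
    have h3 := be_pos (D := D)
    have h4 := al_abs hD ω
    rw [abs_of_pos h3]
    linarith
  refine (l1_comp (by norm_num) h1 (hD.P_deg ω)).trans (le_trans ?_ hD.he')
  exact mul_le_mul_of_nonneg_right (P_l1 hD ω) (by positivity)

theorem Pt_deg (hD : D.Ok K) (ω : D.Ω) : (D.Pt ω).natDegree ≤ K := by
  unfold Pt
  refine (Polynomial.natDegree_comp_le).trans ?_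
  have h1 : (Polynomial.C (D.al ω) + Polynomial.C D.be * Polynomial.X).natDegree ≤ 1 :=
    Polynomial.natDegree_add_le_of_degree_le (by rw [Polynomial.natDegree_C]; omega)
      ((Polynomial.natDegree_C_mul_le _ _).trans (by rw [Polynomial.natDegree_X]))
  calc _ ≤ K * 1 := Nat.mul_le_mul (hD.P_deg ω) h1
    _ = K := mul_one K

theorem F_ml (hD : D.Ok K) (ω : D.Ω) : ml (D.F ω) ≤ 2 ^ D.e :=
  (ml_le (hD.F_deg ω) (hD.F_cf ω)).trans hD.he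

theorem th_of_nt {ω ω' : D.Ω} (h : D.nt ω = D.nt ω') : D.th ω = D.th ω' := by
  unfold th lo NT
  rw [h]

theorem hi_of_nt {ω ω' : D.Ω} (h : D.nt ω = D.nt ω') : D.hi ω = D.hi ω' := by
  unfold hi NT
  rw [h]

theorem w_of_W {ω ω' : D.Ω} (h : D.W ω = D.W ω') : D.w ω = D.w ω' := by
  unfold w
  rw [h]

end Cd

end Pool.TIE
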