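import Pool.Agent.H88.TIE.Geo

/-!
# The core: information
-/

set_option autoImplicit false

namespace Pool.TIE

open Finset Real
open Pool.Agent.H49.Ent Pool.Agent.H32.Dense Pool.STK Pool.BFL Pool.MIC

namespace Cd

variable {k : ℕ} (D : Cd k)

/-- The line without its height. -/
noncomputable def L0 (ω : D.Ω) : (Fin k → ℤ) × (D.ℛ × (D.𝒬 × (D.ζ × ℤ))) :=
  (D.W ω, (D.R ω, (D.Q ω, (D.Z ω, D.hi ω))))

/-- The line. -/
noncomputable def Lm (ω : D.Ω) : ℤ × ((Fin k → ℤ) × (D.ℛ × (D.𝒬 × (D.ζ × ℤ)))) :=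
  (D.n1 ω, D.L0 ω)

/-- The time with its leaf. -/
noncomputable def Tm (ω : D.Ω) : ℤ × Pl k := (D.nt ω, D.F ω)

/-- The context. -/
noncomputable def gm (ω : D.Ω) : ℤ × (D.𝒬 × D.ζ) := (D.hi ω, (D.Q ω, D.Z ω))

/-- The information hypotheses. -/
structure Inf (θ : ℝ) : Prop where
  full : ((k : ℝ) + 1) * (D.X * Real.log 2) - θ ≤
    CH D.p (fun ω => (D.W ω, D.t ω)) (fun ω => (D.Q ω, D.Z ω))
  fullW : k * (D.X * Real.log 2) - θ ≤ CH D.p D.W (fun ω =>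
    (D.n2 ω, (D.F ω, (D.nt ω, (D.Q ω, D.Z ω)))))
  fullt : D.X * Real.log 2 - θ ≤ CH D.p D.t (fun ω =>
    (D.n1 ω, (D.W ω, (D.R ω, (D.Q ω, D.Z ω)))))
  few : CH D.p D.F (fun ω => (D.nt ω, (D.Q ω, D.Z ω))) ≤ θ
  nuQR : CH D.p D.nh (fun ω => (D.W ω, (D.t ω, D.Z ω))) ≤
    CH D.p D.nh (fun ω => (D.R ω, (D.Q ω, (D.W ω, (D.t ω, D.Z ω))))) + θ

variable {D} {K : ℕ} {θ : ℝ}

theorem gm_L : Det D.p D.Lm D.gm := fun ω ω' _ _ h => by
  simp only [Lm, L0, gm, Prod.mk.injEq] at h ⊢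
  tauto

theorem NT_of {ω ω' : D.Ω} (h1 : D.lo ω = D.lo ω') (h2 : D.hi ω = D.hi ω') :
    D.nt ω = D.nt ω' := by
  have h3 := NT_eq (D := D) ω
  have h4 := NT_eq (D := D) ω'
  rw [h1, h2] at h3
  have h5 : D.NT ω = D.NT ω' := by rw [h3, h4]
  unfold NT at h5
  linarith

theorem lo_of_nt {ω ω' : D.Ω} (h : D.nt ω = D.nt ω') : D.lo ω = D.lo ω' := by
  unfold lo NT
  rw [h]

theorem Sw_of (hD : D.Ok K) {ω ω' : D.Ω} (h : 0 < D.p ω) (h' : 0 < D.p ω')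
    (h1 : D.W ω = D.W ω') (h2 : D.Q ω = D.Q ω') (h3 : D.Z ω = D.Z ω') : D.Sw ω = D.Sw ω' := by
  unfold Sw
  rw [w_of_W h1, hD.S_det ω ω' h h' (Prod.ext h2 h3)]

theorem t_of (hD : D.Ok K) {ω ω' : D.Ω} (h : 0 < D.p ω) (h' : 0 < D.p ω')
    (h0 : D.nt ω = D.nt ω') (h1 : D.W ω = D.W ω') (h2 : D.Q ω = D.Q ω') (h3 : D.Z ω = D.Z ω') :
    D.t ω = D.t ω' := by
  rw [t_eq, t_eq, h0, Sw_of hD h h' h1 h2 h3]

theorem nt_of (hD : D.Ok K) {ω ω' : D.Ω} (h : 0 < D.p ω) (h' : 0 < D.p ω')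
    (h0 : D.t ω = D.t ω') (h1 : D.W ω = D.W ω') (h2 : D.Q ω = D.Q ω') (h3 : D.Z ω = D.Z ω') :
    D.nt ω = D.nt ω' := by
  have e1 := t_eq (D := D) ω
  have e2 := t_eq (D := D) ω'
  rw [h0, Sw_of hD h h' h1 h2 h3] at e1
  linarith

theorem castM (hD : D.Ok K) : ((D.M - D.r : ℕ) : ℝ) = D.X + D.B + 1 - D.r := by
  have := r_le_M hD
  rw [Nat.cast_sub (by omega)]
  unfold M
  push_cast
  ring

/-- The height of the sheet is full given the line. -/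
theorem nt_full (hD : D.Ok K) (hI : D.Inf θ) :
    D.X * Real.log 2 - θ - D.r * Real.log 2 ≤ CH D.p D.nt D.Lm := by
  have hp := hD.law
  have h1 := hI.fullt
  have h2 : CH D.p D.t (fun ω => (D.n1 ω, (D.W ω, (D.R ω, (D.Q ω, D.Z ω))))) ≤
      CH D.p D.nt (fun ω => (D.n1 ω, (D.W ω, (D.R ω, (D.Q ω, D.Z ω))))) := by
    refine CH_mono_left hp.nonneg fun ω ω' a a' h => ?_
    simp only [Prod.mk.injEq] at h
    obtain ⟨e1, e2, e3, e4, e5, e6⟩ := h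
    exact t_of hD a a' e1 e3 e5 e6
  have h3 := CH_few hp.nonneg D.nt D.hi (fun ω => (D.n1 ω, (D.W ω, (D.R ω, (D.Q ω, D.Z ω)))))
  have h4 : CH D.p D.hi (fun ω => (D.n1 ω, (D.W ω, (D.R ω, (D.Q ω, D.Z ω))))) ≤
      D.r * Real.log 2 := CH_lt hp _ _ fun ω _ => hi_mem hD ω
  have h5 : CH D.p D.nt (fun ω => (D.hi ω, (D.n1 ω, (D.W ω, (D.R ω, (D.Q ω, D.Z ω)))))) =
      CH D.p D.nt D.Lm := by
    refine CH_congr hp.nonneg (fun _ _ _ _ h => (Prod.ext_iff.1 h).1)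
      (fun _ _ _ _ h => (Prod.ext_iff.1 h).1) ?_ ?_ <;> intro ω ω' _ _ h <;>
      simp only [Lm, L0, Prod.mk.injEq] at h ⊢ <;> tauto
  linarith

theorem lo_full (hD : D.Ok K) (hI : D.Inf θ) :
    ((D.M - D.r : ℕ) : ℝ) * Real.log 2 - (θ + (D.B + 1) * Real.log 2) ≤ CH D.p D.lo D.Lm := by
  have hp := hD.law
  have h1 := nt_full hD hI
  have h2 : CH D.p D.nt D.Lm ≤ CH D.p D.lo D.Lm := by
    refine CH_mono_left hp.nonneg fun ω ω' a a' h => ?_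
    simp only [Lm, L0, Prod.mk.injEq] at h
    exact NT_of h.1 h.2.2.2.2.2.2
  rw [castM hD]
  linarith

/-- The time is almost independent of the line. -/
theorem i1 (hD : D.Ok K) (hI : D.Inf θ) :
    Ic D.p D.Tm D.Lm D.gm ≤ 2 * θ + (D.B + 1) * Real.log 2 := by
  have hp := hD.law
  have a1 : Ic D.p D.Tm D.Lm D.gm = Ic D.p D.nt D.Lm D.gm +
      Ic D.p D.F D.Lm (fun ω => (D.nt ω, D.gm ω)) := Ic_chain' hp.nonneg D.Lm D.nt D.F D.gm
  have a2 := Ic_le_left hp.nonneg D.F D.Lm (fun ω => (D.nt ω, D.gm ω))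
  have a3 : CH D.p D.F (fun ω => (D.nt ω, D.gm ω)) ≤
      CH D.p D.F (fun ω => (D.nt ω, (D.Q ω, D.Z ω))) := by
    refine CH_mono_cond hp.nonneg fun ω ω' _ _ h => ?_
    simp only [gm, Prod.mk.injEq] at h ⊢
    tauto
  have a4 := hI.few
  have a5 : CH D.p D.nt D.gm ≤ ((D.M - D.r : ℕ) : ℝ) * Real.log 2 := by
    have h2 : CH D.p D.nt D.gm ≤ CH D.p D.lo D.gm := by
      refine CH_mono_left hp.nonneg fun ω ω' a a' h => ?_
      simp only [gm, Prod.mk.injEq] at h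
      exact NT_of h.1 h.2.1
    exact h2.trans (CH_lt hp _ _ fun ω _ => lo_mem ω)
  have a6 := nt_full hD hI
  have a7 : CH D.p D.nt D.Lm = CH D.p D.nt (fun ω => (D.Lm ω, D.gm ω)) :=
    CH_congr hp.nonneg (fun _ _ _ _ h => (Prod.ext_iff.1 h).1)
      (fun _ _ _ _ h => (Prod.ext_iff.1 h).1)
      (fun ω ω' a a' h => Prod.ext h (gm_L ω ω' a a' h)) (fun _ _ _ _ h => (Prod.ext_iff.1 h).1)
  rw [castM hD] at a5
  rw [a1]
  unfold Ic at a2 ⊢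
  linarith

/-- The position is full given the leaf on the sheet. -/
theorem f3 (hD : D.Ok K) (hI : D.Inf θ) :
    k * (D.X * Real.log 2) - θ ≤ CH D.p D.W (fun ω => (D.n2 ω, (D.Tm ω, D.gm ω))) := by
  have hp := hD.law
  refine hI.fullW.trans (le_of_eq ?_)
  refine CH_congr hp.nonneg (fun _ _ _ _ h => (Prod.ext_iff.1 h).1)
    (fun _ _ _ _ h => (Prod.ext_iff.1 h).1) ?_ ?_ <;> intro ω ω' _ _ h <;>
    simp only [Tm, gm, Prod.mk.injEq] at h ⊢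
  · obtain ⟨e1, e2, e3, e4, e5⟩ := h
    exact ⟨e1, ⟨e3, e2⟩, hi_of_nt e3, e4, e5⟩
  · tauto

/-- The height is almost independent of the hidden data. -/
theorem i6 (hD : D.Ok K) (hI : D.Inf θ) :
    Ic D.p D.Q (fun ω => (D.nh ω, (D.W ω, D.t ω))) D.Z ≤ 2 * θ := by
  have hp := hD.law
  have a0 : Ic D.p D.Q (fun ω => (D.nh ω, (D.W ω, D.t ω))) D.Z ≤
      Ic D.p D.Q (fun ω => ((D.W ω, D.t ω), D.nh ω)) D.Z :=
    Ic_mono_right hp.nonneg (fun ω ω' _ _ h => by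
      simp only [Prod.mk.injEq] at h ⊢
      tauto)
  rw [Ic_chain hp.nonneg D.Q (fun ω => (D.W ω, D.t ω)) D.nh D.Z] at a0
  have a1 : Ic D.p D.Q (fun ω => (D.W ω, D.t ω)) D.Z ≤ θ := by
    rw [Ic_symm hp.nonneg]
    have h1 := hI.full
    have h2 : CH D.p (fun ω => (D.W ω, D.t ω)) D.Z ≤ ((k : ℝ) + 1) * (D.X * Real.log 2) := by
      have h3 := CH_subadd hp.nonneg D.W D.t D.Z
      have h4 := CH_lt_vec hp D.W D.Z (X := D.X) fun ω _ i => hD.W_lt ω i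
      have h5 := CH_lt hp D.t D.Z (X := D.X) fun ω _ => hD.t_lt ω
      linarith
    unfold Ic
    linarith
  have a2 : Ic D.p D.Q D.nh (fun ω => ((D.W ω, D.t ω), D.Z ω)) ≤ θ := by
    rw [Ic_symm hp.nonneg]
    have h1 := hI.nuQR
    have h2 : CH D.p D.nh (fun ω => ((D.W ω, D.t ω), D.Z ω)) =
        CH D.p D.nh (fun ω => (D.W ω, (D.t ω, D.Z ω))) := by
      refine CH_congr hp.nonneg (fun _ _ _ _ h => (Prod.ext_iff.1 h).1)
        (fun _ _ _ _ h => (Prod.ext_iff.1 h).1) ?_ ?_ <;> intro ω ω' _ _ h <;>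
        simp only [Prod.mk.injEq] at h ⊢ <;> tauto
    have h3 : CH D.p D.nh (fun ω => (D.R ω, (D.Q ω, (D.W ω, (D.t ω, D.Z ω))))) ≤
        CH D.p D.nh (fun ω => (D.Q ω, ((D.W ω, D.t ω), D.Z ω))) := by
      refine CH_mono_cond hp.nonneg fun ω ω' _ _ h => ?_
      simp only [Prod.mk.injEq] at h ⊢
      tauto
    unfold Ic
    linarith
  linarith

/-- The height over the leaf on the sheet is almost independent of the line. -/
theorem i2 (hD : D.Ok K) (hI : D.Inf θ) :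
    Ic D.p D.L0 D.n2 (fun ω => (D.Tm ω, D.gm ω)) ≤ 3 * θ + 2 := by
  have hp := hD.law
  have b0 : Ic D.p D.L0 D.n2 (fun ω => (D.Tm ω, D.gm ω)) ≤
      Ic D.p (fun ω => (D.W ω, D.R ω)) D.n2 (fun ω => (D.Tm ω, D.gm ω)) :=
    Ic_mono_left hp.nonneg (fun ω ω' _ _ h => by
      simp only [Tm, gm, L0, Prod.mk.injEq] at h ⊢
      tauto)
  rw [Ic_chain' hp.nonneg D.n2 D.W D.R] at b0
  have b1 : Ic D.p D.W D.n2 (fun ω => (D.Tm ω, D.gm ω)) ≤ θ := by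
    have h1 := f3 hD hI
    have h2 := CH_lt_vec hp D.W (fun ω => (D.Tm ω, D.gm ω)) (X := D.X) fun ω _ i => hD.W_lt ω i
    unfold Ic
    linarith
  obtain ⟨c, hc⟩ : ∃ c : D.Ω → Pl k × (D.𝒬 × ((Fin k → ℤ) × (ℤ × D.ζ))), c = fun ω =>
    (D.F ω, (D.Q ω, (D.W ω, (D.t ω, D.Z ω)))) := ⟨_, rfl⟩
  have b2 : Ic D.p D.R D.n2 (fun ω => (D.W ω, (D.Tm ω, D.gm ω))) = Ic D.p D.R D.n2 c := by
    rw [hc]
    refine Ic_congr hp.nonneg ?_ ?_ <;> intro ω ω' a a' h <;>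
      simp only [Tm, gm, Prod.mk.injEq] at h ⊢
    · obtain ⟨e1, ⟨e2, e3⟩, e4, e5, e6⟩ := h
      exact ⟨e3, e5, e1, t_of hD a a' e2 e1 e5 e6, e6⟩
    · obtain ⟨e1, e2, e3, e4, e5⟩ := h
      have e6 := nt_of hD a a' e4 e3 e2 e5
      exact ⟨e3, ⟨e6, e1⟩, hi_of_nt e6, e2, e5⟩
  have b3 := Ic_near_right hp.nonneg D.R D.nh D.n2 c
  have b4 : CH D.p D.n2 (fun ω => (D.nh ω, c ω)) ≤ 2 := by
    have h1 := CH_int hp D.n2 (fun ω => (D.nh ω, c ω)) (c := 1) (fun ω ω' a a' h => ?_)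
    · refine h1.trans ?_
      have := log_lin (x := 2) (by norm_num)
      norm_num at this ⊢
      exact this
    · rw [hc] at h
      simp only [Prod.mk.injEq] at h
      obtain ⟨e0, e1, e2, e3, e4, e5⟩ := h
      unfold n2
      unfold nh at e0
      rw [w_of_W e3, e1]
      unfold dg at e0 ⊢
      have h2 := Int.abs_sub_lt_one_of_floor_eq_floor e0
      have h3 : |2 ^ D.h * (D.nu ω - MvPolynomial.eval (D.w ω') (D.F ω')) -
          2 ^ D.h * (D.nu ω' - MvPolynomial.eval (D.w ω') (D.F ω'))| < 1 := by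
        have e : 2 ^ D.h * (D.nu ω - MvPolynomial.eval (D.w ω') (D.F ω')) -
          2 ^ D.h * (D.nu ω' - MvPolynomial.eval (D.w ω') (D.F ω')) =
          2 ^ D.h * D.nu ω - 2 ^ D.h * D.nu ω' := by ring
        rw [e]
        exact h2
      have h4 : |⌊2 ^ D.h * (D.nu ω - MvPolynomial.eval (D.w ω') (D.F ω'))⌋ -
          ⌊2 ^ D.h * (D.nu ω' - MvPolynomial.eval (D.w ω') (D.F ω'))⌋| ≤ 1 := by
        have c1 := Int.floor_le (2 ^ D.h * (D.nu ω - MvPolynomial.eval (D.w ω') (D.F ω')))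
        have c2 := Int.lt_floor_add_one (2 ^ D.h * (D.nu ω - MvPolynomial.eval (D.w ω') (D.F ω')))
        have c3 := Int.floor_le (2 ^ D.h * (D.nu ω' - MvPolynomial.eval (D.w ω') (D.F ω')))
        have c4 := Int.lt_floor_add_one
          (2 ^ D.h * (D.nu ω' - MvPolynomial.eval (D.w ω') (D.F ω')))
        rw [abs_lt] at h3
        rw [abs_le]
        constructor
        · have : ((⌊2 ^ D.h * (D.nu ω' - MvPolynomial.eval (D.w ω') (D.F ω'))⌋ : ℤ) : ℝ) <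
              (⌊2 ^ D.h * (D.nu ω - MvPolynomial.eval (D.w ω') (D.F ω'))⌋ + 2 : ℤ) := by
            push_cast
            linarith
          have := Int.cast_lt.1 this
          omega
        · have : ((⌊2 ^ D.h * (D.nu ω - MvPolynomial.eval (D.w ω') (D.F ω'))⌋ : ℤ) : ℝ) <
              (⌊2 ^ D.h * (D.nu ω' - MvPolynomial.eval (D.w ω') (D.F ω'))⌋ + 2 : ℤ) := by
            push_cast
            linarith
          have := Int.cast_lt.1 this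
          omega
      exact_mod_cast h4
  have b5 : Ic D.p D.R D.nh c ≤ 2 * θ := by
    have h1 : Ic D.p D.R D.nh c ≤ Ic D.p (fun ω => (D.F ω, D.R ω)) D.nh
        (fun ω => (D.Q ω, (D.W ω, (D.t ω, D.Z ω)))) := by
      rw [hc]
      exact Ic_cond_le' hp.nonneg D.R D.nh D.F (fun ω => (D.Q ω, (D.W ω, (D.t ω, D.Z ω))))
    have h2 : Ic D.p (fun ω => (D.F ω, D.R ω)) D.nh
        (fun ω => (D.Q ω, (D.W ω, (D.t ω, D.Z ω)))) ≤ Ic D.p (fun ω => (D.R ω, D.F ω)) D.nh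
        (fun ω => (D.Q ω, (D.W ω, (D.t ω, D.Z ω)))) :=
      Ic_mono_left hp.nonneg (fun ω ω' _ _ h => by
        simp only [Prod.mk.injEq] at h ⊢
        tauto)
    rw [Ic_chain' hp.nonneg D.nh D.R D.F] at h2
    have h3 := Ic_le_left hp.nonneg D.F D.nh
      (fun ω => (D.R ω, (D.Q ω, (D.W ω, (D.t ω, D.Z ω)))))
    have h4 : CH D.p D.F (fun ω => (D.R ω, (D.Q ω, (D.W ω, (D.t ω, D.Z ω))))) ≤
        CH D.p D.F (fun ω => (D.nt ω, (D.Q ω, D.Z ω))) := by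
      refine CH_mono_cond hp.nonneg fun ω ω' a a' h => ?_
      simp only [Prod.mk.injEq] at h ⊢
      obtain ⟨e1, e2, e3, e4, e5⟩ := h
      exact ⟨nt_of hD a a' e4 e3 e2 e5, e2, e5⟩
    have h5 := hI.few
    have h6 : Ic D.p D.R D.nh (fun ω => (D.Q ω, (D.W ω, (D.t ω, D.Z ω)))) ≤ θ := by
      rw [Ic_symm hp.nonneg]
      have h7 := hI.nuQR
      have h8 : CH D.p D.nh (fun ω => (D.Q ω, (D.W ω, (D.t ω, D.Z ω)))) ≤
          CH D.p D.nh (fun ω => (D.W ω, (D.t ω, D.Z ω))) :=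
        CH_mono_cond hp.nonneg (fun ω ω' _ _ h => (Prod.ext_iff.1 h).2)
      unfold Ic
      linarith
    linarith
  rw [b2] at b0
  linarith

end Cd

end Pool.TIE
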