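import Pool.Agent.H88.TIE.Phi

/-!
# The core: first application of W0
-/

set_option autoImplicit false

namespace Pool.TIE

open Finset Real
open Pool.Agent.H49.Ent Pool.Agent.H32.Dense Pool.STK Pool.BFL Pool.MIC Pool.LBL Pool.GLM
open Pool.M5 Pool.M5.L31 Pool.SLO

namespace Cd

variable {k : ℕ} {D : Cd k} {K : ℕ} {q : Om D K → ℝ} {θ d δ : ℝ} {k₀ c₂ x : ℕ}

/-- The scaled height over the interpolated leaf. -/
noncomputable def xh (D : Cd k) (K c₂ : ℕ) (u : Om D K) : ℝ :=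
  (D.nut u.2 - (D.psi K u).eval (D.th u.2)) / 2 ^ c₂

/-- The time to `x` digits. -/
noncomputable def Yt (D : Cd k) (K x : ℕ) (u : Om D K) : Fin 1 → ℤ := fun _ =>
  D.lo u.2 / 2 ^ (D.M - D.r - x)

theorem Yt_eq (hD : D.Ok K) (hx : x ≤ D.h) (u : Om D K) (i : Fin 1) :
    D.Yt K x u i = dg x (D.th u.2) := by
  have h1 := r_le_M hD
  have hh : x ≤ D.M - D.r := by omega
  rw [dg_coarse hh]
  unfold Yt dg th
  congr 1
  have : (2 : ℝ) ^ (D.M - D.r) * ((D.lo u.2 : ℝ) / 2 ^ (D.M - D.r)) = D.lo u.2 := by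
    field_simp
  rw [this, Int.floor_intCast]

theorem Yt_of {u u' : Om D K} (h : D.nt u.2 = D.nt u'.2) : D.Yt K x u = D.Yt K x u' := by
  unfold Yt
  rw [lo_of_nt h]

theorem xh_n1 (u : Om D K) : D.xh K c₂ u =
    (D.n1 u.2 : ℝ) / 2 ^ D.h / 2 ^ c₂ + (D.dif K c₂ u).eval (D.th u.2) := by
  rw [dif_eval]
  unfold xh nut
  ring

theorem xh_near (hD : D.Ok K) (hδ : 0 ≤ δ) (hx : x ≤ D.h)
    (hδx : ((K : ℝ) + 1) ^ k * δ ≤ 1 / 2 ^ x) {u : Om D K} (hA : D.Apx K k₀ δ u) :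
    |D.xh K c₂ u - (D.nu u.2 - (MvPolynomial.eval (D.w u.2) (D.F u.2) -
      MvPolynomial.coeff 0 (D.F u.2))) / 2 ^ c₂| ≤ 3 / 2 ^ x := by
  have h1 := nut_near hD u.2
  have h2 := (psi_apx hD hδ hA).trans hδx
  have h3 : (0 : ℝ) < 2 ^ c₂ := by positivity
  have h4 : (2 : ℝ) / 2 ^ D.h ≤ 2 / 2 ^ x :=
    div_le_div_of_nonneg_left (by norm_num) (by positivity) (pow_le_pow_right₀ (by norm_num) hx)
  have h5 : D.xh K c₂ u - (D.nu u.2 - (MvPolynomial.eval (D.w u.2) (D.F u.2) -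
      MvPolynomial.coeff 0 (D.F u.2))) / 2 ^ c₂ =
      ((D.nut u.2 - D.nu u.2) - ((D.psi K u).eval (D.th u.2) -
        (MvPolynomial.eval (D.w u.2) (D.F u.2) - MvPolynomial.coeff 0 (D.F u.2)))) / 2 ^ c₂ := by
    unfold xh
    ring
  rw [h5, abs_div, abs_of_pos h3]
  refine (div_le_self (abs_nonneg _) (one_le_pow₀ (by norm_num))).trans ?_
  have h6 : (3 : ℝ) / 2 ^ x = 2 / 2 ^ x + 1 / 2 ^ x := by ring
  rw [h6]
  exact (abs_sub _ _).trans (add_le_add (h1.trans h4) h2)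

theorem xh_n2 (hD : D.Ok K) (hδ : 0 ≤ δ) (hx : x ≤ D.h)
    (hδx : ((K : ℝ) + 1) ^ k * δ ≤ 1 / 2 ^ x) {u : Om D K} (hA : D.Apx K k₀ δ u) :
    |D.xh K c₂ u - ((D.n2 u.2 : ℝ) / 2 ^ D.h + MvPolynomial.coeff 0 (D.F u.2)) / 2 ^ c₂| ≤
      4 / 2 ^ x := by
  have h1 := xh_near (c₂ := c₂) hD hδ hx hδx hA
  have h2 := dg_le D.h (D.nu u.2 - MvPolynomial.eval (D.w u.2) (D.F u.2))
  have h3 : (0 : ℝ) < 2 ^ c₂ := by positivity
  have h4 : (1 : ℝ) / 2 ^ D.h ≤ 1 / 2 ^ x :=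
    div_le_div_of_nonneg_left (by norm_num) (by positivity) (pow_le_pow_right₀ (by norm_num) hx)
  have h5 : |(D.nu u.2 - (MvPolynomial.eval (D.w u.2) (D.F u.2) -
      MvPolynomial.coeff 0 (D.F u.2))) / 2 ^ c₂ -
      ((D.n2 u.2 : ℝ) / 2 ^ D.h + MvPolynomial.coeff 0 (D.F u.2)) / 2 ^ c₂| ≤ 1 / 2 ^ x := by
    rw [← sub_div, abs_div, abs_of_pos h3]
    refine (div_le_self (abs_nonneg _) (one_le_pow₀ (by norm_num))).trans ?_
    have e : D.nu u.2 - (MvPolynomial.eval (D.w u.2) (D.F u.2) -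
        MvPolynomial.coeff 0 (D.F u.2)) - ((D.n2 u.2 : ℝ) / 2 ^ D.h +
          MvPolynomial.coeff 0 (D.F u.2)) =
        D.nu u.2 - MvPolynomial.eval (D.w u.2) (D.F u.2) - (D.n2 u.2 : ℝ) / 2 ^ D.h := by ring
    rw [e]
    exact h2.trans h4
  have h6 : (4 : ℝ) / 2 ^ x = 3 / 2 ^ x + 1 / 2 ^ x := by ring
  rw [h6]
  have h7 := (abs_add_le _ _).trans (add_le_add h1 h5)
  rwa [sub_add_sub_cancel] at h7

/-- The height over the interpolated leaf is near a function of `n2` and the time. -/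
theorem CH_xh_n2 (hD : D.Ok K) (hF : D.Fx K q θ d) (hA : ∀ u, 0 < q u → D.Apx K k₀ δ u)
    (hδ : 0 ≤ δ) (hx : x ≤ D.h) (hδx : ((K : ℝ) + 1) ^ k * δ ≤ 1 / 2 ^ x) :
    CH q (fun u => dg x (D.xh K c₂ u))
      (fun u => (D.n2 u.2, (D.Tm u.2, (D.ref K u, D.gm u.2)))) ≤ 18 := by
  have h := CH_nearL hF.law (D.xh K c₂)
    (fun u => ((D.n2 u.2 : ℝ) / 2 ^ D.h + MvPolynomial.coeff 0 (D.F u.2)) / 2 ^ c₂)
    (fun u => (D.n2 u.2, (D.Tm u.2, (D.ref K u, D.gm u.2)))) (fun u u' _ _ h => by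
      simp only [Tm, Prod.mk.injEq] at h
      simp only
      rw [h.1, h.2.1.2]) (c := 4) (by norm_num) x (fun u hu => xh_n2 hD hδ hx hδx (hA u hu))
  norm_num at h
  exact h

/-- (H1) -/
theorem w1_H1 (hD : D.Ok K) (hF : D.Fx K q θ d) (hA : ∀ u, 0 < q u → D.Apx K k₀ δ u)
    (hδ : 0 ≤ δ) (hx : x ≤ D.h) (hδx : ((K : ℝ) + 1) ^ k * δ ≤ 1 / 2 ^ x) :
    Ic q (D.kap K c₂) (fun u => (dg x (D.xh K c₂ u), D.Yt K x u))
      (fun u => (D.ref K u, D.gm u.2)) ≤ 2 * θ + 18 := by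
  have hq := hF.law.nonneg
  obtain ⟨G, hG⟩ : ∃ G : Om D K → (Fin (K + 1) → ℤ × Pl k) × (ℤ × (D.𝒬 × D.ζ)), G = fun u =>
    (D.ref K u, D.gm u.2) := ⟨_, rfl⟩
  rw [← hG]
  have h1 : Ic q (D.kap K c₂) (fun u => (dg x (D.xh K c₂ u), D.Yt K x u)) G ≤
      Ic q (fun u => D.L0 u.2) (fun u => (dg x (D.xh K c₂ u), D.Yt K x u)) G :=
    Ic_mono_left hq fun u u' hu hu' h => by
      rw [hG] at h
      simp only [Prod.mk.injEq] at h
      exact kap_of hD (hF.supp u hu).1 (hF.supp u' hu').1 h.1 h.2.1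
  have h2 : Ic q (fun u => D.L0 u.2) (fun u => (dg x (D.xh K c₂ u), D.Yt K x u)) G ≤
      Ic q (fun u => D.L0 u.2) (fun u => (D.Tm u.2, dg x (D.xh K c₂ u))) G :=
    Ic_mono_right hq fun u u' _ _ h => by
      simp only [Tm, Prod.mk.injEq] at h ⊢
      exact ⟨h.1.2, Yt_of h.1.1.1⟩
  rw [Ic_chain hq (fun u => D.L0 u.2) (fun u => D.Tm u.2) (fun u => dg x (D.xh K c₂ u)) G] at h2
  have h3 : Ic q (fun u => D.L0 u.2) (fun u => D.Tm u.2) G ≤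
      Ic q (fun u => D.Lm u.2) (fun u => D.Tm u.2) G :=
    Ic_mono_left hq fun u u' _ _ h => (Prod.ext_iff.1 (Prod.ext_iff.1 h).1).2
  have h4 := Ic_near_right hq (fun u => D.L0 u.2) (fun u => D.n2 u.2)
    (fun u => dg x (D.xh K c₂ u)) (fun u => (D.Tm u.2, G u))
  have h5 := hF.i1
  have h6 := hF.i2
  have h7 := CH_xh_n2 (c₂ := c₂) hD hF hA hδ hx hδx
  rw [hG] at h1 h2 h3 h4 ⊢
  linarith

/-- (H2) -/
theorem w1_H2 (hD : D.Ok K) (hF : D.Fx K q θ d) (hx : x ≤ D.h) :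
    (x : ℝ) * Real.log 2 - θ ≤ CH q (D.Yt K x) (fun u =>
      (dg x ((D.n1 u.2 : ℝ) / 2 ^ D.h / 2 ^ c₂), (D.kap K c₂ u, (D.ref K u, D.gm u.2)))) := by
  have hq := hF.law.nonneg
  have hM := r_le_M hD
  have h1 := full_fst hF.law (fun u => D.lo u.2) (fun u => (D.Lm u.2, D.ref K u))
    (X := D.M - D.r) (r := x) (by omega) hF.f4
  refine h1.trans ?_
  have h2 : CH q (fun u => D.lo u.2 / 2 ^ (D.M - D.r - x)) (fun u => (D.Lm u.2, D.ref K u)) ≤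
      CH q (D.Yt K x) (fun u => (D.Lm u.2, D.ref K u)) :=
    CH_mono_left hq fun u u' _ _ h => congrFun (Prod.ext_iff.1 h).1 0
  refine h2.trans (CH_mono_cond hq fun u u' hu hu' h => ?_)
  simp only [Prod.mk.injEq] at h ⊢
  obtain ⟨e1, e2⟩ := h
  have e3 : D.n1 u.2 = D.n1 u'.2 := (Prod.ext_iff.1 e1).1
  have e4 : D.L0 u.2 = D.L0 u'.2 := (Prod.ext_iff.1 e1).2
  refine ⟨by rw [e3], kap_of hD (hF.supp u hu).1 (hF.supp u' hu').1 e4 e2, e2, ?_⟩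
  exact gm_L u.2 u'.2 (hF.supp u hu).1 (hF.supp u' hu').1 e1

theorem log_pow_le' (b : ℕ) : Real.log (4 * (2 ^ b + 4) + 3) ≤ b + 5 := by
  have h1 : (4 : ℝ) * (2 ^ b + 4) + 3 ≤ 2 ^ (b + 5) := by
    have h2 : (1 : ℝ) ≤ 2 ^ b := one_le_pow₀ (by norm_num)
    have h3 : (2 : ℝ) ^ (b + 5) = 32 * 2 ^ b := by ring
    rw [h3]
    linarith
  have h2 := Real.log_le_log (by positivity) h1
  rw [Real.log_pow] at h2
  have h3 : Real.log 2 ≤ 1 := by linarith [Real.log_two_lt_d9]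
  have h4 : ((b + 5 : ℕ) : ℝ) * Real.log 2 ≤ ((b + 5 : ℕ) : ℝ) * 1 :=
    mul_le_mul_of_nonneg_left h3 (Nat.cast_nonneg _)
  push_cast at h2 h4
  linarith

theorem Fx.sub (hF : D.Fx K q θ d) : SubL D.p d q (fun u => u.2) := ⟨hF.law, hF.dens⟩

/-- (H3) -/
theorem w1_H3 {c₀ κ : ℝ} (hD : D.Ok K) (hF : D.Fx K q θ d)
    (hA : ∀ u, 0 < q u → D.Apx K k₀ δ u) (hN : D.NFc c₀ κ d) (hc₁ : c₀ ≤ 1)
    (hδ : 0 ≤ δ) (hx : x ≤ D.h) (hδx : ((K : ℝ) + 1) ^ k * δ ≤ 1 / 2 ^ x)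
    (hκ : 0 ≤ κ) (hcx : c₂ + κ * D.h ≤ x)
    (hc : ((K : ℝ) + 1) ^ (k + 2) * 2 ^ (K + k₀ * K) * 2 ^ D.b + 2 ^ D.e ≤ 2 ^ c₂) :
    CH q (fun u => dg x (D.xh K c₂ u)) (fun u => (D.Yt K x u, (D.ref K u, D.gm u.2))) ≤
      (1 - c₀) * (x * Real.log 2) + (2 * θ + 2 * D.b + 4 * K + 100) := by
  have hq := hF.law.nonneg
  have hl2 : 0 < Real.log 2 := Real.log_pos (by norm_num)
  have hκh : 0 ≤ κ * D.h := by positivity
  have hc2x : c₂ ≤ x := by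
    have : (c₂ : ℝ) ≤ x := by linarith
    exact_mod_cast this
  obtain ⟨G, hG⟩ : ∃ G : Om D K → (Fin (K + 1) → ℤ × Pl k) × (ℤ × (D.𝒬 × D.ζ)), G = fun u =>
    (D.ref K u, D.gm u.2) := ⟨_, rfl⟩
  obtain ⟨N, hN'⟩ : ∃ N : Om D K → ℤ, N = fun u => dg x (D.xh K c₂ u) := ⟨_, rfl⟩
  have h7 : CH q N (fun u => (D.n2 u.2, (D.Tm u.2, G u))) ≤ 18 := by
    rw [hN', hG]
    exact CH_xh_n2 (c₂ := c₂) hD hF hA hδ hx hδx
  have i1 : Ic q (fun u => D.Lm u.2) (fun u => D.Tm u.2) G ≤ θ := by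
    rw [hG]
    exact hF.i1
  have i2 : Ic q (fun u => D.L0 u.2) (fun u => D.n2 u.2) (fun u => (D.Tm u.2, G u)) ≤ θ := by
    rw [hG]
    exact hF.i2
  -- remove the time
  have a1 := CH_indep hq N (fun u => D.Tm u.2) (fun u => (D.Yt K x u, G u))
  have a2 := Ic_near_right hq (fun u => D.Tm u.2) (fun u => D.Lm u.2) N
    (fun u => (D.Yt K x u, G u))
  have a3 : CH q N (fun u => (D.Lm u.2, (D.Yt K x u, G u))) ≤ 4 * K + 2 := by
    rw [hN']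
    refine CH_nearL hF.law (D.xh K c₂) (fun u => (D.n1 u.2 : ℝ) / 2 ^ D.h / 2 ^ c₂ +
      (D.dif K c₂ u).eval ((D.Yt K x u 0 : ℝ) / 2 ^ x)) _ ?_ (by positivity) x ?_
    · intro u u' hu hu' h
      rw [hG] at h
      simp only [Prod.mk.injEq] at h
      obtain ⟨e1, e2, e3, e4⟩ := h
      have e5 : D.n1 u.2 = D.n1 u'.2 := (Prod.ext_iff.1 e1).1
      have e6 : D.L0 u.2 = D.L0 u'.2 := (Prod.ext_iff.1 e1).2
      simp only
      rw [e5, dif_of hD (hF.supp u hu).1 (hF.supp u' hu').1 e6 e3, e2]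
    · intro u hu
      have e1 : D.xh K c₂ u - ((D.n1 u.2 : ℝ) / 2 ^ D.h / 2 ^ c₂ +
          (D.dif K c₂ u).eval ((D.Yt K x u 0 : ℝ) / 2 ^ x)) =
          (D.dif K c₂ u).eval (D.th u.2) - (D.dif K c₂ u).eval ((D.Yt K x u 0 : ℝ) / 2 ^ x) := by
        rw [xh_n1]
        ring
      rw [e1, Yt_eq hD hx]
      have e2 := dg_le x (D.th u.2)
      have e3 : |(dg x (D.th u.2) : ℝ) / 2 ^ x| ≤ 1 := by
        obtain ⟨t1, t2⟩ := th_mem (D := D) u.2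
        have hh : (0 : ℝ) < 2 ^ x := by positivity
        have e4 := Int.floor_le ((2 : ℝ) ^ x * D.th u.2)
        have e5 : 0 ≤ ⌊(2 : ℝ) ^ x * D.th u.2⌋ := by
          rw [Int.floor_nonneg]
          positivity
        have e6 : (0 : ℝ) ≤ ⌊(2 : ℝ) ^ x * D.th u.2⌋ := by exact_mod_cast e5
        unfold dg
        rw [abs_of_nonneg (by positivity), div_le_one hh]
        nlinarith
      have e4 := lip_l1 (D.dif K c₂ u) (th_abs (D := D) u.2) e3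
      refine e4.trans ?_
      have e5 : ((D.dif K c₂ u).natDegree : ℝ) ≤ K := by exact_mod_cast dif_deg hD (hA u hu)
      have e6 := dif_l1 hD (hA u hu) hc
      have e7 : ((D.dif K c₂ u).natDegree : ℝ) * l1 (D.dif K c₂ u) ≤ K * 1 :=
        mul_le_mul e5 e6 (l1_nn _) (Nat.cast_nonneg _)
      exact (mul_le_mul e7 e2 (abs_nonneg _) (by positivity)).trans (le_of_eq (by ring))
  have a4 : Ic q (fun u => D.Tm u.2) (fun u => D.Lm u.2) (fun u => (D.Yt K x u, G u)) ≤ θ := by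
    have b1 := Ic_cond_le' hq (fun u => D.Tm u.2) (fun u => D.Lm u.2) (D.Yt K x) G
    have b2 : Ic q (fun u => (D.Yt K x u, D.Tm u.2)) (fun u => D.Lm u.2) G ≤
        Ic q (fun u => D.Tm u.2) (fun u => D.Lm u.2) G :=
      Ic_mono_left hq fun u u' _ _ h => by
        simp only [Tm, Prod.mk.injEq] at h ⊢
        exact ⟨Yt_of h.1.1, h.1⟩
    have b3 := Ic_symm hq (fun u => D.Tm u.2) (fun u => D.Lm u.2) G
    linarith
  -- the position in the condition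
  have a5 : CH q N (fun u => (D.Tm u.2, (D.Yt K x u, G u))) ≤ CH q N (fun u => (D.Tm u.2, G u)) :=
    CH_mono_cond hq fun u u' _ _ h => by
      simp only [Prod.mk.injEq] at h ⊢
      exact ⟨h.1, h.2.2⟩
  have a6 := CH_indep hq N (fun u => D.W u.2) (fun u => (D.Tm u.2, G u))
  have a7 := Ic_near_right hq (fun u => D.W u.2) (fun u => D.n2 u.2) N (fun u => (D.Tm u.2, G u))
  have a8 : Ic q (fun u => D.W u.2) (fun u => D.n2 u.2) (fun u => (D.Tm u.2, G u)) ≤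
      Ic q (fun u => D.L0 u.2) (fun u => D.n2 u.2) (fun u => (D.Tm u.2, G u)) :=
    Ic_mono_left hq fun u u' _ _ h => (Prod.ext_iff.1 (Prod.ext_iff.1 h).1).1
  -- nonfull
  obtain ⟨c, hcd⟩ : ∃ c : Om D K → _, c = fun u => (D.W u.2, (D.Tm u.2, G u)) := ⟨_, rfl⟩
  have a9 : CH q N c ≤ CH q N (fun u => (dg 0 (D.xh K c₂ u), c u)) +
      CH q (fun u => dg 0 (D.xh K c₂ u)) c := CH_few hq N (fun u => dg 0 (D.xh K c₂ u)) c
  have a10 := nf_gen hF.law (fun u => D.nu u.2) (D.xh K c₂)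
    (fun u => MvPolynomial.eval (D.w u.2) (D.F u.2) - MvPolynomial.coeff 0 (D.F u.2)) c
    (fun u => (D.W u.2, (D.t u.2, D.Z u.2))) (fun u u' hu hu' h => by
      rw [hcd] at h
      simp only [Tm, Prod.mk.injEq] at h
      simp only
      rw [w_of_W h.1, h.2.1.2]) (fun u u' hu hu' h => by
      rw [hcd, hG] at h
      simp only [Tm, gm, Prod.mk.injEq] at h ⊢
      obtain ⟨e1, ⟨e2, e3⟩, e4, e5, e6, e7⟩ := h
      exact ⟨e1, t_of hD (hF.supp u hu).1 (hF.supp u' hu').1 e2 e1 e6 e7, e7⟩)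
    (b := D.b) (e := c₂) (r₁ := 0) (r₂ := x) (κ := 3) (by norm_num) hc2x (Nat.zero_le _)
    (fun u => hD.nu_le u.2) (fun u hu => xh_near hD hδ hx hδx (hA u hu))
  have a11 := hN (Om D K) q (fun u => u.2) hF.sub 0 (x - c₂) (Nat.zero_le _) (by omega) (by
    rw [Nat.cast_sub hc2x]
    push_cast
    linarith)
  rw [Nat.cast_sub hc2x] at a11
  push_cast at a11
  have a12 : (1 - c₀) * ((x : ℝ) - c₂ - 0) * Real.log 2 ≤ (1 - c₀) * (x * Real.log 2) := by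
    have : (x : ℝ) - c₂ - 0 ≤ x := by
      have := Nat.cast_nonneg (α := ℝ) c₂
      linarith
    have h1 := mul_le_mul_of_nonneg_left this (show (0 : ℝ) ≤ 1 - c₀ by linarith)
    have h2 := mul_le_mul_of_nonneg_right h1 hl2.le
    linarith
  have a13 : CH q (fun u => dg 0 (D.xh K c₂ u)) c ≤ D.b + 5 := by
    have b1 := CH_near hF.law (D.xh K c₂) (fun u => -(MvPolynomial.eval (D.w u.2) (D.F u.2) -
      MvPolynomial.coeff 0 (D.F u.2)) / 2 ^ c₂) c (fun u u' hu hu' h => by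
      rw [hcd] at h
      simp only [Tm, Prod.mk.injEq] at h
      simp only
      rw [w_of_W h.1, h.2.1.2]) (c := 2 ^ D.b + 4) 0 (fun u hu => by
      have e1 := xh_near (c₂ := c₂) hD hδ hx hδx (hA u hu)
      have e2 := hD.nu_le u.2
      have e3 : (0 : ℝ) < 2 ^ c₂ := by positivity
      have e4 : |D.nu u.2 / 2 ^ c₂| ≤ 2 ^ D.b := by
        rw [abs_div, abs_of_pos e3]
        exact (div_le_self (abs_nonneg _) (one_le_pow₀ (by norm_num))).trans e2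
      have e5 : (3 : ℝ) / 2 ^ x ≤ 3 := div_le_self (by norm_num) (one_le_pow₀ (by norm_num))
      have e6 : D.xh K c₂ u - -(MvPolynomial.eval (D.w u.2) (D.F u.2) -
          MvPolynomial.coeff 0 (D.F u.2)) / 2 ^ c₂ = (D.xh K c₂ u - (D.nu u.2 -
          (MvPolynomial.eval (D.w u.2) (D.F u.2) - MvPolynomial.coeff 0 (D.F u.2))) / 2 ^ c₂) +
          D.nu u.2 / 2 ^ c₂ := by ring
      rw [e6, pow_zero, div_one]
      refine (abs_add_le _ _).trans ?_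
      linarith)
    exact b1.trans (log_pow_le' D.b)
  have a10' : CH q N (fun u => (dg 0 (D.xh K c₂ u), c u)) ≤
      CH q (fun u => dg (x - c₂) (D.nu u.2))
        (fun u => (dg (0 - c₂) (D.nu u.2), (D.W u.2, (D.t u.2, D.Z u.2)))) +
        (8 * 3 + 15 + D.b) := by
    rw [hN']
    exact a10
  rw [Nat.zero_sub] at a10'
  have a9' : CH q N (fun u => (D.W u.2, (D.Tm u.2, G u))) = CH q N c := by rw [hcd]
  have a14 : (0 : ℝ) ≤ D.b := Nat.cast_nonneg _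
  have goal : CH q N (fun u => (D.Yt K x u, G u)) ≤
      (1 - c₀) * (x * Real.log 2) + (2 * θ + 2 * D.b + 4 * K + 100) := by linarith
  rw [hN', hG] at goal
  exact goal

end Cd

/-- **The first application of W0.** -/
theorem w1 : W1Stmt := by
  intro k K c₀ hc₀ hc₁
  obtain ⟨σ, ι, C, X₀, hσ, hσ1, hι, hC, hw⟩ := w0r 1 K (c₀ / 2) (K + 2) (by positivity)
    (by linarith) (by positivity)
  obtain ⟨ι₁, hι₁⟩ : ∃ ι₁ : ℝ, ι₁ = min (ι / 4) (c₀ / 64) := ⟨_, rfl⟩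
  have hι₁0 : 0 < ι₁ := by rw [hι₁]; exact lt_min (by positivity) (by positivity)
  have hι₁a : ι₁ ≤ ι / 4 := by rw [hι₁]; exact min_le_left _ _
  have hι₁b : ι₁ ≤ c₀ / 64 := by rw [hι₁]; exact min_le_right _ _
  obtain ⟨X₁, hX₁⟩ : ∃ X₁ : ℕ, X₁ = X₀ + ⌈36 / ι⌉₊ + ⌈8 * (4 * K + 100) / c₀⌉₊ := ⟨_, rfl⟩
  refine ⟨σ, ι₁, 19 * C, X₁, hσ, hσ1, hι₁0, by linarith, ?_⟩
  intro D q θ d δ κ k₀ c₂ x s hD hF hA hN hxX hx hκ hcx hθx hθ hδ hs hδx _ hc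
  have hl2 : (1 : ℝ) / 2 ≤ Real.log 2 := by linarith [Real.log_two_gt_d9]
  have hx0 : (0 : ℝ) ≤ x := Nat.cast_nonneg _
  have x1 : 36 / ι ≤ x := by
    have h1 := Nat.le_ceil (36 / ι)
    have h2 : ((⌈36 / ι⌉₊ : ℕ) : ℝ) ≤ x := by exact_mod_cast (by omega : ⌈36 / ι⌉₊ ≤ x)
    linarith
  have x2 : 8 * (4 * K + 100) / c₀ ≤ x := by
    have h1 := Nat.le_ceil (8 * (4 * (K : ℝ) + 100) / c₀)
    have h2 : ((⌈8 * (4 * (K : ℝ) + 100) / c₀⌉₊ : ℕ) : ℝ) ≤ x := by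
      exact_mod_cast (by omega : ⌈8 * (4 * (K : ℝ) + 100) / c₀⌉₊ ≤ x)
    linarith
  rw [div_le_iff₀ hι] at x1
  rw [div_le_iff₀ hc₀] at x2
  have hb0 : (0 : ℝ) ≤ D.b := Nat.cast_nonneg _
  have hc20 : (0 : ℝ) ≤ c₂ := Nat.cast_nonneg _
  have e1 : ι₁ * x ≤ ι / 4 * x := mul_le_mul_of_nonneg_right hι₁a hx0
  have e2 : ι₁ * x ≤ c₀ / 64 * x := mul_le_mul_of_nonneg_right hι₁b hx0
  have hq := hF.law.nonneg
  obtain ⟨E, hE, hE2⟩ := hw (Om D K) _ q x s (fun u => (D.ref K u, D.gm u.2)) (D.Yt K x)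
    (fun u => dg x ((D.n1 u.2 : ℝ) / 2 ^ D.h / 2 ^ c₂)) (fun u => dg x (D.xh K c₂ u))
    (D.kap K c₂) (2 * θ + 18) hF.law (by omega) (by linarith) (by linarith) hs
    (fun u _ i => by
      rw [Cd.Yt_eq hD hx]
      obtain ⟨t1, t2⟩ := Cd.th_mem (D := D) u.2
      have hh : (0 : ℝ) < 2 ^ x := by positivity
      have e4 := Int.floor_le ((2 : ℝ) ^ x * D.th u.2)
      have e5 : 0 ≤ ⌊(2 : ℝ) ^ x * D.th u.2⌋ := by
        rw [Int.floor_nonneg]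
        positivity
      have e6 : (0 : ℝ) ≤ ⌊(2 : ℝ) ^ x * D.th u.2⌋ := by exact_mod_cast e5
      unfold dg
      rw [abs_of_nonneg e6]
      nlinarith)
    (fun u hu => Cd.kap_deg hD (hA u hu))
    (fun u hu α _ => (coeff_le_ml _ α).trans (Cd.kap_ml hD (hA u hu) hc))
    (fun u hu => by
      rw [Cd.kap_eval, Cd.Yt_eq hD hx]
      have g1 := Cd.floor_diff (2 ^ x * ((D.n1 u.2 : ℝ) / 2 ^ D.h / 2 ^ c₂))
        (2 ^ x * D.xh K c₂ u)
      have g2 : 2 ^ x * D.xh K c₂ u - 2 ^ x * ((D.n1 u.2 : ℝ) / 2 ^ D.h / 2 ^ c₂) =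
          2 ^ x * (D.dif K c₂ u).eval (D.th u.2) := by
        rw [Cd.xh_n1]
        ring
      rw [g2] at g1
      have hh : (0 : ℝ) < 2 ^ x := by positivity
      have e2 := dg_le x (D.th u.2)
      have e3 : |(dg x (D.th u.2) : ℝ) / 2 ^ x| ≤ 1 := by
        obtain ⟨t1, t2⟩ := Cd.th_mem (D := D) u.2
        have e4 := Int.floor_le ((2 : ℝ) ^ x * D.th u.2)
        have e5 : 0 ≤ ⌊(2 : ℝ) ^ x * D.th u.2⌋ := by
          rw [Int.floor_nonneg]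
          positivity
        have e6 : (0 : ℝ) ≤ ⌊(2 : ℝ) ^ x * D.th u.2⌋ := by exact_mod_cast e5
        unfold dg
        rw [abs_of_nonneg (by positivity), div_le_one hh]
        nlinarith
      have e4 := lip_l1 (D.dif K c₂ u) (Cd.th_abs (D := D) u.2) e3
      have e5 : ((D.dif K c₂ u).natDegree : ℝ) ≤ K := by exact_mod_cast Cd.dif_deg hD (hA u hu)
      have e6 := Cd.dif_l1 hD (hA u hu) hc
      have e7 : ((D.dif K c₂ u).natDegree : ℝ) * l1 (D.dif K c₂ u) ≤ K * 1 :=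
        mul_le_mul e5 e6 (l1_nn _) (Nat.cast_nonneg _)
      have e8 := e4.trans (mul_le_mul e7 e2 (abs_nonneg _) (by positivity))
      have e9 : |2 ^ x * (D.dif K c₂ u).eval (D.th u.2) -
          2 ^ x * (D.dif K c₂ u).eval ((dg x (D.th u.2) : ℝ) / 2 ^ x)| ≤ K := by
        rw [← mul_sub, abs_mul, abs_of_pos hh]
        refine (mul_le_mul_of_nonneg_left e8 hh.le).trans (le_of_eq ?_)
        field_simp
      unfold dg at e9 ⊢
      rw [abs_le] at g1 e9 ⊢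
      constructor <;> linarith)
    (by
      have h1 := Cd.w1_H1 (c₂ := c₂) hD hF hA hδ hx hδx
      unfold Ic at h1
      have h2 : CH q (D.kap K c₂) (fun u => ((dg x (D.xh K c₂ u), D.Yt K x u),
          (D.ref K u, D.gm u.2))) = CH q (D.kap K c₂) (fun u => (dg x (D.xh K c₂ u),
            (D.Yt K x u, (D.ref K u, D.gm u.2)))) := by
        refine CH_congr hq (fun _ _ _ _ h => (Prod.ext_iff.1 h).1)
          (fun _ _ _ _ h => (Prod.ext_iff.1 h).1) ?_ ?_ <;> intro u u' _ _ h <;>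
          simp only [Prod.mk.injEq] at h ⊢ <;> tauto
      linarith)
    (by
      have h1 := Cd.w1_H2 (c₂ := c₂) hD hF hx
      push_cast
      linarith)
    (by
      have h1 := Cd.w1_H3 hD hF hA hN hc₁ hδ hx hδx hκ hcx hc
      have h2 : c₀ / 4 * x ≤ c₀ / 2 * (x * Real.log 2) := by
        have h3 : (x : ℝ) * (1 / 2) ≤ x * Real.log 2 := mul_le_mul_of_nonneg_left hl2 hx0
        have h4 := mul_le_mul_of_nonneg_left h3 (by positivity : (0 : ℝ) ≤ c₀ / 2)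
        linarith
      have h5 : 0 ≤ c₀ * x := by positivity
      linarith)
  refine ⟨E, by linarith, hE2.trans ?_⟩
  have h1 : 0 ≤ C * θ := by positivity
  linarith

end Pool.TIE
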