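import Pool.Agent.H88.TIE.Avi
import Pool.Agent.H88.TIE.W1
import Pool.Agent.H88.TIE.Ftb

/-!
# The core: assembly, part one
-/

set_option autoImplicit false

namespace Pool.TIE

open Finset Real
open Pool.Agent.H49.Ent Pool.Agent.H32.Dense Pool.STK Pool.BFL Pool.MIC Pool.LBL Pool.GLM
open Pool.K2S Pool.KAF Pool.M5 Pool.SLO

theorem exists_le_list (l : List ℝ) (h : ∀ t ∈ l, 0 < t) : ∃ η : ℝ, 0 < η ∧ ∀ t ∈ l, η ≤ t := by
  induction l with
  | nil => exact ⟨1, one_pos, fun t ht => absurd ht (by simp)⟩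
  | cons a l ih =>
    obtain ⟨η, h1, h2⟩ := ih fun t ht => h t (List.mem_cons_of_mem a ht)
    refine ⟨min a η, lt_min (h a (by simp)) h1, fun t ht => ?_⟩
    rcases List.mem_cons.1 ht with rfl | ht
    · exact min_le_left _ _
    · exact (min_le_right _ _).trans (h2 t ht)

theorem exists_ge_list (l : List ℝ) : ∃ A : ℝ, 1 ≤ A ∧ ∀ t ∈ l, t ≤ A := by
  induction l with
  | nil => exact ⟨1, le_rfl, fun t ht => absurd ht (by simp)⟩
  | cons a l ih =>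
    obtain ⟨A, h1, h2⟩ := ih
    refine ⟨max a A, h1.trans (le_max_right _ _), fun t ht => ?_⟩
    rcases List.mem_cons.1 ht with rfl | ht
    · exact le_max_left _ _
    · exact (h2 t ht).trans (le_max_right _ _)

theorem pow_K (K k : ℕ) : ((K : ℝ) + 1) ^ k ≤ 2 ^ (k * (K + 1)) := by
  have h1 : ((K : ℝ) + 1) ≤ 2 ^ (K + 1) := by
    have : K + 1 < 2 ^ (K + 1) := Nat.lt_two_pow_self
    have h2 : ((K + 1 : ℕ) : ℝ) ≤ ((2 ^ (K + 1) : ℕ) : ℝ) := by exact_mod_cast this.le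
    push_cast at h2
    exact h2
  calc ((K : ℝ) + 1) ^ k ≤ (2 ^ (K + 1)) ^ k := pow_le_pow_left₀ (by positivity) h1 k
    _ = 2 ^ (k * (K + 1)) := by
      rw [← pow_mul]
      congr 1
      ring

theorem floor_half {a : ℝ} {h : ℕ} (h2 : 2 ≤ a * h) :
    a * h / 2 ≤ (⌊a * (h : ℝ)⌋₊ : ℝ) := by
  have h1 := Nat.lt_floor_add_one (a * (h : ℝ))
  linarith

namespace Cd

variable {k : ℕ} {D : Cd k} {K : ℕ}

theorem NFc.mono {c₀ c κ κ' d d' : ℝ} (h : D.NFc c₀ κ d) (hc : c ≤ c₀) (hκ : κ ≤ κ')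
    (hd : d ≤ d') : D.NFc c κ' d' := by
  intro Ω' _ q f hs r r' hr hr' hκr
  have hs' : SubL D.p d q f := ⟨hs.isLaw, fun ω =>
    (mul_le_mul_of_nonneg_right hd (law_nonneg hs.isLaw.nonneg _ _)).trans (hs.dens ω)⟩
  have h1 := h Ω' q f hs' r r' hr hr' (by
    have h2 : κ * D.h ≤ κ' * D.h := mul_le_mul_of_nonneg_right hκ (Nat.cast_nonneg _)
    linarith)
  refine h1.trans ?_
  have h2 : (0 : ℝ) ≤ (r' : ℝ) - r := by
    have : (r : ℝ) ≤ r' := by exact_mod_cast hr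
    linarith
  have h3 : 0 ≤ Real.log 2 := (Real.log_pos (by norm_num)).le
  have h4 : (1 - c₀) * ((r' : ℝ) - r) ≤ (1 - c) * ((r' : ℝ) - r) :=
    mul_le_mul_of_nonneg_right (by linarith) h2
  exact mul_le_mul_of_nonneg_right h4 h3

/-- The height of the sheet is full. -/
theorem NT_full (hD : D.Ok K) {θ : ℝ} (hI : D.Inf θ) :
    D.M * Real.log 2 - (θ + D.B + 1) ≤
      CH D.p D.NT (fun ω => (D.n1 ω, (D.W ω, (D.R ω, (D.Q ω, D.Z ω))))) := by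
  have hp := hD.law
  have h1 := hI.fullt
  have h2 : CH D.p D.t (fun ω => (D.n1 ω, (D.W ω, (D.R ω, (D.Q ω, D.Z ω))))) ≤
      CH D.p D.NT (fun ω => (D.n1 ω, (D.W ω, (D.R ω, (D.Q ω, D.Z ω))))) := by
    refine CH_mono_left hp.nonneg fun ω ω' a a' h => ?_
    simp only [Prod.mk.injEq] at h
    obtain ⟨e1, e2, e3, e4, e5, e6⟩ := h
    have e7 : D.nt ω = D.nt ω' := by
      unfold NT at e1
      linarith
    exact t_of hD a a' e7 e3 e5 e6
  have h3 : (D.M : ℝ) = D.X + D.B + 1 := by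
    unfold M
    push_cast
    ring
  have hl2 : Real.log 2 ≤ 1 := by linarith [Real.log_two_lt_d9]
  have hB : (0 : ℝ) ≤ D.B := Nat.cast_nonneg _
  rw [h3]
  nlinarith

/-- From the event of L1 to the interpolation. -/
theorem apx_of {κ₂ : ℝ} {k₀ : ℕ} {u : Om D K}
    (h : ¬ ((∃ j j', j ≠ j' ∧ |D.th (u.1 j) - D.th (u.1 j')| < (2 : ℝ) ^ (-(k₀ : ℤ))) ∨
      ∃ i : Mon k K, (2 : ℝ) ^ (-(κ₂ * D.h)) < |D.cof K u.2 i -
        (Lagrange.interpolate univ (fun j => D.th (u.1 j))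
          (fun j => D.cof K (u.1 j) i)).eval (D.th u.2)|)) :
    D.Apx K k₀ (2 ^ D.e * (2 : ℝ) ^ (-(κ₂ * D.h))) u := by
  push Not at h
  obtain ⟨h1, h2⟩ := h
  refine ⟨h1, fun i => ?_⟩
  have h3 := h2 i
  have h4 : (0 : ℝ) < 2 ^ D.e := by positivity
  have h5 : (fun j => D.cof K (u.1 j) i) = (1 / (2 : ℝ) ^ D.e) • fun j =>
      MvPolynomial.coeff (Finsupp.equivFunOnFinite.symm (i : Fin k → ℕ)) (D.F (u.1 j)) := by
    funext j
    rw [Pi.smul_apply, smul_eq_mul]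
    unfold cof
    ring
  rw [h5, map_smul, Polynomial.eval_smul, smul_eq_mul] at h3
  have h6 : D.cof K u.2 i = (1 / 2 ^ D.e) *
      MvPolynomial.coeff (Finsupp.equivFunOnFinite.symm (i : Fin k → ℕ)) (D.F u.2) := by
    unfold cof
    ring
  rw [h6, ← mul_sub, abs_mul, abs_of_pos (by positivity : (0 : ℝ) < 1 / 2 ^ D.e)] at h3
  have h7 := mul_le_mul_of_nonneg_left h3 h4.le
  refine le_trans (le_of_eq ?_) h7
  unfold phi
  field_simp

/-- The precision of the interpolation. -/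
theorem prec {κ₂ : ℝ} {x : ℕ} (h : ((k * (K + 1) : ℕ) : ℝ) + D.e + x ≤ κ₂ * D.h) :
    ((K : ℝ) + 1) ^ k * (2 ^ D.e * (2 : ℝ) ^ (-(κ₂ * D.h))) ≤ 1 / 2 ^ x := by
  have h1 := pow_K K k
  have h2 : (0 : ℝ) < 2 ^ x := by positivity
  have h3 : (0 : ℝ) < (2 : ℝ) ^ (-(κ₂ * D.h)) := Real.rpow_pos_of_pos (by norm_num) _
  rw [le_div_iff₀ h2]
  have h4 : ((K : ℝ) + 1) ^ k * (2 ^ D.e * (2 : ℝ) ^ (-(κ₂ * D.h))) * 2 ^ x ≤
      2 ^ (k * (K + 1)) * (2 ^ D.e * (2 : ℝ) ^ (-(κ₂ * D.h))) * 2 ^ x := by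
    refine mul_le_mul_of_nonneg_right (mul_le_mul_of_nonneg_right h1 ?_) h2.le
    positivity
  refine h4.trans ?_
  have h5 : (2 : ℝ) ^ (k * (K + 1)) * (2 ^ D.e * (2 : ℝ) ^ (-(κ₂ * D.h))) * 2 ^ x =
      (2 : ℝ) ^ (((k * (K + 1) : ℕ) : ℝ) + D.e + x - κ₂ * D.h) := by
    rw [← Real.rpow_natCast 2 (k * (K + 1)), ← Real.rpow_natCast 2 D.e, ← Real.rpow_natCast 2 x,
      ← Real.rpow_add (by norm_num), ← Real.rpow_add (by norm_num), ← Real.rpow_add (by norm_num)]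
    congr 1
    ring
  rw [h5]
  exact Real.rpow_le_one_of_one_le_of_nonpos (by norm_num) (by linarith)

end Cd

end Pool.TIE
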