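import Pool.Agent.H19.TIE.GluV

/-!
# Mixed boxes

Two systems `S`, `S'` with the sides `g`, `g'`: the mixed system has the sides `max g g'`, and the
sheet of the system which is deeper. If the two systems are near on the mixed boxes, up to the
coarser side, then the mixed boxes are contained in the boxes of both systems.
-/

set_option autoImplicit false

namespace Pool.GLV

open Finset MvPolynomial
open Pool.Agent.H49.Ent Pool.Agent.H32.Dense Pool.STK Pool.KA Pool.STAT Pool.STAT.Glu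
open Pool.STAT.CLO
open Pool.TIE (mxs)

/-- The sides of the mixed boxes. -/
def gx (g g' : ℕ → ℕ) (l : ℕ) : ℕ := max (g l) (g' l)

theorem tr_mxs {K : ℕ} {g g' : ℕ → ℕ} {S S' : ℕ → PN} (h : Tr K S) (h' : Tr K S') :
    Tr K (mxs g g' S S') := by
  refine ⟨fun l => ?_, fun l => ?_⟩
  · unfold mxs
    split_ifs
    · exact h'.tri l
    · exact h.tri l
  · unfold mxs
    split_ifs
    · exact h'.deg l
    · exact h.deg l

/-- The two systems are near on the mixed boxes. -/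
def Mn (B z : ℕ) (P : ℝ → Prop) (g g' : ℕ → ℕ) (S S' : ℕ → PN) (m : ℕ) : Prop :=
  ∀ l, 1 ≤ l → l < m → ∀ b, Bt 1 P (gx g g') (mxs g g' S S') l b →
    |eval b (S' l) - eval b (S l)| ≤ 2 ^ (B * z) / 2 ^ min (g l) (g' l)

theorem two_add {z a b c : ℕ} (hz : (2 : ℝ) ≤ 2 ^ z) (ha : a ≤ c) (hb : b ≤ c) :
    (2 : ℝ) ^ (a * z) + 2 ^ (b * z) ≤ 2 ^ ((c + 1) * z) := by
  have e : (2 : ℝ) ^ ((c + 1) * z) = 2 ^ z * 2 ^ (c * z) := by
    rw [← pow_add]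
    congr 1
    ring
  have h1 : (2 : ℝ) ^ (a * z) ≤ 2 ^ (c * z) :=
    pow_le_pow_right₀ (by norm_num) (Nat.mul_le_mul_right _ ha)
  have h2 : (2 : ℝ) ^ (b * z) ≤ 2 ^ (c * z) :=
    pow_le_pow_right₀ (by norm_num) (Nat.mul_le_mul_right _ hb)
  have h3 : 2 * (2 : ℝ) ^ (c * z) ≤ 2 ^ z * 2 ^ (c * z) :=
    mul_le_mul_of_nonneg_right hz (by positivity)
  rw [e]
  linarith

theorem pw_le {z a b : ℕ} (h : a ≤ b) : (2 : ℝ) ^ (a * z) ≤ 2 ^ (b * z) :=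
  pow_le_pow_right₀ (by norm_num) (Nat.mul_le_mul_right _ h)

theorem div_pw {a : ℝ} (ha : 0 ≤ a) {k l : ℕ} (h : k ≤ l) : a / 2 ^ l ≤ a / 2 ^ k :=
  div_le_div_of_nonneg_left ha (by positivity) (pow_le_pow_right₀ (by norm_num) h)

/-- Dilation for `Mn`. -/
theorem Mn.dil {n K : ℕ} {C : ℝ} {B z x : ℕ} {P : ℝ → Prop} {g g' : ℕ → ℕ} {S S' : ℕ → PN}
    (hd : DilP n K C) (hz : 2 * C ≤ 2 ^ z) (hS : Tr K S) (hS' : Tr K S')
    (h : Mn B z P g g' S S' n) {l : ℕ} (l1 : 1 ≤ l) (l2 : l < n) {b : ℕ → ℝ}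
    (hb : Bt (2 ^ (x * z)) P (gx g g') (mxs g g' S S') l b) :
    |eval b (S' l) - eval b (S l)| ≤
      2 ^ ((K * (K + 1) ^ (n + 1) * x + 1 + B) * z) / 2 ^ min (g l) (g' l) := by
  have h1 := dil_sub (x := x) (y := K * (K + 1) ^ (n + 1) * x + 1) hd hz
    (tr_mxs (g := g) (g' := g') hS hS').tri (tr_mxs hS hS').deg l2.le (hS'.tri l) (hS.tri l)
    (hS'.deg l) (hS.deg l) (by positivity : (0 : ℝ) ≤ 2 ^ (B * z) / 2 ^ min (g l) (g' l)) le_rfl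
    (fun b' hb' => h l l1 l2 b' hb') hb
  refine h1.trans (le_of_eq ?_)
  rw [← mul_div_assoc, ← pow_add]
  congr 2
  ring

/-- **The mixed boxes are contained in the boxes of both systems.** -/
theorem mx_in (n K B x : ℕ) : ∃ y : ℕ, x ≤ y ∧ ∀ (C : ℝ) (z : ℕ) (P : ℝ → Prop)
    (g g' : ℕ → ℕ) (S S' : ℕ → PN), 1 ≤ C → DilP n K C → 2 * C ≤ 2 ^ z → Tr K S → Tr K S' →
    Mn B z P g g' S S' n → ∀ m ≤ n, ∀ b : ℕ → ℝ,
      Bt (2 ^ (x * z)) P (gx g g') (mxs g g' S S') m b →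
      Bt (2 ^ (y * z)) P g S m b ∧ Bt (2 ^ (y * z)) P g' S' m b := by
  obtain ⟨w, hw⟩ : ∃ w, w = K * (K + 1) ^ (n + 1) * x + 1 + B + x := ⟨_, rfl⟩
  refine ⟨w + 1, by omega, ?_⟩
  intro C z P g g' S S' hC hd hz hS hS' h m hm b hb
  have hz2 : (2 : ℝ) ≤ 2 ^ z := by linarith
  have key : ∀ l, 1 ≤ l → l < m → |b l - eval b (S l)| ≤ 2 ^ ((w + 1) * z) / 2 ^ g l ∧
      |b l - eval b (S' l)| ≤ 2 ^ ((w + 1) * z) / 2 ^ g' l := by
    intro l l1 l2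
    have a1 := hb.2 l l1 l2
    have a2 := h.dil (x := x) hd hz hS hS' l1 (by omega) (hb.mono le_rfl (fun _ h => h) l2.le)
    have a3 : (2 : ℝ) ^ ((K * (K + 1) ^ (n + 1) * x + 1 + B) * z) ≤ 2 ^ (w * z) :=
      pw_le (by omega)
    have a4 : (2 : ℝ) ^ (x * z) ≤ 2 ^ (w * z) := pw_le (by omega)
    have a5 : (2 : ℝ) ^ (w * z) + 2 ^ (w * z) ≤ 2 ^ ((w + 1) * z) := two_add hz2 le_rfl le_rfl
    have a6 : (0 : ℝ) < 2 ^ (w * z) := by positivity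
    rcases Nat.lt_or_ge (g l) (g' l) with hl | hl
    · have e1 : mxs g g' S S' l = S' l := by
        unfold mxs
        rw [if_pos hl]
      have e2 : gx g g' l = g' l := max_eq_right hl.le
      have e3 : min (g l) (g' l) = g l := min_eq_left hl.le
      rw [e1, e2] at a1
      rw [e3] at a2
      refine ⟨?_, a1.trans (div_le_div_of_nonneg_right (by linarith) (by positivity))⟩
      have e4 : b l - eval b (S l) = (b l - eval b (S' l)) + (eval b (S' l) - eval b (S l)) := by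
        ring
      rw [e4]
      refine (abs_add_le _ _).trans ((add_le_add (a1.trans (div_pw (by positivity) hl.le))
        a2).trans ?_)
      rw [← add_div]
      exact div_le_div_of_nonneg_right (by linarith) (by positivity)
    · have e1 : mxs g g' S S' l = S l := by
        unfold mxs
        rw [if_neg (by omega)]
      have e2 : gx g g' l = g l := max_eq_left hl
      have e3 : min (g l) (g' l) = g' l := min_eq_right hl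
      rw [e1, e2] at a1
      rw [e3] at a2
      refine ⟨a1.trans (div_le_div_of_nonneg_right (by linarith) (by positivity)), ?_⟩
      have e4 : b l - eval b (S' l) = (b l - eval b (S l)) - (eval b (S' l) - eval b (S l)) := by
        ring
      rw [e4]
      refine (abs_sub _ _).trans ((add_le_add (a1.trans (div_pw (by positivity) hl))
        a2).trans ?_)
      rw [← add_div]
      exact div_le_div_of_nonneg_right (by linarith) (by positivity)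
  exact ⟨⟨hb.1, fun l l1 l2 => (key l l1 l2).1⟩, ⟨hb.1, fun l l1 l2 => (key l l1 l2).2⟩⟩

/-- `Nr` with the same sides, dilated. -/
theorem nr_dil {n K N : ℕ} {C : ℝ} {z x : ℕ} {P : ℝ → Prop} {g : ℕ → ℕ} {Ψ Φ : ℕ → PN}
    (hd : DilP n K C) (hz : 2 * C ≤ 2 ^ z) (hΨ : Tr K Ψ) (hΦ : Tr K Φ)
    (h : Nr 0 z P g g Ψ Φ N) {l : ℕ} (l1 : 1 ≤ l) (l2 : l < N) (l3 : l ≤ n) {b : ℕ → ℝ}
    (hb : Bt (2 ^ (x * z)) P g Ψ l b) :
    |eval b (Φ l) - eval b (Ψ l)| ≤ 2 ^ ((K * (K + 1) ^ (n + 1) * x + 1) * z) / 2 ^ g l := by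
  have h1 := dil_sub (x := x) (y := K * (K + 1) ^ (n + 1) * x + 1) hd hz hΨ.tri hΨ.deg l3
    (hΦ.tri l) (hΨ.tri l) (hΦ.deg l) (hΨ.deg l) (by positivity : (0 : ℝ) ≤ 1 / 2 ^ g l) le_rfl
    (fun b' hb' => by
      have := h l l1 l2 b' hb'
      rwa [Nat.zero_mul, pow_zero] at this) hb
  rwa [mul_one_div] at h1

/-- The sheets of the mixed systems are near where both pairs of sheets are near. -/
theorem mxs_near {g g' : ℕ → ℕ} {Ψ Ψ' Φ Φ' : ℕ → PN} {l : ℕ} {b : ℕ → ℝ} {a : ℝ}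
    (h : |eval b (Φ l) - eval b (Ψ l)| ≤ a / 2 ^ g l)
    (h' : |eval b (Φ' l) - eval b (Ψ' l)| ≤ a / 2 ^ g' l) :
    |eval b (mxs g g' Φ Φ' l) - eval b (mxs g g' Ψ Ψ' l)| ≤ a / 2 ^ gx g g' l := by
  unfold mxs gx
  rcases Nat.lt_or_ge (g l) (g' l) with hl | hl
  · rw [if_pos hl, if_pos hl, max_eq_right hl.le]
    exact h'
  · rw [if_neg (by omega), if_neg (by omega), max_eq_left hl]
    exact h

/-- **From the mixed boxes of the line sides to the mixed boxes of the visible sides**, the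
visible sides are near on the mixed boxes. -/
theorem mx_back (n K B x : ℕ) : ∃ Y : ℕ, x ≤ Y ∧ ∀ (C : ℝ) (z : ℕ) (P : ℝ → Prop)
    (g g' : ℕ → ℕ) (Ψ Ψ' Φ Φ' : ℕ → PN), 1 ≤ C → DilP n K C → 2 * C ≤ 2 ^ z → Tr K Ψ →
    Tr K Ψ' → Tr K Φ → Tr K Φ' → Mn B z P g g' Ψ Ψ' n → Nr 0 z P g g Ψ Φ n →
    Nr 0 z P g' g' Ψ' Φ' n → ∀ m ≤ n, ∀ b : ℕ → ℝ,
      Bt (2 ^ (x * z)) P (gx g g') (mxs g g' Φ Φ') m b →
      Bt (2 ^ (Y * z)) P (gx g g') (mxs g g' Ψ Ψ') m b := by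
  have main : ∀ N : ℕ, ∃ Y : ℕ, x ≤ Y ∧ ∀ (C : ℝ) (z : ℕ) (P : ℝ → Prop)
      (g g' : ℕ → ℕ) (Ψ Ψ' Φ Φ' : ℕ → PN), 1 ≤ C → DilP n K C → 2 * C ≤ 2 ^ z → Tr K Ψ →
      Tr K Ψ' → Tr K Φ → Tr K Φ' → Mn B z P g g' Ψ Ψ' n → Nr 0 z P g g Ψ Φ n →
      Nr 0 z P g' g' Ψ' Φ' n → ∀ m ≤ N, m ≤ n → ∀ b : ℕ → ℝ,
        Bt (2 ^ (x * z)) P (gx g g') (mxs g g' Φ Φ') m b →
        Bt (2 ^ (Y * z)) P (gx g g') (mxs g g' Ψ Ψ') m b := by
    intro N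
    induction N with
    | zero =>
      refine ⟨x, le_rfl, ?_⟩
      intro C z P g g' Ψ Ψ' Φ Φ' _ _ _ _ _ _ _ _ _ _ m hm _ b hb
      exact ⟨hb.1, fun l _ l2 => absurd l2 (by omega)⟩
    | succ N ih =>
      obtain ⟨Y, hxY, ih⟩ := ih
      obtain ⟨y, hYy, hin⟩ := mx_in n K B Y
      obtain ⟨w, hw⟩ : ∃ w, w = K * (K + 1) ^ (n + 1) * y + 1 + Y := ⟨_, rfl⟩
      refine ⟨w + 1, by omega, ?_⟩
      intro C z P g g' Ψ Ψ' Φ Φ' hC hd hz h1 h2 h3 h4 hM n1 n2 m hm hmn b hb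
      have hz2 : (2 : ℝ) ≤ 2 ^ z := by linarith
      have a5 : (2 : ℝ) ^ (w * z) + 2 ^ (w * z) ≤ 2 ^ ((w + 1) * z) := two_add hz2 le_rfl le_rfl
      have a6 : (0 : ℝ) < 2 ^ (w * z) := by positivity
      have a7 : (2 : ℝ) ^ (Y * z) ≤ 2 ^ (w * z) := pw_le (by omega)
      refine ⟨hb.1, fun l l1 l2 => ?_⟩
      have b1 := ih C z P g g' Ψ Ψ' Φ Φ' hC hd hz h1 h2 h3 h4 hM n1 n2 l (by omega) (by omega) b
        (hb.mono le_rfl (fun _ h => h) l2.le)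
      obtain ⟨c1, c2⟩ := hin C z P g g' Ψ Ψ' hC hd hz h1 h2 hM l (by omega) b b1
      have d1 := nr_dil hd hz h1 h3 n1 l1 (by omega) (by omega) c1
      have d2 := nr_dil hd hz h2 h4 n2 l1 (by omega) (by omega) c2
      have d3 := mxs_near d1 d2
      have d4 := hb.2 l l1 l2
      have e4 : b l - eval b (mxs g g' Ψ Ψ' l) = (b l - eval b (mxs g g' Φ Φ' l)) +
          (eval b (mxs g g' Φ Φ' l) - eval b (mxs g g' Ψ Ψ' l)) := by ring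
      rw [e4]
      refine (abs_add_le _ _).trans ((add_le_add d4 d3).trans ?_)
      rw [← add_div]
      refine div_le_div_of_nonneg_right ?_ (by positivity)
      have a8 : (2 : ℝ) ^ (x * z) ≤ 2 ^ (w * z) := pw_le (by omega)
      have a9 : (2 : ℝ) ^ ((K * (K + 1) ^ (n + 1) * y + 1) * z) ≤ 2 ^ (w * z) := pw_le (by omega)
      linarith
  obtain ⟨Y, h1, h2⟩ := main n
  exact ⟨Y, h1, fun C z P g g' Ψ Ψ' Φ Φ' a1 a2 a3 a4 a5 a6 a7 a8 a9 a10 m hm b hb =>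
    h2 C z P g g' Ψ Ψ' Φ Φ' a1 a2 a3 a4 a5 a6 a7 a8 a9 a10 m hm hm b hb⟩

/-- `incl'` with one exponent. -/
theorem inc (n K x : ℕ) : ∃ y : ℕ, x ≤ y ∧ ∀ (C : ℝ) (z : ℕ) (P : ℝ → Prop) (g : ℕ → ℕ)
    (Ψ Φ : ℕ → PN), 1 ≤ C → DilP n K C → 2 * C ≤ 2 ^ z → Tr K Ψ → Tr K Φ →
    Nr 0 z P g g Ψ Φ n → ∀ m ≤ n, ∀ b : ℕ → ℝ, Bt (2 ^ (x * z)) P g Φ m b →
      Bt (2 ^ (y * z)) P g Ψ m b := by
  refine ⟨upr (K * (K + 1) ^ (n + 1)) n x, le_upr n x, ?_⟩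
  intro C z P g Ψ Φ hC hd hz h1 h2 hN m hm b hb
  have h3 := incl' (x := x) hC hd hz h1.tri h2.tri h1.deg h2.deg (fun l l1 l2 b hb => by
    have := hN l l1 l2 b hb
    rwa [abs_sub_comm, Nat.zero_mul, pow_zero] at this) hm hb m le_rfl
  exact h3.mono (pw_le (upr_mono hm)) (fun _ h => h) le_rfl

/-- **From the mixed boxes of the visible sides to the mixed boxes of the line sides**, the line
sides are near on the mixed boxes. -/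
theorem mx_fwd (n K B x : ℕ) : ∃ Y : ℕ, x ≤ Y ∧ ∀ (C : ℝ) (z : ℕ) (P : ℝ → Prop)
    (g g' : ℕ → ℕ) (Ψ Ψ' Φ Φ' : ℕ → PN), 1 ≤ C → DilP n K C → 2 * C ≤ 2 ^ z → Tr K Ψ →
    Tr K Ψ' → Tr K Φ → Tr K Φ' → Mn B z P g g' Φ Φ' n → Nr 0 z P g g Ψ Φ n →
    Nr 0 z P g' g' Ψ' Φ' n → ∀ m ≤ n, ∀ b : ℕ → ℝ,
      Bt (2 ^ (x * z)) P (gx g g') (mxs g g' Ψ Ψ') m b →
      Bt (2 ^ (Y * z)) P (gx g g') (mxs g g' Φ Φ') m b := by
  have main : ∀ N : ℕ, ∃ Y : ℕ, x ≤ Y ∧ ∀ (C : ℝ) (z : ℕ) (P : ℝ → Prop)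
      (g g' : ℕ → ℕ) (Ψ Ψ' Φ Φ' : ℕ → PN), 1 ≤ C → DilP n K C → 2 * C ≤ 2 ^ z → Tr K Ψ →
      Tr K Ψ' → Tr K Φ → Tr K Φ' → Mn B z P g g' Φ Φ' n → Nr 0 z P g g Ψ Φ n →
      Nr 0 z P g' g' Ψ' Φ' n → ∀ m ≤ N, m ≤ n → ∀ b : ℕ → ℝ,
        Bt (2 ^ (x * z)) P (gx g g') (mxs g g' Ψ Ψ') m b →
        Bt (2 ^ (Y * z)) P (gx g g') (mxs g g' Φ Φ') m b := by
    intro N
    induction N with
    | zero =>
      refine ⟨x, le_rfl, ?_⟩
      intro C z P g g' Ψ Ψ' Φ Φ' _ _ _ _ _ _ _ _ _ _ m hm _ b hb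
      exact ⟨hb.1, fun l _ l2 => absurd l2 (by omega)⟩
    | succ N ih =>
      obtain ⟨Y, hxY, ih⟩ := ih
      obtain ⟨y, hYy, hin⟩ := mx_in n K B Y
      obtain ⟨y', hyy', hinc⟩ := inc n K y
      obtain ⟨w, hw⟩ : ∃ w, w = K * (K + 1) ^ (n + 1) * y' + 1 + Y := ⟨_, rfl⟩
      refine ⟨w + 1, by omega, ?_⟩
      intro C z P g g' Ψ Ψ' Φ Φ' hC hd hz h1 h2 h3 h4 hM n1 n2 m hm hmn b hb
      have hz2 : (2 : ℝ) ≤ 2 ^ z := by linarith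
      have a5 : (2 : ℝ) ^ (w * z) + 2 ^ (w * z) ≤ 2 ^ ((w + 1) * z) := two_add hz2 le_rfl le_rfl
      have a6 : (0 : ℝ) < 2 ^ (w * z) := by positivity
      refine ⟨hb.1, fun l l1 l2 => ?_⟩
      have b1 := ih C z P g g' Ψ Ψ' Φ Φ' hC hd hz h1 h2 h3 h4 hM n1 n2 l (by omega) (by omega) b
        (hb.mono le_rfl (fun _ h => h) l2.le)
      obtain ⟨c1, c2⟩ := hin C z P g g' Φ Φ' hC hd hz h3 h4 hM l (by omega) b b1
      have c3 := hinc C z P g Ψ Φ hC hd hz h1 h3 n1 l (by omega) b c1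
      have c4 := hinc C z P g' Ψ' Φ' hC hd hz h2 h4 n2 l (by omega) b c2
      have d1 := nr_dil hd hz h1 h3 n1 l1 (by omega) (by omega) c3
      have d2 := nr_dil hd hz h2 h4 n2 l1 (by omega) (by omega) c4
      have d3 := mxs_near d1 d2
      have d4 := hb.2 l l1 l2
      have e4 : b l - eval b (mxs g g' Φ Φ' l) = (b l - eval b (mxs g g' Ψ Ψ' l)) -
          (eval b (mxs g g' Φ Φ' l) - eval b (mxs g g' Ψ Ψ' l)) := by ring
      rw [e4]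
      refine (abs_sub _ _).trans ((add_le_add d4 d3).trans ?_)
      rw [← add_div]
      refine div_le_div_of_nonneg_right ?_ (by positivity)
      have a8 : (2 : ℝ) ^ (x * z) ≤ 2 ^ (w * z) := pw_le (by omega)
      have a9 : (2 : ℝ) ^ ((K * (K + 1) ^ (n + 1) * y' + 1) * z) ≤ 2 ^ (w * z) := pw_le (by omega)
      linarith
  obtain ⟨Y, h1, h2⟩ := main n
  exact ⟨Y, h1, fun C z P g g' Ψ Ψ' Φ Φ' a1 a2 a3 a4 a5 a6 a7 a8 a9 a10 m hm b hb =>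
    h2 C z P g g' Ψ Ψ' Φ Φ' a1 a2 a3 a4 a5 a6 a7 a8 a9 a10 m hm hm b hb⟩

/-- **The line sides are near on the mixed boxes**, from the visible sides. -/
theorem mn_conv (n K B : ℕ) : ∃ B' : ℕ, B ≤ B' ∧ ∀ (C : ℝ) (z : ℕ) (P : ℝ → Prop)
    (g g' : ℕ → ℕ) (Ψ Ψ' Φ Φ' : ℕ → PN), 1 ≤ C → DilP n K C → 2 * C ≤ 2 ^ z → Tr K Ψ →
    Tr K Ψ' → Tr K Φ → Tr K Φ' → Mn B z P g g' Ψ Ψ' n → Nr 0 z P g g Ψ Φ n →
    Nr 0 z P g' g' Ψ' Φ' n → Mn B' z P g g' Φ Φ' n := by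
  obtain ⟨Y, -, hback⟩ := mx_back n K B 0
  obtain ⟨y, hYy, hin⟩ := mx_in n K B Y
  obtain ⟨w, hw⟩ : ∃ w, w = K * (K + 1) ^ (n + 1) * y + 1 + B +
    K * (K + 1) ^ (n + 1) * Y := ⟨_, rfl⟩
  refine ⟨w + 1 + 1, by omega, ?_⟩
  intro C z P g g' Ψ Ψ' Φ Φ' hC hd hz h1 h2 h3 h4 hM n1 n2 l l1 l2 b hb
  have hz2 : (2 : ℝ) ≤ 2 ^ z := by linarith
  have b1 := hback C z P g g' Ψ Ψ' Φ Φ' hC hd hz h1 h2 h3 h4 hM n1 n2 l l2.le b
    (by rw [Nat.zero_mul, pow_zero]; exact hb)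
  obtain ⟨c1, c2⟩ := hin C z P g g' Ψ Ψ' hC hd hz h1 h2 hM l l2.le b b1
  have d0 := hM.dil (x := Y) hd hz h1 h2 l1 l2 b1
  have d1 := (nr_dil hd hz h1 h3 n1 l1 l2 l2.le c1).trans
    (div_pw (by positivity) (min_le_left (g l) (g' l)))
  have d2 := (nr_dil hd hz h2 h4 n2 l1 l2 l2.le c2).trans
    (div_pw (by positivity) (min_le_right (g l) (g' l)))
  have e1 : eval b (Φ' l) - eval b (Φ l) = (eval b (Φ' l) - eval b (Ψ' l)) +
      (eval b (Ψ' l) - eval b (Ψ l)) - (eval b (Φ l) - eval b (Ψ l)) := by ring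
  rw [e1]
  refine (abs_sub _ _).trans ((add_le_add ((abs_add_le _ _).trans (add_le_add d2 d0)) d1).trans ?_)
  rw [← add_div, ← add_div]
  refine div_le_div_of_nonneg_right ?_ (by positivity)
  have a1 : (2 : ℝ) ^ ((K * (K + 1) ^ (n + 1) * y + 1) * z) ≤ 2 ^ (w * z) := pw_le (by omega)
  have a2 : (2 : ℝ) ^ ((K * (K + 1) ^ (n + 1) * Y + 1 + B) * z) ≤ 2 ^ (w * z) := pw_le (by omega)
  have a5 : (2 : ℝ) ^ (w * z) + 2 ^ (w * z) ≤ 2 ^ ((w + 1) * z) := two_add hz2 le_rfl le_rfl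
  have a6 : (2 : ℝ) ^ ((w + 1) * z) + 2 ^ ((w + 1) * z) ≤ 2 ^ ((w + 1 + 1) * z) :=
    two_add hz2 le_rfl le_rfl
  have a7 : (0 : ℝ) < 2 ^ (w * z) := by positivity
  linarith

end Pool.GLV
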