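import Pool.Agent.H88.TIE.Inf

/-!
# The core: nonfull digits of the height over a leaf
-/

set_option autoImplicit false

namespace Pool.TIE

open Finset Real
open Pool.Agent.H49.Ent Pool.Agent.H32.Dense Pool.STK Pool.BFL Pool.MIC

theorem log_pow_le (b : ℕ) : Real.log (4 * 2 ^ b + 3) ≤ b + 3 := by
  have h1 : (4 : ℝ) * 2 ^ b + 3 ≤ 2 ^ (b + 3) := by
    have h2 : (1 : ℝ) ≤ 2 ^ b := one_le_pow₀ (by norm_num)
    have h3 : (2 : ℝ) ^ (b + 3) = 8 * 2 ^ b := by ring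
    rw [h3]
    linarith
  have h2 := Real.log_le_log (by positivity) h1
  rw [Real.log_pow] at h2
  have h3 : Real.log 2 ≤ 1 := by linarith [Real.log_two_lt_d9]
  have h4 : ((b + 3 : ℕ) : ℝ) * Real.log 2 ≤ ((b + 3 : ℕ) : ℝ) * 1 :=
    mul_le_mul_of_nonneg_left h3 (Nat.cast_nonneg _)
  push_cast at h2 h4
  linarith

/-- Digits of a number which is near `(ν - a) / 2 ^ e`, and digits of `ν`. -/
theorem nf_gen {Ω C E : Type} [Fintype Ω] {q : Ω → ℝ} (hq : IsLaw q) (nu x a : Ω → ℝ) (c : Ω → C)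
    (d : Ω → E) (ha : Det q c a) (hd : Det q c d) {b e r₁ r₂ : ℕ} {κ : ℝ} (hκ : 0 ≤ κ)
    (he : e ≤ r₂) (hr : r₁ ≤ r₂) (hnu : ∀ ω, |nu ω| ≤ 2 ^ b)
    (hx : ∀ ω, 0 < q ω → |x ω - (nu ω - a ω) / 2 ^ e| ≤ κ / 2 ^ r₂) :
    CH q (fun ω => dg r₂ (x ω)) (fun ω => (dg r₁ (x ω), c ω)) ≤
      CH q (fun ω => dg (r₂ - e) (nu ω)) (fun ω => (dg (r₁ - e) (nu ω), d ω)) +
        (8 * κ + 15 + b) := by
  have hp := hq.nonneg
  have h2e : (0 : ℝ) < 2 ^ e := by positivity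
  -- step one
  have s1 := CH_le_add hp (fun ω => dg r₂ (x ω)) (fun ω => dg (r₂ - e) (nu ω))
    (fun ω => (dg r₁ (x ω), c ω))
  have s2 : CH q (fun ω => dg r₂ (x ω))
      (fun ω => (dg (r₂ - e) (nu ω), (dg r₁ (x ω), c ω))) ≤ 4 * (κ + 1) + 2 := by
    refine CH_nearL hq x (fun ω => ((dg (r₂ - e) (nu ω) : ℝ) / 2 ^ (r₂ - e) - a ω) / 2 ^ e) _
      ?_ (by linarith) r₂ ?_
    · intro ω ω' h h' hh
      simp only [Prod.mk.injEq] at hh
      obtain ⟨e1, _, e2⟩ := hh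
      simp only
      rw [e1, ha ω ω' h h' e2]
    · intro ω hω
      have h1 := hx ω hω
      have h2 := dg_le (r₂ - e) (nu ω)
      have h3 : (2 : ℝ) ^ r₂ = 2 ^ (r₂ - e) * 2 ^ e := by
        rw [← pow_add]
        congr 1
        omega
      have h4 : x ω - ((dg (r₂ - e) (nu ω) : ℝ) / 2 ^ (r₂ - e) - a ω) / 2 ^ e =
          (x ω - (nu ω - a ω) / 2 ^ e) +
            (nu ω - (dg (r₂ - e) (nu ω) : ℝ) / 2 ^ (r₂ - e)) / 2 ^ e := by ring
      have h5 : |(nu ω - (dg (r₂ - e) (nu ω) : ℝ) / 2 ^ (r₂ - e)) / 2 ^ e| ≤ 1 / 2 ^ r₂ := by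
        rw [abs_div, abs_of_pos h2e, h3, ← div_div]
        exact div_le_div_of_nonneg_right h2 h2e.le
      rw [h4, add_div]
      exact (abs_add_le _ _).trans (add_le_add h1 h5)
  have s3 : CH q (fun ω => dg (r₂ - e) (nu ω)) (fun ω => (dg r₁ (x ω), c ω)) ≤
      CH q (fun ω => dg (r₂ - e) (nu ω)) (fun ω => (dg (r₁ - e) (nu ω),
        (dg r₁ (x ω), c ω))) + CH q (fun ω => dg (r₁ - e) (nu ω)) (fun ω => (dg r₁ (x ω), c ω)) :=
    CH_few hp _ _ _
  have s4 : CH q (fun ω => dg (r₂ - e) (nu ω)) (fun ω => (dg (r₁ - e) (nu ω),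
        (dg r₁ (x ω), c ω))) ≤
      CH q (fun ω => dg (r₂ - e) (nu ω)) (fun ω => (dg (r₁ - e) (nu ω), d ω)) := by
    refine CH_mono_cond hp fun ω ω' h h' hh => ?_
    simp only [Prod.mk.injEq] at hh ⊢
    exact ⟨hh.1, hd ω ω' h h' hh.2.2⟩
  have s5 : CH q (fun ω => dg (r₁ - e) (nu ω)) (fun ω => (dg r₁ (x ω), c ω)) ≤
      4 * (κ + 1) + 2 + (b + 3) := by
    by_cases hre : e ≤ r₁
    · have h0 : CH q (fun ω => dg (r₁ - e) (nu ω)) (fun ω => (dg r₁ (x ω), c ω)) ≤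
          4 * (κ + 1) + 2 := by
        refine CH_nearL hq nu (fun ω => 2 ^ e * ((dg r₁ (x ω) : ℝ) / 2 ^ r₁) + a ω) _
          ?_ (by linarith) (r₁ - e) ?_
        · intro ω ω' h h' hh
          simp only [Prod.mk.injEq] at hh
          obtain ⟨e1, e2⟩ := hh
          simp only
          rw [e1, ha ω ω' h h' e2]
        · intro ω hω
          have h1 := hx ω hω
          have h2 := dg_le r₁ (x ω)
          have h3 : (2 : ℝ) ^ r₁ = 2 ^ (r₁ - e) * 2 ^ e := by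
            rw [← pow_add]
            congr 1
            omega
          have h4 : nu ω - (2 ^ e * ((dg r₁ (x ω) : ℝ) / 2 ^ r₁) + a ω) =
              2 ^ e * ((x ω - (dg r₁ (x ω) : ℝ) / 2 ^ r₁) - (x ω - (nu ω - a ω) / 2 ^ e)) := by
            field_simp
            ring
          have h5 : |(x ω - (dg r₁ (x ω) : ℝ) / 2 ^ r₁) - (x ω - (nu ω - a ω) / 2 ^ e)| ≤
              (κ + 1) / 2 ^ r₁ := by
            have h6 : κ / 2 ^ r₂ ≤ κ / 2 ^ r₁ :=
              div_le_div_of_nonneg_left hκ (by positivity) (pow_le_pow_right₀ (by norm_num) hr)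
            rw [add_div, add_comm (κ / 2 ^ r₁)]
            refine (abs_sub _ _).trans (add_le_add h2 (h1.trans h6))
          rw [h4, abs_mul, abs_of_pos h2e]
          refine (mul_le_mul_of_nonneg_left h5 h2e.le).trans (le_of_eq ?_)
          rw [h3]
          field_simp
      have : (0 : ℝ) ≤ b := Nat.cast_nonneg _
      linarith
    · have h1 : r₁ - e = 0 := by omega
      rw [h1]
      have h2 : CH q (fun ω => dg 0 (nu ω)) (fun ω => (dg r₁ (x ω), c ω)) ≤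
          Real.log (4 * 2 ^ b + 3) := by
        refine CH_near hq nu (fun _ => 0) _ (fun _ _ _ _ _ => rfl) 0 fun ω _ => ?_
        rw [sub_zero, pow_zero, div_one]
        exact hnu ω
      have h3 := log_pow_le b
      linarith
  linarith

end Pool.TIE
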