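import Pool.Agent.H88.TIE.Main

/-!
# The core: the output
-/

set_option autoImplicit false

namespace Pool.TIE

open Finset Real
open Pool.Agent.H49.Ent Pool.Agent.H32.Dense Pool.STK Pool.BFL Pool.MIC Pool.LBL Pool.GLM
open Pool.K2S Pool.KAF Pool.M5 Pool.SLO

variable {m K' s c₃ : ℕ}

/-- The polynomial from its first digits. -/
noncomputable def Go (m K' s c₃ : ℕ) (f : (Fin m →₀ ℕ) → ℤ) : Pl m :=
  MvPolynomial.C (2 ^ c₃) * Sp K' s f

theorem Go_deg (f : (Fin m →₀ ℕ) → ℤ) : (Go m K' s c₃ f).totalDegree ≤ K' := by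
  unfold Go
  refine (MvPolynomial.totalDegree_mul _ _).trans ?_
  rw [MvPolynomial.totalDegree_C, zero_add]
  exact Sp_deg K' s f

theorem Go_coeff {P : Pl m} {M : ℝ} (hM : ∀ α, |MvPolynomial.coeff α P| ≤ M)
    (α : Fin m →₀ ℕ) : |MvPolynomial.coeff α (Go m K' s c₃ (Pool.MIC.rk s P))| ≤ 2 ^ c₃ * (M + 1) := by
  have hM0 : 0 ≤ M := (abs_nonneg _).trans (hM 0)
  have h2 : (0 : ℝ) < 2 ^ s := by positivity
  have h3 : (0 : ℝ) < 2 ^ c₃ := by positivity
  unfold Go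
  rw [MvPolynomial.coeff_C_mul, abs_mul, abs_of_pos h3]
  refine mul_le_mul_of_nonneg_left ?_ h3.le
  rw [coeff_Sp']
  split_ifs
  · unfold Pool.MIC.rk
    by_cases h : α = 0
    · rw [if_pos h]
      simp only [Int.cast_zero, zero_div, abs_zero]
      linarith
    · rw [if_neg h]
      have h3 := dg_le s (MvPolynomial.coeff α P)
      have h4 : (1 : ℝ) / 2 ^ s ≤ 1 := by
        rw [div_le_one h2]
        exact one_le_pow₀ (by norm_num)
      have h5 := hM α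
      unfold dg at h3
      rw [abs_le] at h3 h5 ⊢
      constructor <;> linarith
  · rw [abs_zero]
    linarith

theorem Go_near {F : Pl m} (hF : F.totalDegree ≤ K') {z : Fin m → ℝ} (hz : ∀ i, |z i| ≤ 1) :
    |MvPolynomial.eval z (Go m K' s c₃ (Pool.MIC.rk s (MvPolynomial.C (1 / 2 ^ c₃) * F))) -
      (MvPolynomial.eval z F - MvPolynomial.coeff 0 F)| ≤
      ((K' : ℝ) + 1) ^ m * 2 ^ c₃ / 2 ^ s := by
  have h2 : (0 : ℝ) < 2 ^ s := by positivity
  have h3 : (0 : ℝ) < 2 ^ c₃ := by positivity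
  obtain ⟨P, hP⟩ : ∃ P : Pl m, P = MvPolynomial.C (1 / 2 ^ c₃) * F := ⟨_, rfl⟩
  have hPd : P.totalDegree ≤ K' := by
    rw [hP]
    refine (MvPolynomial.totalDegree_mul _ _).trans ?_
    rw [MvPolynomial.totalDegree_C, zero_add]
    exact hF
  rw [← hP]
  obtain ⟨Q, hQ⟩ : ∃ Q : Pl m, Q = P - Sp K' s (Pool.MIC.rk s P) - MvPolynomial.C (MvPolynomial.coeff 0 P) :=
    ⟨_, rfl⟩
  have hQd : Q.totalDegree ≤ K' := by
    rw [hQ]
    refine (MvPolynomial.totalDegree_sub _ _).trans (max_le ?_ ?_)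
    · exact (MvPolynomial.totalDegree_sub _ _).trans (max_le hPd (Sp_deg _ _ _))
    · rw [MvPolynomial.totalDegree_C]
      exact Nat.zero_le _
  have hQc : ∀ α, |MvPolynomial.coeff α Q| ≤ 1 / 2 ^ s := by
    intro α
    rw [hQ, MvPolynomial.coeff_sub, MvPolynomial.coeff_C]
    by_cases hα : α = 0
    · subst hα
      rw [if_pos rfl, MvPolynomial.coeff_sub, coeff_Sp']
      have h4 : Pool.MIC.rk s P 0 = 0 := by
        unfold Pool.MIC.rk
        rw [if_pos rfl]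
      rw [h4]
      simp only [Int.cast_zero, zero_div, ite_self, sub_zero, sub_self, abs_zero]
      positivity
    · rw [if_neg (Ne.symm hα), sub_zero, MvPolynomial.coeff_sub]
      exact coeff_sub_Sp hPd α hα
  have h4 := (eval_ml Q hz).trans (ml_le hQd hQc)
  have h5 : MvPolynomial.eval z (Go m K' s c₃ (Pool.MIC.rk s P)) -
      (MvPolynomial.eval z F - MvPolynomial.coeff 0 F) =
      -(2 ^ c₃ * MvPolynomial.eval z Q) := by
    unfold Go
    rw [hQ]
    have e1 : MvPolynomial.eval z P = MvPolynomial.eval z F / 2 ^ c₃ := by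
      rw [hP, MvPolynomial.eval_mul, MvPolynomial.eval_C]
      ring
    have e2 : MvPolynomial.coeff 0 P = MvPolynomial.coeff 0 F / 2 ^ c₃ := by
      rw [hP, MvPolynomial.coeff_C_mul]
      ring
    simp only [map_sub, MvPolynomial.eval_mul, MvPolynomial.eval_C]
    rw [e1, e2]
    field_simp
    ring
  rw [h5, abs_neg, abs_mul, abs_of_pos h3]
  refine (mul_le_mul_of_nonneg_left h4 h3.le).trans (le_of_eq ?_)
  ring

namespace Cd

variable {k : ℕ} {D : Cd k} {K : ℕ}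

theorem zz_abs (hD : D.Ok K) (ω : D.Ω) (i : Fin (k + 1)) : |D.zz ω i| ≤ 1 := by
  unfold zz
  refine Fin.cases ?_ (fun j => ?_) i
  · rw [Fin.cons_zero]
    exact ta_abs hD ω
  · rw [Fin.cons_succ]
    exact w_abs hD ω j

/-- **The output.** -/
theorem output (hD : D.Ok K) {q : Om D K → ℝ} {θ₃ θ₄ : ℝ} {c₂ s c₃ x s' K' h' : ℕ}
    (hq : IsLaw q)
    (hdeg : ∀ u, 0 < q u → (D.Ft K c₂ s u).totalDegree ≤ K')
    (hml : ∀ u, 0 < q u → ml (D.Ft K c₂ s u) ≤ 2 ^ c₃)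
    (hfull : ((k : ℝ) + 1) * (D.X * Real.log 2) - θ₃ ≤
      CH q (fun u => (D.t u.2, D.W u.2)) (fun u => (D.n3 K c₂ s c₃ x u, (D.Ft K c₂ s u, D.Z u.2))))
    (hfew : CH q (fun u => Pool.MIC.rk s' (MvPolynomial.C (1 / 2 ^ c₃) * D.Ft K c₂ s u))
      (fun u => D.Z u.2) ≤ θ₄) (hx : c₃ + h' ≤ x) (hs : c₃ + h' ≤ s') :
    ∃ G : Om D K → Pl (k + 1), (∀ u, (G u).totalDegree ≤ K') ∧
      (∀ u α, |MvPolynomial.coeff α (G u)| ≤ 2 ^ (c₃ + 1)) ∧
      CH q G (fun u => D.Z u.2) ≤ θ₄ ∧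
      ((k : ℝ) + 1) * (D.X * Real.log 2) - (θ₃ + (4 * (((K' : ℝ) + 1) ^ (k + 1) + 1) + 2)) ≤
        CH q (fun u => (D.W u.2, D.t u.2))
          (fun u => (dg h' (D.nu u.2 - MvPolynomial.eval (D.zz u.2) (G u)), (G u, D.Z u.2))) := by
  classical
  have hq0 := hq.nonneg
  obtain ⟨f, hf⟩ : ∃ f : Om D K → (Fin (k + 1) →₀ ℕ) → ℤ, f = fun u =>
    Pool.MIC.rk s' (MvPolynomial.C (1 / 2 ^ c₃) * D.Ft K c₂ s u) := ⟨_, rfl⟩
  rw [← hf] at hfew
  obtain ⟨G, hG⟩ : ∃ G : Om D K → Pl (k + 1), G = fun u =>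
    if 0 < q u then Go (k + 1) K' s' c₃ (f u) else 0 := ⟨_, rfl⟩
  have hGu : ∀ u, 0 < q u → G u = Go (k + 1) K' s' c₃ (f u) := fun u hu => by
    rw [hG]
    simp only
    rw [if_pos hu]
  refine ⟨G, fun u => ?_, fun u α => ?_, ?_, ?_⟩
  · rw [hG]
    simp only
    split_ifs
    · exact Go_deg _
    · simp
  · rw [hG]
    simp only
    split_ifs with hu
    · have h1 : ∀ α, |MvPolynomial.coeff α (MvPolynomial.C (1 / 2 ^ c₃) * D.Ft K c₂ s u)| ≤ 1 := by
        intro α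
        rw [MvPolynomial.coeff_C_mul, abs_mul, abs_of_pos (by positivity)]
        have h2 := (coeff_le_ml (D.Ft K c₂ s u) α).trans (hml u hu)
        have h3 : (0 : ℝ) < 2 ^ c₃ := by positivity
        rw [one_div, inv_mul_le_iff₀ h3, mul_one]
        exact h2
      rw [hf]
      refine (Go_coeff h1 α).trans (le_of_eq ?_)
      ring
    · rw [MvPolynomial.coeff_zero, abs_zero]
      positivity
  · refine le_trans ?_ hfew
    refine CH_mono_left hq0 fun u u' hu hu' h => ?_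
    have h1 : f u = f u' := (Prod.ext_iff.1 h).1
    rw [hGu u hu, hGu u' hu', h1]
  · obtain ⟨N, hN⟩ : ∃ N : Om D K → ℤ, N = fun u =>
      dg h' (D.nu u.2 - MvPolynomial.eval (D.zz u.2) (G u)) := ⟨_, rfl⟩
    obtain ⟨c, hc⟩ : ∃ c : Om D K → ℤ × (Pl (k + 1) × D.ζ), c = fun u =>
      (D.n3 K c₂ s c₃ x u, (D.Ft K c₂ s u, D.Z u.2)) := ⟨_, rfl⟩
    have b1 : CH q N c ≤ 4 * (((K' : ℝ) + 1) ^ (k + 1) + 1) + 2 := by
      rw [hN]
      refine CH_nearL hq (fun u => D.nu u.2 - MvPolynomial.eval (D.zz u.2) (G u))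
        (fun u => 2 ^ c₃ * ((D.n3 K c₂ s c₃ x u : ℝ) / 2 ^ x) +
          MvPolynomial.coeff 0 (D.Ft K c₂ s u)) c ?_ (by positivity) h' ?_
      · intro u u' hu hu' h
        rw [hc] at h
        simp only [Prod.mk.injEq] at h
        simp only
        rw [h.1, h.2.1]
      · intro u hu
        have e1 := Go_near (s := s') (c₃ := c₃) (hdeg u hu) (zz_abs hD u.2)
        have e2 := dg_le x ((D.nu u.2 - MvPolynomial.eval (D.zz u.2) (D.Ft K c₂ s u)) / 2 ^ c₃)
        have h3 : (0 : ℝ) < 2 ^ c₃ := by positivity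
        have e3 := mul_le_mul_of_nonneg_left e2 h3.le
        rw [← abs_of_pos h3, ← abs_mul, abs_of_pos h3] at e3
        have e4 : 2 ^ c₃ * ((D.nu u.2 - MvPolynomial.eval (D.zz u.2) (D.Ft K c₂ s u)) / 2 ^ c₃ -
            (dg x ((D.nu u.2 - MvPolynomial.eval (D.zz u.2) (D.Ft K c₂ s u)) / 2 ^ c₃) : ℝ) /
              2 ^ x) = D.nu u.2 - MvPolynomial.eval (D.zz u.2) (D.Ft K c₂ s u) -
            2 ^ c₃ * ((D.n3 K c₂ s c₃ x u : ℝ) / 2 ^ x) := by
          unfold n3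
          field_simp
        rw [e4] at e3
        have e5 : (2 : ℝ) ^ c₃ * (1 / 2 ^ x) ≤ 1 / 2 ^ h' := by
          rw [mul_one_div, div_le_div_iff₀ (by positivity) (by positivity), one_mul, ← pow_add]
          exact pow_le_pow_right₀ (by norm_num) hx
        have e6 : ((K' : ℝ) + 1) ^ (k + 1) * 2 ^ c₃ / 2 ^ s' ≤
            ((K' : ℝ) + 1) ^ (k + 1) / 2 ^ h' := by
          rw [div_le_div_iff₀ (by positivity) (by positivity), mul_assoc, ← pow_add]
          exact mul_le_mul_of_nonneg_left (pow_le_pow_right₀ (by norm_num) hs) (by positivity)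
        rw [hGu u hu, hf]
        have e7 : D.nu u.2 - MvPolynomial.eval (D.zz u.2) (Go (k + 1) K' s' c₃
            (Pool.MIC.rk s' (MvPolynomial.C (1 / 2 ^ c₃) * D.Ft K c₂ s u))) -
            (2 ^ c₃ * ((D.n3 K c₂ s c₃ x u : ℝ) / 2 ^ x) + MvPolynomial.coeff 0 (D.Ft K c₂ s u)) =
            (D.nu u.2 - MvPolynomial.eval (D.zz u.2) (D.Ft K c₂ s u) -
              2 ^ c₃ * ((D.n3 K c₂ s c₃ x u : ℝ) / 2 ^ x)) -
            (MvPolynomial.eval (D.zz u.2) (Go (k + 1) K' s' c₃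
              (Pool.MIC.rk s' (MvPolynomial.C (1 / 2 ^ c₃) * D.Ft K c₂ s u))) -
              (MvPolynomial.eval (D.zz u.2) (D.Ft K c₂ s u) -
                MvPolynomial.coeff 0 (D.Ft K c₂ s u))) := by ring
        rw [e7, add_div]
        refine (abs_sub _ _).trans ?_
        linarith
    have b2 : CH q (fun u => (D.t u.2, D.W u.2)) c ≤
        CH q (fun u => (D.t u.2, D.W u.2)) (fun u => (N u, c u)) + CH q N c := CH_few hq0 _ _ _
    have b3 : CH q (fun u => (D.t u.2, D.W u.2)) (fun u => (N u, c u)) ≤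
        CH q (fun u => (D.W u.2, D.t u.2)) (fun u => (N u, (G u, D.Z u.2))) := by
      have b4 : CH q (fun u => (D.t u.2, D.W u.2)) (fun u => (N u, c u)) =
          CH q (fun u => (D.W u.2, D.t u.2)) (fun u => (N u, c u)) := CH_swl hq0 _ _ _
      rw [b4]
      refine CH_mono_cond hq0 fun u u' hu hu' h => ?_
      rw [hc] at h
      simp only [Prod.mk.injEq] at h ⊢
      obtain ⟨e1, e2, e3, e4⟩ := h
      refine ⟨e1, ?_, e4⟩
      rw [hGu u hu, hGu u' hu', hf]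
      simp only
      rw [e3]
    rw [← hc] at hfull
    rw [hN] at b1 b2 b3
    linarith

end Cd

end Pool.TIE
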