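import Pool.Agent.H88.TIE.Fx

/-!
# The core: the interpolated leaf
-/

set_option autoImplicit false

namespace Pool.TIE

open Finset Real
open Pool.Agent.H49.Ent Pool.Agent.H32.Dense Pool.STK Pool.BFL Pool.MIC Pool.LBL Pool.GLM
open Pool.M5 Pool.M5.L31 Pool.SLO

theorem card_Mon (k K : ℕ) : (Fintype.card (Mon k K) : ℝ) ≤ ((K : ℝ) + 1) ^ k := by
  classical
  have h1 : Fintype.card (Mon k K) ≤ (K + 1) ^ k := by
    rw [Fintype.card_coe]
    unfold Mon
    refine (Finset.card_filter_le _ _).trans (le_of_eq ?_)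
    rw [Fintype.card_piFinset, Finset.prod_const, Finset.card_range, Finset.card_univ,
      Fintype.card_fin]
  exact_mod_cast h1

theorem mono_abs {k : ℕ} (i : Fin k → ℕ) {z : Fin k → ℝ} (hz : ∀ j, |z j| ≤ 1) :
    |mono i z| ≤ 1 := by
  unfold mono
  exact prod_le_one' hz _ _

namespace Cd

variable {k : ℕ} {D : Cd k} {K : ℕ}

theorem ref_nt {u u' : Om D K} (h : D.ref K u = D.ref K u') (j : Fin (K + 1)) :
    D.nt (u.1 j) = D.nt (u'.1 j) := (Prod.ext_iff.1 (congrFun h j)).1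

theorem ref_F {u u' : Om D K} (h : D.ref K u = D.ref K u') (j : Fin (K + 1)) :
    D.F (u.1 j) = D.F (u'.1 j) := (Prod.ext_iff.1 (congrFun h j)).2

theorem phi_of {u u' : Om D K} (h : D.ref K u = D.ref K u') : D.phi K u = D.phi K u' := by
  funext i
  unfold phi
  have h1 : (fun j => D.th (u.1 j)) = fun j => D.th (u'.1 j) := by
    funext j
    exact th_of_nt (ref_nt h j)
  have h2 : (fun j => MvPolynomial.coeff (Finsupp.equivFunOnFinite.symm (i : Fin k → ℕ))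
      (D.F (u.1 j))) = fun j => MvPolynomial.coeff (Finsupp.equivFunOnFinite.symm
        (i : Fin k → ℕ)) (D.F (u'.1 j)) := by
    funext j
    rw [ref_F h j]
  rw [h1, h2]

theorem phi_deg {u : Om D K} {k₀ : ℕ} {δ : ℝ} (hA : D.Apx K k₀ δ u) (i : Mon k K) :
    (D.phi K u i).natDegree ≤ K := by
  have hinj : Function.Injective fun j => D.th (u.1 j) := inj_of_sep hA.sep
  have hd : (D.phi K u i).degree < ((K + 1 : ℕ) : WithBot ℕ) := by
    have := Lagrange.degree_interpolate_lt (s := univ) (v := fun j => D.th (u.1 j))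
      (fun j => MvPolynomial.coeff (Finsupp.equivFunOnFinite.symm (i : Fin k → ℕ))
        (D.F (u.1 j))) hinj.injOn
    rwa [Finset.card_univ, Fintype.card_fin] at this
  rcases eq_or_ne (D.phi K u i) 0 with h | h
  · rw [h]
    simp
  · rw [Polynomial.degree_eq_natDegree h] at hd
    have : (D.phi K u i).natDegree < K + 1 := by exact_mod_cast hd
    omega

theorem phi_l1 (hD : D.Ok K) {u : Om D K} {k₀ : ℕ} {δ : ℝ} (hA : D.Apx K k₀ δ u)
    (i : Mon k K) : l1 (D.phi K u i) ≤ ((K : ℝ) + 1) ^ 2 * 2 ^ (K + k₀ * K) * 2 ^ D.b := by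
  have h1 : ∀ a, |(D.phi K u i).coeff a| ≤ ((K : ℝ) + 1) * 2 ^ (K + k₀ * K) * 2 ^ D.b :=
    fun a => lag_le (fun j => th_abs (D := D) (u.1 j)) hA.sep (fun j => hD.F_cf _ _) a
  refine (l1_le (phi_deg hA i) h1).trans (le_of_eq ?_)
  ring

theorem psi_of {u u' : Om D K} (hW : D.W u.2 = D.W u'.2) (h : D.ref K u = D.ref K u') :
    D.psi K u = D.psi K u' := by
  unfold psi
  rw [phi_of h, w_of_W hW]

theorem psi_deg {u : Om D K} {k₀ : ℕ} {δ : ℝ} (hA : D.Apx K k₀ δ u) :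
    (D.psi K u).natDegree ≤ K := by
  unfold psi
  refine Polynomial.natDegree_sum_le_of_forall_le _ _ fun i _ => ?_
  exact (Polynomial.natDegree_C_mul_le _ _).trans (phi_deg hA i)

theorem psi_l1 (hD : D.Ok K) {u : Om D K} {k₀ : ℕ} {δ : ℝ} (hA : D.Apx K k₀ δ u) :
    l1 (D.psi K u) ≤ ((K : ℝ) + 1) ^ (k + 2) * 2 ^ (K + k₀ * K) * 2 ^ D.b := by
  unfold psi
  have h1 := l1_sum_le univ (fun i : Mon k K => Polynomial.C (mono (i : Fin k → ℕ) (D.w u.2)) *
    D.phi K u i) (((K : ℝ) + 1) ^ 2 * 2 ^ (K + k₀ * K) * 2 ^ D.b) (fun i _ => by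
      have h2 : l1 (Polynomial.C (mono (i : Fin k → ℕ) (D.w u.2))) ≤ 1 := by
        rw [l1_C]
        exact mono_abs _ (w_abs hD u.2)
      have h3 := l1_mul_le h2 (phi_l1 hD hA i)
      rwa [one_mul] at h3)
  refine h1.trans ?_
  rw [Finset.card_univ]
  have h2 := card_Mon k K
  have h3 : (0 : ℝ) ≤ ((K : ℝ) + 1) ^ 2 * 2 ^ (K + k₀ * K) * 2 ^ D.b := by positivity
  refine (mul_le_mul_of_nonneg_right h2 h3).trans (le_of_eq ?_)
  ring

theorem psi_eval (u : Om D K) (x : ℝ) :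
    (D.psi K u).eval x = ∑ i : Mon k K, mono (i : Fin k → ℕ) (D.w u.2) * (D.phi K u i).eval x := by
  unfold psi
  rw [Polynomial.eval_finsetSum]
  refine Finset.sum_congr rfl fun i _ => ?_
  rw [Polynomial.eval_mul, Polynomial.eval_C]

/-- The interpolated leaf is near the leaf at the sample. -/
theorem psi_apx (hD : D.Ok K) {u : Om D K} {k₀ : ℕ} {δ : ℝ} (hδ : 0 ≤ δ)
    (hA : D.Apx K k₀ δ u) :
    |(D.psi K u).eval (D.th u.2) - (MvPolynomial.eval (D.w u.2) (D.F u.2) -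
      MvPolynomial.coeff 0 (D.F u.2))| ≤ ((K : ℝ) + 1) ^ k * δ := by
  have h5 := eval_sub_zero (hD.F_deg u.2) (D.w u.2)
  have h6 : MvPolynomial.eval (0 : Fin k → ℝ) (D.F u.2) = MvPolynomial.coeff 0 (D.F u.2) := by
    rw [MvPolynomial.eval_zero]
    rfl
  rw [h6] at h5
  rw [h5, psi_eval, ← Finset.sum_sub_distrib]
  refine (Finset.abs_sum_le_sum_abs _ _).trans ?_
  have h7 : ∀ i : Mon k K, |mono (i : Fin k → ℕ) (D.w u.2) * (D.phi K u i).eval (D.th u.2) -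
      MvPolynomial.coeff (Finsupp.equivFunOnFinite.symm (i : Fin k → ℕ)) (D.F u.2) *
        mono (i : Fin k → ℕ) (D.w u.2)| ≤ δ := by
    intro i
    have e : mono (i : Fin k → ℕ) (D.w u.2) * (D.phi K u i).eval (D.th u.2) -
      MvPolynomial.coeff (Finsupp.equivFunOnFinite.symm (i : Fin k → ℕ)) (D.F u.2) *
        mono (i : Fin k → ℕ) (D.w u.2) = -(mono (i : Fin k → ℕ) (D.w u.2) *
        (MvPolynomial.coeff (Finsupp.equivFunOnFinite.symm (i : Fin k → ℕ)) (D.F u.2) -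
          (D.phi K u i).eval (D.th u.2))) := by ring
    rw [e, abs_neg, abs_mul]
    calc _ ≤ 1 * δ := mul_le_mul (mono_abs _ (w_abs hD u.2)) (hA.apx i) (abs_nonneg _) zero_le_one
      _ = δ := one_mul δ
  refine (Finset.sum_le_sum fun i _ => h7 i).trans ?_
  rw [Finset.sum_const, Finset.card_univ, nsmul_eq_mul]
  exact mul_le_mul_of_nonneg_right (card_Mon k K) hδ

theorem dif_deg (hD : D.Ok K) {u : Om D K} {k₀ c₂ : ℕ} {δ : ℝ} (hA : D.Apx K k₀ δ u) :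
    (D.dif K c₂ u).natDegree ≤ K := by
  unfold dif
  refine (Polynomial.natDegree_C_mul_le _ _).trans ?_
  exact (Polynomial.natDegree_sub_le _ _).trans (max_le (Pt_deg hD u.2) (psi_deg hA))

theorem dif_l1 (hD : D.Ok K) {u : Om D K} {k₀ c₂ : ℕ} {δ : ℝ} (hA : D.Apx K k₀ δ u)
    (hc : ((K : ℝ) + 1) ^ (k + 2) * 2 ^ (K + k₀ * K) * 2 ^ D.b + 2 ^ D.e ≤ 2 ^ c₂) :
    l1 (D.dif K c₂ u) ≤ 1 := by
  unfold dif
  have h2 : (0 : ℝ) < 2 ^ c₂ := by positivity
  have h1 : l1 (D.Pt u.2 - D.psi K u) ≤ 2 ^ c₂ :=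
    (l1_sub _ _).trans (by linarith [Pt_l1 hD u.2, psi_l1 hD hA])
  have h3 := l1_mul_le (p := Polynomial.C (1 / (2 : ℝ) ^ c₂)) (a := 1 / 2 ^ c₂)
    (by rw [l1_C, abs_of_pos (by positivity)]) h1
  refine h3.trans (le_of_eq ?_)
  field_simp

theorem dif_of (hD : D.Ok K) {u u' : Om D K} {c₂ : ℕ} (h : 0 < D.p u.2) (h' : 0 < D.p u'.2)
    (e : D.L0 u.2 = D.L0 u'.2) (e' : D.ref K u = D.ref K u') :
    D.dif K c₂ u = D.dif K c₂ u' := by
  unfold dif
  rw [Pt_of hD h h' e, psi_of (Prod.ext_iff.1 e).1 e']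

theorem dif_eval (u : Om D K) (c₂ : ℕ) (x : ℝ) : (D.dif K c₂ u).eval x =
    ((D.Pt u.2).eval x - (D.psi K u).eval x) / 2 ^ c₂ := by
  unfold dif
  rw [Polynomial.eval_mul, Polynomial.eval_C, Polynomial.eval_sub]
  ring

theorem ml_X0 : ml (MvPolynomial.X 0 : Pl 1) ≤ 1 := by
  have h : (MvPolynomial.X 0 : Pl 1) = MvPolynomial.monomial (Finsupp.single 0 1) 1 := rfl
  rw [h, ml_monomial, abs_one]

theorem kap_ml (hD : D.Ok K) {u : Om D K} {k₀ c₂ : ℕ} {δ : ℝ} (hA : D.Apx K k₀ δ u)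
    (hc : ((K : ℝ) + 1) ^ (k + 2) * 2 ^ (K + k₀ * K) * 2 ^ D.b + 2 ^ D.e ≤ 2 ^ c₂) :
    ml (D.kap K c₂ u) ≤ 1 := by
  have h1 := ml_aeval (K := K) (MvPolynomial.X 0 : Pl 1) (M := 1) le_rfl ml_X0 (D.dif K c₂ u)
    (dif_deg hD hA)
  rw [one_pow, mul_one] at h1
  exact h1.trans (dif_l1 hD hA hc)

theorem kap_deg (hD : D.Ok K) {u : Om D K} {k₀ c₂ : ℕ} {δ : ℝ} (hA : D.Apx K k₀ δ u) :
    (D.kap K c₂ u).totalDegree ≤ K := by
  have h1 := deg_aeval (K := K) (D := 1) (MvPolynomial.X 0 : Pl 1)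
    (by rw [MvPolynomial.totalDegree_X]) (D.dif K c₂ u) (dif_deg hD hA)
  rwa [mul_one] at h1

theorem kap_eval (u : Om D K) (c₂ : ℕ) (z : Fin 1 → ℝ) :
    MvPolynomial.eval z (D.kap K c₂ u) = (D.dif K c₂ u).eval (z 0) := by
  unfold kap
  rw [eval_aeval, MvPolynomial.eval_X]

theorem kap_of (hD : D.Ok K) {u u' : Om D K} {c₂ : ℕ} (h : 0 < D.p u.2) (h' : 0 < D.p u'.2)
    (e : D.L0 u.2 = D.L0 u'.2) (e' : D.ref K u = D.ref K u') :
    D.kap K c₂ u = D.kap K c₂ u' := by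
  unfold kap
  rw [dif_of hD h h' e e']

/-- The coefficients of `kap`. -/
theorem kap_coeff (u : Om D K) (c₂ j : ℕ) :
    MvPolynomial.coeff (Finsupp.single 0 j) (D.kap K c₂ u) = (D.dif K c₂ u).coeff j := by
  classical
  unfold kap
  rw [Polynomial.aeval_eq_sum_range, MvPolynomial.coeff_sum]
  have h1 : ∀ i, MvPolynomial.coeff (Finsupp.single (0 : Fin 1) j)
      ((D.dif K c₂ u).coeff i • (MvPolynomial.X 0 : Pl 1) ^ i) =
      if i = j then (D.dif K c₂ u).coeff i else 0 := by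
    intro i
    rw [MvPolynomial.coeff_smul, MvPolynomial.coeff_X_pow]
    by_cases hij : i = j
    · rw [if_pos hij, if_pos (by rw [hij])]
      simp
    · rw [if_neg hij, if_neg (fun h => hij (by
        have := DFunLike.congr_fun h 0
        simpa using this))]
      simp
  rw [Finset.sum_congr rfl fun i _ => h1 i, Finset.sum_ite_eq']
  split_ifs with h2
  · rfl
  · rw [Finset.mem_range, not_lt] at h2
    rw [Polynomial.coeff_eq_zero_of_natDegree_lt (by omega)]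

end Cd

end Pool.TIE
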